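import Mathlib

/-! Definitions used in the statement of the lower bound theorem for centrally symmetric
simplicial spheres, manifolds and normal pseudomanifolds. -/

namespace Pool.Agent.MP_d539bc_co

/-- The number of faces with exactly `k` vertices, that is `f_(k-1)`. -/
noncomputable def numFaces {V : Type} (K : AbstractSimplicialComplex V) (k : ℕ) : ℕ :=
  {s : Finset V | s ∈ K.faces ∧ s.card = k}.ncard

/-- `g_2 = f_1 - d f_0 + C(d+1,2)` for a complex of dimension `d-1`. -/
noncomputable def g2 {V : Type} (K : AbstractSimplicialComplex V) (d : ℕ) : ℤ :=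
  (numFaces K 2 : ℤ) - (d : ℤ) * (numFaces K 1 : ℤ) + ((d + 1).choose 2 : ℕ)

/-- The complex has dimension `d-1`: the largest faces have `d` vertices. -/
def HasDim {V : Type} (K : AbstractSimplicialComplex V) (d : ℕ) : Prop :=
  (∀ s ∈ K.faces, s.card ≤ d) ∧ ∃ s ∈ K.faces, s.card = d

/-- Central symmetry: a simplicial involution fixing no nonempty face. -/
def IsCS {V : Type} [DecidableEq V] (K : AbstractSimplicialComplex V) : Prop :=
  ∃ φ : V → V, (∀ v, φ (φ v) = v) ∧ ∀ s ∈ K.faces, s.image φ ∈ K.faces ∧ s.image φ ≠ s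

/-- The geometric realisation, in barycentric coordinates. -/
def realization {V : Type} [Fintype V] (K : AbstractSimplicialComplex V) : Set (V → ℝ) :=
  {x | (∀ v, 0 ≤ x v) ∧ ∑ v, x v = 1 ∧ ∃ s ∈ K.faces, ∀ v, v ∉ s → x v = 0}

/-- Simplicial sphere: the realisation is homeomorphic to a sphere. -/
def IsSphere {V : Type} [Fintype V] (K : AbstractSimplicialComplex V) : Prop :=
  ∃ m : ℕ, Nonempty (realization K ≃ₜ Metric.sphere (0 : EuclideanSpace ℝ (Fin (m + 1))) 1)

/-- Connected simplicial manifold: the realisation is connected and locally Euclidean. -/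
def IsConnManifold {V : Type} [Fintype V] (K : AbstractSimplicialComplex V) : Prop :=
  IsConnected (realization K) ∧
    ∃ m : ℕ, Nonempty (ChartedSpace (EuclideanSpace ℝ (Fin m)) (realization K))

/-- The link of `s` is connected (for `s = ∅` this says that the complex is connected). -/
def LinkConnected {V : Type} [DecidableEq V] (K : AbstractSimplicialComplex V) (s : Finset V) :
    Prop :=
  ∀ a b, a ∉ s → b ∉ s → insert a s ∈ K.faces → insert b s ∈ K.faces →
    Relation.ReflTransGen (fun x y => x ∉ s ∧ y ∉ s ∧ insert x (insert y s) ∈ K.faces) a b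

/-- Normal pseudomanifold of dimension `d-1`. -/
def IsNormalPM {V : Type} [DecidableEq V] (K : AbstractSimplicialComplex V) (d : ℕ) : Prop :=
  (∀ s ∈ K.faces, ∃ t ∈ K.faces, s ⊆ t ∧ t.card = d) ∧
  LinkConnected K ∅ ∧
  (∀ s ∈ K.faces, s.card + 1 = d → {t | t ∈ K.faces ∧ t.card = d ∧ s ⊆ t}.ncard = 2) ∧
  ∀ s ∈ K.faces, s.card + 2 ≤ d → LinkConnected K s

/-- The hyperplane `f = c` supports the point set `P` and meets it exactly in `F`. -/
def Supports {d : ℕ} (P : Set (Fin d → ℝ)) (f : (Fin d → ℝ) →ₗ[ℝ] ℝ) (c : ℝ)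
    (F : Set (Fin d → ℝ)) : Prop :=
  f ≠ 0 ∧ (∀ x ∈ P, f x ≤ c) ∧ F = {x | x ∈ P ∧ f x = c}

/-- `F` is the vertex set of a nonempty proper face of the polytope with vertex set `P`. -/
def IsFace {d : ℕ} (P F : Set (Fin d → ℝ)) : Prop :=
  F.Nonempty ∧ ∃ f c, Supports P f c F

/-- Facets are the maximal proper faces. -/
def IsFacet {d : ℕ} (P F : Set (Fin d → ℝ)) : Prop :=
  IsFace P F ∧ ∀ G, IsFace P G → F ⊆ G → G = F

/-- Vertex sets of the polytopes obtained from the cross polytope by symmetric stacking. -/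
inductive SymStacked (d : ℕ) : Set (Fin d → ℝ) → Prop
  | cross : SymStacked d {x | ∃ i, x = Pi.single i 1 ∨ x = -Pi.single i 1}
  | stack (P F : Set (Fin d → ℝ)) (v : Fin d → ℝ) : SymStacked d P → IsFacet P F →
      (∀ f c, Supports P f c F → c < f v) →
      (∀ G f c, IsFacet P G → G ≠ F → Supports P f c G → f v < c) →
      SymStacked d (insert v (insert (-v) P))

/-- The complex is the boundary complex of a symmetrically stacked polytope. -/
def IsStackedBoundary {V : Type} (K : AbstractSimplicialComplex V) (d : ℕ) : Prop :=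
  ∃ P, SymStacked d P ∧ ∃ e : V → (Fin d → ℝ), Function.Injective e ∧ Set.range e = P ∧
    ∀ s : Finset V, s ∈ K.faces ↔ IsFace P (e '' (s : Set V))

end Pool.Agent.MP_d539bc_co
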