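import Pool.Agent.MP_d539bc_co.Chart
import Pool.Agent.MP_d539bc_co.Defs

/-! Triangulated connected manifolds are strongly connected pseudomanifolds. -/

namespace Pool.Agent.MP_d539bc_co

open Metric Set Module Topology Filter

variable {V : Type} [Fintype V] [DecidableEq V]

structure PM (K : AbstractSimplicialComplex V) (d : ℕ) : Prop where
  pure : ∀ s ∈ K.faces, ∃ t ∈ K.faces, s ⊆ t ∧ t.card = d
  ridge : ∀ R ∈ K.faces, R.card + 1 = d → ∃ z1 z2, z1 ≠ z2 ∧ z1 ∉ R ∧ z2 ∉ R ∧
    insert z1 R ∈ K.faces ∧ insert z2 R ∈ K.faces ∧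
    ∀ z, z ∉ R → insert z R ∈ K.faces → z = z1 ∨ z = z2
  strong : ∀ S : Finset V → Prop, (∀ (R : Finset V) z z', R.card + 1 = d → z ∉ R → z' ∉ R →
    insert z R ∈ K.faces → insert z' R ∈ K.faces → S (insert z R) → S (insert z' R)) →
    ∀ F ∈ K.faces, ∀ F' ∈ K.faces, F.card = d → F'.card = d → S F → S F'

omit [Fintype V] [DecidableEq V] in
lemma face_down {K : AbstractSimplicialComplex V} {s t : Finset V} (hs : s ∈ K.faces) (h : t ⊆ s)
    (ht : t.Nonempty) : t ∈ K.faces := (K.isRelLowerSet_faces hs).2 h ht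

omit [Fintype V] [DecidableEq V] in
lemma face_nonempty {K : AbstractSimplicialComplex V} {s : Finset V} (hs : s ∈ K.faces) :
    s.Nonempty := (K.isRelLowerSet_faces hs).1

noncomputable def bary (s : Finset V) : V → ℝ := fun v => if v ∈ s then (s.card : ℝ)⁻¹ else 0

def Sx (s : Finset V) : Set (V → ℝ) := {y | (∀ v, 0 ≤ y v) ∧ ∑ v, y v = 1 ∧ ∀ v, v ∉ s → y v = 0}

def Nb (s : Finset V) : Set (V → ℝ) := {y | ∀ v ∈ s, 0 < y v}

omit [DecidableEq V] in
lemma isClosed_Sx (s : Finset V) : IsClosed (Sx s) := by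
  simp only [Sx, ofPred_and, ofPred_forall]
  refine (isClosed_iInter (fun v => isClosed_le continuous_const (continuous_apply v))).inter
    ((isClosed_eq (by fun_prop) continuous_const).inter
      (isClosed_iInter (fun v => isClosed_iInter (fun _ =>
        isClosed_eq (continuous_apply v) continuous_const))))

omit [Fintype V] [DecidableEq V] in
lemma isOpen_Nb (s : Finset V) : IsOpen (Nb s) := by
  simp only [Nb, ofPred_forall]
  exact isOpen_biInter_finset (fun v _ => isOpen_lt continuous_const (continuous_apply v))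

omit [Fintype V] in
lemma bary_pos {s : Finset V} {v : V} (hv : v ∈ s) : 0 < bary s v := by
  have : 0 < s.card := Finset.card_pos.2 ⟨v, hv⟩
  simp [bary, hv, this]

omit [Fintype V] in
lemma bary_zero {s : Finset V} {v : V} (hv : v ∉ s) : bary s v = 0 := by simp [bary, hv]

omit [Fintype V] in
lemma bary_mem_Nb (s : Finset V) : bary s ∈ Nb s := fun _ hv => bary_pos hv

lemma bary_mem_Sx {s : Finset V} (hs : s.Nonempty) : bary s ∈ Sx s := by
  refine ⟨fun v => ?_, ?_, fun v hv => bary_zero hv⟩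
  · by_cases hv : v ∈ s
    · exact (bary_pos hv).le
    · rw [bary_zero hv]
  · have : (s.card : ℝ) ≠ 0 := by exact_mod_cast (Finset.card_pos.2 hs).ne'
    simp [bary, Finset.sum_ite_mem, this]

omit [DecidableEq V] in
lemma mem_real {K : AbstractSimplicialComplex V} {y : V → ℝ} :
    y ∈ realization K ↔ ∃ s ∈ K.faces, y ∈ Sx s := by
  simp only [realization, Sx, mem_ofPred_eq]
  constructor
  · rintro ⟨h1, h2, s, hs, h3⟩; exact ⟨s, hs, h1, h2, h3⟩
  · rintro ⟨s, hs, h1, h2, h3⟩; exact ⟨h1, h2, s, hs, h3⟩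

omit [DecidableEq V] in
lemma sub_of_Nb {s t : Finset V} {y : V → ℝ} (h1 : y ∈ Nb s) (h2 : y ∈ Sx t) : s ⊆ t := by
  intro v hv
  by_contra h
  exact (h1 v hv).ne' (h2.2.2 v h)

omit [DecidableEq V] in
lemma Sx_mono {s t : Finset V} (h : s ⊆ t) : Sx s ⊆ Sx t :=
  fun _ hy => ⟨hy.1, hy.2.1, fun v hv => hy.2.2 v (fun h' => hv (h h'))⟩

omit [DecidableEq V] in
lemma Sx_convex {s : Finset V} {y y' : V → ℝ} (h : y ∈ Sx s) (h' : y' ∈ Sx s) {t : ℝ}
    (h0 : 0 ≤ t) (h1 : t ≤ 1) : (1 - t) • y + t • y' ∈ Sx s := by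
  refine ⟨fun v => ?_, ?_, fun v hv => by simp [h.2.2 v hv, h'.2.2 v hv]⟩
  · have := h.1 v
    have := h'.1 v
    have : 0 ≤ 1 - t := by linarith
    simp only [Pi.add_apply, Pi.smul_apply, smul_eq_mul]
    positivity
  · simp [Finset.sum_add_distrib, ← Finset.mul_sum, h.2.1, h'.2.1]

omit [Fintype V] [DecidableEq V] in
lemma tendsto_seg (y y' : V → ℝ) :
    Tendsto (fun t : ℝ => (1 - t) • y + t • y') (𝓝[>] 0) (𝓝 y) := by
  apply Tendsto.mono_left _ nhdsWithin_le_nhds
  have : Continuous (fun t : ℝ => (1 - t) • y + t • y') := by fun_prop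
  simpa using this.tendsto 0

lemma injOn_restr (t : Finset V) (s0 : V) :
    InjOn (fun (y : V → ℝ) (v : t.erase s0) => y v) (Sx t) := by
  intro y hy y' hy' h
  have h1 : ∀ v, v ≠ s0 → y v = y' v := by
    intro v hv
    by_cases hvt : v ∈ t
    · exact congrFun h ⟨v, Finset.mem_erase.2 ⟨hv, hvt⟩⟩
    · rw [hy.2.2 v hvt, hy'.2.2 v hvt]
  funext v
  by_cases hv : v = s0
  · have e1 := hy.2.1
    have e2 := hy'.2.1
    rw [← Finset.add_sum_erase _ _ (Finset.mem_univ s0)] at e1 e2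
    rw [Finset.sum_congr rfl (fun v hv => h1 v (Finset.ne_of_mem_erase hv))] at e1
    rw [hv]; linarith
  · exact h1 v hv

lemma out_gen {K : AbstractSimplicialComplex V} {m : ℕ} {s t : Finset V}
    (hc : LC (realization K) m (bary s)) (ht : ∀ t' ∈ K.faces, s ⊆ t' → t' ⊆ t) {s0 : V}
    (hs0 : s0 ∈ t) : m + 1 ≤ t.card ∧ (m + 1 = t.card →
      (fun (y : V → ℝ) (v : t.erase s0) => y v) '' realization K ∈
        𝓝 (fun v : t.erase s0 => bary s v)) := by
  have := hc.out (π := fun (y : V → ℝ) (v : t.erase s0) => y v) (by fun_prop)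
    ((isOpen_Nb s).mem_nhds (bary_mem_Nb s)) ((injOn_restr t s0).mono (by
      rintro y ⟨h1, h2⟩
      obtain ⟨t', ht', h3⟩ := mem_real.1 h1
      exact Sx_mono (ht t' ht' (sub_of_Nb h2 h3)) h3))
  have e := Finset.card_erase_add_one hs0
  simp only [finrank_fintype_fun_eq_card, Fintype.card_coe] at this
  exact ⟨by omega, fun h => this.2 (by omega)⟩

lemma into_gen {K : AbstractSimplicialComplex V} {m : ℕ} {s : Finset V}
    (hc : LC (realization K) m (bary s)) {s0 : V} (hs0 : s0 ∈ s) {ι : Type} [Fintype ι]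
    {ω : (ι → ℝ) → (V → ℝ)} (hω : Continuous ω) (hinj : Function.Injective ω) (h0 : ω 0 = 0)
    (h1 : ∀ w, ω w s0 = 0) (h2 : ∀ w v, v ∉ s → 0 ≤ ω w v)
    (h3 : ∀ w, ∃ t ∈ K.faces, s ⊆ t ∧ ∀ v, v ∉ t → ω w v = 0) :
    Fintype.card ι ≤ m ∧ (Fintype.card ι = m →
      ∀ᶠ y in 𝓝[realization K] (bary s), ∃ w, ∀ v, v ∉ s → y v = ω w v) := by
  let ρ : (ι → ℝ) → (V → ℝ) := fun w => bary s + ω w - (∑ v, ω w v) • Pi.single s0 1
  have hρ : Continuous ρ := by fun_prop
  have hρv : ∀ w v, v ≠ s0 → ρ w v = bary s v + ω w v := by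
    intro w v hv; simp [ρ, hv]
  have hρ0 : ρ 0 = bary s := by simp [ρ, h0]
  have := hc.into hρ (by
    intro w w' h
    apply hinj
    funext v
    by_cases hv : v = s0
    · rw [hv, h1, h1]
    · have := congrFun h v
      rw [hρv w v hv, hρv w' v hv] at this
      linarith) hρ0 (by
    have : ρ ⁻¹' Nb s ∈ 𝓝 0 := hρ.continuousAt.preimage_mem_nhds
      (by rw [hρ0]; exact (isOpen_Nb s).mem_nhds (bary_mem_Nb s))
    filter_upwards [this] with w hw
    obtain ⟨t, ht, hst, ht'⟩ := h3 w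
    refine mem_real.2 ⟨t, ht, fun v => ?_, ?_, fun v hv => ?_⟩
    · by_cases hv : v ∈ s
      · exact (hw v hv).le
      · rw [hρv w v (fun e => hv (e ▸ hs0)), bary_zero hv, zero_add]; exact h2 w v hv
    · simp [ρ, Finset.sum_add_distrib, (bary_mem_Sx ⟨s0, hs0⟩).2.1, Pi.single_apply]
    · rw [hρv w v (fun e => hv (e ▸ hst hs0)), bary_zero (fun h => hv (hst h)), ht' v hv, zero_add])
  simp only [finrank_fintype_fun_eq_card] at this
  refine ⟨this.1, fun h => ?_⟩
  filter_upwards [this.2 h] with y hy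
  obtain ⟨w, rfl⟩ := hy
  exact ⟨w, fun v hv => by rw [hρv w v (fun e => hv (e ▸ hs0)), bary_zero hv, zero_add]⟩

lemma bary_mem_real {K : AbstractSimplicialComplex V} {s : Finset V} (hs : s ∈ K.faces) :
    bary s ∈ realization K := mem_real.2 ⟨s, hs, bary_mem_Sx (face_nonempty hs)⟩

lemma card_le_of_lc {K : AbstractSimplicialComplex V} {m : ℕ} {s : Finset V} (hs : s ∈ K.faces)
    (hc : LC (realization K) m (bary s)) : s.card ≤ m + 1 := by
  obtain ⟨s0, hs0⟩ := face_nonempty hs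
  have := (into_gen hc hs0 (ι := s.erase s0)
    (ω := fun w v => if h : v ∈ s.erase s0 then w ⟨v, h⟩ else 0)
    (continuous_pi (fun v => by split_ifs <;> fun_prop))
    (fun w w' h => by funext v; simpa [v.2] using congrFun h v)
    (by funext v; simp) (by simp) (fun w v hv => by simp [hv])
    (fun w => ⟨s, hs, subset_rfl, fun v hv => by simp [hv]⟩)).1
  have e := Finset.card_erase_add_one hs0
  simp only [Fintype.card_coe] at this
  omega

omit [DecidableEq V] in
lemma exists_max_face {K : AbstractSimplicialComplex V} {s : Finset V} (hs : s ∈ K.faces) :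
    ∃ t ∈ K.faces, s ⊆ t ∧ ∀ t' ∈ K.faces, t ⊆ t' → t' ⊆ t := by
  obtain ⟨t, ht, hmax⟩ := (Set.toFinite K.faces).exists_le_maximal hs
  exact ⟨t, hmax.1, ht, fun t' h1 h2 => hmax.2 h1 h2⟩

section main

variable {K : AbstractSimplicialComplex V} {m d : ℕ}
  (hc : ∀ x ∈ realization K, LC (realization K) m x) (hdim : HasDim K d)
include hc hdim

lemma pure_of_lc : m + 1 = d ∧ ∀ s ∈ K.faces, ∃ t ∈ K.faces, s ⊆ t ∧ t.card = d := by
  obtain ⟨F, hF, hFc⟩ := hdim.2
  have h1 := card_le_of_lc hF (hc _ (bary_mem_real hF))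
  have key : ∀ s ∈ K.faces, ∃ t ∈ K.faces, s ⊆ t ∧ m + 1 ≤ t.card := by
    intro s hs
    obtain ⟨t, ht, hst, hmax⟩ := exists_max_face hs
    obtain ⟨s0, hs0⟩ := face_nonempty ht
    exact ⟨t, ht, hst, (out_gen (hc _ (bary_mem_real ht)) hmax hs0).1⟩
  obtain ⟨t, ht, -, h2⟩ := key F hF
  have h3 := hdim.1 t ht
  refine ⟨by omega, fun s hs => ?_⟩
  obtain ⟨t, ht, hst, h2⟩ := key s hs
  have h3 := hdim.1 t ht
  exact ⟨t, ht, hst, by omega⟩

lemma ridge_two {R : Finset V} (hR : R ∈ K.faces) (hRc : R.card + 1 = d) {z : V} (hz : z ∉ R) :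
    ∃ z', z' ≠ z ∧ z' ∉ R ∧ insert z' R ∈ K.faces := by
  by_contra hcon
  push Not at hcon
  obtain ⟨s0, hs0⟩ := face_nonempty hR
  have h1 := (out_gen (hc _ (bary_mem_real hR)) (t := insert z R) (fun t ht hRt v hv => by
    by_contra hv'
    rw [Finset.mem_insert, not_or] at hv'
    exact hcon v hv'.1 hv'.2 (face_down ht (Finset.insert_subset hv hRt)
      (Finset.insert_nonempty _ _))) (Finset.mem_insert_of_mem hs0)).2
    (by rw [Finset.card_insert_of_notMem hz, hRc, (pure_of_lc hc hdim).1])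
  let j : (insert z R).erase s0 :=
    ⟨z, Finset.mem_erase.2 ⟨fun e => hz (e ▸ hs0), Finset.mem_insert_self _ _⟩⟩
  have h2 : Tendsto (fun t : ℝ => (fun v : (insert z R).erase s0 => bary R v) - t • Pi.single j 1)
      (𝓝[>] 0) (𝓝 (fun v : (insert z R).erase s0 => bary R v)) := by
    apply Tendsto.mono_left _ nhdsWithin_le_nhds
    have : Continuous (fun t : ℝ =>
      (fun v : (insert z R).erase s0 => bary R v) - t • (Pi.single j 1 : _ → ℝ)) := by fun_prop
    simpa using this.tendsto 0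
  obtain ⟨t, ⟨y, hy, e⟩, ht⟩ := ((h2.eventually h1).and self_mem_nhdsWithin).exists
  have h3 := congrFun e j
  have h4 := hy.1 z
  simp [j, bary_zero hz] at h3
  have : 0 < t := ht
  linarith

lemma ridge_not_three {R : Finset V} (hR : R ∈ K.faces) (hRc : R.card + 1 = d) {z1 z2 z3 : V}
    (h1 : z1 ∉ R) (h2 : z2 ∉ R) (h3 : z3 ∉ R) (h12 : z1 ≠ z2) (h31 : z3 ≠ z1) (h32 : z3 ≠ z2)
    (f1 : insert z1 R ∈ K.faces) (f2 : insert z2 R ∈ K.faces) (f3 : insert z3 R ∈ K.faces) :
    False := by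
  obtain ⟨s0, hs0⟩ := face_nonempty hR
  let j : R := ⟨s0, hs0⟩
  have n1 : z1 ∉ R.erase s0 := fun h => h1 (Finset.mem_of_mem_erase h)
  have n2 : z2 ∉ R.erase s0 := fun h => h2 (Finset.mem_of_mem_erase h)
  have n3 : z3 ∉ R.erase s0 := fun h => h3 (Finset.mem_of_mem_erase h)
  have e1 : s0 ≠ z1 := fun e => h1 (e ▸ hs0)
  have e2 : s0 ≠ z2 := fun e => h2 (e ▸ hs0)
  have := (into_gen (hc _ (bary_mem_real hR)) hs0 (ι := R)
    (ω := fun w v => if h : v ∈ R.erase s0 then w ⟨v, Finset.mem_of_mem_erase h⟩ else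
      if v = z1 then max (w j) 0 else if v = z2 then max (-w j) 0 else 0)
    (continuous_pi (fun v => by split_ifs <;> fun_prop))
    (fun w w' h => by
      funext v
      by_cases hv : v = j
      · have a1 := congrFun h z1
        have a2 := congrFun h z2
        simp only [n1, n2, dif_neg, not_false_iff, if_true, h12.symm, if_false] at a1 a2
        rw [hv, ← max_zero_sub_max_neg_zero_eq_self (w j), a1, a2,
          max_zero_sub_max_neg_zero_eq_self]
      · have hv' : (v : V) ∈ R.erase s0 :=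
          Finset.mem_erase.2 ⟨fun e => hv (Subtype.ext e), v.2⟩
        simpa only [hv', dif_pos] using congrFun h v)
    (by funext v; simp) (by simp [e1, e2])
    (fun w v hv => by
      have : v ∉ R.erase s0 := fun h => hv (Finset.mem_of_mem_erase h)
      simp only [this, dif_neg, not_false_iff]
      split_ifs <;> simp)
    (fun w => by
      rcases le_total 0 (w j) with h | h
      · refine ⟨_, f1, Finset.subset_insert _ _, fun v hv => ?_⟩
        rw [Finset.mem_insert, not_or] at hv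
        have : v ∉ R.erase s0 := fun h => hv.2 (Finset.mem_of_mem_erase h)
        simp only [this, dif_neg, not_false_iff, hv.1, if_false]
        split_ifs <;> simp [h]
      · refine ⟨_, f2, Finset.subset_insert _ _, fun v hv => ?_⟩
        rw [Finset.mem_insert, not_or] at hv
        have : v ∉ R.erase s0 := fun h => hv.2 (Finset.mem_of_mem_erase h)
        simp only [this, dif_neg, not_false_iff, hv.1, if_false]
        split_ifs <;> simp [h])).2
    (by have := (pure_of_lc hc hdim).1; simp only [Fintype.card_coe]; omega)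
  have hlt : ∀ᶠ t : ℝ in 𝓝[>] 0, t < 1 := nhdsWithin_le_nhds (Iio_mem_nhds one_pos)
  have ht : Tendsto (fun t : ℝ => (1 - t) • bary R + t • bary (insert z3 R)) (𝓝[>] 0)
      (𝓝[realization K] (bary R)) := by
    apply tendsto_nhdsWithin_of_tendsto_nhds_of_eventually_within _ (tendsto_seg _ _)
    filter_upwards [hlt, self_mem_nhdsWithin] with t h1 h0
    exact mem_real.2 ⟨_, f3, Sx_convex (Sx_mono (Finset.subset_insert _ _) (bary_mem_Sx ⟨s0, hs0⟩))
      (bary_mem_Sx (Finset.insert_nonempty _ _)) (le_of_lt h0) h1.le⟩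
  obtain ⟨t, ⟨w, hw⟩, ht0⟩ := ((ht.eventually this).and self_mem_nhdsWithin).exists
  have h4 := hw z3 h3
  have h5 : 0 < t := ht0
  have h6 := bary_pos (Finset.mem_insert_self z3 R)
  simp only [n3, dif_neg, not_false_iff, h31, h32, if_false, Pi.add_apply, Pi.smul_apply,
    bary_zero h3, smul_eq_mul, mul_zero, zero_add] at h4
  exact (mul_pos h5 h6).ne' h4

theorem pm_of_lc (hd : 2 ≤ d) (hconn : IsPreconnected (realization K)) : PM K d := by
  obtain ⟨hm, hpure⟩ := pure_of_lc hc hdim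
  refine ⟨hpure, fun R hR hRc => ?_, ?_⟩
  · obtain ⟨t, ht, hRt, htc⟩ := hpure R hR
    obtain ⟨z1, hz1, hz1'⟩ : ∃ z ∈ t, z ∉ R := Finset.exists_mem_notMem_of_card_lt_card (by omega)
    have f1 := face_down ht (Finset.insert_subset hz1 hRt) (Finset.insert_nonempty _ _)
    obtain ⟨z2, h21, hz2, f2⟩ := ridge_two hc hdim hR hRc hz1'
    refine ⟨z1, z2, h21.symm, hz1', hz2, f1, f2, fun z hz f3 => ?_⟩
    by_contra h
    push Not at h
    exact ridge_not_three hc hdim hR hRc hz1' hz2 hz h21.symm h.1 h.2 f1 f2 f3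
  intro S hS F hF F' hF' hFc hFc' hSF
  by_contra hSF'
  let U : (Finset V → Prop) → Set (V → ℝ) := fun P =>
    ⋃ t ∈ {t | t ∈ K.faces ∧ t.card = d ∧ P t}, Sx t
  have hU : ∀ P y, y ∈ U P ↔ ∃ t, (t ∈ K.faces ∧ t.card = d ∧ P t) ∧ y ∈ Sx t := by
    intro P y; simp only [U, mem_iUnion, exists_prop]; rfl
  have hUc : ∀ P, IsClosed (U P) := fun P =>
    (Set.toFinite _).isClosed_biUnion (fun t _ => isClosed_Sx t)
  have hcov : realization K ⊆ U S ∪ U (fun t => ¬ S t) := by
    intro y hy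
    obtain ⟨s, hs, hy⟩ := mem_real.1 hy
    obtain ⟨t, ht, hst, htc⟩ := hpure s hs
    by_cases h : S t
    · exact Or.inl ((hU _ _).2 ⟨t, ⟨ht, htc, h⟩, Sx_mono hst hy⟩)
    · exact Or.inr ((hU _ _).2 ⟨t, ⟨ht, htc, h⟩, Sx_mono hst hy⟩)
  obtain ⟨x, hx, hx1, hx2⟩ := isPreconnected_closed_iff.1 hconn _ _ (hUc _) (hUc _) hcov
    ⟨_, bary_mem_real hF, (hU _ _).2 ⟨F, ⟨hF, hFc, hSF⟩, bary_mem_Sx (face_nonempty hF)⟩⟩
    ⟨_, bary_mem_real hF', (hU _ _).2 ⟨F', ⟨hF', hFc', hSF'⟩, bary_mem_Sx (face_nonempty hF')⟩⟩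
  have hcl : ∀ P Q : Finset V → Prop, (∀ t, P t → ¬ Q t) → x ∈ U P →
      x ∈ closure (realization K \ U Q) := by
    intro P Q hPQ hxP
    obtain ⟨s, ⟨hs, hsc, hPs⟩, hxs⟩ := (hU _ _).1 hxP
    apply mem_closure_of_tendsto (tendsto_seg x (bary s))
    have hlt : ∀ᶠ t : ℝ in 𝓝[>] 0, t < 1 := nhdsWithin_le_nhds (Iio_mem_nhds one_pos)
    filter_upwards [hlt, self_mem_nhdsWithin] with t h1 h0
    have h0 : 0 < t := h0
    refine ⟨mem_real.2 ⟨s, hs, Sx_convex hxs (bary_mem_Sx (face_nonempty hs)) h0.le h1.le⟩, ?_⟩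
    intro h
    obtain ⟨s', ⟨-, hsc', hQs⟩, hy⟩ := (hU _ _).1 h
    have : s ⊆ s' := sub_of_Nb (fun v hv => by
      have := hxs.1 v
      have := bary_pos hv
      have : 0 ≤ 1 - t := by linarith
      simp only [Pi.add_apply, Pi.smul_apply, smul_eq_mul]
      positivity) hy
    rw [← Finset.eq_of_subset_of_card_le this (by omega)] at hQs
    exact hPQ s hPs hQs
  refine (hc x hx).nosep (by omega) (hUc _) (hUc _) hcov ?_
    (hcl _ _ (fun t h => h) hx2) (hcl _ _ (fun t h => not_not.2 h) hx1)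
  rintro y ⟨hy1, hy2⟩
  obtain ⟨s, ⟨hs, hsc, hPs⟩, hys⟩ := (hU _ _).1 hy1
  obtain ⟨s', ⟨hs', hsc', hPs'⟩, hys'⟩ := (hU _ _).1 hy2
  refine ⟨s ∩ s', ?_, hys.2.1, fun v hv => ?_⟩
  · by_contra hlt
    push Not at hlt
    have hne : s ≠ s' := fun e => hPs' (e ▸ hPs)
    obtain ⟨z, hz, hz'⟩ : ∃ z ∈ s, z ∉ s' := by
      by_contra h
      push Not at h
      exact hne (Finset.eq_of_subset_of_card_le h (by omega))
    obtain ⟨z', hw, hw'⟩ : ∃ z ∈ s', z ∉ s := by
      by_contra h
      push Not at h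
      exact hne (Finset.eq_of_subset_of_card_le h (by omega)).symm
    have a1 : z ∉ s ∩ s' := fun h => hz' (Finset.mem_inter.1 h).2
    have a2 : z' ∉ s ∩ s' := fun h => hw' (Finset.mem_inter.1 h).1
    have b1 : insert z (s ∩ s') = s := Finset.eq_of_subset_of_card_le
      (Finset.insert_subset hz Finset.inter_subset_left)
      (by rw [Finset.card_insert_of_notMem a1]; omega)
    have b2 : insert z' (s ∩ s') = s' := Finset.eq_of_subset_of_card_le
      (Finset.insert_subset hw Finset.inter_subset_right)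
      (by rw [Finset.card_insert_of_notMem a2]; omega)
    have := hS (s ∩ s') z z' (by rw [← Finset.card_insert_of_notMem a1, b1, hsc]) a1 a2
      (by rwa [b1]) (by rwa [b2]) (by rwa [b1])
    rw [b2] at this
    exact hPs' this
  · rw [Finset.mem_inter, not_and_or] at hv
    exact hv.elim (hys.2.2 v) (hys'.2.2 v)

end main

theorem pm_of_manifold {K : AbstractSimplicialComplex V} {d : ℕ} (hd : 2 ≤ d) (hdim : HasDim K d)
    (h : IsConnManifold K) : PM K d := by
  obtain ⟨h1, m, ⟨c⟩⟩ := h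
  exact pm_of_lc (fun x hx => lc_of_charted c hx) hdim hd h1.isPreconnected

theorem pm_of_sphere {K : AbstractSimplicialComplex V} {d : ℕ} (hd : 2 ≤ d) (hdim : HasDim K d)
    (h : IsSphere K) : PM K d := by
  obtain ⟨m, ⟨e⟩⟩ := h
  have c : ChartedSpace (Eu m) (realization K) := e.symm.chartedSpace
  have hc : ∀ x ∈ realization K, LC (realization K) m x := fun x hx => lc_of_charted c hx
  have hm := (pure_of_lc hc hdim).1
  refine pm_of_lc hc hdim hd ?_
  have h1 : IsPreconnected (sphere (0 : EuclideanSpace ℝ (Fin (m + 1))) 1) := by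
    apply isPreconnected_sphere
    rw [← finrank_eq_rank, finrank_euclideanSpace_fin]
    exact_mod_cast (by omega : 1 < m + 1)
  rw [isPreconnected_iff_preconnectedSpace] at h1 ⊢
  exact e.symm.surjective.denseRange.preconnectedSpace e.symm.continuous

omit [Fintype V] in
theorem pm_of_normal {K : AbstractSimplicialComplex V} {d : ℕ} (hd : 2 ≤ d)
    (h : IsNormalPM K d) : PM K d := by
  obtain ⟨hpure, hconn, hridge, hlink⟩ := h
  have hins : ∀ {R t : Finset V}, R.card + 1 = d → t.card = d → R ⊆ t →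
      ∃ z, z ∉ R ∧ t = insert z R := by
    intro R t h1 h2 h3
    obtain ⟨z, hz, hz'⟩ : ∃ z ∈ t, z ∉ R := Finset.exists_mem_notMem_of_card_lt_card (by omega)
    exact ⟨z, hz', (Finset.eq_of_subset_of_card_le (Finset.insert_subset hz h3)
      (by rw [Finset.card_insert_of_notMem hz']; omega)).symm⟩
  refine ⟨hpure, fun R hR hRc => ?_, ?_⟩
  · obtain ⟨t1, t2, hne, ht⟩ := Set.ncard_eq_two.1 (hridge R hR hRc)
    have m1 : t1 ∈ {t | t ∈ K.faces ∧ t.card = d ∧ R ⊆ t} := by rw [ht]; simp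
    have m2 : t2 ∈ {t | t ∈ K.faces ∧ t.card = d ∧ R ⊆ t} := by rw [ht]; simp
    obtain ⟨z1, hz1, rfl⟩ := hins hRc m1.2.1 m1.2.2
    obtain ⟨z2, hz2, rfl⟩ := hins hRc m2.2.1 m2.2.2
    refine ⟨z1, z2, fun e => hne (by rw [e]), hz1, hz2, m1.1, m2.1, fun z hz hf => ?_⟩
    have m3 : insert z R ∈ {t | t ∈ K.faces ∧ t.card = d ∧ R ⊆ t} :=
      ⟨hf, by rw [Finset.card_insert_of_notMem hz, hRc], Finset.subset_insert _ _⟩
    rw [ht] at m3
    have hz' := Finset.mem_insert_self z R
    rcases m3 with e | e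
    · rw [e] at hz'; exact Or.inl ((Finset.mem_insert.1 hz').resolve_right hz)
    · rw [Set.mem_singleton_iff.1 e] at hz'
      exact Or.inr ((Finset.mem_insert.1 hz').resolve_right hz)
  intro S hS
  have key : ∀ n, ∀ σ : Finset V, σ.card + 1 + n = d → ∀ F ∈ K.faces, ∀ F' ∈ K.faces,
      F.card = d → F'.card = d → σ ⊆ F → σ ⊆ F' → S F → S F' := by
    intro n
    induction n with
    | zero =>
      intro σ hσ F hF F' hF' hc hc' h1 h2 hSF
      obtain ⟨z, hz, rfl⟩ := hins hσ hc h1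
      obtain ⟨z', hz', rfl⟩ := hins hσ hc' h2
      exact hS σ z z' hσ hz hz' hF hF' hSF
    | succ n ih =>
      intro σ hσ F hF F' hF' hc hc' h1 h2 hSF
      have hl : LinkConnected K σ := by
        rcases σ.eq_empty_or_nonempty with rfl | hne
        · exact hconn
        · exact hlink σ (face_down hF h1 hne) (by omega)
      obtain ⟨a, ha, ha'⟩ : ∃ z ∈ F, z ∉ σ := Finset.exists_mem_notMem_of_card_lt_card (by omega)
      obtain ⟨b, hb, hb'⟩ : ∃ z ∈ F', z ∉ σ := Finset.exists_mem_notMem_of_card_lt_card (by omega)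
      have hpath := hl a b ha' hb'
        (face_down hF (Finset.insert_subset ha h1) (Finset.insert_nonempty _ _))
        (face_down hF' (Finset.insert_subset hb h2) (Finset.insert_nonempty _ _))
      have : ∀ t ∈ K.faces, t.card = d → insert b σ ⊆ t → S t := by
        clear hb hb'
        induction hpath with
        | refl =>
          intro t ht htc hs
          exact ih (insert a σ) (by rw [Finset.card_insert_of_notMem ha']; omega) F hF t ht hc htc
            (Finset.insert_subset ha h1) hs hSF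
        | @tail x y _ hxy ih2 =>
          intro t ht htc hs
          obtain ⟨t', ht', hs', htc'⟩ := hpure _ hxy.2.2
          exact ih (insert y σ) (by rw [Finset.card_insert_of_notMem hxy.2.1]; omega) t' ht' t ht
            htc' htc ((Finset.subset_insert _ _).trans hs') hs
            (ih2 t' ht' htc' ((Finset.insert_subset_insert _ (Finset.subset_insert _ _)).trans hs'))
      exact this F' hF' hc' (Finset.insert_subset hb h2)
  intro F hF F' hF' hc hc'
  exact key (d - 1) ∅ (by simp; omega) F hF F' hF' hc hc' (Finset.empty_subset _)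
    (Finset.empty_subset _)

end Pool.Agent.MP_d539bc_co
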