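import Mathlib

/-! Signed vertex sets, mod 2 chains, circuits. -/

namespace Pool.Agent.MP_d539bc_co

open Finset
open scoped Pointwise

/-- A fixed point free involution written as negation. -/
class FreeNeg (V : Type) extends InvolutiveNeg V where
  neg_ne : ∀ x : V, -x ≠ x

variable {V : Type} [Fintype V] [DecidableEq V] [FreeNeg V]

omit [Fintype V] [DecidableEq V] in
lemma neg_ne' (x : V) : -x ≠ x := FreeNeg.neg_ne x

omit [Fintype V] [DecidableEq V] in
lemma ne_neg' (x : V) : x ≠ -x := (FreeNeg.neg_ne x).symm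

/-- antipodal free -/
def AF (F : Finset V) : Prop := ∀ x ∈ F, -x ∉ F

/-- graph of a single clique together with its antipode -/
def kq (Q : Finset V) (x y : V) : Prop := x ≠ y ∧ ((x ∈ Q ∧ y ∈ Q) ∨ (-x ∈ Q ∧ -y ∈ Q))

/-- symmetric graph of a family of faces -/
def gr (T : Finset (Finset V)) (x y : V) : Prop := ∃ F ∈ T, kq F x y

/-- cross polytope graph -/
def oct (Q : Finset V) (x y : V) : Prop :=
  x ≠ y ∧ x ≠ -y ∧ (x ∈ Q ∨ -x ∈ Q) ∧ (y ∈ Q ∨ -y ∈ Q)

def vs (T : Finset (Finset V)) : Finset V := T.biUnion id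

def Clique (G : V → V → Prop) (Q : Finset V) : Prop := ∀ a ∈ Q, ∀ b ∈ Q, a ≠ b → G a b

/-- symmetric graphs -/
structure SG (G : V → V → Prop) : Prop where
  symm : ∀ {x y}, G x y → G y x
  neg : ∀ {x y}, G x y → G (-x) (-y)
  ne : ∀ {x y}, G x y → x ≠ y
  ne_neg : ∀ {x y}, G x y → x ≠ -y

omit [Fintype V] [FreeNeg V] in
@[simp] lemma mem_vs {T : Finset (Finset V)} {x : V} : x ∈ vs T ↔ ∃ F ∈ T, x ∈ F := by
  simp [vs]

omit [Fintype V] [DecidableEq V] in
lemma AF.mono {F G : Finset V} (h : AF G) (hs : F ⊆ G) : AF F :=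
  fun x hx hx' => h x (hs hx) (hs hx')

omit [Fintype V] in
lemma AF.neg {F : Finset V} (h : AF F) : AF (-F) := by
  intro x hx hx'
  rw [Finset.mem_neg'] at hx hx'
  exact h _ hx hx'

omit [Fintype V] in
lemma AF.insert {F : Finset V} (h : AF F) {x : V} (hx : -x ∉ F) : AF (insert x F) := by
  intro y hy hy'
  rw [mem_insert] at hy hy'
  rcases hy with rfl | hy
  · rcases hy' with h1 | h1
    · exact neg_ne' _ h1
    · exact hx h1
  · rcases hy' with h1 | h1
    · apply hx; rw [← h1, neg_neg]; exact hy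
    · exact h y hy h1

omit [Fintype V] [DecidableEq V] in
lemma sg_kq {Q : Finset V} (h : AF Q) : SG (kq Q) where
  symm := fun ⟨h1, h2⟩ => ⟨h1.symm, by tauto⟩
  neg := fun ⟨h1, h2⟩ => ⟨by simpa using h1, by simp only [neg_neg]; tauto⟩
  ne := fun h => h.1
  ne_neg := by
    rintro x y ⟨-, h2 | h2⟩ rfl
    · exact h _ h2.2 h2.1
    · exact h _ h2.1 (by simpa using h2.2)

omit [Fintype V] [DecidableEq V] in
lemma sg_oct (Q : Finset V) : SG (oct Q) where
  symm := fun ⟨h1, h2, h3, h4⟩ => ⟨h1.symm, fun h => h2 (by rw [h, neg_neg]), h4, h3⟩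
  neg := fun ⟨h1, h2, h3, h4⟩ =>
    ⟨by simpa using h1, by simpa using fun h => h2 (by rw [← h, neg_neg]),
      by simp only [neg_neg]; tauto, by simp only [neg_neg]; tauto⟩
  ne := fun h => h.1
  ne_neg := fun h => h.2.1

omit [Fintype V] [DecidableEq V] in
lemma sg_gr {T : Finset (Finset V)} (h : ∀ F ∈ T, AF F) : SG (gr T) where
  symm := fun ⟨F, hF, h1⟩ => ⟨F, hF, (sg_kq (h F hF)).symm h1⟩
  neg := fun ⟨F, hF, h1⟩ => ⟨F, hF, (sg_kq (h F hF)).neg h1⟩
  ne := fun ⟨F, hF, h1⟩ => (sg_kq (h F hF)).ne h1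
  ne_neg := fun ⟨F, hF, h1⟩ => (sg_kq (h F hF)).ne_neg h1

omit [Fintype V] [DecidableEq V] in
lemma SG.sup {G H : V → V → Prop} (hG : SG G) (hH : SG H) : SG (G ⊔ H) where
  symm := fun h => h.imp hG.symm hH.symm
  neg := fun h => h.imp hG.neg hH.neg
  ne := fun h => h.elim hG.ne hH.ne
  ne_neg := fun h => h.elim hG.ne_neg hH.ne_neg

omit [Fintype V] [DecidableEq V] in
lemma SG.neg' {G : V → V → Prop} (hG : SG G) {x y : V} (h : G (-x) (-y)) : G x y := by
  simpa using hG.neg h

omit [Fintype V] [DecidableEq V] in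
lemma SG.neg_left {G : V → V → Prop} (hG : SG G) {x y : V} (h : G (-x) y) : G x (-y) := by
  simpa using hG.neg h

omit [Fintype V] [DecidableEq V] in
lemma SG.neg_right {G : V → V → Prop} (hG : SG G) {x y : V} (h : G x (-y)) : G (-x) y := by
  simpa using hG.neg h

omit [Fintype V] [DecidableEq V] in
lemma Clique.af {G : V → V → Prop} (hG : SG G) {Q : Finset V} (h : Clique G Q) : AF Q := by
  intro x hx hx'
  exact hG.ne_neg (h x hx (-x) hx' (ne_neg' x)) (by simp)

omit [Fintype V] in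
lemma Clique.neg {G : V → V → Prop} (hG : SG G) {Q : Finset V} (h : Clique G Q) :
    Clique G (-Q) := by
  intro a ha b hb hab
  rw [Finset.mem_neg'] at ha hb
  exact hG.neg' (h _ ha _ hb (by simpa using hab))

omit [Fintype V] [DecidableEq V] [FreeNeg V] in
lemma Clique.mono {G H : V → V → Prop} (hGH : G ≤ H) {Q : Finset V} (h : Clique G Q) :
    Clique H Q := fun a ha b hb hab => hGH _ _ (h a ha b hb hab)

omit [Fintype V] [DecidableEq V] in
lemma kq_le_of_clique {G : V → V → Prop} (hG : SG G) {Q : Finset V} (h : Clique G Q) :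
    kq Q ≤ G := by
  rintro a b ⟨hab, h1 | h1⟩
  · exact h _ h1.1 _ h1.2 hab
  · exact hG.neg' (h _ h1.1 _ h1.2 (by simpa using hab))

omit [Fintype V] [DecidableEq V] in
lemma clique_kq (Q : Finset V) : Clique (kq Q) Q := fun _ ha _ hb hab => ⟨hab, Or.inl ⟨ha, hb⟩⟩

omit [Fintype V] [DecidableEq V] in
lemma clique_gr {T : Finset (Finset V)} {F : Finset V} (hF : F ∈ T) : Clique (gr T) F :=
  fun _ ha _ hb hab => ⟨F, hF, hab, Or.inl ⟨ha, hb⟩⟩

omit [Fintype V] in
lemma kq_neg (Q : Finset V) : kq (-Q) = kq Q := by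
  funext a b
  simp only [kq, Finset.mem_neg', neg_neg]
  apply propext; tauto

omit [Fintype V] [DecidableEq V] in
lemma kq_mono {Q Q' : Finset V} (h : Q ⊆ Q') : kq Q ≤ kq Q' := by
  rintro a b ⟨hab, h1 | h1⟩
  · exact ⟨hab, Or.inl ⟨h h1.1, h h1.2⟩⟩
  · exact ⟨hab, Or.inr ⟨h h1.1, h h1.2⟩⟩

/-! ### chains mod 2 -/

def bd (c : Finset V → ZMod 2) (R : Finset V) : ZMod 2 := ∑ z ∈ Rᶜ, c (insert z R)

def ind (T : Finset (Finset V)) (F : Finset V) : ZMod 2 := if F ∈ T then 1 else 0

def Cyc (T : Finset (Finset V)) : Prop := bd (ind T) = 0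

structure Good (d : ℕ) (T : Finset (Finset V)) : Prop where
  card : ∀ F ∈ T, F.card = d
  af : ∀ F ∈ T, AF F

structure Circ (d : ℕ) (T : Finset (Finset V)) : Prop extends Good d T where
  nonempty : T.Nonempty
  cyc : Cyc T
  min : ∀ S ⊆ T, S.Nonempty → Cyc S → S = T

lemma zmod2_add_self (a : ZMod 2) : a + a = 0 := by revert a; decide
lemma zmod2_ne_zero {a : ZMod 2} (h : a ≠ 0) : a = 1 := by revert a; decide
lemma zmod2_eq_of_add {a b : ZMod 2} (h : a + b = 0) : a = b := by revert a b; decide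

omit [FreeNeg V] in
lemma bd_add (c c' : Finset V → ZMod 2) : bd (c + c') = bd c + bd c' := by
  funext R; simp [bd, sum_add_distrib]

omit [FreeNeg V] in
lemma bd_zero : bd (0 : Finset V → ZMod 2) = 0 := by
  funext R; simp [bd]

omit [FreeNeg V] in
lemma bd_sum {ι : Type} (s : Finset ι) (c : ι → Finset V → ZMod 2) :
    bd (∑ i ∈ s, c i) = ∑ i ∈ s, bd (c i) := by
  classical
  induction s using Finset.induction_on with
  | empty => simp [bd_zero]
  | insert a s ha ih => rw [sum_insert ha, sum_insert ha, bd_add, ih]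

omit [FreeNeg V] in
lemma bd_bd (c : Finset V → ZMod 2) : bd (bd c) = 0 := by
  funext R
  simp only [bd, Pi.zero_apply]
  have h1 : ∀ z ∈ Rᶜ, ∑ w ∈ (insert z R)ᶜ, c (insert w (insert z R))
      = ∑ w ∈ Rᶜ, if w = z then 0 else c (insert w (insert z R)) := by
    intro z hz
    rw [compl_insert, ← Finset.add_sum_erase _ _ hz]
    simp only [if_true, zero_add]
    apply sum_congr rfl
    intro w hw
    rw [if_neg (ne_of_mem_erase hw)]
  rw [sum_congr rfl h1, ← sum_product']
  apply Finset.sum_involution (fun e _ => e.swap)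
  · rintro ⟨a, b⟩ _
    simp only [Prod.swap, Prod.fst, Prod.snd]
    by_cases hab : b = a
    · subst hab; simp
    · rw [if_neg hab, if_neg (Ne.symm hab), Finset.insert_comm]
      exact zmod2_add_self _
  · rintro ⟨a, b⟩ _ h heq
    apply h
    have : b = a := by simpa using congrArg Prod.fst heq
    simp [this]
  · rintro ⟨a, b⟩ _; rfl
  · rintro ⟨a, b⟩ h
    simp only [mem_product] at h ⊢
    exact ⟨h.2, h.1⟩

omit [FreeNeg V] in
lemma bd_single (σ : Finset V) :
    bd (Pi.single σ 1) = ∑ r ∈ σ, Pi.single (σ.erase r) (1 : ZMod 2) := by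
  funext R
  simp only [bd, Finset.sum_apply, Pi.single_apply]
  rw [← Finset.sum_filter, ← Finset.sum_filter]
  congr 1
  ext z
  simp only [mem_filter, mem_compl]
  constructor
  · rintro ⟨h1, rfl⟩
    exact ⟨mem_insert_self _ _, (erase_insert h1).symm⟩
  · rintro ⟨h1, rfl⟩
    exact ⟨notMem_erase _ _, insert_erase h1⟩

omit [Fintype V] [FreeNeg V] in
lemma ind_eq_sum (T : Finset (Finset V)) : ind T = ∑ F ∈ T, Pi.single F (1 : ZMod 2) := by
  funext R
  simp only [ind, Finset.sum_apply, Pi.single_apply]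
  rw [Finset.sum_ite_eq]

omit [Fintype V] [FreeNeg V] in
lemma ind_union {S T : Finset (Finset V)} (h : Disjoint S T) : ind (S ∪ T) = ind S + ind T := by
  rw [ind_eq_sum, ind_eq_sum, ind_eq_sum, sum_union h]

omit [Fintype V] [FreeNeg V] in
lemma ind_ne_zero {T : Finset (Finset V)} {F : Finset V} : ind T F ≠ 0 ↔ F ∈ T := by
  unfold ind; split_ifs with h <;> simp [h]

omit [FreeNeg V] in
lemma Cyc.other {T : Finset (Finset V)} (h : Cyc T) {F : Finset V} (hF : F ∈ T) {y : V}
    (hy : y ∈ F) : ∃ z, z ∉ F ∧ insert z (F.erase y) ∈ T := by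
  by_contra hcon
  push Not at hcon
  have h1 := congrFun h (F.erase y)
  simp only [bd, Pi.zero_apply] at h1
  rw [Finset.sum_eq_single y] at h1
  · rw [insert_erase hy] at h1
    simp [ind, hF] at h1
  · intro z hz hzy
    have : z ∉ F := by
      intro hzF
      exact (mem_compl.1 hz) (mem_erase.2 ⟨hzy, hzF⟩)
    simp [ind, hcon z this]
  · intro hy'
    exact absurd (mem_compl.2 (notMem_erase _ _)) hy'

omit [FreeNeg V] in
lemma Cyc.filter {T : Finset (Finset V)} (h : Cyc T) (P : Finset V → Prop) [DecidablePred P]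
    (hP : ∀ (R : Finset V) (z z' : V), z ∉ R → z' ∉ R → insert z R ∈ T → insert z' R ∈ T →
      P (insert z R) → P (insert z' R)) : Cyc (T.filter P) := by
  funext R
  simp only [bd, Pi.zero_apply]
  by_cases hex : ∃ z, z ∉ R ∧ insert z R ∈ T ∧ P (insert z R)
  · obtain ⟨z, hz, hzT, hzP⟩ := hex
    have h1 := congrFun h R
    simp only [bd, Pi.zero_apply] at h1
    rw [← h1]
    apply sum_congr rfl
    intro w hw
    simp only [ind, mem_filter]
    by_cases hw' : insert w R ∈ T
    · simp [hw', hP R z w hz (mem_compl.1 hw) hzT hw' hzP]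
    · simp [hw']
  · push Not at hex
    apply sum_eq_zero
    intro w hw
    simp only [ind, mem_filter]
    rw [if_neg]
    rintro ⟨h1, h2⟩
    exact hex w (mem_compl.1 hw) h1 h2

/-- strong connectivity of circuits -/
lemma Circ.conn {d : ℕ} {T : Finset (Finset V)} (h : Circ d T) (P : Finset V → Prop)
    (h0 : ∃ F ∈ T, P F)
    (hP : ∀ (R : Finset V) (z z' : V), z ∉ R → z' ∉ R → insert z R ∈ T → insert z' R ∈ T →
      P (insert z R) → P (insert z' R)) : ∀ F ∈ T, P F := by
  classical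
  have := h.min (T.filter P) (filter_subset _ _)
    (by obtain ⟨F, h1, h2⟩ := h0; exact ⟨F, mem_filter.2 ⟨h1, h2⟩⟩) (h.cyc.filter P hP)
  intro F hF
  rw [← this] at hF
  exact (mem_filter.1 hF).2

end Pool.Agent.MP_d539bc_co
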