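import Pool.Agent.MP_d539bc_co.Defs

/-! First cohomology classes that are even or odd under an involution. -/

namespace Pool.Agent.MP_d539bc_co

/-- Real simplicial `1`-cocycles `c` with `c (φ x) (φ y) = ε * c x y` whose sum along every
`4`-cycle `w, v, φ w, v'` is zero. -/
def symCocycles {V : Type} [DecidableEq V] (K : AbstractSimplicialComplex V) (φ : V → V) (ε : ℝ) :
    Submodule ℝ (V → V → ℝ) where
  carrier := {c | (∀ x y z, {x, y, z} ∈ K.faces → c x y + c y z = c x z) ∧
    (∀ x y, c (φ x) (φ y) = ε * c x y) ∧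
    ∀ w v v', {w, v} ∈ K.faces → {v, φ w} ∈ K.faces → {φ w, v'} ∈ K.faces → {v', w} ∈ K.faces →
      c w v + c v (φ w) + c (φ w) v' + c v' w = 0}
  add_mem' := by
    rintro a b ⟨a1, a2, a3⟩ ⟨b1, b2, b3⟩
    refine ⟨fun x y z h => ?_, fun x y => ?_, fun w v v' h1 h2 h3 h4 => ?_⟩
    · simp only [Pi.add_apply]
      linarith [a1 x y z h, b1 x y z h]
    · simp only [Pi.add_apply]
      linarith [a2 x y, b2 x y]
    · simp only [Pi.add_apply]
      linarith [a3 w v v' h1 h2 h3 h4, b3 w v v' h1 h2 h3 h4]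
  zero_mem' := ⟨fun _ _ _ _ => by simp, fun _ _ => by simp, fun _ _ _ _ _ _ _ => by simp⟩
  smul_mem' := by
    rintro r a ⟨a1, a2, a3⟩
    refine ⟨fun x y z h => ?_, fun x y => ?_, fun w v v' h1 h2 h3 h4 => ?_⟩
    · simp only [Pi.smul_apply, smul_eq_mul]
      rw [← a1 x y z h, mul_add]
    · simp only [Pi.smul_apply, smul_eq_mul]
      rw [a2 x y, mul_left_comm]
    · simp only [Pi.smul_apply, smul_eq_mul]
      rw [← mul_add, ← mul_add, ← mul_add, a3 w v v' h1 h2 h3 h4, mul_zero]

/-- Functions of two vertices that agree with a coboundary `f y - f x` on the edges. -/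
def coboundaries {V : Type} [DecidableEq V] (K : AbstractSimplicialComplex V) :
    Submodule ℝ (V → V → ℝ) where
  carrier := {c | ∃ f : V → ℝ, ∀ x y, {x, y} ∈ K.faces → c x y = f y - f x}
  add_mem' := by
    rintro a b ⟨f, hf⟩ ⟨g, hg⟩
    refine ⟨f + g, fun x y h => ?_⟩
    simp only [Pi.add_apply]
    linarith [hf x y h, hg x y h]
  zero_mem' := ⟨0, fun _ _ _ => by simp⟩
  smul_mem' := by
    rintro r a ⟨f, hf⟩
    refine ⟨r • f, fun x y h => ?_⟩
    simp only [Pi.smul_apply, smul_eq_mul]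
    rw [hf x y h, mul_sub]

/-- The dimension of the space of cohomology classes of the cocycles in `symCocycles K φ ε`. -/
noncomputable def symBetti {V : Type} [DecidableEq V] (K : AbstractSimplicialComplex V)
    (φ : V → V) (ε : ℝ) : ℕ :=
  Module.finrank ℝ ((symCocycles K φ ε).map (coboundaries K).mkQ)

end Pool.Agent.MP_d539bc_co
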