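import Pool.Agent.MP_d539bc_co.BettiStar
import Pool.Agent.MP_d539bc_co.BettiDefs

/-! The lower bound with first Betti numbers. -/

namespace Pool.Agent.MP_d539bc_co

open Finset Module
open scoped Pointwise

section comb

variable {V : Type} [Fintype V] [DecidableEq V] [FreeNeg V]

/-- facets of the link of a vertex -/
def lkF (T : Finset (Finset V)) (w : V) : Finset (Finset V) :=
  (T.filter fun F => w ∈ F).image fun F => F.erase w

omit [Fintype V] [FreeNeg V] in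
lemma mem_lkF {T : Finset (Finset V)} {w : V} {R : Finset V} :
    R ∈ lkF T w ↔ w ∉ R ∧ insert w R ∈ T := by
  simp only [lkF, mem_image, mem_filter]
  constructor
  · rintro ⟨F, ⟨h1, h2⟩, rfl⟩
    exact ⟨notMem_erase _ _, by rwa [insert_erase h2]⟩
  · rintro ⟨h1, h2⟩
    exact ⟨_, ⟨h2, mem_insert_self _ _⟩, erase_insert h1⟩

omit [Fintype V] [FreeNeg V] in
lemma mem_vs_lkF {T : Finset (Finset V)} {w x : V} :
    x ∈ vs (lkF T w) ↔ x ≠ w ∧ ∃ F ∈ T, w ∈ F ∧ x ∈ F := by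
  rw [mem_vs]
  constructor
  · rintro ⟨R, hR, hx⟩
    rw [mem_lkF] at hR
    exact ⟨fun e => hR.1 (e ▸ hx), _, hR.2, mem_insert_self _ _, mem_insert_of_mem hx⟩
  · rintro ⟨h, F, hF, h1, h2⟩
    exact ⟨F.erase w, mem_lkF.2 ⟨notMem_erase _ _, by rwa [insert_erase h1]⟩, mem_erase.2 ⟨h, h2⟩⟩

theorem patch {k : ℕ} {p : V → E (k + 1)} (hp : Generic p) (hk : 3 ≤ k) {T : Finset (Finset V)}
    (hT : Good (k + 1) T) (hL : ∀ w, Circ k (lkF T w)) (m : Mot V (k + 1))
    (Bc : V → V → E (k + 1) →ₗ[ℝ] Du (k + 1)) (bc : V → V → Du (k + 1))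
    (halt : ∀ x y, Alt (Bc x y))
    (hcoc : ∀ F ∈ T, ∀ x ∈ F, ∀ y ∈ F, ∀ z ∈ F,
      Bc x y + Bc y z = Bc x z ∧ bc x y + bc y z = bc x z)
    (hsq : ∀ w x x', x ∈ vs (lkF T w) → -x ∈ vs (lkF T w) → x' ∈ vs (lkF T w) →
      -x' ∈ vs (lkF T w) → Bc w x + Bc w (-x) = Bc w x' + Bc w (-x') ∧ bc w x = bc w (-x))
    (heq : ∀ F ∈ T, ∀ x ∈ F, ∀ y ∈ F, x ≠ y →
      ell x y p m + (Bc x y (p x) + bc x y) (p x - p y) = 0) :
    ∃ (tB : V → E (k + 1) →ₗ[ℝ] Du (k + 1)) (tb : V → Du (k + 1)),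
      ∀ F ∈ T, ∀ x ∈ F, ∀ y ∈ F, Bc x y = tB y - tB x ∧ bc x y = tb y - tb x := by
  classical
  have loc : ∀ w, ∃ (B : E (k + 1) →ₗ[ℝ] Du (k + 1)) (b : Du (k + 1)), Alt B ∧
      ∀ F ∈ T, w ∈ F → ∀ x ∈ F, m (cls x) = (Bc w x + B) (p x) + (bc w x + b) := by
    intro w
    have hw : ∀ x ∈ vs (lkF T w), x ≠ w ∧ x ≠ -w := by
      intro x hx
      obtain ⟨h, F, hF, h1, h2⟩ := mem_vs_lkF.1 hx
      exact ⟨h, fun e => hT.af F hF w h1 (e ▸ h2)⟩
    obtain ⟨B0, hB0, hB0'⟩ : ∃ B0 : E (k + 1) →ₗ[ℝ] Du (k + 1), Alt B0 ∧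
        ∀ x ∈ vs (lkF T w), -x ∈ vs (lkF T w) → Bc w x + Bc w (-x) = B0 + B0 := by
      by_cases h : ∃ x ∈ vs (lkF T w), -x ∈ vs (lkF T w)
      · obtain ⟨x0, h1, h2⟩ := h
        refine ⟨(1 / 2 : ℝ) • (Bc w x0 + Bc w (-x0)), fun a => by
          simp [halt w x0 a, halt w (-x0) a], fun x hx hx' => ?_⟩
        rw [(hsq w x x0 hx hx' h1 h2).1, ← add_smul]
        norm_num
      · exact ⟨0, fun a => by simp, fun x hx hx' => (h ⟨x, hx, hx'⟩).elim⟩
    let W := insert w (vs (lkF T w))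
    let μ : V → Du (k + 1) := fun x => m (cls x) - (Bc w x - B0) (p x) - bc w x
    have hU : ∀ y, y ∈ W → -y ∈ W → y ∈ vs (lkF T w) := by
      intro y hy hy'
      rcases mem_insert.1 hy with rfl | hy
      · rcases mem_insert.1 hy' with e | e
        · exact (neg_ne' _ e).elim
        · exact ((hw _ e).2 rfl).elim
      · exact hy
    obtain ⟨μ', hμ'⟩ : ∃ μ' : Mot V (k + 1), ∀ x ∈ W, μ' (cls x) = μ x := by
      refine ⟨fun c => if h : ∃ x ∈ W, cls x = c then μ h.choose else 0, fun x hx => ?_⟩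
      have h : ∃ y ∈ W, cls y = cls x := ⟨x, hx, rfl⟩
      have e : (if h : ∃ y ∈ W, cls y = cls x then μ h.choose else 0) = μ h.choose := dif_pos h
      refine e.trans ?_
      rcases cls_eq.1 h.choose_spec.2 with e' | e'
      · rw [e']
      · have hx' : -x ∈ W := e' ▸ h.choose_spec.1
        have a1 := hU x hx hx'
        have a2 := hU _ hx' (by rwa [neg_neg])
        have a3 : Bc w (-x) = B0 + B0 - Bc w x := by rw [← hB0' x a1 a2]; abel
        rw [e']
        simp only [μ, cls_neg, hp.odd x, a3, ← (hsq w x x a1 a2 a1 a2).2, map_neg,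
          LinearMap.sub_apply, LinearMap.add_apply]
        abel
    have hFW : ∀ F ∈ T, w ∈ F → F ⊆ W := by
      intro F hF hwF x hx
      by_cases e : x = w
      · exact e ▸ mem_insert_self _ _
      · exact mem_insert_of_mem (mem_vs_lkF.2 ⟨e, F, hF, hwF, hx⟩)
    have hK : μ' ∈ K p (gr (T.filter fun F => w ∈ F)) := by
      rw [mem_K]
      have base : ∀ F ∈ T, w ∈ F → ∀ x ∈ F, ∀ y ∈ F, x ≠ y → ell x y p μ' = 0 := by
        intro F hF hwF x hx y hy hxy
        have e1 := heq F hF x hx y hy hxy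
        obtain ⟨e2, e3⟩ := hcoc F hF w hwF x hx y hy
        have e4 := halt w x (p x - p y)
        have e5 := halt x y (p x - p y)
        have e6 := hB0 (p x - p y)
        rw [ell_apply, hμ' x (hFW F hF hwF hx), hμ' y (hFW F hF hwF hy)]
        simp only [μ, ← e2, ← e3, ell_apply, LinearMap.sub_apply, LinearMap.add_apply,
          map_sub] at e1 e4 e5 e6 ⊢
        linarith
      rintro x y ⟨F, hF, hxy, h | h⟩
      · exact base F (mem_filter.1 hF).1 (mem_filter.1 hF).2 x h.1 y h.2 hxy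
      · have := base F (mem_filter.1 hF).1 (mem_filter.1 hF).2 _ h.1 _ h.2 (by simpa using hxy)
        rwa [ell_neg hp.odd, neg_eq_zero] at this
    obtain ⟨B, b, hB, hm⟩ := star_rigid hp hk (hL w) hw (G := gr (T.filter fun F => w ∈ F))
      (by
        rintro x y ⟨R, hR, h⟩
        exact ⟨insert w R, mem_filter.2 ⟨(mem_lkF.1 hR).2, mem_insert_self _ _⟩,
          kq_mono (subset_insert _ _) x y h⟩)
      (by
        intro x hx
        obtain ⟨h, F, hF, h1, h2⟩ := mem_vs_lkF.1 hx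
        exact ⟨F, mem_filter.2 ⟨hF, h1⟩, h, Or.inl ⟨h2, h1⟩⟩)
      (by
        rintro x y ⟨F, hF, h⟩
        exact kq_mono (hFW F (mem_filter.1 hF).1 (mem_filter.1 hF).2) x y h) hK
    refine ⟨B - B0, b, fun a => by simp [hB a, hB0 a], fun F hF hwF x hx => ?_⟩
    have := hm x (hFW F hF hwF hx)
    rw [hμ' x (hFW F hF hwF hx)] at this
    simp only [μ, LinearMap.sub_apply, LinearMap.add_apply] at this ⊢
    rw [sub_sub, sub_eq_iff_eq_add] at this
    rw [this]
    abel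
  choose tB tb hA hm using loc
  refine ⟨tB, tb, fun F hF x hx y hy => ?_⟩
  have := hp.uniq (hT.af F hF) (hT.card F hF) (B := Bc x y + tB x) (B' := tB y)
    (b := bc x y + tb x) (b' := tb y) (fun a => by simp [halt x y a, hA x a]) (hA y) (by
      intro z hz
      have e1 := hm x F hF hx z hz
      obtain ⟨e2, e3⟩ := hcoc F hF x hx y hy z hz
      rw [hm y F hF hy z hz, ← e2, ← e3] at e1
      simp only [LinearMap.add_apply] at e1 ⊢
      have : Bc y z (p z) + bc y z + (Bc x y (p z) + tB x (p z) + (bc x y + tb x)) =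
          Bc y z (p z) + bc y z + (tB y (p z) + tb y) := by
        rw [show Bc y z (p z) + bc y z + (tB y (p z) + tb y) =
          Bc y z (p z) + tB y (p z) + (bc y z + tb y) by abel, e1]
        abel
      exact add_left_cancel this)
  exact ⟨by rw [← this.1]; abel, eq_sub_of_add_eq this.2⟩

lemma finrank_K_le {d : ℕ} {p : V → E d} (hp : Generic p) (hd : 3 ≤ d) {T : Finset (Finset V)}
    (hT : Circ d T) (hv : ∀ x, x ∈ vs T) : finrank ℝ (K p (gr T)) ≤ d := by
  obtain ⟨F0, hF0⟩ := hT.nonempty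
  obtain ⟨x0, hx0⟩ : F0.Nonempty := card_pos.1 (by rw [hT.card F0 hF0]; omega)
  have hinj : Function.Injective (evc (cls x0) ∘ₗ (K p (gr T)).subtype) := by
    refine (injective_iff_map_eq_zero _).2 ?_
    rintro ⟨m, hm⟩ h0
    obtain ⟨B, b, hB, hm'⟩ := rigid hp hd T hT hm
    have hB0 : B = 0 := hp.map_zero' (hT.af F0 hF0) (hT.card F0 hF0) fun x _ =>
      pair_zero hp.odd (hm' _ (hv x)) (hm' _ (hv (-x)))
    have hb : b = 0 := by
      have := hm' x0 (hv x0)
      rw [hB0] at this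
      simpa [this] using h0
    ext1
    funext c
    obtain ⟨x, rfl⟩ := cls_surj c
    simp [hm' x (hv x), hB0, hb]
  have := LinearMap.finrank_le_finrank_of_injective hinj
  rwa [finrank_Du] at this

/-- pairs `i < j` -/
abbrev Pr (d : ℕ) := {ij : Fin d × Fin d // ij.1 < ij.2}

lemma card_Pr (d : ℕ) : Fintype.card (Pr d) = d.choose 2 := by
  rw [Fintype.card_subtype, ← univ_product_univ, card_product_filter_lt, card_univ,
    Fintype.card_fin]

/-- elementary alternating forms -/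
noncomputable def altE {d : ℕ} (ij : Pr d) : E d →ₗ[ℝ] Du d :=
  (LinearMap.proj ij.1.1 : Du d).smulRight (LinearMap.proj ij.1.2 : Du d) -
    (LinearMap.proj ij.1.2 : Du d).smulRight (LinearMap.proj ij.1.1 : Du d)

lemma altE_apply {d : ℕ} (ij : Pr d) (a a' : E d) :
    altE ij a a' = a ij.1.1 * a' ij.1.2 - a ij.1.2 * a' ij.1.1 := by
  simp [altE]

lemma altE_single {d : ℕ} (ij kl : Pr d) :
    altE kl (Pi.single ij.1.1 1) (Pi.single ij.1.2 1) = if kl = ij then 1 else 0 := by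
  obtain ⟨⟨i, j⟩, h⟩ := ij
  obtain ⟨⟨k, l⟩, h'⟩ := kl
  simp only [altE_apply, Pi.single_apply, Subtype.mk.injEq, Prod.mk.injEq] at h h' ⊢
  by_cases a : k = i <;> by_cases b : l = j <;> by_cases c : l = i <;> by_cases e : k = j <;>
    simp [a, b, c, e] <;> omega

theorem core_betti {k : ℕ} (hk : 3 ≤ k) {T : Finset (Finset V)} (hT : Circ (k + 1) T)
    (hsym : ∀ F ∈ T, -F ∈ T) (hv : ∀ x, x ∈ vs T) (hL : ∀ w, Circ k (lkF T w))
    {Hm Hp : Type} [AddCommGroup Hm] [Module ℝ Hm] [FiniteDimensional ℝ Hm]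
    [AddCommGroup Hp] [Module ℝ Hp] [FiniteDimensional ℝ Hp]
    (σm : Hm →ₗ[ℝ] V → V → ℝ) (σp : Hp →ₗ[ℝ] V → V → ℝ)
    (m1 : ∀ h, ∀ F ∈ T, ∀ x ∈ F, ∀ y ∈ F, ∀ z ∈ F, σm h x y + σm h y z = σm h x z)
    (p1 : ∀ h, ∀ F ∈ T, ∀ x ∈ F, ∀ y ∈ F, ∀ z ∈ F, σp h x y + σp h y z = σp h x z)
    (m2 : ∀ h x y, σm h (-x) (-y) = - σm h x y) (p2 : ∀ h x y, σp h (-x) (-y) = σp h x y)
    (m3 : ∀ h w x x', x ∈ vs (lkF T w) → -x ∈ vs (lkF T w) → x' ∈ vs (lkF T w) →
      -x' ∈ vs (lkF T w) → σm h w x + σm h w (-x) = σm h w x' + σm h w (-x'))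
    (p3 : ∀ h w x, x ∈ vs (lkF T w) → -x ∈ vs (lkF T w) → σp h w x = σp h w (-x))
    (m4 : ∀ h (f : V → ℝ), (∀ F ∈ T, ∀ x ∈ F, ∀ y ∈ F, σm h x y = f y - f x) → h = 0)
    (p4 : ∀ h (f : V → ℝ), (∀ F ∈ T, ∀ x ∈ F, ∀ y ∈ F, σp h x y = f y - f x) → h = 0) :
    2 * (k + 1) * Fintype.card V + 4 * ((k + 1).choose 2 * finrank ℝ Hm) +
      4 * ((k + 1) * finrank ℝ Hp) ≤ 4 * (k + 1) + ec (gr T) := by
  obtain ⟨p, hp⟩ := exists_generic (V := V) (k + 1)
  let A := Mot V (k + 1) × (Pr (k + 1) → Hm) × (Fin (k + 1) → Hp)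
  let Bc : A → V → V → E (k + 1) →ₗ[ℝ] Du (k + 1) := fun a x y =>
    ∑ ij, σm (a.2.1 ij) x y • altE ij
  let bc : A → V → V → Du (k + 1) := fun a x y => ∑ i, σp (a.2.2 i) x y • LinearMap.proj i
  have hBc : ∀ a x y u u', Bc a x y u u' = ∑ ij, σm (a.2.1 ij) x y * altE ij u u' := by
    intro a x y u u'
    simp only [Bc, LinearMap.sum_apply, LinearMap.smul_apply, smul_eq_mul]
  have hbc : ∀ a x y u, bc a x y u = ∑ i, σp (a.2.2 i) x y * u i := by
    intro a x y u
    simp only [bc, LinearMap.sum_apply, LinearMap.smul_apply, smul_eq_mul, LinearMap.proj_apply]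
  have halt : ∀ a x y, Alt (Bc a x y) := by
    intro a x y u
    rw [hBc]
    exact sum_eq_zero fun ij _ => by rw [altE_apply, mul_comm (u ij.1.1), sub_self, mul_zero]
  have hcoc : ∀ a, ∀ F ∈ T, ∀ x ∈ F, ∀ y ∈ F, ∀ z ∈ F,
      Bc a x y + Bc a y z = Bc a x z ∧ bc a x y + bc a y z = bc a x z := by
    intro a F hF x hx y hy z hz
    refine ⟨LinearMap.ext fun u => LinearMap.ext fun u' => ?_, LinearMap.ext fun u => ?_⟩
    · simp only [LinearMap.add_apply, hBc, ← sum_add_distrib, ← add_mul, m1 _ F hF x hx y hy z hz]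
    · simp only [LinearMap.add_apply, hbc, ← sum_add_distrib, ← add_mul, p1 _ F hF x hx y hy z hz]
  obtain ⟨f, hf⟩ : ∃ f : V → V → Dual ℝ A, ∀ x y a,
      f x y a = ell x y p a.1 + (Bc a x y (p x) + bc a x y) (p x - p y) := by
    let ev : V → V → (V → V → ℝ) →ₗ[ℝ] ℝ := fun x y =>
      (LinearMap.proj y : (V → ℝ) →ₗ[ℝ] ℝ) ∘ₗ (LinearMap.proj x : (V → V → ℝ) →ₗ[ℝ] V → ℝ)
    let g1 : Pr (k + 1) → A →ₗ[ℝ] Hm := fun ij =>
      LinearMap.proj ij ∘ₗ LinearMap.fst ℝ _ _ ∘ₗ LinearMap.snd ℝ _ _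
    let g2 : Fin (k + 1) → A →ₗ[ℝ] Hp := fun i =>
      LinearMap.proj i ∘ₗ LinearMap.snd ℝ _ _ ∘ₗ LinearMap.snd ℝ _ _
    refine ⟨fun x y => ell x y p ∘ₗ LinearMap.fst ℝ _ _ +
      (∑ ij, altE ij (p x) (p x - p y) • (ev x y ∘ₗ σm ∘ₗ g1 ij) +
        ∑ i, (p x - p y) i • (ev x y ∘ₗ σp ∘ₗ g2 i)), fun x y a => ?_⟩
    rw [LinearMap.add_apply, LinearMap.add_apply, LinearMap.add_apply, hBc, hbc,
      LinearMap.sum_apply, LinearMap.sum_apply]
    refine congrArg₂ _ rfl (congrArg₂ _ (sum_congr rfl fun ij _ => ?_) (sum_congr rfl fun i _ => ?_))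
    · exact mul_comm _ _
    · exact mul_comm _ _
  have hface : ∀ x y, gr T x y → ∃ F ∈ T, x ∈ F ∧ y ∈ F := by
    rintro x y ⟨F, hF, -, h | h⟩
    · exact ⟨F, hF, h⟩
    · exact ⟨-F, hsym F hF, Finset.mem_neg'.2 h.1, Finset.mem_neg'.2 h.2⟩
  have hcount := count_Kf f (G₀ := gr T) (by
    intro x y hxy a
    obtain ⟨F, hF, hx, hy⟩ := hface x y hxy
    obtain ⟨a1, a2⟩ := hcoc a F hF x hx x hx x hx
    obtain ⟨a3, a4⟩ := hcoc a F hF x hx y hy x hx
    have a1 := LinearMap.congr_fun (LinearMap.congr_fun a1 (p y)) (p x - p y)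
    have a2 := LinearMap.congr_fun a2 (p x - p y)
    have a3 := LinearMap.congr_fun (LinearMap.congr_fun a3 (p y)) (p x - p y)
    have a4 := LinearMap.congr_fun a4 (p x - p y)
    have a5 := halt a x y (p x - p y)
    rw [hf, hf, ell_symm]
    simp only [LinearMap.add_apply, LinearMap.sub_apply, map_sub] at a1 a2 a3 a4 a5 ⊢
    linarith) (by
    intro x y _ a
    have a1 : ∀ u u', Bc a (-x) (-y) u u' = - Bc a x y u u' := fun u u' => by
      simp only [hBc, m2, neg_mul, sum_neg_distrib]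
    have a2 : ∀ u, bc a (-x) (-y) u = bc a x y u := fun u => by simp only [hbc, p2]
    rw [hf, hf, ell_neg hp.odd, hp.odd x, hp.odd y]
    simp only [LinearMap.add_apply, LinearMap.neg_apply, map_sub, map_neg, a1, a2]
    ring) _ (gr T) rfl (sg_gr hT.af) le_rfl
  have hker : ∀ a ∈ Kf f (gr T), a.2 = 0 ∧ a.1 ∈ K p (gr T) := by
    intro a ha
    rw [mem_Kf] at ha
    obtain ⟨tB, tb, ht⟩ := patch hp hk hT.toGood hL a.1 (Bc a) (bc a) (halt a) (hcoc a)
      (fun w x x' h1 h2 h3 h4 => ⟨LinearMap.ext fun u => LinearMap.ext fun u' => by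
        simp only [LinearMap.add_apply, hBc, ← sum_add_distrib, ← add_mul,
          m3 _ w x x' h1 h2 h3 h4], LinearMap.ext fun u => by simp only [hbc, p3 _ w x h1 h2]⟩)
      (fun F hF x hx y hy hxy => by rw [← hf]; exact ha x y (clique_gr hF x hx y hy hxy))
    have b1 : a.2.1 = 0 := by
      funext ij
      refine m4 _ (fun x => tB x (Pi.single ij.1.1 1) (Pi.single ij.1.2 1)) fun F hF x hx y hy => ?_
      have := LinearMap.congr_fun (LinearMap.congr_fun (ht F hF x hx y hy).1 (Pi.single ij.1.1 1))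
        (Pi.single ij.1.2 1)
      simpa [hBc, altE_single] using this
    have b2 : a.2.2 = 0 := by
      funext i
      refine p4 _ (fun x => tb x (Pi.single i 1)) fun F hF x hx y hy => ?_
      have := LinearMap.congr_fun (ht F hF x hx y hy).2 (Pi.single i 1)
      simpa [hbc, Pi.single_apply] using this
    refine ⟨Prod.ext b1 b2, mem_K.2 fun x y hxy => ?_⟩
    have := ha x y hxy
    simpa [hf, hBc, hbc, b1, b2] using this
  have h1 : finrank ℝ (Kf f (gr T)) ≤ k + 1 := by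
    refine le_trans ?_ (finrank_K_le hp (by omega) hT hv)
    refine LinearMap.finrank_le_finrank_of_injective
      (f := ((LinearMap.fst ℝ _ _).domRestrict (Kf f (gr T))).codRestrict (K p (gr T))
        fun a => (hker a.1 a.2).2) ?_
    intro a b e
    have e1 : a.1.1 = b.1.1 := congrArg Subtype.val e
    exact Subtype.ext (Prod.ext e1 ((hker a.1 a.2).1.trans (hker b.1 b.2).1.symm))
  have h2 : finrank ℝ A = Fintype.card (Cl V) * (k + 1) +
      ((k + 1).choose 2 * finrank ℝ Hm + (k + 1) * finrank ℝ Hp) := by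
    simp only [A, finrank_prod, Module.finrank_pi_fintype, finrank_Du, sum_const, card_univ,
      smul_eq_mul, card_Pr, Fintype.card_fin]
  rw [card_cl]
  rw [h2] at hcount
  nlinarith

omit [FreeNeg V] in
lemma cyc_min_of_ridge {T : Finset (Finset V)}
    (hr : ∀ R z, z ∉ R → insert z R ∈ T → ∃ z1 z2, z1 ≠ z2 ∧ z1 ∉ R ∧ z2 ∉ R ∧
      insert z1 R ∈ T ∧ insert z2 R ∈ T ∧ ∀ z, z ∉ R → insert z R ∈ T → z = z1 ∨ z = z2)
    (hs : ∀ S : Finset V → Prop, (∀ (R : Finset V) z z', z ∉ R → z' ∉ R → insert z R ∈ T →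
      insert z' R ∈ T → S (insert z R) → S (insert z' R)) → ∀ F ∈ T, ∀ F' ∈ T, S F → S F') :
    Cyc T ∧ ∀ S ⊆ T, S.Nonempty → Cyc S → S = T := by
  constructor
  · funext R
    simp only [bd, Pi.zero_apply]
    by_cases hex : ∃ z, z ∉ R ∧ insert z R ∈ T
    · obtain ⟨z, hz, hzT⟩ := hex
      obtain ⟨z1, z2, h12, h1, h2, t1, t2, hall⟩ := hr R z hz hzT
      rw [← sum_subset (s₁ := {z1, z2}), sum_pair h12]
      · simp only [ind, t1, t2, if_true]; decide
      · exact insert_subset (mem_compl.2 h1) (singleton_subset_iff.2 (mem_compl.2 h2))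
      · intro w hw hw'
        rw [ind, if_neg]
        intro hwT
        exact hw' (by simpa using hall w (mem_compl.1 hw) hwT)
    · push Not at hex
      exact sum_eq_zero (fun w hw => by rw [ind, if_neg (hex w (mem_compl.1 hw))])
  · intro S hS ⟨F0, hF0⟩ hc
    apply Subset.antisymm hS
    intro F hF
    refine hs (fun F => F ∈ S) ?_ F0 (hS hF0) F hF hF0
    intro R z z' hz hz' f1 f2 hzS
    obtain ⟨z1, z2, -, -, -, -, -, hall⟩ := hr R z hz f1
    obtain ⟨w, hw, hwS⟩ := hc.other hzS (mem_insert_self z R)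
    rw [erase_insert hz] at hwS
    rw [mem_insert, not_or] at hw
    have a1 := hall z hz f1
    have a2 := hall z' hz' f2
    have a3 := hall w hw.2 (hS hwS)
    have : z' = z ∨ z' = w := by
      have := hw.1
      rcases a1 with rfl | rfl <;> rcases a2 with rfl | rfl <;> rcases a3 with rfl | rfl <;>
        simp at this ⊢
    rcases this with rfl | rfl
    · exact hzS
    · exact hwS

end comb

section cx

variable {V : Type} [Fintype V] [DecidableEq V]

/-- the facets through a vertex are strongly connected -/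
def LocS (K : AbstractSimplicialComplex V) (d : ℕ) : Prop :=
  ∀ (w : V) (S : Finset V → Prop), (∀ (R : Finset V) z z', w ∈ R → R.card + 1 = d → z ∉ R →
    z' ∉ R → insert z R ∈ K.faces → insert z' R ∈ K.faces → S (insert z R) → S (insert z' R)) →
    ∀ F ∈ K.faces, ∀ F' ∈ K.faces, F.card = d → F'.card = d → w ∈ F → w ∈ F' → S F → S F'

omit [Fintype V] in
theorem locS_of_normal {K : AbstractSimplicialComplex V} {d : ℕ} (hd : 2 ≤ d)
    (h : IsNormalPM K d) : LocS K d := by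
  obtain ⟨hpure, -, -, hlink⟩ := h
  have hins : ∀ {R t : Finset V}, R.card + 1 = d → t.card = d → R ⊆ t →
      ∃ z, z ∉ R ∧ t = insert z R := by
    intro R t h1 h2 h3
    obtain ⟨z, hz, hz'⟩ : ∃ z ∈ t, z ∉ R := Finset.exists_mem_notMem_of_card_lt_card (by omega)
    exact ⟨z, hz', (Finset.eq_of_subset_of_card_le (Finset.insert_subset hz h3)
      (by rw [Finset.card_insert_of_notMem hz']; omega)).symm⟩
  intro w S hS
  have key : ∀ n, ∀ σ : Finset V, w ∈ σ → σ.card + 1 + n = d → ∀ F ∈ K.faces, ∀ F' ∈ K.faces,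
      F.card = d → F'.card = d → σ ⊆ F → σ ⊆ F' → S F → S F' := by
    intro n
    induction n with
    | zero =>
      intro σ hw hσ F hF F' hF' hc hc' h1 h2 hSF
      obtain ⟨z, hz, rfl⟩ := hins hσ hc h1
      obtain ⟨z', hz', rfl⟩ := hins hσ hc' h2
      exact hS σ z z' hw hσ hz hz' hF hF' hSF
    | succ n ih =>
      intro σ hw hσ F hF F' hF' hc hc' h1 h2 hSF
      have hl : LinkConnected K σ := hlink σ (face_down hF h1 ⟨w, hw⟩) (by omega)
      obtain ⟨a, ha, ha'⟩ : ∃ z ∈ F, z ∉ σ := Finset.exists_mem_notMem_of_card_lt_card (by omega)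
      obtain ⟨b, hb, hb'⟩ : ∃ z ∈ F', z ∉ σ := Finset.exists_mem_notMem_of_card_lt_card (by omega)
      have hpath := hl a b ha' hb'
        (face_down hF (Finset.insert_subset ha h1) (Finset.insert_nonempty _ _))
        (face_down hF' (Finset.insert_subset hb h2) (Finset.insert_nonempty _ _))
      have : ∀ t ∈ K.faces, t.card = d → insert b σ ⊆ t → S t := by
        clear hb hb'
        induction hpath with
        | refl =>
          intro t ht htc hs
          exact ih (insert a σ) (mem_insert_of_mem hw)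
            (by rw [Finset.card_insert_of_notMem ha']; omega) F hF t ht hc htc
            (Finset.insert_subset ha h1) hs hSF
        | @tail x y _ hxy ih2 =>
          intro t ht htc hs
          obtain ⟨t', ht', hs', htc'⟩ := hpure _ hxy.2.2
          exact ih (insert y σ) (mem_insert_of_mem hw)
            (by rw [Finset.card_insert_of_notMem hxy.2.1]; omega) t' ht' t ht
            htc' htc ((Finset.subset_insert _ _).trans hs') hs
            (ih2 t' ht' htc' ((Finset.insert_subset_insert _ (Finset.subset_insert _ _)).trans hs'))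
      exact this F' hF' hc' (Finset.insert_subset hb h2)
  intro F hF F' hF' hc hc' h1 h2
  exact key (d - 2) {w} (mem_singleton_self w) (by simp; omega) F hF F' hF' hc hc'
    (singleton_subset_iff.2 h1) (singleton_subset_iff.2 h2)

theorem LC.restrict {A : Type} [NormedAddCommGroup A] {X N : Set A} {m : ℕ} {x : A}
    (hc : LC X m x) (hN : IsOpen N) (hx : x ∈ N) : LC (X ∩ N) m x := by
  obtain ⟨h, φ, U, O, hU, hO, hxU, hh, hφ, hhm, hφm, hφh, hhφ⟩ := hc
  have hsub : X ∩ N ∩ U ⊆ X ∩ U := fun y hy => ⟨hy.1.1, hy.2⟩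
  refine ⟨h, φ, U, O ∩ φ ⁻¹' N, hU, hφ.isOpen_inter_preimage hO hN, ⟨⟨hxU.1, hx⟩, hxU.2⟩,
    hh.mono hsub, hφ.mono Set.inter_subset_left, fun y hy => ⟨hhm (hsub hy), ?_⟩,
    fun z hz => ⟨⟨(hφm hz.1).1, hz.2⟩, (hφm hz.1).2⟩, fun y hy => hφh y (hsub hy),
    fun z hz => hhφ z hz.1⟩
  rw [Set.mem_preimage, hφh y (hsub hy)]
  exact hy.1.2

open Topology Filter in
theorem locS_of_manifold {K : AbstractSimplicialComplex V} {d : ℕ} (hd : 2 ≤ d)
    (hdim : HasDim K d) (h : IsConnManifold K) : LocS K d := by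
  obtain ⟨-, m, ⟨c⟩⟩ := h
  have hc : ∀ x ∈ realization K, LC (realization K) m x := fun x hx => lc_of_charted c hx
  obtain ⟨hm, hpure⟩ := pure_of_lc hc hdim
  intro w S hS F hF F' hF' hFc hFc' hwF hwF' hSF
  by_contra hSF'
  let U : (Finset V → Prop) → Set (V → ℝ) := fun P =>
    ⋃ t ∈ {t | t ∈ K.faces ∧ t.card = d ∧ w ∈ t ∧ P t}, Sx t
  have hU : ∀ P y, y ∈ U P ↔ ∃ t, (t ∈ K.faces ∧ t.card = d ∧ w ∈ t ∧ P t) ∧ y ∈ Sx t := by
    intro P y; simp only [U, Set.mem_iUnion, exists_prop]; rfl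
  have hUc : ∀ P, IsClosed (U P) := fun P =>
    (Set.toFinite _).isClosed_biUnion (fun t _ => isClosed_Sx t)
  have hcov : realization K ∩ Nb {w} ⊆ U S ∪ U (fun t => ¬ S t) := by
    rintro y ⟨hy, hy'⟩
    obtain ⟨s, hs, hy⟩ := mem_real.1 hy
    obtain ⟨t, ht, hst, htc⟩ := hpure s hs
    have hwt : w ∈ t := hst (sub_of_Nb hy' hy (mem_singleton_self w))
    by_cases h : S t
    · exact Or.inl ((hU _ _).2 ⟨t, ⟨ht, htc, hwt, h⟩, Sx_mono hst hy⟩)
    · exact Or.inr ((hU _ _).2 ⟨t, ⟨ht, htc, hwt, h⟩, Sx_mono hst hy⟩)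
  have hxs : ∀ s : Finset V, w ∈ s → bary {w} ∈ Sx s := fun s hs =>
    Sx_mono (singleton_subset_iff.2 hs) (bary_mem_Sx (singleton_nonempty w))
  have hcl : ∀ (Q : Finset V → Prop) (s : Finset V), s ∈ K.faces → s.card = d → w ∈ s → ¬ Q s →
      bary {w} ∈ closure ((realization K ∩ Nb {w}) \ U Q) := by
    intro Q s hs hsc hws hQ
    apply mem_closure_of_tendsto (tendsto_seg (bary {w}) (bary s))
    have hlt : ∀ᶠ t : ℝ in 𝓝[>] 0, t < 1 := nhdsWithin_le_nhds (Iio_mem_nhds one_pos)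
    filter_upwards [hlt, self_mem_nhdsWithin] with t h1 h0
    have h0 : 0 < t := h0
    have hpos : (1 - t) • bary {w} + t • bary s ∈ Nb s := fun v hv => by
      have := (hxs s hws).1 v
      have := bary_pos hv
      have : 0 ≤ 1 - t := by linarith
      simp only [Pi.add_apply, Pi.smul_apply, smul_eq_mul]
      positivity
    refine ⟨⟨mem_real.2 ⟨s, hs, Sx_convex (hxs s hws) (bary_mem_Sx (face_nonempty hs)) h0.le h1.le⟩,
      fun v hv => hpos v (mem_singleton.1 hv ▸ hws)⟩, ?_⟩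
    intro h
    obtain ⟨s', ⟨-, hsc', -, hQs⟩, hy⟩ := (hU _ _).1 h
    rw [← Finset.eq_of_subset_of_card_le (sub_of_Nb hpos hy) (by omega)] at hQs
    exact hQ hQs
  refine ((hc _ (bary_mem_real (K.singleton_mem w))).restrict (isOpen_Nb {w})
    (bary_mem_Nb {w})).nosep (by omega) (hUc _) (hUc _) hcov ?_
    (hcl _ F' hF' hFc' hwF' hSF') (hcl _ F hF hFc hwF (not_not.2 hSF))
  rintro y ⟨hy1, hy2⟩
  obtain ⟨s, ⟨hs, hsc, hws, hPs⟩, hys⟩ := (hU _ _).1 hy1
  obtain ⟨s', ⟨hs', hsc', hws', hPs'⟩, hys'⟩ := (hU _ _).1 hy2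
  refine ⟨s ∩ s', ?_, hys.2.1, fun v hv => ?_⟩
  · by_contra hlt
    push Not at hlt
    have hne : s ≠ s' := fun e => hPs' (e ▸ hPs)
    obtain ⟨z, hz, hz'⟩ : ∃ z ∈ s, z ∉ s' := by
      by_contra h
      push Not at h
      exact hne (Finset.eq_of_subset_of_card_le h (by omega))
    obtain ⟨z', hw, hw'⟩ : ∃ z ∈ s', z ∉ s := by
      by_contra h
      push Not at h
      exact hne (Finset.eq_of_subset_of_card_le h (by omega)).symm
    have a1 : z ∉ s ∩ s' := fun h => hz' (Finset.mem_inter.1 h).2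
    have a2 : z' ∉ s ∩ s' := fun h => hw' (Finset.mem_inter.1 h).1
    have b1 : insert z (s ∩ s') = s := Finset.eq_of_subset_of_card_le
      (Finset.insert_subset hz Finset.inter_subset_left)
      (by rw [Finset.card_insert_of_notMem a1]; omega)
    have b2 : insert z' (s ∩ s') = s' := Finset.eq_of_subset_of_card_le
      (Finset.insert_subset hw Finset.inter_subset_right)
      (by rw [Finset.card_insert_of_notMem a2]; omega)
    have := hS (s ∩ s') z z' (mem_inter.2 ⟨hws, hws'⟩)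
      (by rw [← Finset.card_insert_of_notMem a1, b1, hsc]) a1 a2
      (by rwa [b1]) (by rwa [b2]) (by rwa [b1])
    rw [b2] at this
    exact hPs' this
  · rw [Finset.mem_inter, not_and_or] at hv
    exact hv.elim (hys.2.2 v) (hys'.2.2 v)

omit [Fintype V] [DecidableEq V] in
lemma exists_section (Zs B : Submodule ℝ (V → V → ℝ)) :
    ∃ σ : Zs.map B.mkQ →ₗ[ℝ] V → V → ℝ, (∀ h, σ h ∈ Zs) ∧ ∀ h, σ h ∈ B → h = 0 := by
  obtain ⟨g, hg⟩ := (B.mkQ.submoduleMap Zs).exists_rightInverse_of_surjective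
    (LinearMap.range_eq_top.2 (LinearMap.submoduleMap_surjective _ _))
  refine ⟨Zs.subtype ∘ₗ g, fun h => (g h).2, fun h hh => ?_⟩
  have := congrArg Subtype.val (LinearMap.congr_fun hg h)
  exact Subtype.ext (this.symm.trans ((Submodule.Quotient.mk_eq_zero B).2 hh))

theorem main_betti {k : ℕ} (hk : 3 ≤ k) {K : AbstractSimplicialComplex V} {φ : V → V}
    (hφ : ∀ v, φ (φ v) = v) (hK : ∀ s ∈ K.faces, s.image φ ∈ K.faces ∧ s.image φ ≠ s)
    (h : PM K (k + 1)) (hl : LocS K (k + 1)) (hne : ∃ s, s ∈ K.faces) :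
    (k + 1) * Fintype.card V + 2 * ((k + 1).choose 2 * symBetti K φ (-1)) +
      2 * ((k + 1) * symBetti K φ 1) ≤ 2 * (k + 1) + numFaces K 2 := by
  classical
  let _ : FreeNeg V :=
    { neg := φ
      neg_neg := hφ
      neg_ne := fun x hx => (hK {x} (K.singleton_mem x)).2 (by
        rw [image_singleton]; exact congrArg _ hx) }
  let T : Finset (Finset V) := univ.filter (fun s => s ∈ K.faces ∧ s.card = k + 1)
  have hT : ∀ s, s ∈ T ↔ s ∈ K.faces ∧ s.card = k + 1 := fun s => by simp [T]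
  have hsym : ∀ F ∈ T, -F ∈ T := fun F hF =>
    (hT _).2 ⟨(hK F ((hT F).1 hF).1).1, by rw [card_neg, ((hT F).1 hF).2]⟩
  have hfaces : ∀ s, s ∈ K.faces ↔ s.Nonempty ∧ ∃ F ∈ T, s ⊆ F := by
    intro s
    constructor
    · intro hs
      obtain ⟨t, ht, hst, htc⟩ := h.pure s hs
      exact ⟨face_nonempty hs, t, (hT t).2 ⟨ht, htc⟩, hst⟩
    · rintro ⟨h1, F, hF, h2⟩
      exact face_down ((hT F).1 hF).1 h2 h1
  have hrid : ∀ (R : Finset V) z, z ∉ R → insert z R ∈ T → R ∈ K.faces ∧ R.card + 1 = k + 1 := by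
    intro R z hz hR
    have h1 := (hT _).1 hR
    rw [card_insert_of_notMem hz] at h1
    exact ⟨face_down h1.1 (subset_insert _ _) (card_pos.1 (by omega)), h1.2⟩
  have hr : ∀ R z, z ∉ R → insert z R ∈ T → ∃ z1 z2, z1 ≠ z2 ∧ z1 ∉ R ∧ z2 ∉ R ∧
      insert z1 R ∈ T ∧ insert z2 R ∈ T ∧ ∀ z, z ∉ R → insert z R ∈ T → z = z1 ∨ z = z2 := by
    intro R z hz hzT
    obtain ⟨hR, hRc⟩ := hrid R z hz hzT
    obtain ⟨z1, z2, h12, h1, h2, f1, f2, hall⟩ := h.ridge R hR hRc
    exact ⟨z1, z2, h12, h1, h2, (hT _).2 ⟨f1, by rw [card_insert_of_notMem h1, hRc]⟩,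
      (hT _).2 ⟨f2, by rw [card_insert_of_notMem h2, hRc]⟩,
      fun z hz hzT => hall z hz ((hT _).1 hzT).1⟩
  have hgood : Good (k + 1) T :=
    { card := fun F hF => ((hT F).1 hF).2
      af := fun F hF x hx hx' => by
        have h1 : {x, -x} ∈ K.faces := face_down ((hT F).1 hF).1
          (insert_subset hx (singleton_subset_iff.2 hx')) (insert_nonempty _ _)
        apply (hK _ h1).2
        change -({x, -x} : Finset V) = _
        ext y; simp [or_comm] }
  have hv : ∀ x, ∃ F ∈ T, x ∈ F := fun x => by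
    obtain ⟨-, F, hF, hs⟩ := (hfaces {x}).1 (K.singleton_mem x)
    exact ⟨F, hF, hs (mem_singleton_self x)⟩
  have hcirc : Circ (k + 1) T := by
    obtain ⟨a, b⟩ := cyc_min_of_ridge hr (fun S hS F hF F' hF' =>
      h.strong S (fun R z z' hR hz hz' f1 f2 =>
        hS R z z' hz hz' ((hT _).2 ⟨f1, by rw [card_insert_of_notMem hz, hR]⟩)
          ((hT _).2 ⟨f2, by rw [card_insert_of_notMem hz', hR]⟩))
        F ((hT _).1 hF).1 F' ((hT _).1 hF').1 ((hT _).1 hF).2 ((hT _).1 hF').2)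
    obtain ⟨s, hs⟩ := hne
    obtain ⟨-, F, hF, -⟩ := (hfaces s).1 hs
    exact ⟨hgood, ⟨F, hF⟩, a, b⟩
  have hL : ∀ w, Circ k (lkF T w) := by
    intro w
    obtain ⟨a, b⟩ := cyc_min_of_ridge (T := lkF T w) (by
      intro R z hz hR
      rw [mem_lkF, mem_insert, not_or, Finset.insert_comm] at hR
      obtain ⟨z1, z2, h12, h1, h2, f1, f2, hall⟩ := hr (insert w R) z
        (by rw [mem_insert, not_or]; exact ⟨Ne.symm hR.1.1, hz⟩) hR.2
      rw [mem_insert, not_or] at h1 h2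
      refine ⟨z1, z2, h12, h1.2, h2.2, ?_, ?_, fun y hy hyR => ?_⟩
      · rw [mem_lkF, mem_insert, not_or, Finset.insert_comm]
        exact ⟨⟨Ne.symm h1.1, hR.1.2⟩, f1⟩
      · rw [mem_lkF, mem_insert, not_or, Finset.insert_comm]
        exact ⟨⟨Ne.symm h2.1, hR.1.2⟩, f2⟩
      · rw [mem_lkF, mem_insert, not_or, Finset.insert_comm] at hyR
        exact hall y (by rw [mem_insert, not_or]; exact ⟨Ne.symm hyR.1.1, hy⟩) hyR.2) (by
      intro S hS R hR R' hR' hSR
      rw [mem_lkF] at hR hR'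
      have := hl w (fun F => S (F.erase w)) (by
        intro Q z z' hw hQ hz hz' f1 f2
        have e : ∀ y, y ∉ Q → (insert y Q).erase w = insert y (Q.erase w) := fun y hy =>
          erase_insert_of_ne fun e => hy (e ▸ hw)
        have g : ∀ y, y ∉ Q → insert y Q ∈ K.faces → insert y (Q.erase w) ∈ lkF T w := by
          intro y hy f
          rw [← e y hy, mem_lkF, insert_erase (mem_insert_of_mem hw)]
          exact ⟨notMem_erase _ _, (hT _).2 ⟨f, by rw [card_insert_of_notMem hy, hQ]⟩⟩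
        rw [e z hz, e z' hz']
        exact hS _ z z' (fun a => hz (mem_of_mem_erase a)) (fun a => hz' (mem_of_mem_erase a))
          (g z hz f1) (g z' hz' f2))
        _ ((hT _).1 hR.2).1 _ ((hT _).1 hR'.2).1 ((hT _).1 hR.2).2 ((hT _).1 hR'.2).2
        (mem_insert_self _ _) (mem_insert_self _ _) (by rwa [erase_insert hR.1])
      rwa [erase_insert hR'.1] at this)
    obtain ⟨F, hF, hw⟩ := hv w
    refine ⟨⟨fun R hR => ?_, fun R hR => ?_⟩,
      ⟨F.erase w, mem_lkF.2 ⟨notMem_erase _ _, by rwa [insert_erase hw]⟩⟩, a, b⟩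
    · rw [mem_lkF] at hR
      have := hgood.card _ hR.2
      rw [card_insert_of_notMem hR.1] at this
      omega
    · exact (hgood.af _ (mem_lkF.1 hR).2).mono (subset_insert _ _)
  obtain ⟨σm, hm1, hm2⟩ := exists_section (symCocycles K φ (-1)) (coboundaries K)
  obtain ⟨σp, hp1, hp2⟩ := exists_section (symCocycles K φ 1) (coboundaries K)
  have tri : ∀ F ∈ T, ∀ x ∈ F, ∀ y ∈ F, ∀ z ∈ F, {x, y, z} ∈ K.faces := fun F hF x hx y hy z hz =>
    (hfaces _).2 ⟨insert_nonempty _ _, F, hF,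
      insert_subset hx (insert_subset hy (singleton_subset_iff.2 hz))⟩
  have edge : ∀ w x, x ∈ vs (lkF T w) → {w, x} ∈ K.faces ∧ {x, w} ∈ K.faces ∧
      {-x, -w} ∈ K.faces ∧ {-w, -x} ∈ K.faces ∧ ∀ ε, ∀ c ∈ symCocycles K φ ε, c x w = - c w x := by
    intro w x hx
    obtain ⟨-, F, hF, h1, h2⟩ := mem_vs_lkF.1 hx
    have two : ∀ F ∈ T, ∀ a ∈ F, ∀ b ∈ F, {a, b} ∈ K.faces := fun F hF a ha b hb =>
      (hfaces _).2 ⟨insert_nonempty _ _, F, hF, insert_subset ha (singleton_subset_iff.2 hb)⟩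
    have n1 : -w ∈ -F := Finset.mem_neg'.2 (by rwa [neg_neg])
    have n2 : -x ∈ -F := Finset.mem_neg'.2 (by rwa [neg_neg])
    refine ⟨two F hF w h1 x h2, two F hF x h2 w h1, two _ (hsym F hF) _ n2 _ n1,
      two _ (hsym F hF) _ n1 _ n2, fun ε c hc => ?_⟩
    have a1 := hc.1 w w w (tri F hF w h1 w h1 w h1)
    have a2 := hc.1 w x w (tri F hF w h1 x h2 w h1)
    linarith
  have cob : ∀ (c : V → V → ℝ) (f : V → ℝ), (∀ F ∈ T, ∀ x ∈ F, ∀ y ∈ F, c x y = f y - f x) →
      c ∈ coboundaries K := by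
    intro c f hf
    refine ⟨f, fun x y hxy => ?_⟩
    obtain ⟨-, F, hF, hs⟩ := (hfaces _).1 hxy
    exact hf F hF x (hs (by simp)) y (hs (by simp))
  have m2 : ∀ h x y, σm h (-x) (-y) = - σm h x y := fun h x y =>
    ((hm1 h).2.1 x y).trans (neg_one_mul _)
  have p2 : ∀ h x y, σp h (-x) (-y) = σp h x y := fun h x y =>
    ((hp1 h).2.1 x y).trans (one_mul _)
  have hc := core_betti hk hcirc hsym (fun x => mem_vs.2 (hv x)) hL σm σp
    (fun h F hF x hx y hy z hz => (hm1 h).1 x y z (tri F hF x hx y hy z hz))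
    (fun h F hF x hx y hy z hz => (hp1 h).1 x y z (tri F hF x hx y hy z hz)) m2 p2
    (by
      intro h w x x' h1 h2 h3 h4
      have a := edge w _ h2
      have b := edge w _ h4
      rw [neg_neg] at a b
      have s : σm h w x + σm h x (-w) + σm h (-w) x' + σm h x' w = 0 :=
        (hm1 h).2.2 w x x' (edge w x h1).1 a.2.2.1 b.2.2.2.1 (edge w x' h3).2.1
      have e1 := m2 h (-x) w
      have e2 := m2 h w (-x')
      rw [neg_neg] at e1 e2
      have e3 := a.2.2.2.2 _ _ (hm1 h)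
      have e4 := (edge w x' h3).2.2.2.2 _ _ (hm1 h)
      linarith)
    (by
      intro h w x h1 h2
      have a := edge w _ h2
      rw [neg_neg] at a
      have s : σp h w x + σp h x (-w) + σp h (-w) (-x) + σp h (-x) w = 0 :=
        (hp1 h).2.2 w x (-x) (edge w x h1).1 a.2.2.1 (edge w x h1).2.2.2.1 a.2.1
      have e1 := p2 h (-x) w
      have e2 := p2 h w x
      rw [neg_neg] at e1
      have e3 := a.2.2.2.2 _ _ (hp1 h)
      linarith)
    (fun h f hf => hm2 h (cob _ f hf)) (fun h f hf => hp2 h (cob _ f hf))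
  rw [ec_eq K (gr_iff K hsym hfaces)] at hc
  unfold symBetti
  nlinarith

end cx

end Pool.Agent.MP_d539bc_co
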