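import Pool.Agent.Mg.F5cfbf6.Gd9f95d

/-! Rigidity of vertex stars for even motions, patching of twisted motions, counting. -/

namespace Pool.Agent.MP_d539bc_co

open Finset Module
open scoped Pointwise

variable {V : Type} [Fintype V] [DecidableEq V] [FreeNeg V]

section count

variable {A : Type} [AddCommGroup A] [Module ℝ A] [FiniteDimensional ℝ A]

/-- common kernel of the functionals attached to the edges -/
def Kf (f : V → V → Dual ℝ A) (G : V → V → Prop) : Submodule ℝ A :=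
  Z (fun e : {e : V × V // G e.1 e.2} => f e.1.1 e.1.2)

omit [Fintype V] [DecidableEq V] [FreeNeg V] [FiniteDimensional ℝ A] in
lemma mem_Kf {f : V → V → Dual ℝ A} {G : V → V → Prop} {a : A} :
    a ∈ Kf f G ↔ ∀ x y, G x y → f x y a = 0 := by
  simp [Kf, mem_Z]

theorem count_Kf (f : V → V → Dual ℝ A) {G₀ : V → V → Prop}
    (hs : ∀ x y, G₀ x y → ∀ a, f y x a = f x y a)
    (hn : ∀ x y, G₀ x y → ∀ a, f (-x) (-y) a = - f x y a) :
    ∀ n, ∀ G : V → V → Prop, ec G = n → SG G → G ≤ G₀ →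
      4 * finrank ℝ A ≤ 4 * finrank ℝ (Kf f G) + ec G := by
  intro n
  induction n using Nat.strong_induction_on with
  | _ n ih =>
    intro G hG hsg hle
    by_cases h : ∃ x y, G x y
    · obtain ⟨x, y, hxy⟩ := h
      have e1 := ec_rem hsg hxy
      have e3 := ih _ (by omega) (rem G x y) rfl (hsg.rem (hsg.ne_neg hxy))
        ((rem_le G x y).trans hle)
      have h1 := finrank_le_inf_ker_add (Kf f (rem G x y)) (f x y)
      have h2 : Kf f (rem G x y) ⊓ LinearMap.ker (f x y) ≤ Kf f G := by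
        rintro a ⟨ha, h0⟩
        have h0 : f x y a = 0 := h0
        have ha := mem_Kf.1 ha
        rw [mem_Kf]
        intro u v huv
        by_cases hk : kq {x, y} u v
        · rcases (kq_pair_iff (hsg.ne hxy)).1 hk with ⟨rfl, rfl⟩ | ⟨rfl, rfl⟩ | ⟨rfl, rfl⟩ |
            ⟨rfl, rfl⟩
          · exact h0
          · rw [hs _ _ (hle _ _ hxy), h0]
          · rw [hn _ _ (hle _ _ hxy), h0, neg_zero]
          · rw [hn _ _ (hle _ _ (hsg.symm hxy)), hs _ _ (hle _ _ hxy), h0, neg_zero]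
        · exact ha u v ⟨huv, hk⟩
      have h3 := Submodule.finrank_mono h2
      rw [finrank_self] at h1
      omega
    · have : Kf f G = ⊤ := eq_top_iff.2 fun a _ => mem_Kf.2 fun x y hxy => (h ⟨x, y, hxy⟩).elim
      rw [this, finrank_top]
      omega

end count

variable {d : ℕ}

omit [Fintype V] [DecidableEq V] in
lemma Generic.ext_E {p : V → E d} (hp : Generic p) {F : Finset V} (hF : AF F) (hc : F.card = d)
    {n : ℕ} (f : E d →ₗ[ℝ] E n) (h : ∀ x ∈ F, f (p x) = 0) : f = 0 := by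
  refine LinearMap.ext fun a => funext fun i => ?_
  have := hp.gp1 F hF hc (LinearMap.proj i ∘ₗ f) (fun x hx => by simp [h x hx])
  simpa using LinearMap.congr_fun this a

omit [Fintype V] [DecidableEq V] in
lemma pair_zero {q : V → E d} (hq : OddF q) {m : Mot V d} {B : E d →ₗ[ℝ] Du d} {b : Du d} {x : V}
    (b1 : m (cls x) = B (q x) + b) (b2 : m (cls (-x)) = B (q (-x)) + b) : B (q x) = 0 := by
  rw [cls_neg, hq, map_neg, b1, add_left_inj] at b2
  have : (2 : ℝ) • B (q x) = 0 := by rw [two_smul]; nth_rewrite 1 [b2]; abel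
  simpa using this

omit [DecidableEq V] in
theorem finrank_triv_le {p q : V → E d} (hp : Generic p) (hq : OddF q) {W F : Finset V}
    (hF : AF F) (hc : F.card = d) (hFW : F ⊆ W)
    (hN : ∀ B : E d →ₗ[ℝ] Du d, Alt B → (∀ x ∈ W, -x ∈ W → B (q x) = 0) →
      ∀ x ∈ W, -x ∈ W → B (p x) = 0) :
    finrank ℝ (Triv q W) ≤ finrank ℝ (Triv p W) := by
  classical
  let 𝒢 : Submodule ℝ (Mot V d × (E d →ₗ[ℝ] Du d) × Du d) :=
    { carrier := {t | Alt t.2.1 ∧ ∀ x ∈ W, t.1 (cls x) = t.2.1 (q x) + t.2.2}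
      add_mem' := by
        rintro ⟨m, B, b⟩ ⟨m', B', b'⟩ ⟨h1, h2⟩ ⟨h1', h2'⟩
        refine ⟨fun w => by simpa using by rw [h1 w, h1' w, add_zero], fun x hx => ?_⟩
        have e1 := h2 x hx
        have e2 := h2' x hx
        simp only [Prod.mk_add_mk, Pi.add_apply, LinearMap.add_apply] at e1 e2 ⊢
        rw [e1, e2]; abel
      zero_mem' := ⟨fun w => by simp, fun x _ => by simp⟩
      smul_mem' := by
        rintro c ⟨m, B, b⟩ ⟨h1, h2⟩
        refine ⟨fun w => by simpa using Or.inr (h1 w), fun x hx => ?_⟩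
        have e1 := h2 x hx
        simp only [Prod.smul_mk, Pi.smul_apply, LinearMap.smul_apply] at e1 ⊢
        rw [e1, smul_add] }
  let δ : Cl V → E d := fun c =>
    if h : ∃ x ∈ W, cls x = c then p h.choose - q h.choose else 0
  have hδ : ∀ x ∈ W, δ (cls x) = p x - q x ∨ (-x ∈ W ∧ δ (cls x) = p (-x) - q (-x)) := by
    intro x hx
    have h : ∃ y ∈ W, cls y = cls x := ⟨x, hx, rfl⟩
    have e : δ (cls x) = p h.choose - q h.choose := dif_pos h
    rcases cls_eq.1 h.choose_spec.2 with e' | e'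
    · left; rw [e, e']
    · right; exact ⟨e' ▸ h.choose_spec.1, by rw [e, e']⟩
  let π1 : (Mot V d × (E d →ₗ[ℝ] Du d) × Du d) →ₗ[ℝ] Mot V d := LinearMap.fst ℝ _ _
  let π2 : (Mot V d × (E d →ₗ[ℝ] Du d) × Du d) →ₗ[ℝ] Mot V d :=
    LinearMap.fst ℝ _ _ + LinearMap.pi (fun c =>
      LinearMap.applyₗ (δ c) ∘ₗ LinearMap.fst ℝ _ _ ∘ₗ LinearMap.snd ℝ _ _)
  have hπ2 : ∀ t c, π2 t c = t.1 c + t.2.1 (δ c) := fun t c => rfl
  have key : ∀ t ∈ 𝒢, ∀ x ∈ W, π2 t (cls x) = t.2.1 (p x) + t.2.2 := by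
    rintro ⟨m, B, b⟩ ⟨hB, hm⟩ x hx
    simp only at hB hm
    rw [hπ2]
    rcases hδ x hx with e | ⟨hx', e⟩
    · simp only [e, hm x hx, map_sub]; abel
    · have hq0 : ∀ y ∈ W, -y ∈ W → B (q y) = 0 := fun y hy hy' =>
        pair_zero hq (hm y hy) (hm _ hy')
      have hp0 := hN B hB hq0 x hx hx'
      simp only [e, hm x hx, map_sub, hp.odd x, hq x, map_neg, hq0 x hx hx', hp0]
      simp
  have e1 : Triv q W ≤ 𝒢.map π1 := by
    rintro m ⟨B, b, hB, hm⟩
    exact ⟨(m, B, b), ⟨hB, hm⟩, rfl⟩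
  have e2 : 𝒢.map π2 ≤ Triv p W := by
    rintro _ ⟨t, ht, rfl⟩
    exact ⟨t.2.1, t.2.2, ht.1, key t ht⟩
  have e3 : ∀ t ∈ 𝒢, π2 t = 0 → π1 t = 0 := by
    intro t ht h0
    have hB := (hp.uniq hF hc (B := t.2.1) (B' := 0) (b := t.2.2) (b' := 0) ht.1 (fun w => by simp)
      (fun x hx => by rw [← key t ht x (hFW hx), h0]; simp)).1
    funext c
    have := hπ2 t c
    rw [h0, hB] at this
    change t.1 c = 0
    simpa using this.symm
  have e4 := finrank_map_le_of_ker (A := Mot V d) (C := Mot V d × (E d →ₗ[ℝ] Du d) × Du d)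
    𝒢 π1 π2 e3
  exact (Submodule.finrank_mono e1).trans (e4.trans (Submodule.finrank_mono e2))

omit [Fintype V] in
lemma exists_comparable {k : ℕ} {U F : Finset V} (hF : AF F) (hc : F.card = k) (hFU : F ⊆ U) :
    ∃ D : Finset V, AF D ∧ D.card = k ∧ D ⊆ U ∧
      ((∀ x ∈ U, -x ∈ U → x ∈ D ∨ -x ∈ D) ∨ ∀ x ∈ D, -x ∈ U) := by
  classical
  obtain ⟨D, hD, hmax⟩ := exists_max_image (U.powerset.filter fun D => AF D ∧ D.card = k)
    (fun D => (D.filter fun x => -x ∈ U).card) ⟨F, by simp [hF, hc, hFU]⟩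
  simp only [mem_filter, mem_powerset] at hD hmax
  refine ⟨D, hD.2.1, hD.2.2, hD.1, ?_⟩
  by_contra hcon
  push Not at hcon
  obtain ⟨⟨x, hx, hx', h1, h2⟩, y, hy, hy'⟩ := hcon
  have h3 : x ∉ D.erase y := fun h => h1 (mem_of_mem_erase h)
  have := hmax (insert x (D.erase y)) ⟨insert_subset hx ((erase_subset _ _).trans hD.1),
    (hD.2.1.mono (erase_subset _ _)).insert (fun h => h2 (mem_of_mem_erase h)), by
      rw [card_insert_of_notMem h3, card_erase_add_one hy, hD.2.2]⟩
  rw [filter_insert, if_pos hx', card_insert_of_notMem (fun h => h3 (mem_filter.1 h).1),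
    filter_erase, erase_eq_of_notMem (a := y) (fun h => hy' (mem_filter.1 h).2)] at this
  omega

/-- even motions of a cone over a circuit are trivial -/
theorem star_rigid {k : ℕ} {p : V → E (k + 1)} (hp : Generic p) (hk : 3 ≤ k)
    {L : Finset (Finset V)} (hL : Circ k L) {w : V} (hw : ∀ x ∈ vs L, x ≠ w ∧ x ≠ -w)
    {G : V → V → Prop} (h1 : gr L ≤ G) (h2 : ∀ x ∈ vs L, G x w)
    (h3 : G ≤ kq (insert w (vs L))) : K p G ≤ Triv p (insert w (vs L)) := by
  classical
  obtain ⟨q', hq'⟩ := exists_generic (V := V) k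
  obtain ⟨F0, hF0⟩ := hL.nonempty
  obtain ⟨D, hD, hDc, hDU, hcmp⟩ :=
    exists_comparable (hL.af F0 hF0) (hL.card F0 hF0) (subset_vs hF0)
  have hwD : w ∉ D := fun h => (hw w (hDU h)).1 rfl
  have hF : AF (insert w D) := hD.insert fun h => (hw _ (hDU h)).2 rfl
  have hFc : (insert w D).card = k + 1 := by rw [card_insert_of_notMem hwD, hDc]
  choose φ' hφ' using fun x : V => hq'.exists_dual hD hDc (fun y => if x = y then 1 else 0)
  choose φ hφ using fun x : V => hp.exists_dual hF hFc (fun y => if x = y then 1 else 0)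
  obtain ⟨ι, hι⟩ : ∃ ι : E k →ₗ[ℝ] E (k + 1), ∀ y ∈ D, ι (q' y) = p y := by
    refine ⟨∑ x ∈ D, (φ' x).smulRight (p x), fun y hy => ?_⟩
    simp only [LinearMap.sum_apply, LinearMap.smulRight_apply]
    rw [sum_congr rfl (fun x _ => by rw [hφ' x y hy])]
    simp [hy]
  obtain ⟨π, hπ, hπw⟩ : ∃ π : E (k + 1) →ₗ[ℝ] E k, (∀ y ∈ D, π (p y) = q' y) ∧ π (p w) = 0 := by
    refine ⟨∑ x ∈ D, (φ x).smulRight (q' x), fun y hy => ?_, ?_⟩
    · simp only [LinearMap.sum_apply, LinearMap.smulRight_apply]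
      rw [sum_congr rfl (fun x _ => by rw [hφ x y (mem_insert_of_mem hy)])]
      simp [hy]
    · simp only [LinearMap.sum_apply, LinearMap.smulRight_apply]
      refine sum_eq_zero fun x hx => ?_
      rw [hφ x w (mem_insert_self _ _), if_neg (fun e : x = w => hwD (e ▸ hx)), zero_smul]
  obtain ⟨τ, hτ, hτw⟩ : ∃ τ : Du (k + 1), (∀ y ∈ D, τ (p y) = 0) ∧ τ (p w) = 1 :=
    ⟨φ w, fun y hy => by
      rw [hφ w y (mem_insert_of_mem hy), if_neg (fun e : w = y => hwD (e ▸ hy))],
      by rw [hφ w w (mem_insert_self _ _), if_pos rfl]⟩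
  have hπι : ∀ a, π (ι a) = a := by
    intro a
    have := hq'.ext_E hD hDc (π ∘ₗ ι - LinearMap.id) (fun x hx => by simp [hι x hx, hπ x hx])
    simpa [sub_eq_zero] using LinearMap.congr_fun this a
  have hτι : ∀ a, τ (ι a) = 0 := by
    intro a
    have := hq'.gp1 D hD hDc (τ ∘ₗ ι) (fun x hx => by simp [hι x hx, hτ x hx])
    simpa using LinearMap.congr_fun this a
  have hdec : ∀ a, a = ι (π a) + τ a • p w := by
    intro a
    have := hp.ext_E hF hFc (LinearMap.id - (ι ∘ₗ π + τ.smulRight (p w))) (fun x hx => by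
      rcases mem_insert.1 hx with rfl | hx
      · simp [hπw, hτw]
      · simp [hι x hx, hπ x hx, hτ x hx])
    simpa [sub_eq_zero] using LinearMap.congr_fun this a
  let q : V → E (k + 1) := fun x => if x = w then p w else if x = -w then -p w else ι (q' x)
  have hqw : q w = p w := if_pos rfl
  have hqx : ∀ x, x ≠ w → x ≠ -w → q x = ι (q' x) := fun x a b => by simp [q, a, b]
  have hq : OddF q := by
    intro x
    by_cases e1 : x = w
    · subst e1; simp [q, neg_ne']
    by_cases e2 : x = -w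
    · subst e2; simp [q, neg_ne']
    have e3 : -x ≠ w := fun h => e2 (by rw [← h, neg_neg])
    rw [hqx x e1 e2, hqx _ e3 (by simpa using e1), hq'.odd x, map_neg]
  have s1 : K q G ≤ Triv q (insert w (vs L)) := by
    intro m hm
    rw [mem_K] at hm
    let m' : Mot V k := fun c => (m c - m (cls w)) ∘ₗ ι
    have hm' : m' ∈ K q' (gr L) := by
      rw [mem_K]
      have base : ∀ x ∈ vs L, ∀ y ∈ vs L, gr L x y → ell x y q' m' = 0 := by
        intro x hx y hy hxy
        have := hm x y (h1 x y hxy)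
        rw [ell_apply, hqx x (hw x hx).1 (hw x hx).2, hqx y (hw y hy).1 (hw y hy).2] at this
        simp only [ell_apply, m', LinearMap.sub_apply, LinearMap.comp_apply, map_sub] at this ⊢
        linarith
      intro x y hxy
      obtain ⟨F, hF, -, h | h⟩ := id hxy
      · exact base x (subset_vs hF h.1) y (subset_vs hF h.2) hxy
      · have := base _ (subset_vs hF h.1) _ (subset_vs hF h.2) ((sg_gr hL.af).neg hxy)
        rwa [ell_neg hq'.odd, neg_eq_zero] at this
    obtain ⟨B', b', hB', hmB⟩ := rigid hq' hk L hL hm'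
    let B : E (k + 1) →ₗ[ℝ] Du (k + 1) :=
      B'.compl₁₂ π π + (b' ∘ₗ π).smulRight τ - τ.smulRight (b' ∘ₗ π)
    have hB : ∀ a a2, B a a2 = B' (π a) (π a2) + b' (π a) * τ a2 - τ a * b' (π a2) := by
      intro a a2
      simp [B]
    refine ⟨B, b' ∘ₗ π + m (cls w), fun a => by rw [hB, hB' (π a)]; ring, fun x hx => ?_⟩
    refine LinearMap.ext fun a => ?_
    rcases mem_insert.1 hx with rfl | hx
    · simp [hB, hqw, hπw, hτw]
    · have e1 := hm x w (h2 x hx)
      rw [ell_apply, hqx x (hw x hx).1 (hw x hx).2, hqw] at e1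
      have e2 := LinearMap.congr_fun (hmB x hx) (q' x)
      have e3 := LinearMap.congr_fun (hmB x hx) (π a)
      have e4 := congrArg (m (cls x)) (hdec a)
      have e5 := congrArg (m (cls w)) (hdec a)
      simp only [m', LinearMap.sub_apply, LinearMap.comp_apply, LinearMap.add_apply, map_sub,
        map_add, map_smul, smul_eq_mul, hB' (q' x)] at e1 e2 e3 e4 e5
      rw [hqx x (hw x hx).1 (hw x hx).2]
      simp only [LinearMap.add_apply, LinearMap.comp_apply, hB, hπι, hτι]
      have e6 : m (cls x) (p w) - m (cls w) (p w) = b' (q' x) := by linarith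
      linear_combination e4 - e5 + e3 + τ a * e6
  have s2 : finrank ℝ (Triv q (insert w (vs L))) ≤ finrank ℝ (Triv p (insert w (vs L))) := by
    refine finrank_triv_le hp hq hF hFc (insert_subset_insert _ hDU) fun B hB h0 x hx hx' => ?_
    have hqD : ∀ y ∈ D, q y = p y := fun y hy => by
      rw [hqx y (hw y (hDU hy)).1 (hw y (hDU hy)).2, hι y hy]
    have hxU : ∀ y, y ∈ insert w (vs L) → -y ∈ insert w (vs L) → y ∈ vs L := by
      intro y hy hy'
      rcases mem_insert.1 hy with rfl | hy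
      · rcases mem_insert.1 hy' with e | e
        · exact (neg_ne' _ e).elim
        · exact ((hw _ e).2 rfl).elim
      · exact hy
    rcases hcmp with hc | hc
    · rcases hc x (hxU x hx hx') (hxU _ hx' (by rwa [neg_neg])) with h | h
      · rw [← hqD x h]; exact h0 x hx hx'
      · have := h0 _ hx' (by rwa [neg_neg])
        rwa [hqD _ h, hp.odd x, map_neg, neg_eq_zero] at this
    · have : B = 0 := hp.alt_zero hF hFc hB w fun y hy hyw => by
        have hy := (mem_insert.1 hy).resolve_left hyw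
        rw [← hqD y hy]
        exact h0 y (mem_insert_of_mem (hDU hy)) (mem_insert_of_mem (hc y hy))
      simp [this]
  exact (Submodule.eq_of_le_of_finrank_le (triv_le_K hp.odd h3)
    ((hp.min G q hq).trans ((Submodule.finrank_mono s1).trans s2))).ge

end Pool.Agent.MP_d539bc_co
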