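import Pool.Agent.MP_d539bc_co.Fog

/-! Symmetric graphs built by simplicial additions. -/

namespace Pool.Agent.MP_d539bc_co

open Finset
open scoped Pointwise

variable {V : Type} [DecidableEq V] [FreeNeg V] {d : ℕ}

structure AddS (d : ℕ) (G : V → V → Prop) (Q : Finset V) (x : V) : Prop where
  sg : SG G
  card : Q.card = d
  clique : Clique G Q
  iso : ∀ y, ¬ G x y
  notin : x ∉ Q
  negnotin : -x ∉ Q

inductive Built (d : ℕ) : Bool → (V → V → Prop) → Prop
  | baseA (Q : Finset V) : AF Q → Q.card = d → Built d false (kq Q)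
  | baseB (Q : Finset V) : AF Q → Q.card = d → Built d true (oct Q)
  | add (f : Bool) (G : V → V → Prop) (Q : Finset V) (x : V) : Built d f G → AddS d G Q x →
      Built d f (G ⊔ kq (insert x Q))

namespace AddS

variable {G : V → V → Prop} {Q : Finset V} {x : V} (h : AddS d G Q x)
include h

lemma af : AF (insert x Q) := (h.clique.af h.sg).insert h.negnotin

lemma sg' : SG (G ⊔ kq (insert x Q)) := h.sg.sup (sg_kq h.af)

omit [DecidableEq V] in
lemma ne_of_adj {a b : V} (hab : G a b) : a ≠ x ∧ a ≠ -x ∧ b ≠ x ∧ b ≠ -x := by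
  refine ⟨?_, ?_, ?_, ?_⟩ <;> rintro rfl
  · exact h.iso _ hab
  · exact h.iso _ (h.sg.neg_left hab)
  · exact h.iso _ (h.sg.symm hab)
  · exact h.iso _ (h.sg.neg_left (h.sg.symm hab))

lemma nbr {y : V} : (G ⊔ kq (insert x Q)) x y ↔ y ∈ Q := by
  constructor
  · rintro (h1 | ⟨h1, h2 | h2⟩)
    · exact absurd h1 (h.iso y)
    · exact (mem_insert.1 h2.2).resolve_left h1.symm
    · exact absurd h2.1 (h.af x (mem_insert_self _ _))
  · intro hy
    exact Or.inr ⟨fun e => h.notin (e ▸ hy), Or.inl ⟨mem_insert_self _ _, mem_insert_of_mem hy⟩⟩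

lemma old {a b : V} (hab : (G ⊔ kq (insert x Q)) a b) (h1 : a ≠ x) (h2 : a ≠ -x) (h3 : b ≠ x)
    (h4 : b ≠ -x) : G a b := by
  rcases hab with hab | ⟨hab, h5 | h5⟩
  · exact hab
  · exact h.clique a ((mem_insert.1 h5.1).resolve_left h1) b
      ((mem_insert.1 h5.2).resolve_left h3) hab
  · exact h.sg.neg' (h.clique _ ((mem_insert.1 h5.1).resolve_left (fun e => h2 (by rw [← e, neg_neg])))
      _ ((mem_insert.1 h5.2).resolve_left (fun e => h4 (by rw [← e, neg_neg]))) (by simpa using hab))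

lemma neg : AddS d G (-Q) (-x) where
  sg := h.sg
  card := by rw [card_neg, h.card]
  clique := h.clique.neg h.sg
  iso := fun y hy => h.iso _ (h.sg.neg_left hy)
  notin := by simpa [Finset.mem_neg'] using h.notin
  negnotin := by simpa [Finset.mem_neg'] using h.negnotin

omit h in
lemma kq_neg_insert (Q : Finset V) (x : V) : kq (insert (-x) (-Q)) = kq (insert x Q) := by
  rw [← kq_neg (insert x Q)]; congr 1; ext y; simp [Finset.mem_neg', neg_eq_iff_eq_neg]

lemma wlog (u : V) : ∃ Q' x', AddS d G Q' x' ∧ kq (insert x Q) = kq (insert x' Q') ∧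
    -u ∉ insert x' Q' := by
  by_cases hu : -u ∈ insert x Q
  · refine ⟨-Q, -x, h.neg, (kq_neg_insert Q x).symm, ?_⟩
    have := h.af _ hu
    simpa [Finset.mem_neg'] using this
  · exact ⟨Q, x, h, rfl, hu⟩

end AddS

lemma Built.sg {f : Bool} {G : V → V → Prop} (h : Built d f G) : SG G := by
  induction h with
  | baseA Q hQ _ => exact sg_kq hQ
  | baseB Q _ _ => exact sg_oct Q
  | add f G Q x _ h _ => exact h.sg'

omit [DecidableEq V] in
lemma kq_nbr {Q : Finset V} (hQ : AF Q) {u a b : V} (ha : kq Q u a) (hb : kq Q u b)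
    (hab : a ≠ b) : kq Q a b := by
  refine ⟨hab, ?_⟩
  rcases ha.2 with ha | ha <;> rcases hb.2 with hb | hb
  · exact Or.inl ⟨ha.2, hb.2⟩
  · exact absurd hb.1 (hQ u ha.1)
  · exact absurd ha.1 (hQ u hb.1)
  · exact Or.inr ⟨ha.2, hb.2⟩

lemma card_le_of_pm {S Q : Finset V} (hS : AF S) (h : ∀ x ∈ S, x ∈ Q ∨ -x ∈ Q) :
    S.card ≤ Q.card := by
  apply card_le_card_of_injOn (fun x => if x ∈ Q then x else -x)
  · intro x hx
    have := h x hx
    by_cases h1 : x ∈ Q
    · simp [h1]
    · simpa [h1] using this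
  · intro x hx y hy hxy
    simp only at hxy
    split_ifs at hxy with h1 h2 h2
    · exact hxy
    · exact absurd (show -y ∈ S from hxy ▸ hx) (hS y hy)
    · exact absurd (show -x ∈ S from hxy ▸ hy) (hS x hx)
    · exact neg_injective hxy

theorem Built.conn (hd : 3 ≤ d) {f : Bool} {G : V → V → Prop} (h : Built d f G) (u : V) :
    ∀ (A B : V → Prop) (R : Finset V), R.card + 2 ≤ d → (∀ y, G u y → A y ∨ B y ∨ y ∈ R) →
      (∀ a, A a → G u a) → (∀ b, B b → G u b) → (∀ a b, A a → B b → a ≠ b ∧ ¬ G a b) →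
      ∀ a b, A a → B b → False := by
  induction h with
  | baseA Q hQ _ =>
    intro A B R _ _ hA hB hAB a b ha hb
    exact (hAB a b ha hb).2 (kq_nbr hQ (hA a ha) (hB b hb) (hAB a b ha hb).1)
  | baseB Q hQ hc =>
    intro A B R hR hN hA hB hAB a b ha hb
    have key : ∀ a b, A a → B b → a = -b := by
      intro a b ha hb
      by_contra hne
      exact (hAB a b ha hb).2 ⟨(hAB a b ha hb).1, hne, (hA a ha).2.2.2, (hB b hb).2.2.2⟩
    have hab := key a b ha hb
    let Q' := Q.filter (fun y => y ≠ u ∧ y ≠ -u ∧ y ≠ a ∧ y ≠ -a)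
    have h1 : ∀ y, (y ∈ Q' ∨ -y ∈ Q') → y ∈ R := by
      intro y hy
      have hy' : (y ∈ Q ∨ -y ∈ Q) ∧ y ≠ u ∧ y ≠ -u ∧ y ≠ a ∧ y ≠ -a := by
        rcases hy with hy | hy
        · exact ⟨Or.inl (mem_filter.1 hy).1, (mem_filter.1 hy).2⟩
        · obtain ⟨e0, e1, e2, e3, e4⟩ := mem_filter.1 hy
          exact ⟨Or.inr e0, by simpa using e2, fun e => e1 (by rw [e, neg_neg]),
            by simpa using e4, fun e => e3 (by rw [e, neg_neg])⟩
      have : oct Q u y := ⟨hy'.2.1.symm, fun e => hy'.2.2.1 (by rw [e, neg_neg]),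
        (hA a ha).2.2.1, hy'.1⟩
      rcases hN y this with h' | h' | h'
      · exact absurd ((key y b h' hb).trans hab.symm) hy'.2.2.2.1
      · exact absurd (by rw [key a y ha h', neg_neg]) hy'.2.2.2.2
      · exact h'
    have h2 : (Q' ∪ -Q').card ≤ R.card := by
      apply card_le_card
      intro y hy
      apply h1
      simpa [Finset.mem_neg'] using hy
    have hQ' : AF Q' := hQ.mono (filter_subset _ _)
    rw [card_union_of_disjoint (disjoint_left.2 (fun y hy hy' =>
      hQ' y hy (Finset.mem_neg'.1 hy'))), card_neg] at h2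
    have h3 : (Q \ Q').card ≤ ({u, a} : Finset V).card := by
      apply card_le_of_pm (hQ.mono sdiff_subset)
      intro x hx
      obtain ⟨e1, e2⟩ := mem_sdiff.1 hx
      simp only [Q', mem_filter, e1, true_and] at e2
      simp only [mem_insert, mem_singleton, neg_eq_iff_eq_neg]
      tauto
    have h4 : (Q \ Q').card + Q'.card = Q.card :=
      card_sdiff_add_card_eq_card (filter_subset _ Q : Q' ⊆ Q)
    have h5 : ({u, a} : Finset V).card ≤ 2 := card_le_two
    omega
  | add f G Q x _ hS ih =>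
    obtain ⟨Q, x, hS, e, hu⟩ := hS.wlog u
    rw [e]
    have hsg := hS.sg'
    have hnx : ¬ (G ⊔ kq (insert x Q)) u (-x) := fun h =>
      hu (mem_insert_of_mem (hS.nbr.1 (hsg.symm (hsg.neg_right h))))
    have hux' : u ≠ -x := by rintro rfl; exact hu (by simp)
    by_cases hux : u = x
    · subst hux
      intro A B R _ _ hA hB hAB a b ha hb
      exact (hAB a b ha hb).2
        (Or.inl (hS.clique a (hS.nbr.1 (hA a ha)) b (hS.nbr.1 (hB b hb)) (hAB a b ha hb).1))
    have aux : ∀ (A B : V → Prop) (R : Finset V), R.card + 2 ≤ d →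
        (∀ y, (G ⊔ kq (insert x Q)) u y → A y ∨ B y ∨ y ∈ R) →
        (∀ a, A a → (G ⊔ kq (insert x Q)) u a) → (∀ b, B b → (G ⊔ kq (insert x Q)) u b) →
        (∀ a b, A a → B b → a ≠ b ∧ ¬ (G ⊔ kq (insert x Q)) a b) → ¬ B x →
        ∀ a b, A a → B b → False := by
      intro A B R hR hN hA hB hAB hBx a b ha hb
      have hih := ih (fun y => A y ∧ y ≠ x) B R hR
        (fun y hy => by
          have := hN y (Or.inl hy)
          have := (hS.ne_of_adj hy).2.2.1
          tauto)
        (fun a ha => hS.old (hA a ha.1) hux hux' ha.2 (fun e => hnx (e ▸ hA a ha.1)))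
        (fun b hb => hS.old (hB b hb) hux hux' (fun e => hBx (e ▸ hb)) (fun e => hnx (e ▸ hB b hb)))
        (fun a b ha hb => ⟨(hAB a b ha.1 hb).1, fun h => (hAB a b ha.1 hb).2 (Or.inl h)⟩)
      have hA' : ∀ a, A a → a = x := by
        intro a ha
        by_contra hne
        exact hih a b ⟨ha, hne⟩ hb
      have hax := hA' a ha
      subst hax
      have huQ : u ∈ Q := hS.nbr.1 (hsg.symm (hA a ha))
      obtain ⟨q, hq, hqR⟩ : ∃ q ∈ Q.erase u, q ∉ R := by
        apply exists_mem_notMem_of_card_lt_card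
        rw [card_erase_of_mem huQ, hS.card]; omega
      have hqQ := mem_of_mem_erase hq
      rcases hN q (Or.inl (hS.clique u huQ q hqQ (ne_of_mem_erase hq).symm)) with h' | h' | h'
      · exact hS.notin (hA' q h' ▸ hqQ)
      · exact (hAB a q ha h').2 (hS.nbr.2 hqQ)
      · exact hqR h'
    intro A B R hR hN hA hB hAB a b ha hb
    by_cases hBx : B x
    · exact aux B A R hR (fun y hy => by have := hN y hy; tauto) hB hA
        (fun b a hb ha => ⟨(hAB a b ha hb).1.symm, fun h => (hAB a b ha hb).2 (hsg.symm h)⟩)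
        (fun hAx => (hAB x x hAx hBx).1 rfl) b a hb ha
    · exact aux A B R hR hN hA hB hAB hBx a b ha hb

theorem Built.rename {f : Bool} {G : V → V → Prop} (h : Built d f G) (σ : V ≃ V)
    (hσ : ∀ x, σ (-x) = -σ x) : Built d f (fun a b => G (σ a) (σ b)) := by
  have hm : ∀ (Q : Finset V) x, x ∈ Q.map σ.symm.toEmbedding ↔ σ x ∈ Q := by
    intro Q x; rw [mem_map_equiv]; rfl
  have haf : ∀ Q : Finset V, AF Q → AF (Q.map σ.symm.toEmbedding) := by
    intro Q hQ x hx; rw [hm] at hx ⊢; rw [hσ]; exact hQ _ hx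
  have hkq : ∀ Q : Finset V, (fun a b => kq Q (σ a) (σ b)) = kq (Q.map σ.symm.toEmbedding) := by
    intro Q; funext a b; simp only [kq, hm, hσ, ne_eq, EmbeddingLike.apply_eq_iff_eq]
  induction h with
  | baseA Q hQ hc =>
    rw [hkq]; exact Built.baseA _ (haf Q hQ) (by rw [card_map, hc])
  | baseB Q hQ hc =>
    have : (fun a b => oct Q (σ a) (σ b)) = oct (Q.map σ.symm.toEmbedding) := by
      funext a b; simp only [oct, hm, ← hσ, ne_eq, EmbeddingLike.apply_eq_iff_eq]
    rw [this]; exact Built.baseB _ (haf Q hQ) (by rw [card_map, hc])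
  | add f G Q x _ hS ih =>
    have : (fun a b => (G ⊔ kq (insert x Q)) (σ a) (σ b)) = (fun a b => G (σ a) (σ b)) ⊔
        kq (insert (σ.symm x) (Q.map σ.symm.toEmbedding)) := by
      have := hkq (insert x Q)
      rw [map_insert] at this
      erw [← this]
      rfl
    rw [this]
    refine Built.add _ _ _ _ ih ⟨ih.sg, by rw [card_map, hS.card], ?_, ?_, ?_, ?_⟩
    · intro a ha b hb hab
      exact hS.clique _ ((hm _ _).1 ha) _ ((hm _ _).1 hb) (by simpa using hab)
    · intro y; simpa using hS.iso _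
    · rw [hm]; simpa using hS.notin
    · rw [hm, hσ]; simpa using hS.negnotin

def contr (G : V → V → Prop) (u v a b : V) : Prop :=
  a ≠ b ∧ ∃ x y, G x y ∧ kap u v x = a ∧ kap u v y = b

lemma contr_of_adj {G : V → V → Prop} {u v x y : V} (h : G x y) (hne : kap u v x ≠ kap u v y) :
    contr G u v (kap u v x) (kap u v y) := ⟨hne, x, y, h, rfl, rfl⟩

lemma adj_of_contr {G : V → V → Prop} {u v a b : V} (h : contr G u v a b) (h1 : a ≠ u)
    (h2 : a ≠ -u) (h3 : b ≠ u) (h4 : b ≠ -u) : G a b := by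
  obtain ⟨-, x, y, hxy, hx, hy⟩ := h
  rwa [eq_of_kap_eq hx h1 h2, eq_of_kap_eq hy h3 h4] at hxy

lemma contr_ne {G : V → V → Prop} {u v a b : V} (h1 : u ≠ v) (h2 : u ≠ -v) (h : contr G u v a b) :
    a ≠ v ∧ a ≠ -v ∧ b ≠ v ∧ b ≠ -v := by
  obtain ⟨-, x, y, -, rfl, rfl⟩ := h
  exact ⟨kap_ne_v h1 h2 _, kap_ne_negv h1 h2 _, kap_ne_v h1 h2 _, kap_ne_negv h1 h2 _⟩

/-- data of a vertex split -/
structure Split (d : ℕ) (G : V → V → Prop) (u v : V) (R : Finset V) : Prop where
  sg : SG G
  adj : G u v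
  nadj : ¬ G u (-v)
  mem : ∀ r, r ∈ R ↔ G u r ∧ G v r
  card : R.card + 1 = d
  clique : Clique G R
  sep : ∀ a b, G u a → G v b → a ∉ R → b ∉ R → a ≠ v → b ≠ u → ¬ G a b

omit [DecidableEq V] in
lemma Split.symm {G : V → V → Prop} {u v : V} {R : Finset V} (h : Split d G u v R) :
    Split d G v u R where
  sg := h.sg
  adj := h.sg.symm h.adj
  nadj := fun h' => h.nadj (h.sg.symm (by simpa using h.sg.neg h'))
  mem := fun r => (h.mem r).trans and_comm
  card := h.card
  clique := h.clique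
  sep := fun a b ha hb h1 h2 h3 h4 h5 => h.sep b a hb ha h2 h1 h4 h3 (h.sg.symm h5)

lemma Split.kap_nbr {G : V → V → Prop} {u v : V} {R : Finset V} (h : Split d G u v R) {y : V}
    (hy : (G u y ∧ y ≠ v) ∨ (G v y ∧ y ≠ u)) :
    kap u v y = y ∧ contr G u v u y ∧ y ≠ u ∧ y ≠ -u := by
  have h1 := h.sg.ne h.adj
  have h2 := h.sg.ne_neg h.adj
  rcases hy with hy | hy
  · have e : kap u v y = y := kap_of_ne hy.2 (fun e => h.nadj (e ▸ hy.1))
    exact ⟨e, ⟨h.sg.ne hy.1, u, y, hy.1, kap_u h1 h2, e⟩, (h.sg.ne hy.1).symm,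
      fun e => h.sg.ne_neg hy.1 (by rw [e, neg_neg])⟩
  · have e : kap u v y = y :=
      kap_of_ne (h.sg.ne hy.1).symm (fun e => h.sg.ne_neg hy.1 (by rw [e, neg_neg]))
    exact ⟨e, ⟨hy.2.symm, v, y, hy.1, kap_v _ _, e⟩, hy.2, fun e => h.symm.nadj (e ▸ hy.1)⟩

lemma Split.nbr_of_contr {G : V → V → Prop} {u v : V} {R : Finset V} (h : Split d G u v R) {y : V}
    (hy : contr G u v u y) : (G u y ∧ y ≠ v) ∨ (G v y ∧ y ≠ u) := by
  have h1 := h.sg.ne h.adj
  have h2 := h.sg.ne_neg h.adj
  have hn := contr_ne h1 h2 hy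
  obtain ⟨hne, a, b, hab, ha, hb⟩ := hy
  have hyu : y ≠ -u := by
    rintro rfl
    rcases kap_eq_u ha with rfl | rfl <;> rcases kap_eq_negu hb with rfl | rfl
    · exact h.sg.ne_neg hab (by simp)
    · exact h.nadj hab
    · exact h.symm.nadj hab
    · exact h.sg.ne_neg hab (by simp)
  have := eq_of_kap_eq hb hne.symm hyu
  subst this
  rcases kap_eq_u ha with rfl | rfl
  · exact Or.inl ⟨hab, hn.2.2.1⟩
  · exact Or.inr ⟨hab, hne.symm⟩

lemma Split.direct {G : V → V → Prop} {u v : V} {R : Finset V} (h : Split d G u v R) {f : Bool}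
    (hB : ∀ b, G v b → b ∈ R ∨ b = u) (hb : Built d f (contr G u v)) : Built d f G := by
  have h1 := h.sg.ne h.adj
  have h2 := h.sg.ne_neg h.adj
  have huR : u ∉ R := fun e => h.sg.ne ((h.mem u).1 e).1 rfl
  have hvR : v ∉ R := fun e => h.sg.ne ((h.mem v).1 e).2 rfl
  have hclq : Clique G (insert v (insert u R)) := by
    intro a ha b hb hab
    simp only [mem_insert] at ha hb
    rcases ha with rfl | rfl | ha <;> rcases hb with rfl | rfl | hb
    · exact absurd rfl hab
    · exact h.sg.symm h.adj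
    · exact ((h.mem b).1 hb).2
    · exact h.adj
    · exact absurd rfl hab
    · exact ((h.mem b).1 hb).1
    · exact h.sg.symm ((h.mem a).1 ha).2
    · exact h.sg.symm ((h.mem a).1 ha).1
    · exact h.clique a ha b hb hab
  have haf := hclq.af h.sg
  have hk : ∀ a ∈ insert u R, kap u v a = a := by
    intro a ha
    apply kap_of_ne
    · rintro rfl
      rcases mem_insert.1 ha with e | e
      · exact h1 e.symm
      · exact hvR e
    · rintro rfl
      exact haf v (mem_insert_self _ _) (mem_insert_of_mem ha)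
  have hS : AddS d (contr G u v) (insert u R) v :=
    { sg := hb.sg
      card := by rw [card_insert_of_notMem huR, h.card]
      clique := fun a ha b hb hab =>
        ⟨hab, a, b, hclq a (mem_insert_of_mem ha) b (mem_insert_of_mem hb) hab, hk a ha, hk b hb⟩
      iso := fun y hy => (contr_ne h1 h2 hy).1 rfl
      notin := by simp [h1.symm, hvR]
      negnotin := fun e => haf v (mem_insert_self _ _) (mem_insert_of_mem e) }
  have key : ∀ y, G v y → kap u v v ≠ kap u v y → G (kap u v v) (kap u v y) := by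
    intro y hy hne
    rcases hB y hy with e | rfl
    · rw [kap_v, hk y (mem_insert_of_mem e)]; exact ((h.mem y).1 e).1
    · exact absurd (by rw [kap_v, kap_u h1 h2]) hne
  have key2 : ∀ y, G v y → kq (insert v (insert u R)) v y := by
    intro y hy
    refine ⟨h.sg.ne hy, Or.inl ⟨mem_insert_self _ _, mem_insert_of_mem ?_⟩⟩
    rcases hB y hy with e | rfl
    · exact mem_insert_of_mem e
    · exact mem_insert_self _ _
  have e : G = contr G u v ⊔ kq (insert v (insert u R)) := by
    apply le_antisymm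
    · intro a b hab
      by_cases c1 : a = v
      · subst c1; exact Or.inr (key2 b hab)
      by_cases c2 : a = -v
      · subst c2; exact Or.inr ((sg_kq haf).neg_right (key2 _ (h.sg.neg_left hab)))
      by_cases c3 : b = v
      · subst c3; exact Or.inr ((sg_kq haf).symm (key2 a (h.sg.symm hab)))
      by_cases c4 : b = -v
      · subst c4
        exact Or.inr ((sg_kq haf).symm ((sg_kq haf).neg_right
          (key2 _ (h.sg.neg_left (h.sg.symm hab)))))
      exact Or.inl ⟨h.sg.ne hab, a, b, hab, kap_of_ne c1 c2, kap_of_ne c3 c4⟩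
    · apply sup_le _ (kq_le_of_clique h.sg hclq)
      rintro _ _ ⟨hne, a, b, hab, rfl, rfl⟩
      by_cases c1 : a = v
      · subst c1; exact key b hab hne
      by_cases c2 : a = -v
      · subst c2
        have := key _ (h.sg.neg_left hab) (by
          rw [kap_neg] at hne ⊢; intro e; apply hne; rw [e, neg_neg])
        rw [kap_neg] at this ⊢
        exact h.sg.neg_right this
      by_cases c3 : b = v
      · subst c3; exact h.sg.symm (key a (h.sg.symm hab) hne.symm)
      by_cases c4 : b = -v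
      · subst c4
        have := key _ (h.sg.neg_left (h.sg.symm hab)) (by
          rw [kap_neg] at hne ⊢; intro e; apply hne; rw [e, neg_neg])
        rw [kap_neg] at this ⊢
        exact h.sg.symm (h.sg.neg_right this)
      rwa [kap_of_ne c1 c2, kap_of_ne c3 c4]
  rw [e]
  exact Built.add _ _ _ _ hb hS

lemma contr_swap {G : V → V → Prop} {u v : V} (h1 : u ≠ v) (h2 : u ≠ -v) {f : Bool}
    (hb : Built d f (contr G u v)) : Built d f (contr G v u) := by
  have h3 : v ≠ -u := fun e => h2 (by rw [e, neg_neg])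
  let s : V → V := fun x => if x = u then v else if x = -u then -v else kap u v x
  have su : s u = v := by simp [s]
  have snu : s (-u) = -v := by simp [s, neg_ne']
  have sv : s v = u := by simp [s, h1.symm, h3]
  have snv : s (-v) = -u := by simp [s, h1.symm, h2.symm]
  have so : ∀ x, x ≠ u → x ≠ -u → x ≠ v → x ≠ -v → s x = x := by
    intro x a b c e; simp [s, a, b, kap_of_ne c e]
  have cs : ∀ x, x = u ∨ x = -u ∨ x = v ∨ x = -v ∨ (x ≠ u ∧ x ≠ -u ∧ x ≠ v ∧ x ≠ -v) := by
    intro x; tauto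
  have hinv : Function.Involutive s := by
    intro x
    rcases cs x with rfl | rfl | rfl | rfl | ⟨a, b, c, e⟩
    · rw [su, sv]
    · rw [snu, snv]
    · rw [sv, su]
    · rw [snv, snu]
    · rw [so x a b c e, so x a b c e]
  have hneg : ∀ x, s (-x) = -s x := by
    intro x
    rcases cs x with rfl | rfl | rfl | rfl | ⟨a, b, c, e⟩
    · rw [su, snu]
    · rw [neg_neg, su, snu, neg_neg]
    · rw [sv, snv]
    · rw [neg_neg, sv, snv, neg_neg]
    · rw [so x a b c e, so]
      · exact fun h => b (by rw [← h, neg_neg])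
      · simpa using a
      · exact fun h => e (by rw [← h, neg_neg])
      · simpa using c
  have hk : ∀ x, s (kap v u x) = kap u v x := by
    intro x
    rcases cs x with rfl | rfl | rfl | rfl | ⟨a, b, c, e⟩
    · rw [kap_v, sv, kap_u h1 h2]
    · rw [kap_negv, snv, kap_neg, kap_u h1 h2]
    · rw [kap_v, kap_u h1.symm h3, sv]
    · rw [kap_negv, kap_neg, kap_u h1.symm h3, snv]
    · rw [kap_of_ne a b, kap_of_ne c e, so x a b c e]
  have := hb.rename (hinv.toPerm s) hneg
  convert this using 1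
  funext a b
  simp only [Function.Involutive.coe_toPerm, contr, ← hk, ne_eq, hinv.injective.eq_iff]

end Pool.Agent.MP_d539bc_co
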