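import Pool.Agent.MP_d539bc_co.Domain

/-! Local charts of subsets of a normed space. -/

namespace Pool.Agent.MP_d539bc_co

open Metric Set Module Topology Filter

abbrev Eu (m : ℕ) := EuclideanSpace ℝ (Fin m)

variable {A : Type} [NormedAddCommGroup A]

def LC (X : Set A) (m : ℕ) (x : A) : Prop :=
  ∃ (h : A → Eu m) (φ : Eu m → A) (U : Set A) (O : Set (Eu m)), IsOpen U ∧ IsOpen O ∧ x ∈ X ∩ U ∧
    ContinuousOn h (X ∩ U) ∧ ContinuousOn φ O ∧ MapsTo h (X ∩ U) O ∧ MapsTo φ O (X ∩ U) ∧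
    (∀ y ∈ X ∩ U, φ (h y) = y) ∧ ∀ z ∈ O, h (φ z) = z

theorem lc_of_charted {X : Set A} {m : ℕ} (c : ChartedSpace (Eu m) X) {x : A} (hx : x ∈ X) :
    LC X m x := by
  classical
  let e := chartAt (Eu m) (⟨x, hx⟩ : X)
  obtain ⟨U, hU, hUe⟩ := isOpen_induced_iff.1 e.open_source
  have hsrc : ∀ y (hy : y ∈ X), y ∈ U ↔ (⟨y, hy⟩ : X) ∈ e.source := by
    intro y hy; rw [← hUe]; rfl
  refine ⟨fun y => if hy : y ∈ X then e ⟨y, hy⟩ else 0, fun z => (e.symm z : X), U, e.target, hU,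
    e.open_target, ⟨hx, (hsrc x hx).2 (mem_chart_source _ _)⟩, ?_,
    continuous_subtype_val.comp_continuousOn e.continuousOn_symm, ?_, ?_, ?_, ?_⟩
  · rw [continuousOn_iff_continuous_domRestrict]
    have : Continuous (fun y : ↥(X ∩ U) => e ⟨y.1, y.2.1⟩) :=
      e.continuousOn.comp_continuous (continuous_subtype_val.subtype_mk _)
        (fun y => (hsrc _ y.2.1).1 y.2.2)
    convert this using 1
    funext y
    simp [y.2.1]
  · intro y hy
    simp only [hy.1, dif_pos]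
    exact e.map_source ((hsrc _ hy.1).1 hy.2)
  · intro z hz
    exact ⟨(e.symm z).2, (hsrc _ (e.symm z).2).2 (e.map_target hz)⟩
  · intro y hy
    simp only [hy.1, dif_pos]
    rw [e.left_inv ((hsrc _ hy.1).1 hy.2)]
  · intro z hz
    simp only [(e.symm z).2, dif_pos]
    exact e.right_inv hz

variable {B : Type} [NormedAddCommGroup B] [NormedSpace ℝ B] [FiniteDimensional ℝ B]

theorem LC.into {X : Set A} {m : ℕ} {x : A} (hc : LC X m x) {ρ : B → A} (hρ : Continuous ρ)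
    (hinj : Function.Injective ρ) (h0 : ρ 0 = x) (hX : ∀ᶠ w in 𝓝 0, ρ w ∈ X) :
    finrank ℝ B ≤ m ∧ (finrank ℝ B = m → range ρ ∈ 𝓝[X] x) := by
  obtain ⟨h, φ, U, O, hU, -, hx, hh, -, -, -, hφh, -⟩ := hc
  have hN : ρ ⁻¹' (X ∩ U) ∈ 𝓝 (0 : B) :=
    inter_mem hX (hρ.continuousAt.preimage_mem_nhds (hU.mem_nhds (h0 ▸ hx.2)))
  have h1 : ContinuousOn (fun w => h (ρ w)) (ρ ⁻¹' (X ∩ U)) :=
    hh.comp hρ.continuousOn (fun _ hw => hw)
  have h2 : InjOn (fun w => h (ρ w)) (ρ ⁻¹' (X ∩ U)) := by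
    intro w hw w' hw' e
    apply hinj
    rw [← hφh _ hw, ← hφh _ hw']
    exact congrArg φ e
  refine ⟨by simpa using iod_le hN h1 h2, fun hm => ?_⟩
  have h3 := iod hN h1 h2 (by simpa using hm)
  simp only [h0] at h3
  have h4 := (hh x hx).preimage_mem_nhdsWithin h3
  rw [← nhdsWithin_restrict' X (hU.mem_nhds hx.2)] at h4
  have h5 : X ∩ U ∈ 𝓝[X] x := inter_mem_nhdsWithin X (hU.mem_nhds hx.2)
  filter_upwards [h4, h5] with y hy hy'
  obtain ⟨w, hw, e⟩ := hy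
  refine ⟨w, ?_⟩
  rw [← hφh _ hw, ← hφh _ hy']
  exact congrArg φ e

theorem LC.out {X : Set A} {m : ℕ} {x : A} (hc : LC X m x) {π : A → B} (hπ : Continuous π)
    {N : Set A} (hN : N ∈ 𝓝 x) (hinj : InjOn π (X ∩ N)) :
    m ≤ finrank ℝ B ∧ (m = finrank ℝ B → π '' X ∈ 𝓝 (π x)) := by
  obtain ⟨h, φ, U, O, -, hO, hx, -, hφ, hhm, hφm, hφh, hhφ⟩ := hc
  have hO' := hO.mem_nhds (hhm hx)
  have hN' : O ∩ φ ⁻¹' N ∈ 𝓝 (h x) :=
    inter_mem hO' ((hφ.continuousAt hO').preimage_mem_nhds (by rwa [hφh x hx]))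
  have h1 : ContinuousOn (fun z => π (φ z)) (O ∩ φ ⁻¹' N) :=
    hπ.comp_continuousOn (hφ.mono inter_subset_left)
  have h2 : InjOn (fun z => π (φ z)) (O ∩ φ ⁻¹' N) := by
    intro z hz z' hz' e
    rw [← hhφ z hz.1, ← hhφ z' hz'.1, hinj ⟨(hφm hz.1).1, hz.2⟩ ⟨(hφm hz'.1).1, hz'.2⟩ e]
  refine ⟨by simpa using iod_le hN' h1 h2, fun hm => ?_⟩
  have h3 := iod hN' h1 h2 (by simpa using hm)
  simp only [hφh x hx] at h3
  refine mem_of_superset h3 ?_
  rintro _ ⟨z, hz, rfl⟩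
  exact ⟨_, (hφm hz.1).1, rfl⟩

theorem LC.nosep {V : Type} [Fintype V] [DecidableEq V] {X : Set (V → ℝ)} {m : ℕ} {x : V → ℝ}
    (hc : LC X m x) (hm : 0 < m) {A B : Set (V → ℝ)} (hA : IsClosed A) (hB : IsClosed B)
    (hcov : X ⊆ A ∪ B)
    (hK : ∀ y ∈ A ∩ B, ∃ s : Finset V, s.card < m ∧ ∑ v, y v = 1 ∧ ∀ v, v ∉ s → y v = 0)
    (hxA : x ∈ closure (X \ A)) (hxB : x ∈ closure (X \ B)) : False := by
  obtain ⟨h, φ, U, O, hU, hO, hx, hh, hφ, hhm, hφm, hφh, hhφ⟩ := hc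
  obtain ⟨r2, hr2, hball⟩ := Metric.nhds_basis_closedBall.mem_iff.1 (hO.mem_nhds (hhm hx))
  set r := r2 / 2 with hr
  have hr0 : 0 < r := by positivity
  have pick : ∀ C : Set (V → ℝ), IsClosed C → x ∈ closure (X \ C) →
      ∃ a, dist a (h x) < r ∧ ∃ ε > 0, ∀ z, dist z a < ε → φ z ∉ C := by
    intro C hC hxC
    have h1 := (hh x hx).preimage_mem_nhdsWithin (ball_mem_nhds (h x) hr0)
    obtain ⟨W, hW, hW'⟩ := mem_nhdsWithin_iff_exists_mem_nhds_inter.1 h1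
    obtain ⟨y, hy1, hy2⟩ := mem_closure_iff_nhds.1 hxC _ (inter_mem hW (hU.mem_nhds hx.2))
    have hy : y ∈ X ∩ U := ⟨hy2.1, hy1.2⟩
    refine ⟨h y, hW' ⟨hy1.1, hy⟩, ?_⟩
    have h2 := (hφ.continuousAt (hO.mem_nhds (hhm hy))).preimage_mem_nhds
      (hC.isOpen_compl.mem_nhds (by rw [hφh y hy]; exact hy2.2))
    obtain ⟨ε, hε, hε'⟩ := Metric.mem_nhds_iff.1 h2
    exact ⟨ε, hε, fun z hz => hε' hz⟩
  obtain ⟨a, ha, ε1, hε1, ha'⟩ := pick B hB hxB
  obtain ⟨b, hb, ε2, hε2, hb'⟩ := pick A hA hxA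
  set ε := min (min ε1 ε2) r with hε
  have hε0 : 0 < ε := by positivity
  have hφS : ContinuousOn φ (closedBall (h x) r2) := hφ.mono hball
  obtain ⟨H, hH, hHφ⟩ := tietze_compact (isCompact_closedBall (h x) r2) hφS
    (fun z hz z' hz' e => by rw [← hhφ z (hball hz), ← hhφ z' (hball hz'), e])
    (g := fun z => z) continuousOn_id
  obtain ⟨g, hg, hgH, -⟩ := hH.exists_contDiff_approx 1 (ε := fun _ => ε / 2) continuous_const
    (fun _ => by positivity)
  let ι : (s : Finset V) → (s → ℝ) → (V → ℝ) := fun s y => ∑ w : s, y w • Pi.single (w : V) 1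
  let Ψ : (s : Finset V) → V → (s → ℝ) → Eu m := fun s s0 y =>
    g (ι s y + (1 - ∑ w, y w) • Pi.single s0 1) - (a + (∑ w, y w) • (b - a))
  have hΨ : ∀ s s0, ContDiff ℝ 1 (Ψ s s0) := by
    intro s s0
    apply ContDiff.sub (hg.comp _) (by fun_prop)
    simp only [ι]
    fun_prop
  obtain ⟨w, hw, hwΨ⟩ : ∃ w : Eu m, ‖w‖ < ε / 2 ∧
      ∀ (s : Finset V) s0, s.card < m → w ∉ range (Ψ s s0) := by
    have hd : dimH (⋃ e : {e : Finset V × V // e.1.card < m}, range (Ψ e.1.1 e.1.2))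
        < finrank ℝ (Eu m) := by
      rw [dimH_iUnion]
      refine lt_of_le_of_lt (iSup_le (fun e => (hΨ _ _).dimH_range_le.trans
        (Nat.cast_le.2 (show _ ≤ m - 1 by have := e.2; simp; omega)))) (Nat.cast_lt.2 ?_)
      simp; omega
    obtain ⟨w, hw1, hw2⟩ := (dense_compl_of_dimH_lt_finrank hd).exists_mem_open isOpen_ball
      (nonempty_ball.2 (show 0 < ε / 2 by positivity) : (ball (0 : Eu m) (ε / 2)).Nonempty)
    refine ⟨w, by simpa using hw2, fun s s0 hs h => hw1 (mem_iUnion.2 ⟨⟨(s, s0), hs⟩, h⟩)⟩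
  let ψ : Eu m → Eu m := fun z => g (φ z) - w
  have hψ : ContinuousOn ψ (closedBall (h x) r2) :=
    (hg.continuous.comp_continuousOn hφS).sub continuousOn_const
  have hψz : ∀ z ∈ closedBall (h x) r2, ‖z - ψ z‖ < ε := by
    intro z hz
    have h1 := hgH (φ z)
    rw [hHφ z hz, dist_comm, dist_eq_norm] at h1
    calc ‖z - ψ z‖ = ‖(z - g (φ z)) + w‖ := by congr 1; simp only [ψ]; abel
      _ ≤ ‖z - g (φ z)‖ + ‖w‖ := norm_add_le _ _
      _ < ε := by linarith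
  let Sg : Set (Eu m) := (fun t : ℝ => a + t • (b - a)) '' Icc 0 1
  have hSg : IsClosed Sg := (isCompact_Icc.image (by fun_prop)).isClosed
  have hcl : ∀ C : Set (V → ℝ), IsClosed C →
      IsClosed (closedBall (h x) r2 ∩ (fun z => (ψ z, φ z)) ⁻¹' (Sg ×ˢ C)) := fun C hC =>
    (hψ.prodMk hφS).preimage_isClosed_of_isClosed isClosed_closedBall (hSg.prod hC)
  obtain ⟨τ, hτ0, hτ1, hτ⟩ := exists_continuous_zero_one_of_isClosed (hcl B hB) (hcl A hA) (by
    rw [Set.disjoint_left]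
    rintro z ⟨-, ⟨t, -, ht⟩, hzB⟩ ⟨-, -, hzA⟩
    obtain ⟨s, hs, hsum, hsupp⟩ := hK (φ z) ⟨hzA, hzB⟩
    obtain ⟨s0, hs0⟩ : s.Nonempty := by
      rw [Finset.nonempty_iff_ne_empty]
      rintro rfl
      simp [hsupp] at hsum
    apply hwΨ s s0 hs
    have e1 : ∑ v : s, φ z v = 1 := by
      rw [← hsum, Finset.sum_coe_sort s (φ z)]
      exact Finset.sum_subset (Finset.subset_univ _) (fun v _ hv => hsupp v hv)
    have e2 : ∑ v : s, (φ z v + if (v : V) = s0 then t - 1 else 0) = t := by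
      rw [Finset.sum_add_distrib, e1, Finset.sum_coe_sort s (fun v => if v = s0 then t - 1 else 0)]
      simp [hs0]
    refine ⟨fun v => φ z v + if (v : V) = s0 then t - 1 else 0, ?_⟩
    simp only [Ψ, e2]
    have e3 : ι s (fun v => φ z v + if (v : V) = s0 then t - 1 else 0) + (1 - t) • Pi.single s0 1
        = φ z := by
      funext v
      simp only [ι, Pi.add_apply, Finset.sum_apply, Pi.smul_apply, Pi.single_apply, smul_eq_mul,
        mul_ite, mul_one, mul_zero]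
      rw [Finset.sum_coe_sort s (fun u => if v = u then φ z u + (if u = s0 then t - 1 else 0) else 0),
        Finset.sum_ite_eq]
      by_cases hv : v ∈ s
      · by_cases hv0 : v = s0
        · simp only [hv0, hs0, if_true]; ring
        · simp [hv, hv0]
      · have : v ≠ s0 := fun e => hv (e ▸ hs0)
        simp [hv, this, hsupp v hv]
    rw [e3]
    simp only [ψ] at ht
    rw [ht]; abel)
  obtain ⟨z, hz, hz0⟩ := brouwer_ball hr2 (x := h x) (F := fun z => ψ z - (a + τ z • (b - a)))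
    (hψ.sub (by fun_prop)) (by
      intro z hz
      have h1 := hψz z hz
      have h2 : ‖a + τ z • (b - a) - h x‖ ≤ r := by
        have e : a + τ z • (b - a) - h x = (1 - τ z) • (a - h x) + τ z • (b - h x) := by module
        rw [dist_eq_norm] at ha hb
        rw [e]
        refine (norm_add_le _ _).trans ?_
        rw [norm_smul, norm_smul, Real.norm_eq_abs, Real.norm_eq_abs,
          abs_of_nonneg (sub_nonneg.2 (hτ z).2), abs_of_nonneg (hτ z).1]
        nlinarith [(hτ z).1, (hτ z).2]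
      have h3 : ε ≤ r := min_le_right _ _
      calc ‖z - (ψ z - (a + τ z • (b - a))) - h x‖
          = ‖(z - ψ z) + (a + τ z • (b - a) - h x)‖ := by congr 1; abel
        _ ≤ _ := norm_add_le _ _
        _ ≤ r2 := by linarith)
  have hz1 : ψ z = a + τ z • (b - a) := sub_eq_zero.1 hz0
  have hzS : ψ z ∈ Sg := ⟨τ z, hτ z, hz1.symm⟩
  have h1 := hψz z hz
  rcases hcov (hφm (hball hz)).1 with hzA | hzB
  · have := hτ1 (show z ∈ _ from ⟨hz, hzS, hzA⟩)
    rw [hz1, this] at h1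
    apply hb' z _ hzA
    rw [dist_eq_norm]
    have h3 : ε ≤ ε2 := (min_le_left _ _).trans (min_le_right _ _)
    simpa using h1.trans_le h3
  · have := hτ0 (show z ∈ _ from ⟨hz, hzS, hzB⟩)
    rw [hz1, this] at h1
    apply ha' z _ hzB
    rw [dist_eq_norm]
    have h3 : ε ≤ ε1 := (min_le_left _ _).trans (min_le_left _ _)
    simpa using h1.trans_le h3

end Pool.Agent.MP_d539bc_co
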