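import Pool.Agent.MP_d539bc_co.Fog

/-! The induction principle for antipodal free circuits. -/

namespace Pool.Agent.MP_d539bc_co

open Finset
open scoped Pointwise

variable {V : Type} [Fintype V] [DecidableEq V] [FreeNeg V]

def MinK (u v : V) (S : Finset (Finset V)) : Prop :=
  S.Nonempty ∧ KCyc u v S ∧ ∀ S' ⊆ S, S'.Nonempty → KCyc u v S' → S' = S

lemma KCyc.union {u v : V} {S S' : Finset (Finset V)} (h : KCyc u v S) (h' : KCyc u v S')
    (hd : Disjoint S S') : KCyc u v (S ∪ S') := by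
  unfold KCyc kc at *
  rw [sum_union hd, bd_add, h, h', add_zero]

lemma KCyc.sdiff {u v : V} {S S' : Finset (Finset V)} (h : KCyc u v S) (h' : KCyc u v S')
    (hs : S' ⊆ S) : KCyc u v (S \ S') := by
  unfold KCyc kc at *
  rw [← sum_sdiff hs, bd_add, h', add_zero] at h
  exact h

omit [Fintype V] in
lemma Dg_sdiff {u v : V} {S S' : Finset (Finset V)} (hs : S' ⊆ S) :
    Dg u v (S \ S') + Dg u v S' = Dg u v S := by
  unfold Dg; exact sum_sdiff hs

lemma exists_min_fill {u v : V} (D : Finset V) (Y : Finset (Finset V)) :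
    KCyc u v Y → D ∈ fill u v Y → ∃ S ⊆ Y, MinK u v S ∧ D ∈ fill u v S := by
  induction Y using Finset.strongInduction with
  | H Y ih =>
    intro hY hD
    by_cases hm : ∀ S' ⊆ Y, S'.Nonempty → KCyc u v S' → S' = Y
    · refine ⟨Y, subset_rfl, ⟨?_, hY, hm⟩, hD⟩
      rw [nonempty_iff_ne_empty]
      rintro rfl
      simp [mem_fill, Dg] at hD
    · push Not at hm
      obtain ⟨S', hs, hne, hk, hneq⟩ := hm
      have h1 := congrFun (Dg_sdiff (u := u) (v := v) hs) D
      rw [mem_fill] at hD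
      by_cases h2 : D ∈ fill u v S'
      · obtain ⟨S, h3, h4⟩ := ih S' (lt_of_le_of_ne hs hneq) hk h2
        exact ⟨S, h3.trans hs, h4⟩
      · have h3 : D ∈ fill u v (Y \ S') := by
          rw [mem_fill] at h2 ⊢
          push Not at h2
          intro h4
          apply hD
          rw [← h1]; simp [h2, h4]
        obtain ⟨S, h4, h5⟩ := ih (Y \ S') (sdiff_ssubset hs hne) (hY.sdiff hk hs) h3
        exact ⟨S, h4.trans sdiff_subset, h5⟩

lemma plus_circ {d : ℕ} {u v : V} (h1 : u ≠ v) (h2 : u ≠ -v) {S : Finset (Finset V)}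
    (h : Adm d u v S) (hm : MinK u v S) : Circ d (plus u v S) where
  toGood := plus_good h
  nonempty := hm.1.mono subset_union_left
  cyc := plus_cyc h hm.2.1
  min := by
    intro Y hY hne hc
    have hg : Good d Y :=
      ⟨fun F hF => (plus_good h).card F (hY hF), fun F hF => (plus_good h).af F (hY hF)⟩
    have hx : ∀ F ∈ Y, NoX u v F := fun F hF => plus_nox h F (hY hF)
    have e1 := plus_nd h1 h2 hg hc hx
    have hsub : nd u v Y ⊆ S := by
      rw [← nd_plus h]
      exact filter_subset_filter _ hY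
    have hne' : (nd u v Y).Nonempty := by
      rw [nonempty_iff_ne_empty]
      intro h0
      rw [h0, plus_empty] at e1
      exact hne.ne_empty e1.symm
    rw [← e1, hm.2.2 _ hsub hne' (lemA h1 h2 hg hc hx).1]

lemma exists_fill_not_mem {d : ℕ} {u v : V} {T S : Finset (Finset V)} (hT : Circ d T)
    (hx : ∀ F ∈ T, NoX u v F) (hS : S ⊆ nd u v T) (hne : S.Nonempty) (hk : KCyc u v S)
    (hneq : S ≠ nd u v T) : ∃ D ∈ fill u v S, D ∉ T := by
  have hA := (adm_nd hT.toGood hx).mono hS
  by_contra hcon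
  push Not at hcon
  have : plus u v S ⊆ T :=
    union_subset (fun F hF => (mem_nd.1 (hS hF)).1) hcon
  have h3 := hT.min _ this (hne.mono subset_union_left) (plus_cyc hA hk)
  apply hneq
  rw [← h3, nd_plus hA]

lemma exists_deg_plus {d : ℕ} {u v : V} (h1 : u ≠ v) (h2 : u ≠ -v) {T S : Finset (Finset V)}
    (hT : Circ d T) (hx : ∀ F ∈ T, NoX u v F) (hdeg : ∃ D ∈ T, deg u v D)
    (hS : S ⊆ nd u v T) (hne : S.Nonempty) (hk : KCyc u v S) : ∃ D ∈ plus u v S, deg u v D := by
  have hA := (adm_nd hT.toGood hx).mono hS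
  by_cases hneq : S = nd u v T
  · rw [hneq, plus_nd h1 h2 hT.toGood hT.cyc hx]; exact hdeg
  · obtain ⟨D, hD, -⟩ := exists_fill_not_mem hT hx hS hne hk hneq
    exact ⟨D, mem_union_right _ hD, (fill_good hA hD).1⟩

omit [Fintype V] in
lemma same_image1 {u v : V} {F F' : Finset V} (hF : AF F) (hn : ¬ deg u v F) (hx : NoX u v F)
    (hF' : AF F') (hn' : ¬ deg u v F') (hne : F ≠ F')
    (he : F.image (kap u v) = F'.image (kap u v)) (hv : v ∈ F) : F' = insert u (F.erase v) := by
  have hu : u ∉ F := fun h => hn (Or.inl ⟨h, hv⟩)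
  have e1 := image_kap_of_mem (u := u) hF hv
  by_cases hv' : v ∈ F'
  · exfalso
    have hu' : u ∉ F' := fun h => hn' (Or.inl ⟨h, hv'⟩)
    rw [e1, image_kap_of_mem hF' hv'] at he
    apply hne
    have := congrArg (fun s => insert v (Finset.erase s u)) he
    rwa [erase_insert (fun h => hu (mem_of_mem_erase h)),
      erase_insert (fun h => hu' (mem_of_mem_erase h)), insert_erase hv, insert_erase hv'] at this
  by_cases hv'' : -v ∈ F'
  · exfalso
    have h3 : -u ∈ F.image (kap u v) := he ▸ mem_image.2 ⟨-v, hv'', kap_negv _ _⟩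
    have h4 : u ∈ F.image (kap u v) := mem_image.2 ⟨v, hv, kap_v _ _⟩
    exact (image_kap_good hF hn hx).2 u h4 h3
  rw [image_kap_of_not_mem hv' hv''] at he
  rw [← he, e1]

omit [Fintype V] in
lemma triv_piece1 {u v : V} {F : Finset V} (hF : AF F) (hn : ¬ deg u v F) (hx : NoX u v F)
    (hv : v ∈ F) : AF (insert u F) ∧ (insert u F).card = F.card + 1 ∧
      gr {F, insert u (F.erase v)} ⊔ kq {u, v} = kq (insert u F) ∧
      vs {F, insert u (F.erase v)} = insert u F := by
  have hu : u ∉ F := fun h => hn (Or.inl ⟨h, hv⟩)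
  have hu' : -u ∉ F := fun h => hx.2 ⟨h, hv⟩
  have haf : AF (insert u F) := hF.insert hu'
  have hs1 : F ⊆ insert u F := subset_insert _ _
  have hs2 : insert u (F.erase v) ⊆ insert u F := insert_subset_insert _ (erase_subset _ _)
  have hs3 : {u, v} ⊆ insert u F := insert_subset_insert _ (singleton_subset_iff.2 hv)
  refine ⟨haf, card_insert_of_notMem hu, ?_, ?_⟩
  · apply le_antisymm
    · apply sup_le
      · rintro a b ⟨G, hG, h⟩
        rcases mem_insert.1 hG with rfl | hG
        · exact kq_mono hs1 a b h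
        · rw [mem_singleton.1 hG] at h; exact kq_mono hs2 a b h
      · exact kq_mono hs3
    · apply kq_le_of_clique
      · apply SG.sup (sg_gr _) (sg_kq (haf.mono hs3))
        intro G hG
        rcases mem_insert.1 hG with rfl | hG
        · exact hF
        · rw [mem_singleton.1 hG]; exact haf.mono hs2
      · intro a ha b hb hab
        by_cases h1 : a ∈ F ∧ b ∈ F
        · exact Or.inl ⟨F, by simp, hab, Or.inl h1⟩
        by_cases h2 : a ≠ v ∧ b ≠ v
        · refine Or.inl ⟨insert u (F.erase v), by simp, hab, Or.inl ⟨?_, ?_⟩⟩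
          · simp only [mem_insert, mem_erase] at ha ⊢; tauto
          · simp only [mem_insert, mem_erase] at hb ⊢; tauto
        right
        refine ⟨hab, Or.inl ?_⟩
        simp only [mem_insert, mem_singleton] at ha hb ⊢
        by_cases h3 : a = v
        · refine ⟨Or.inr h3, Or.inl ?_⟩
          rcases hb with hb | hb
          · exact hb
          · exact absurd ⟨h3 ▸ hv, hb⟩ h1
        · have h4 : b = v := by by_contra h; exact h2 ⟨h3, h⟩
          refine ⟨Or.inl ?_, Or.inr h4⟩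
          rcases ha with ha | ha
          · exact ha
          · exact absurd ⟨ha, h4 ▸ hv⟩ h1
  · ext a
    simp only [mem_vs, mem_insert, mem_singleton, exists_eq_or_imp, exists_eq_left, mem_erase]
    tauto

omit [Fintype V] [DecidableEq V] in
lemma kq_pair_neg [DecidableEq V] (u v : V) : kq {-u, -v} = kq ({u, v} : Finset V) := by
  rw [← kq_neg]; congr 1; ext x; simp [Finset.mem_neg']

lemma piece_cases {d : ℕ} {u v : V} {S : Finset (Finset V)} (h : Adm d u v S) (hm : MinK u v S) :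
    (∃ σ, AF σ ∧ σ.card = d + 1 ∧ gr S ⊔ kq {u, v} = kq σ ∧ vs S = σ) ∨
      Circ d (S.image (fun F => F.image (kap u v))) := by
  by_cases hinj : Set.InjOn (fun F : Finset V => F.image (kap u v)) S
  · right
    have hind : ∀ S' ⊆ S, ind (S'.image (fun F => F.image (kap u v))) = kc u v S' := by
      intro S' hS'
      rw [ind_eq_sum, kc, sum_image (hinj.mono (coe_subset.2 hS'))]
    refine ⟨⟨?_, ?_⟩, hm.1.image _, ?_, ?_⟩
    · intro F hF
      obtain ⟨G, hG, rfl⟩ := mem_image.1 hF
      rw [(image_kap_good (h.af G hG) (h.nd G hG) (h.nox G hG)).1, h.card G hG]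
    · intro F hF
      obtain ⟨G, hG, rfl⟩ := mem_image.1 hF
      exact (image_kap_good (h.af G hG) (h.nd G hG) (h.nox G hG)).2
    · unfold Cyc; rw [hind S subset_rfl]; exact hm.2.1
    · intro Y hY hne hc
      obtain ⟨S', hS', rfl⟩ := subset_image_iff.1 hY
      have : KCyc u v S' := by unfold KCyc; rw [← hind S' hS']; exact hc
      rw [hm.2.2 S' hS' (by simpa using hne) this]
  · left
    simp only [Set.InjOn, not_forall] at hinj
    obtain ⟨F, hF, F', hF', he, hne⟩ := hinj
    have hF : F ∈ S := hF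
    have hF' : F' ∈ S := hF'
    have hS : ({F, F'} : Finset (Finset V)) = S := by
      apply hm.2.2
      · intro G hG
        rcases mem_insert.1 hG with rfl | hG
        · exact hF
        · rw [mem_singleton.1 hG]; exact hF'
      · simp
      · unfold KCyc kc
        rw [sum_pair hne, he]
        have : (Pi.single (F'.image (kap u v)) 1 + Pi.single (F'.image (kap u v)) 1 :
            Finset V → ZMod 2) = 0 := by
          funext R; simp [zmod2_add_self]
        rw [this, bd_zero]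
    have main : ∀ (a b : V) (G G' : Finset V), kap a b = kap u v → deg a b = deg u v →
        (∀ F, NoX a b F ↔ NoX u v F) → kq {a, b} = kq ({u, v} : Finset V) →
        G ∈ S → G' ∈ S → G ≠ G' → ({G, G'} : Finset (Finset V)) = S →
        G.image (kap u v) = G'.image (kap u v) → b ∈ G →
        ∃ σ, AF σ ∧ σ.card = d + 1 ∧ gr S ⊔ kq {u, v} = kq σ ∧ vs S = σ := by
      intro a b G G' e1 e2 e3 e4 hG hG' hne hS he hb
      have h1 : ¬ deg a b G := e2 ▸ h.nd G hG
      have h2 : NoX a b G := (e3 G).2 (h.nox G hG)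
      have h3 := same_image1 (h.af G hG) h1 h2 (h.af G' hG') (e2 ▸ h.nd G' hG') hne
        (e1 ▸ he) hb
      have h4 := triv_piece1 (h.af G hG) h1 h2 hb
      rw [← h3, hS, e4, h.card G hG] at h4
      exact ⟨_, h4⟩
    by_cases c1 : v ∈ F
    · exact main u v F F' rfl rfl (fun _ => Iff.rfl) rfl hF hF' hne hS he c1
    by_cases c2 : v ∈ F'
    · exact main u v F' F rfl rfl (fun _ => Iff.rfl) rfl hF' hF (Ne.symm hne)
        (by rw [pair_comm, hS]) he.symm c2
    by_cases c3 : -v ∈ F
    · exact main (-u) (-v) F F' (kap_negneg _ _) (deg_negneg _ _) (NoX_negneg _ _)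
        (kq_pair_neg _ _) hF hF' hne hS he c3
    by_cases c4 : -v ∈ F'
    · exact main (-u) (-v) F' F (kap_negneg _ _) (deg_negneg _ _) (NoX_negneg _ _)
        (kq_pair_neg _ _) hF' hF (Ne.symm hne) (by rw [pair_comm, hS]) he.symm c4
    exfalso
    rw [image_kap_of_not_mem c1 c3, image_kap_of_not_mem c2 c4] at he
    exact hne he

omit [Fintype V] [DecidableEq V] in
lemma gr_union [DecidableEq V] (S S' : Finset (Finset V)) : gr (S ∪ S') = gr S ⊔ gr S' := by
  funext a b
  simp only [gr, mem_union, Pi.sup_apply, sup_Prop_eq]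
  apply propext
  constructor
  · rintro ⟨F, h | h, h'⟩
    · exact Or.inl ⟨F, h, h'⟩
    · exact Or.inr ⟨F, h, h'⟩
  · rintro (⟨F, h, h'⟩ | ⟨F, h, h'⟩)
    · exact ⟨F, Or.inl h, h'⟩
    · exact ⟨F, Or.inr h, h'⟩

omit [Fintype V] [FreeNeg V] in
lemma vs_union (S S' : Finset (Finset V)) : vs (S ∪ S') = vs S ∪ vs S' := by
  simp [vs, union_biUnion]

omit [Fintype V] [FreeNeg V] in
lemma vs_mono {S S' : Finset (Finset V)} (h : S ⊆ S') : vs S ⊆ vs S' := by
  intro x hx
  obtain ⟨F, hF, hx⟩ := mem_vs.1 hx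
  exact mem_vs.2 ⟨F, h hF, hx⟩

omit [Fintype V] [FreeNeg V] in
lemma subset_vs {S : Finset (Finset V)} {F : Finset V} (h : F ∈ S) : F ⊆ vs S :=
  fun _ hx => mem_vs.2 ⟨F, h, hx⟩

/-- the gluing hypothesis -/
def Glue (d : ℕ) (P : (V → V → Prop) → Finset V → Prop) : Prop :=
  ∀ G W G' W' D, SG G → SG G' → P G W → P G' W' → D.card = d → D ⊆ W → D ⊆ W' →
    Clique G D → Clique G' D → P (G ⊔ G') (W ∪ W')

theorem fog {d : ℕ} {P : (V → V → Prop) → Finset V → Prop} (hglue : Glue d P)
    {u v : V} (h1 : u ≠ v) (h2 : u ≠ -v) {T : Finset (Finset V)}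
    (hT : Circ d T) (hx : ∀ F ∈ T, NoX u v F) (hdeg : ∃ D ∈ T, deg u v D)
    (hp : ∀ S ⊆ nd u v T, MinK u v S → P (gr (plus u v S)) (vs (plus u v S))) :
    P (gr T) (vs T) := by
  have hA := adm_nd hT.toGood hx
  have hk := (lemA h1 h2 hT.toGood hT.cyc hx).1
  have hgr : ∀ S ⊆ nd u v T, S.Nonempty → KCyc u v S →
      gr (plus u v S) = gr S ⊔ kq {u, v} ∧ vs (plus u v S) = vs S := by
    intro S hS hne hkS
    have hAS := hA.mono hS
    have e1 := gr_nd (plus_good hAS) (plus_cyc hAS hkS) h1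
      (exists_deg_plus h1 h2 hT hx hdeg hS hne hkS)
    have e2 := vs_nd (plus_good hAS) (plus_cyc hAS hkS) h1
    rw [nd_plus hAS] at e1 e2
    exact ⟨e1, e2.symm⟩
  have main : ∀ n, ∀ U ⊆ nd u v T, (nd u v T \ U).card = n → U.Nonempty → KCyc u v U →
      P (gr (plus u v U)) (vs (plus u v U)) → P (gr T) (vs T) := by
    intro n
    induction n using Nat.strong_induction_on with
    | _ n ih =>
      intro U hU hn hne hkU hP
      by_cases hUe : U = nd u v T
      · rwa [hUe, plus_nd h1 h2 hT.toGood hT.cyc hx] at hP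
      obtain ⟨D, hD, hDT⟩ := exists_fill_not_mem hT hx hU hne hkU hUe
      have hD' : D ∈ fill u v (nd u v T \ U) := by
        have e := congrFun (Dg_sdiff (u := u) (v := v) hU) D
        have e2 : D ∉ fill u v (nd u v T) := by
          rw [(lemA h1 h2 hT.toGood hT.cyc hx).2]
          exact fun h => hDT (mem_filter.1 h).1
        rw [mem_fill] at hD e2 ⊢
        push Not at e2
        intro h
        apply hD
        simpa [h, e2] using e
      obtain ⟨S, hS, hm, hDS⟩ := exists_min_fill D _ (hk.sdiff hkU hU) hD'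
      have hS' : S ⊆ nd u v T := hS.trans sdiff_subset
      have hdis : Disjoint U S := disjoint_left.2 (fun F hF hF' => (mem_sdiff.1 (hS hF')).2 hF)
      have hUS : U ∪ S ⊆ nd u v T := union_subset hU hS'
      have hkUS := hkU.union hm.2.1 hdis
      have hneUS : (U ∪ S).Nonempty := hne.mono subset_union_left
      apply ih _ _ (U ∪ S) hUS rfl hneUS hkUS
      · have hDU : D ∈ plus u v U := mem_union_right _ hD
        have hDS' : D ∈ plus u v S := mem_union_right _ hDS
        have := hglue _ _ _ _ D (sg_gr (plus_good (hA.mono hU)).af)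
          (sg_gr (plus_good (hA.mono hS')).af) hP (hp S hS' hm)
          ((plus_good (hA.mono hU)).card D hDU) (subset_vs hDU) (subset_vs hDS')
          (clique_gr hDU) (clique_gr hDS')
        rw [(hgr _ hUS hneUS hkUS).1, (hgr _ hUS hneUS hkUS).2, gr_union, vs_union]
        rw [(hgr _ hU hne hkU).1, (hgr _ hU hne hkU).2, (hgr _ hS' hm.1 hm.2.1).1,
          (hgr _ hS' hm.1 hm.2.1).2, sup_sup_sup_comm, sup_idem] at this
        exact this
      · rw [← hn]
        apply card_lt_card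
        obtain ⟨F, hF⟩ := hm.1
        rw [ssubset_iff_of_subset (sdiff_subset_sdiff subset_rfl subset_union_left)]
        exact ⟨F, hS hF, fun h => (mem_sdiff.1 h).2 (mem_union_right _ hF)⟩
  obtain ⟨D, hD, hDd⟩ := hdeg
  have hD' : D ∈ fill u v (nd u v T) := by
    rw [(lemA h1 h2 hT.toGood hT.cyc hx).2]; exact mem_filter.2 ⟨hD, hDd⟩
  obtain ⟨S, hS, hm, -⟩ := exists_min_fill D _ hk hD'
  exact main _ S hS rfl hm.1 hm.2.1 (hp S hS hm)

def Big (d : ℕ) (W : Finset V) : Prop := ∃ F : Finset V, AF F ∧ F.card = d ∧ ∀ x ∈ F, x ∈ W ∧ -x ∈ W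

/-- the contracted family -/
def ctr (u v : V) (X : Finset (Finset V)) : Finset (Finset V) :=
  (nd u v X).image (fun F => F.image (kap u v))

omit [Fintype V] in
lemma ctr_negneg (u v : V) (X : Finset (Finset V)) : ctr (-u) (-v) X = ctr u v X := by
  unfold ctr; rw [nd_negneg, kap_negneg]

omit [Fintype V] [DecidableEq V] in
lemma nox_of_not_gr {u v : V} {T : Finset (Finset V)} (h2 : u ≠ -v)
    (h : ¬ gr T u (-v)) : ∀ F ∈ T, NoX u v F := by
  intro F hF
  exact ⟨fun h' => h ⟨F, hF, h2, Or.inl h'⟩, fun h' => h ⟨F, hF, h2, Or.inr (by simpa using h')⟩⟩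

omit [Fintype V] [DecidableEq V] in
lemma not_gr_of_nox {u v : V} {T : Finset (Finset V)} (h : ∀ F ∈ T, NoX u v F) :
    ¬ gr T u (-v) := by
  rintro ⟨F, hF, -, h1 | h1⟩
  · exact (h F hF).1 h1
  · exact (h F hF).2 (by simpa using h1)

theorem circuit_ind {d : ℕ} {P : (V → V → Prop) → Finset V → Prop} (hglue : Glue d P)
    (hdbl : ∀ T, Circ d T → (∀ x y, gr T x y → gr T x (-y)) → P (gr T) (vs T))
    (hsimp : ∀ σ, AF σ → σ.card = d + 1 → P (kq σ) σ)
    (hlift : ∀ X u v, Circ d X → u ≠ v → (∃ D ∈ X, u ∈ D ∧ v ∈ D) → ¬ gr X u (-v) →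
      Circ d (ctr u v X) → (-v ∉ vs X ∨ Big d (vs X)) →
      P (gr (ctr u v X)) (vs (ctr u v X)) → P (gr X) (vs X)) :
    ∀ T, Circ d T → P (gr T) (vs T) := by
  suffices H : ∀ N, ∀ T, Circ d T → (vs T ∪ -vs T).card ≤ N → P (gr T) (vs T) from
    fun T hT => H _ T hT le_rfl
  intro N
  induction N using Nat.strong_induction_on with
  | _ N ih =>
  have step : ∀ T u v, Circ d T → (vs T ∪ -vs T).card ≤ N → u ≠ v → (∃ D ∈ T, u ∈ D ∧ v ∈ D) →
      ¬ gr T u (-v) →
      (∀ X, Circ d X → vs X ⊆ vs T → -v ∈ vs X → ¬ Big d (vs X) → P (gr X) (vs X)) →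
      P (gr T) (vs T) := by
    intro T u v hT hN huv ⟨D, hD, hu, hv⟩ hng hrest
    have h2 : u ≠ -v := fun h => hT.af D hD v hv (h ▸ hu)
    have hx := nox_of_not_gr h2 hng
    have hdeg : ∃ D ∈ T, deg u v D := ⟨D, hD, Or.inl ⟨hu, hv⟩⟩
    apply fog hglue huv h2 hT hx hdeg
    intro S hS hm
    have hA := (adm_nd hT.toGood hx).mono hS
    have hX := plus_circ huv h2 hA hm
    have hdX := exists_deg_plus huv h2 hT hx hdeg hS hm.1 hm.2.1
    have e1 := gr_nd hX.toGood hX.cyc huv hdX
    have e2 := vs_nd hX.toGood hX.cyc huv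
    rw [nd_plus hA] at e1 e2
    have hsub : vs (plus u v S) ⊆ vs T := by
      rw [← e2]; exact vs_mono (hS.trans (filter_subset _ _))
    rcases piece_cases hA hm with ⟨σ, h3, h4, h5, h6⟩ | hc
    · rw [e1, ← e2, h5, h6]; exact hsimp σ h3 h4
    have hctr : ctr u v (plus u v S) = S.image (fun F => F.image (kap u v)) := by
      rw [ctr, nd_plus hA]
    rw [← hctr] at hc
    have hP' : P (gr (ctr u v (plus u v S))) (vs (ctr u v (plus u v S))) := by
      apply ih _ _ _ hc le_rfl
      refine lt_of_lt_of_le (card_lt_card ?_) hN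
      have hmem : ∀ x ∈ vs (ctr u v (plus u v S)), ∃ y ∈ vs T, kap u v y = x := by
        intro x hx
        obtain ⟨F, hF, hxF⟩ := mem_vs.1 hx
        obtain ⟨G, hG, rfl⟩ := mem_image.1 hF
        obtain ⟨y, hy, rfl⟩ := mem_image.1 hxF
        exact ⟨y, hsub (subset_vs (mem_nd.1 hG).1 hy), rfl⟩
      have huT : u ∈ vs T := subset_vs hD hu
      have hsub2 : ∀ x ∈ vs (ctr u v (plus u v S)), x ∈ vs T ∪ -vs T ∧ -x ∈ vs T ∪ -vs T := by
        intro x hx
        obtain ⟨y, hy, rfl⟩ := hmem x hx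
        rcases kap_cases u v y with ⟨-, h⟩ | ⟨-, h⟩ | ⟨-, -, h⟩ <;> rw [h] <;>
          simp [Finset.mem_neg', huT, hy, -mem_vs]
      rw [ssubset_iff_of_subset]
      · refine ⟨v, mem_union_left _ (subset_vs hD hv), ?_⟩
        intro h
        rcases mem_union.1 h with h | h
        · obtain ⟨y, -, hy⟩ := hmem _ h
          exact kap_ne_v huv h2 y hy
        · obtain ⟨y, -, hy⟩ := hmem _ (Finset.mem_neg'.1 h)
          exact kap_ne_negv huv h2 y hy
      · intro x hx
        rcases mem_union.1 hx with h | h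
        · exact (hsub2 x h).1
        · simpa using (hsub2 _ (Finset.mem_neg'.1 h)).2
    have hngX : ¬ gr (plus u v S) u (-v) := not_gr_of_nox (plus_nox hA)
    by_cases hcase : -v ∉ vs (plus u v S) ∨ Big d (vs (plus u v S))
    · obtain ⟨D', hD', h | h⟩ := hdX
      · exact hlift _ u v hX huv ⟨D', hD', h⟩ hngX hc hcase hP'
      · have hbig : Big d (vs (plus u v S)) :=
          hcase.resolve_left (fun h' => h' (subset_vs hD' h.2))
        apply hlift _ (-u) (-v) hX (by simpa using huv) ⟨D', hD', h⟩ _ (by rwa [ctr_negneg])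
          (Or.inr hbig) (by rwa [ctr_negneg])
        exact fun h' => hngX ((sg_gr hX.af).neg' h')
    · push Not at hcase
      exact hrest _ hX hsub hcase.1 hcase.2
  have part1 : ∀ T, Circ d T → (vs T ∪ -vs T).card ≤ N → ¬ Big d (vs T) → P (gr T) (vs T) := by
    intro T hT hN hbig
    by_cases hex : ∃ u v, u ≠ v ∧ (∃ D ∈ T, u ∈ D ∧ v ∈ D) ∧ ¬ gr T u (-v) ∧ -v ∉ vs T
    · obtain ⟨u, v, h1, h2, h3, h4⟩ := hex
      exact step T u v hT hN h1 h2 h3 (fun X _ hs hv => absurd (hs hv) h4)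
    push Not at hex
    have hsg := sg_gr hT.af
    have h0 : ∀ D ∈ T, ∀ u ∈ D, ∀ v ∈ D, u ≠ v → -v ∉ vs T → gr T u (-v) := by
      intro D hD u hu v hv huv hv'
      by_contra h
      exact hv' (hex u v huv ⟨D, hD, hu, hv⟩ h)
    have h1 : ∀ D ∈ T, ∀ u ∈ D, ∀ v ∈ D, u ≠ v → -v ∉ vs T → -u ∈ vs T := by
      intro D hD u hu v hv huv hv'
      obtain ⟨F, hF, -, h | h⟩ := h0 D hD u hu v hv huv hv'
      · exact absurd (subset_vs hF h.2) hv'
      · exact subset_vs hF h.1
    have key : ∀ F ∈ T, ∀ x ∈ F, ∀ y ∈ F, x ≠ y → gr T x (-y) := by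
      intro F hF x hx y hy hxy
      obtain ⟨v, hv, hv'⟩ : ∃ v ∈ F, -v ∉ vs T := by
        by_contra hcon
        push Not at hcon
        exact hbig ⟨F, hT.af F hF, hT.card F hF, fun x hx => ⟨subset_vs hF hx, hcon x hx⟩⟩
      by_cases hyv : y = v
      · subst hyv; exact h0 F hF x hx y hy hxy hv'
      by_cases hxv : x = v
      · subst hxv
        exact hsg.neg_left (hsg.symm (h0 F hF y hy x hx hxy.symm hv'))
      obtain ⟨z, hz, hF'⟩ := hT.cyc.other hF hy
      have hvF' : v ∈ insert z (F.erase y) := mem_insert_of_mem (mem_erase.2 ⟨Ne.symm hyv, hv⟩)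
      have hzy : z = -y := by
        by_contra hzy
        apply hbig
        refine ⟨insert z (F.erase v), ?_, ?_, ?_⟩
        · apply ((hT.af F hF).mono (erase_subset _ _)).insert
          intro h
          apply hT.af _ hF' z (mem_insert_self _ _)
          refine mem_insert_of_mem (mem_erase.2 ⟨?_, mem_of_mem_erase h⟩)
          intro h'; apply hzy; rw [← h', neg_neg]
        · rw [card_insert_of_notMem (fun h => hz (mem_of_mem_erase h)), card_erase_add_one hv,
            hT.card F hF]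
        · intro w hw
          rcases mem_insert.1 hw with rfl | hw
          · exact ⟨subset_vs hF' (mem_insert_self _ _),
              h1 _ hF' w (mem_insert_self _ _) v hvF' (fun h => hz (h ▸ hv)) hv'⟩
          · exact ⟨subset_vs hF (mem_of_mem_erase hw),
              h1 F hF w (mem_of_mem_erase hw) v hv (ne_of_mem_erase hw) hv'⟩
      subst hzy
      exact ⟨_, hF', fun h => hz (h ▸ hx),
        Or.inl ⟨mem_insert_of_mem (mem_erase.2 ⟨hxy, hx⟩), mem_insert_self _ _⟩⟩
    apply hdbl T hT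
    rintro x y ⟨F, hF, hxy, h | h⟩
    · exact key F hF x h.1 y h.2 hxy
    · exact hsg.neg' (key F hF _ h.1 _ h.2 (by simpa using hxy))
  intro T hT hN
  by_cases hex : ∃ u v, u ≠ v ∧ (∃ D ∈ T, u ∈ D ∧ v ∈ D) ∧ ¬ gr T u (-v)
  · obtain ⟨u, v, h1, h2, h3⟩ := hex
    apply step T u v hT hN h1 h2 h3
    intro X hX hs _ hb
    apply part1 X hX _ hb
    refine le_trans (card_le_card ?_) hN
    exact union_subset_union hs (neg_subset_neg hs)
  push Not at hex
  have hsg := sg_gr hT.af
  apply hdbl T hT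
  rintro x y ⟨F, hF, hxy, h | h⟩
  · exact hex x y hxy ⟨F, hF, h⟩
  · exact hsg.neg' (hex _ _ (by simpa using hxy) ⟨F, hF, h⟩)

end Pool.Agent.MP_d539bc_co
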