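import Pool.Agent.MP_d539bc_co.Rigid

/-! Edge counts and independence. -/

namespace Pool.Agent.MP_d539bc_co

open Finset Module
open scoped Pointwise

variable {V : Type} [Fintype V] [DecidableEq V] [FreeNeg V] {d : ℕ}

open Classical in
noncomputable def ec (G : V → V → Prop) : ℕ := (univ.filter (fun e : V × V => G e.1 e.2)).card

def rem (G : V → V → Prop) (x y : V) (a b : V) : Prop := G a b ∧ ¬ kq {x, y} a b

omit [Fintype V] in
lemma af_pair {x y : V} (h : x ≠ -y) : AF ({x, y} : Finset V) := by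
  intro z hz hz'
  simp only [mem_insert, mem_singleton] at hz hz'
  rcases hz with rfl | rfl <;> rcases hz' with h' | h'
  · exact neg_ne' _ h'
  · exact h (by rw [← h', neg_neg])
  · exact h h'.symm
  · exact neg_ne' _ h'

omit [Fintype V] in
lemma kq_pair_iff {x y a b : V} (hxy : x ≠ y) : kq {x, y} a b ↔
    (a = x ∧ b = y) ∨ (a = y ∧ b = x) ∨ (a = -x ∧ b = -y) ∨ (a = -y ∧ b = -x) := by
  simp only [kq, mem_insert, mem_singleton, neg_eq_iff_eq_neg]
  constructor
  · rintro ⟨hab, ⟨rfl | rfl, rfl | rfl⟩ | ⟨rfl | rfl, rfl | rfl⟩⟩ <;> simp at hab ⊢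
  · rintro (⟨rfl, rfl⟩ | ⟨rfl, rfl⟩ | ⟨rfl, rfl⟩ | ⟨rfl, rfl⟩) <;> simp [hxy, hxy.symm]

omit [Fintype V] in
lemma SG.rem {G : V → V → Prop} (hG : SG G) {x y : V} (h : x ≠ -y) : SG (rem G x y) where
  symm := fun h' => ⟨hG.symm h'.1, fun h'' => h'.2 ((sg_kq (af_pair h)).symm h'')⟩
  neg := fun h' => ⟨hG.neg h'.1, fun h'' => h'.2 ((sg_kq (af_pair h)).neg' h'')⟩
  ne := fun h' => hG.ne h'.1
  ne_neg := fun h' => hG.ne_neg h'.1

omit [Fintype V] in
lemma rem_le (G : V → V → Prop) (x y : V) : rem G x y ≤ G := fun _ _ h => h.1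

omit [Fintype V] in
lemma le_rem {G H : V → V → Prop} (hH : SG H) (hle : H ≤ G) {x y : V} (hxy : x ≠ y)
    (h : ¬ H x y) : H ≤ rem G x y := by
  intro a b hab
  refine ⟨hle a b hab, fun hk => h ?_⟩
  rcases (kq_pair_iff hxy).1 hk with ⟨rfl, rfl⟩ | ⟨rfl, rfl⟩ | ⟨rfl, rfl⟩ | ⟨rfl, rfl⟩
  · exact hab
  · exact hH.symm hab
  · exact hH.neg' hab
  · exact hH.symm (hH.neg' hab)

lemma ec_rem {G : V → V → Prop} (hG : SG G) {x y : V} (h : G x y) :
    ec (rem G x y) + 4 = ec G := by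
  classical
  have h1 := hG.ne h
  have h2 := hG.ne_neg h
  have h3 : y ≠ -x := fun e => h2 (by rw [e, neg_neg])
  have hc : ({(x, y), (y, x), (-x, -y), (-y, -x)} : Finset (V × V)).card = 4 := by
    rw [card_insert_of_notMem, card_insert_of_notMem, card_pair]
    · simp [h1]
    · simp [h3, ne_neg' y]
    · simp [h1, h2, ne_neg' x]
  rw [← hc, ec, ec, ← card_union_of_disjoint]
  · congr 1
    ext ⟨a, b⟩
    simp only [mem_union, mem_filter, mem_univ, true_and, rem, kq_pair_iff h1, mem_insert,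
      mem_singleton, Prod.mk.injEq]
    constructor
    · rintro (h' | ⟨rfl, rfl⟩ | ⟨rfl, rfl⟩ | ⟨rfl, rfl⟩ | ⟨rfl, rfl⟩)
      · exact h'.1
      · exact h
      · exact hG.symm h
      · exact hG.neg h
      · exact hG.symm (hG.neg h)
    · intro h'; tauto
  · rw [disjoint_left]
    rintro ⟨a, b⟩ h' h''
    simp only [mem_filter, mem_univ, true_and, rem, kq_pair_iff h1, mem_insert,
      mem_singleton, Prod.mk.injEq] at h' h''
    exact h'.2 h''

omit [Fintype V] in
lemma mem_K_of_rem {p : V → E d} (hp : OddF p) {G : V → V → Prop} {x y : V} (hxy : x ≠ y)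
    {m : Mot V d} (hm : m ∈ K p (rem G x y)) (h : ell x y p m = 0) : m ∈ K p G := by
  rw [mem_K] at hm ⊢
  intro a b hab
  by_cases hk : kq {x, y} a b
  · rcases (kq_pair_iff hxy).1 hk with ⟨rfl, rfl⟩ | ⟨rfl, rfl⟩ | ⟨rfl, rfl⟩ | ⟨rfl, rfl⟩
    · exact h
    · rw [ell_symm, h]
    · rw [ell_neg hp, h, neg_zero]
    · rw [ell_neg hp, ell_symm, h, neg_zero]
  · exact hm a b ⟨hab, hk⟩

lemma finrank_K_rem {p : V → E d} (hp : OddF p) (G : V → V → Prop) {x y : V} (hxy : x ≠ y) :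
    finrank ℝ (K p (rem G x y)) ≤ finrank ℝ (K p G) + 1 := by
  have h1 := finrank_le_inf_ker_add (K p (rem G x y)) (ell x y p)
  have h2 : K p (rem G x y) ⊓ LinearMap.ker (ell x y p) ≤ K p G :=
    fun m hm => mem_K_of_rem hp hxy hm.1 hm.2
  have h3 := Submodule.finrank_mono h2
  rw [finrank_self] at h1
  omega

noncomputable def phi (p : V → E d) (G : V → V → Prop) : ℕ := 4 * finrank ℝ (K p G) + ec G

lemma phi_mono {p : V → E d} (hp : OddF p) {G' : V → V → Prop} (hG' : SG G') :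
    ∀ n, ∀ G : V → V → Prop, ec G = n → SG G → G' ≤ G → phi p G' ≤ phi p G := by
  intro n
  induction n using Nat.strong_induction_on with
  | _ n ih =>
    intro G hn hG hle
    by_cases h : G ≤ G'
    · rw [le_antisymm hle h]
    obtain ⟨x, y, hxy, hxy'⟩ : ∃ x y, G x y ∧ ¬ G' x y := by
      by_contra hcon
      push Not at hcon
      exact h hcon
    have e1 := ec_rem hG hxy
    have e2 := finrank_K_rem hp G (hG.ne hxy)
    have e3 := ih _ (by omega) (rem G x y) rfl (hG.rem (hG.ne_neg hxy))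
      (le_rem hG' hle (hG.ne hxy) hxy')
    unfold phi at *
    omega

omit [Fintype V] [DecidableEq V] in
lemma sg_bot : SG (⊥ : V → V → Prop) := ⟨fun h => h, fun h => h, fun h => h.elim, fun h => h.elim⟩

omit [DecidableEq V] in
lemma phi_bot (p : V → E d) : phi p ⊥ = 4 * finrank ℝ (Mot V d) := by
  have h1 : K p ⊥ = ⊤ := eq_top_iff.2 (fun m _ => mem_K.2 (fun _ _ h => h.elim))
  have h2 : ec (⊥ : V → V → Prop) = 0 := by simp [ec]
  rw [phi, h1, h2, finrank_top, add_zero]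

lemma phi_ge {p : V → E d} (hp : OddF p) {G : V → V → Prop} (hG : SG G) :
    phi p ⊥ ≤ phi p G := phi_mono hp sg_bot _ G rfl hG bot_le

def Ind (p : V → E d) (G : V → V → Prop) : Prop :=
  ∀ x y, G x y → ∃ m ∈ K p (rem G x y), ell x y p m ≠ 0

omit [Fintype V] in
lemma Ind.mono {p : V → E d} {G G' : V → V → Prop} (h : Ind p G) (hle : G' ≤ G) : Ind p G' := by
  intro x y hxy
  obtain ⟨m, hm, h1⟩ := h x y (hle x y hxy)
  exact ⟨m, K_anti (fun a b hab => ⟨hle a b hab.1, hab.2⟩) hm, h1⟩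

omit [Fintype V] in
lemma Ind.present {p : V → E d} {G H : V → V → Prop} (h : Ind p G) (hH : SG H) (hle : H ≤ G)
    {x y : V} (hxy : G x y) (hne : x ≠ y) (himp : ∀ m ∈ K p H, ell x y p m = 0) : H x y := by
  by_contra hcon
  obtain ⟨m, hm, h1⟩ := h x y hxy
  exact h1 (himp m (K_anti (le_rem hH hle hne hcon) hm))

lemma Ind.phi_le {p : V → E d} :
    ∀ n, ∀ G : V → V → Prop, ec G = n → SG G → Ind p G → phi p G ≤ phi p ⊥ := by
  intro n
  induction n using Nat.strong_induction_on with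
  | _ n ih =>
    intro G hn hG hI
    by_cases h : G ≤ ⊥
    · rw [le_bot_iff.1 h]
    obtain ⟨x, y, hxy⟩ : ∃ x y, G x y := by
      by_contra hcon
      push Not at hcon
      exact h hcon
    have e1 := ec_rem hG hxy
    have e3 := ih _ (by omega) (rem G x y) rfl (hG.rem (hG.ne_neg hxy)) (hI.mono (rem_le G x y))
    have e2 : finrank ℝ (K p G) < finrank ℝ (K p (rem G x y)) := by
      apply Submodule.finrank_lt_finrank_of_lt
      obtain ⟨m, hm, h1⟩ := hI x y hxy
      exact lt_of_le_of_ne (K_anti (rem_le G x y))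
        (fun e => h1 (mem_K.1 (e ▸ hm : m ∈ K p G) x y hxy))
    unfold phi at *
    omega

lemma ind_of_phi_le {p : V → E d} (hp : OddF p) {G : V → V → Prop} (hG : SG G)
    (h : phi p G ≤ phi p ⊥) : Ind p G := by
  intro x y hxy
  by_contra hcon
  push Not at hcon
  have e1 := ec_rem hG hxy
  have e2 : K p (rem G x y) ≤ K p G := fun m hm => mem_K_of_rem hp (hG.ne hxy) hm (hcon m hm)
  have e3 := Submodule.finrank_mono e2
  have e4 := phi_ge hp (hG.rem (hG.ne_neg hxy))
  unfold phi at *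
  omega

lemma ec_star {G : V → V → Prop} (hG : SG G) (v : V) (N : Finset V) (hN : ∀ r ∈ N, G v r) :
    SG (fun a b => G a b ∧ ∀ r ∈ N, ¬ kq {v, r} a b) ∧
      ec (fun a b => G a b ∧ ∀ r ∈ N, ¬ kq {v, r} a b) + 4 * N.card = ec G := by
  induction N using Finset.induction_on with
  | empty => simpa using hG
  | insert s N hs ih =>
    obtain ⟨h1, h2⟩ := ih (fun r hr => hN r (mem_insert_of_mem hr))
    have hvs := hN s (mem_insert_self _ _)
    have e : (fun a b => G a b ∧ ∀ r ∈ insert s N, ¬ kq {v, r} a b)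
        = rem (fun a b => G a b ∧ ∀ r ∈ N, ¬ kq {v, r} a b) v s := by
      funext a b
      simp only [rem, forall_mem_insert]
      apply propext; tauto
    rw [e, card_insert_of_notMem hs]
    refine ⟨h1.rem (hG.ne_neg hvs), ?_⟩
    have := ec_rem h1 (x := v) (y := s) ⟨hvs, fun r hr hk => by
      have hvr := hN r (mem_insert_of_mem hr)
      rcases (kq_pair_iff (hG.ne hvr)).1 hk with h | h | h | h
      · exact hs (h.2 ▸ hr)
      · exact hG.ne hvr h.1
      · exact ne_neg' _ h.1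
      · exact hG.ne_neg hvr h.1⟩
    omega

lemma ec_contr {G G' : V → V → Prop} (hG : SG G) {u v : V} (huv : G u v)
    (hG' : ∀ a b, G' a b → a ≠ b ∧ ∃ x y, G x y ∧ kap u v x = a ∧ kap u v y = b)
    (R : Finset V) (hR : ∀ r ∈ R, G u r ∧ G v r) : ec G' + 4 + 4 * R.card ≤ ec G := by
  classical
  have h1 := hG.ne huv
  have h2 := hG.ne_neg huv
  have huR : u ∉ R := fun h => hG.ne (hR u h).1 rfl
  obtain ⟨hs, hc⟩ := ec_star hG v (insert u R) (by
    intro r hr
    rcases mem_insert.1 hr with rfl | hr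
    · exact hG.symm huv
    · exact (hR r hr).2)
  rw [card_insert_of_notMem huR] at hc
  set H : V → V → Prop := fun a b => G a b ∧ ∀ r ∈ insert u R, ¬ kq {v, r} a b with hH
  have hur : ∀ r ∈ R, H u r ∧ kap u v r = r := by
    intro r hr
    have hur := (hR r hr).1
    have hvr := (hR r hr).2
    refine ⟨⟨hur, fun r' hr' hk => ?_⟩,
      kap_of_ne (hG.ne hvr).symm (fun h => hG.ne_neg hvr (by rw [h, neg_neg]))⟩
    have hne : v ≠ r' := by
      rcases mem_insert.1 hr' with rfl | hr'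
      · exact h1.symm
      · exact hG.ne (hR r' hr').2
    rcases (kq_pair_iff hne).1 hk with h | h | h | h
    · exact h1 h.1
    · exact hG.ne hvr h.2.symm
    · exact h2 h.1
    · exact hG.ne_neg hvr (by rw [h.2, neg_neg])
  have : ec G' ≤ ec H := by
    apply card_le_card_of_surjOn (fun e : V × V => (kap u v e.1, kap u v e.2))
    rintro ⟨a, b⟩ hab
    simp only [coe_filter, mem_univ, true_and, Set.mem_ofPred_eq] at hab
    obtain ⟨hne, x, y, hxy, rfl, rfl⟩ := hG' a b hab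
    simp only [Set.mem_image, coe_filter, mem_univ, true_and, Set.mem_ofPred_eq, Prod.mk.injEq,
      Prod.exists]
    by_cases hk0 : H x y
    · exact ⟨x, y, hk0, rfl, rfl⟩
    obtain ⟨r, hr, hk⟩ : ∃ r ∈ insert u R, kq {v, r} x y := by
      by_contra hcon
      push Not at hcon
      exact hk0 ⟨hxy, hcon⟩
    rcases mem_insert.1 hr with hr | hr
    · rw [hr, pair_comm] at hk
      exact absurd (kap_eq_of_kq h1 h2 hk) hne
    have h3 := hur r hr
    rcases (kq_pair_iff (hG.ne (hR r hr).2)).1 hk with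
      ⟨rfl, rfl⟩ | ⟨rfl, rfl⟩ | ⟨rfl, rfl⟩ | ⟨rfl, rfl⟩
    · exact ⟨u, y, h3.1, by simp [kap_u h1 h2], rfl⟩
    · exact ⟨x, u, hs.symm h3.1, rfl, by simp [kap_u h1 h2]⟩
    · exact ⟨-u, -r, hs.neg h3.1, by simp [kap_neg, kap_u h1 h2], rfl⟩
    · exact ⟨-r, -u, hs.symm (hs.neg h3.1), rfl, by simp [kap_neg, kap_u h1 h2]⟩
  omega

/-- transfer of independence to the contracted circuit -/
theorem ind_ctr {p : V → E d} (hp : Generic p) (hd : 3 ≤ d) {X : Finset (Finset V)}
    (hX : Circ d X) {u v : V} (h1 : u ≠ v) (hD : ∃ D ∈ X, u ∈ D ∧ v ∈ D)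
    (hX' : Circ d (ctr u v X)) (hc : -v ∉ vs X ∨ Big d (vs X)) (hI : Ind p (gr X))
    (R : Finset V) (hR : ∀ r ∈ R, gr X u r ∧ gr X v r) :
    R.card + 1 ≤ d ∧ (d ≤ R.card + 1 → Ind p (gr (ctr u v X))) := by
  have hl := lift_chain hp hd hX h1 hD hc (rigid hp hd _ hX')
  obtain ⟨D, hD, hu, hv⟩ := hD
  have h2 : u ≠ -v := fun h => hX.af D hD v hv (h ▸ hu)
  have e1 := Submodule.finrank_mono (triv_le_K hp.odd (gr_le_kq_vs X))
  have e2 := finrank_K_le_K0 p (gr (ctr u v X)) u v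
  have e3 := ec_contr (sg_gr hX.af) (clique_gr hD _ hu _ hv h1)
    (fun a b => (gr_ctr hX.toGood hX.cyc h1 h2 a b).1) R hR
  have e4 := Ind.phi_le _ _ rfl (sg_gr hX.af) hI
  have e5 := phi_ge hp.odd (sg_gr hX'.af)
  refine ⟨?_, fun h => ind_of_phi_le hp.odd (sg_gr hX'.af) ?_⟩
  · generalize phi p ⊥ = t at *
    unfold phi at *
    omega
  · generalize phi p ⊥ = t at *
    unfold phi at *
    omega

end Pool.Agent.MP_d539bc_co
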