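import Pool.Agent.MP_d539bc_co.Brouwer

/-! Invariance of domain and non-separation by sets of codimension two. -/

namespace Pool.Agent.MP_d539bc_co

open Metric Set Module Topology Filter

section inner

variable {E : Type} [NormedAddCommGroup E] [InnerProductSpace ℝ E] [FiniteDimensional ℝ E]

theorem brouwer_ball {x : E} {r : ℝ} (hr : 0 < r) {F : E → E}
    (hF : ContinuousOn F (closedBall x r)) (hb : ∀ y ∈ closedBall x r, ‖y - F y - x‖ ≤ r) :
    ∃ y ∈ closedBall x r, F y = 0 := by
  let π : E → E := fun y => x + (r / max r ‖y - x‖) • (y - x)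
  have hpos : ∀ y : E, 0 < max r ‖y - x‖ := fun y => lt_max_of_lt_left hr
  have hπ : Continuous π := by
    apply continuous_const.add
    apply Continuous.smul _ (by fun_prop)
    exact continuous_const.div (by fun_prop) (fun y => (hpos y).ne')
  have hπm : ∀ y, π y ∈ closedBall x r := by
    intro y
    rw [mem_closedBall, dist_eq_norm]
    simp only [π, add_sub_cancel_left, norm_smul, Real.norm_eq_abs]
    rw [abs_of_pos (div_pos hr (hpos y)), div_mul_eq_mul_div, div_le_iff₀ (hpos y)]
    exact mul_le_mul_of_nonneg_left (le_max_right _ _) hr.le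
  have hπid : ∀ y ∈ closedBall x r, π y = y := by
    intro y hy
    rw [mem_closedBall, dist_eq_norm] at hy
    simp only [π, max_eq_left hy, div_self hr.ne', one_smul, add_sub_cancel]
  obtain ⟨y, hy⟩ := fixed_of_bounded (fun y => π y - F (π y))
    (hπ.sub (hF.comp_continuous hπ hπm)) (M := ‖x‖ + r) (fun y => by
      have := hb _ (hπm y)
      calc ‖π y - F (π y)‖ = ‖x + (π y - F (π y) - x)‖ := by congr 1; abel
        _ ≤ ‖x‖ + ‖π y - F (π y) - x‖ := norm_add_le _ _
        _ ≤ _ := by linarith)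
  have hym : y ∈ closedBall x r := by
    rw [mem_closedBall, dist_eq_norm, ← hy]
    exact hb _ (hπm y)
  refine ⟨y, hym, ?_⟩
  simp only [hπid y hym] at hy
  simpa using hy

end inner

theorem tietze_compact {A B C : Type} [NormedAddCommGroup A] [NormedAddCommGroup B]
    [NormedAddCommGroup C] [NormedSpace ℝ C] [FiniteDimensional ℝ C] {S : Set A}
    (hS : IsCompact S) {f : A → B} (hf : ContinuousOn f S) (hinj : InjOn f S) {g : A → C}
    (hg : ContinuousOn g S) : ∃ G : B → C, Continuous G ∧ ∀ y ∈ S, G (f y) = g y := by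
  have : CompactSpace S := isCompact_iff_compactSpace.1 hS
  have : TietzeExtension.{0, 0} C := TietzeExtension.of_tvs ℝ
  have he : IsClosedEmbedding (S.domRestrict f) :=
    hf.domRestrict.isClosedEmbedding (injOn_iff_injective.1 hinj)
  obtain ⟨G, hG⟩ := ContinuousMap.exists_extension' he ⟨S.domRestrict g, hg.domRestrict⟩
  exact ⟨G, G.continuous, fun y hy => congrFun hG ⟨y, hy⟩⟩

section inner

variable {E : Type} [NormedAddCommGroup E] [InnerProductSpace ℝ E] [FiniteDimensional ℝ E]

theorem iod_ball {x : E} {r : ℝ} (hr : 0 < r) {f : E → E}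
    (hf : ContinuousOn f (closedBall x r)) (hinj : InjOn f (closedBall x r)) :
    f '' closedBall x r ∈ 𝓝 (f x) := by
  by_contra hcon
  have hcomp := isCompact_closedBall x r
  obtain ⟨G, hG, hGf⟩ := tietze_compact hcomp hf hinj (g := fun y => y - x) (by fun_prop)
  have hx : x ∈ closedBall x r := mem_closedBall_self hr.le
  have hG0 : G (f x) = 0 := by rw [hGf x hx, sub_self]
  obtain ⟨δ, hδ, hδ'⟩ := Metric.continuous_iff.1 hG (f x) (r / 4) (by positivity)
  set ε := δ / 2 with hε
  have hε0 : 0 < ε := by positivity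
  have hGs : ∀ z, dist z (f x) < 2 * ε → ‖G z‖ < r / 4 := by
    intro z hz
    have := hδ' z (by linarith)
    rwa [hG0, dist_zero_right] at this
  obtain ⟨c, hc, hcC⟩ : ∃ c, dist c (f x) < ε ∧ c ∉ f '' closedBall x r := by
    by_contra h
    push Not at h
    exact hcon (mem_of_superset (ball_mem_nhds _ hε0) h)
  have hne : ∀ y ∈ closedBall x r, 0 < ‖f y - c‖ := fun y hy =>
    norm_pos_iff.2 (sub_ne_zero.2 (fun e => hcC ⟨y, hy, e⟩))
  let Φ : E → E := fun y => c + (max (ε / ‖f y - c‖) 1) • (f y - c)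
  have hΦ : ContinuousOn Φ (closedBall x r) := by
    apply continuousOn_const.add
    apply ContinuousOn.smul _ (hf.sub continuousOn_const)
    apply ContinuousOn.sup _ continuousOn_const
    exact continuousOn_const.div (hf.sub continuousOn_const).norm (fun y hy => (hne y hy).ne')
  have hΦ1 : ∀ y ∈ closedBall x r, ε ≤ ‖f y - c‖ → Φ y = f y := by
    intro y hy h
    simp only [Φ, max_eq_right ((div_le_one (hne y hy)).2 h), one_smul, add_sub_cancel]
  have hΦ2 : ∀ y ∈ closedBall x r, ‖f y - c‖ < ε → Φ y ∈ sphere c ε := by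
    intro y hy h
    rw [mem_sphere, dist_eq_norm]
    simp only [Φ, max_eq_left ((one_le_div (hne y hy)).2 h.le), add_sub_cancel_left, norm_smul,
      Real.norm_eq_abs]
    rw [abs_of_pos (div_pos hε0 (hne y hy)), div_mul_cancel₀ _ (hne y hy).ne']
  obtain ⟨η, hη, hη1, hη2⟩ : ∃ η > 0, η ≤ r / 4 ∧
      ∀ y ∈ closedBall x r, ε ≤ ‖f y - c‖ → η ≤ ‖y - x‖ := by
    have h1 : ContinuousWithinAt f (closedBall x r) x := hf x hx
    obtain ⟨θ, hθ, hθ'⟩ := Metric.continuousWithinAt_iff.1 h1 (ε - dist c (f x)) (by linarith)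
    refine ⟨min θ (r / 4), by positivity, min_le_right _ _, fun y hy h => ?_⟩
    by_contra hlt
    push Not at hlt
    have h2 := hθ' hy (by rw [dist_eq_norm]; exact hlt.trans_le (min_le_left _ _))
    have h3 := dist_triangle (f y) (f x) c
    rw [dist_comm (f x) c, dist_eq_norm] at h3
    linarith
  obtain ⟨P, hP, hPG, -⟩ := hG.exists_contDiff_approx 1 (ε := fun _ => η / 2) continuous_const
    (fun _ => by positivity)
  obtain ⟨w, hw, hwP⟩ : ∃ w, ‖w‖ < η / 2 ∧ w ∉ P '' sphere c ε := by
    borelize E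
    have h0 : (MeasureTheory.Measure.addHaar : MeasureTheory.Measure E) (P '' sphere c ε) = 0 :=
      MeasureTheory.addHaar_image_eq_zero_of_differentiableOn_of_addHaar_eq_zero _
        (hP.differentiable (by simp)).differentiableOn
        (MeasureTheory.Measure.addHaar_sphere_of_ne_zero _ c hε0.ne')
    have h1 := MeasureTheory.Measure.interior_eq_empty_of_null h0
    by_contra h
    push Not at h
    have : (0 : E) ∈ interior (P '' sphere c ε) :=
      mem_interior_iff_mem_nhds.2 (mem_of_superset (ball_mem_nhds 0 (show 0 < η / 2 by positivity))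
        (fun w hw => h w (by simpa using hw)))
    rw [h1] at this
    exact this
  have hPG' : ∀ z, ‖P z - w - G z‖ < η := by
    intro z
    have h1 := hPG z
    rw [dist_eq_norm] at h1
    calc ‖P z - w - G z‖ = ‖(P z - G z) - w‖ := by congr 1; abel
      _ ≤ ‖P z - G z‖ + ‖w‖ := norm_sub_le _ _
      _ < η := by linarith
  obtain ⟨y, hy, hy0⟩ := brouwer_ball hr (F := fun y => P (Φ y) - w)
    ((hP.continuous.comp_continuousOn hΦ).sub continuousOn_const) (by
      intro y hy
      have e : y - (P (Φ y) - w) - x = G (f y) - (P (Φ y) - w) := by rw [hGf y hy]; abel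
      rw [e]
      rcases le_or_gt ε ‖f y - c‖ with h | h
      · rw [hΦ1 y hy h, norm_sub_rev]
        linarith [hPG' (f y)]
      · have h1 := hGs (f y) (by
          have := dist_triangle (f y) c (f x)
          rw [dist_eq_norm (f y) c] at this
          linarith)
        have h2 := hGs (Φ y) (by
          have := dist_triangle (Φ y) c (f x)
          rw [mem_sphere.1 (hΦ2 y hy h)] at this
          linarith)
        have h3 := hPG' (Φ y)
        calc ‖G (f y) - (P (Φ y) - w)‖ = ‖G (f y) - G (Φ y) - (P (Φ y) - w - G (Φ y))‖ := by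
              congr 1; abel
          _ ≤ ‖G (f y) - G (Φ y)‖ + ‖P (Φ y) - w - G (Φ y)‖ := norm_sub_le _ _
          _ ≤ ‖G (f y)‖ + ‖G (Φ y)‖ + ‖P (Φ y) - w - G (Φ y)‖ := by
              linarith [norm_sub_le (G (f y)) (G (Φ y))]
          _ ≤ r := by linarith)
  rcases le_or_gt ε ‖f y - c‖ with h | h
  · have h1 := hPG' (f y)
    rw [hΦ1 y hy h] at hy0
    rw [hy0, zero_sub, norm_neg, hGf y hy] at h1
    linarith [hη2 y hy h]
  · exact hwP ⟨_, hΦ2 y hy h, sub_eq_zero.1 hy0⟩

end inner

variable {A B : Type} [NormedAddCommGroup A] [NormedSpace ℝ A] [FiniteDimensional ℝ A]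
  [NormedAddCommGroup B] [NormedSpace ℝ B] [FiniteDimensional ℝ B]

theorem iod {f : A → B} {U : Set A} {a : A} (hU : U ∈ 𝓝 a) (hf : ContinuousOn f U)
    (hinj : InjOn f U) (hd : finrank ℝ A = finrank ℝ B) : f '' U ∈ 𝓝 (f a) := by
  let eA : A ≃L[ℝ] EuclideanSpace ℝ (Fin (finrank ℝ B)) :=
    ContinuousLinearEquiv.ofFinrankEq (by simp [hd])
  let eB : B ≃L[ℝ] EuclideanSpace ℝ (Fin (finrank ℝ B)) :=
    ContinuousLinearEquiv.ofFinrankEq (by simp)
  have h1 : eA.symm ⁻¹' U ∈ 𝓝 (eA a) :=
    eA.symm.continuous.continuousAt.preimage_mem_nhds (by simpa using hU)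
  obtain ⟨r, hr, hr'⟩ := Metric.nhds_basis_closedBall.mem_iff.1 h1
  have h2 := iod_ball hr (f := fun y => eB (f (eA.symm y)))
    (eB.continuous.comp_continuousOn (hf.comp eA.symm.continuous.continuousOn hr'))
    (fun y hy y' hy' h => eA.symm.injective (hinj (hr' hy) (hr' hy') (eB.injective h)))
  simp only [ContinuousLinearEquiv.symm_apply_apply] at h2
  refine mem_of_superset (eB.continuous.continuousAt.preimage_mem_nhds h2) ?_
  rintro b ⟨y, hy, h⟩
  exact ⟨_, hr' hy, eB.injective h⟩

theorem iod_le {f : A → B} {U : Set A} {a : A} (hU : U ∈ 𝓝 a) (hf : ContinuousOn f U)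
    (hinj : InjOn f U) : finrank ℝ A ≤ finrank ℝ B := by
  by_contra h
  push Not at h
  obtain ⟨ι, hι⟩ := (finrank_le_iff_exists_linearMap (R := ℝ) (M := B) (M' := A)).1 h.le
  have h1 := iod (f := fun y => ι (f y)) hU
    (ι.continuous_of_finiteDimensional.comp_continuousOn hf)
    (fun y hy y' hy' h => hinj hy hy' (hι h)) rfl
  have h2 : LinearMap.range ι = ⊤ := by
    apply Submodule.eq_top_of_nonempty_interior'
    refine ⟨_, mem_interior_iff_mem_nhds.2 (mem_of_superset h1 ?_)⟩
    rintro _ ⟨y, -, rfl⟩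
    exact ⟨_, rfl⟩
  have h3 := LinearMap.finrank_range_le ι
  rw [h2, finrank_top] at h3
  omega

end Pool.Agent.MP_d539bc_co
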