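import Pool.Agent.MP_d539bc_co.Unstack
import Pool.Agent.MP_d539bc_co.Count

/-! Circuits with independent symmetric graph are built by simplicial additions. -/

namespace Pool.Agent.MP_d539bc_co

open Finset Module
open scoped Pointwise

variable {V : Type} [Fintype V] [DecidableEq V] [FreeNeg V] {d : ℕ}

omit [Fintype V] [DecidableEq V] [FreeNeg V] in
lemma Clique.exists_adj {G : V → V → Prop} {Q : Finset V} (h : Clique G Q) (hc : 2 ≤ Q.card)
    {x : V} (hx : x ∈ Q) : ∃ y, G x y := by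
  obtain ⟨y, hy, hyx⟩ := exists_mem_ne (s := Q) (by omega) x
  exact ⟨y, h x hx y hy hyx.symm⟩

omit [Fintype V] in
lemma rigB {p : V → E d} (hp : Generic p) (hd : 2 ≤ d) {f : Bool} {G : V → V → Prop}
    (hb : Built d f G) : f = true → ∀ m ∈ K p G, ∃ b, ∀ x y, G x y → m (cls x) = b := by
  induction hb with
  | baseA Q _ _ => intro h; cases h
  | baseB Q hQ hc =>
    intro _ m hm
    rw [mem_K] at hm
    obtain ⟨q, hq⟩ : Q.Nonempty := card_pos.1 (by omega)
    have := hp.dbl_const hQ hc (m := m) (fun x hx y hy hxy =>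
      ⟨hm _ _ ⟨hxy, fun e => hQ y hy (e ▸ hx), Or.inl hx, Or.inl hy⟩,
        hm _ _ ⟨fun e => hQ y hy (e ▸ hx), by simpa using hxy, Or.inl hx, Or.inr (by simpa)⟩⟩)
    refine ⟨m (cls q), fun x y hxy => ?_⟩
    rcases hxy.2.2.1 with h | h
    · exact this x h q hq
    · simpa using this _ h q hq
  | add f G Q x _ hS ih =>
    intro hf m hm
    obtain ⟨b, hb⟩ := ih hf m (K_anti le_sup_left hm)
    have hQ : ∀ q ∈ Q, m (cls q) = b := by
      intro q hq
      obtain ⟨y, hy⟩ := hS.clique.exists_adj (by rw [hS.card]; exact hd) hq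
      exact hb q y hy
    have hx : m (cls x) = b := by
      have := hp.extend (hS.clique.af hS.sg) hS.card (m := m) (B := 0) (b := b) (fun w => by simp)
        (by simpa using hQ) hS.notin hS.negnotin (fun q hq => mem_K.1 hm _ _ (hS.nbr.2 hq))
      simpa using this
    have hσ : ∀ a ∈ insert x Q, m (cls a) = b := by
      intro a ha
      rcases mem_insert.1 ha with rfl | ha
      · exact hx
      · exact hQ a ha
    refine ⟨b, ?_⟩
    rintro a y (h | ⟨-, h | h⟩)
    · exact hb a y h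
    · exact hσ a h.1
    · simpa using hσ _ h.1

def RA (p : V → E d) (G : V → V → Prop) (W : Finset V) : Prop :=
  AF W ∧ G ≤ kq W ∧ (∀ a ∈ W, ∃ b, G a b) ∧ K p G ≤ Triv p W

omit [Fintype V] in
lemma RA.wlog {p : V → E d} (hp : OddF p) {G : V → V → Prop} (hG : SG G) {W Q : Finset V}
    (h : RA p G W) (hQ : Clique G Q) (hc : 2 ≤ Q.card) : ∃ W', RA p G W' ∧ Q ⊆ W' := by
  rcases clique_kq_sub h.1 (hQ.mono h.2.1) hc with h' | h'
  · exact ⟨W, h, h'⟩
  · refine ⟨-W, ⟨h.1.neg, by rw [kq_neg]; exact h.2.1, fun a ha => ?_,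
      h.2.2.2.trans (Triv_neg hp W)⟩, h'⟩
    obtain ⟨b, hb⟩ := h.2.2.1 _ (Finset.mem_neg'.1 ha)
    exact ⟨_, hG.neg_left hb⟩

omit [Fintype V] in
lemma rigA {p : V → E d} (hp : Generic p) (hd : 2 ≤ d) {f : Bool} {G : V → V → Prop}
    (hb : Built d f G) : f = false → ∃ W, RA p G W := by
  induction hb with
  | baseB Q _ _ => intro h; cases h
  | baseA Q hQ hc =>
    intro _
    exact ⟨Q, hQ, le_rfl, fun a ha => (clique_kq Q).exists_adj (by omega) ha, fun m hm =>
      hp.clique_triv hQ hc (fun x hx y hy hxy => mem_K.1 hm x y (clique_kq Q x hx y hy hxy))⟩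
  | add f G Q x _ hS ih =>
    intro hf
    obtain ⟨W, hW⟩ := ih hf
    obtain ⟨W, ⟨h1, h2, h3, h4⟩, hQW⟩ := hW.wlog hp.odd hS.sg hS.clique (by rw [hS.card]; exact hd)
    obtain ⟨q, hq⟩ : Q.Nonempty := card_pos.1 (by rw [hS.card]; omega)
    refine ⟨insert x W, h1.insert (fun h => ?_), sup_le (h2.trans (kq_mono (subset_insert _ _)))
      (kq_mono (insert_subset_insert _ hQW)), fun a ha => ?_, fun m hm => ?_⟩
    · obtain ⟨b, hb⟩ := h3 _ h
      exact hS.iso _ (hS.sg.neg_left hb)
    · rcases mem_insert.1 ha with rfl | ha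
      · exact ⟨q, hS.nbr.2 hq⟩
      · obtain ⟨b, hb⟩ := h3 a ha
        exact ⟨b, Or.inl hb⟩
    · obtain ⟨B, b, hB, hm'⟩ := h4 (K_anti le_sup_left hm)
      refine ⟨B, b, hB, fun a ha => ?_⟩
      rcases mem_insert.1 ha with rfl | ha
      · exact hp.extend (hS.clique.af hS.sg) hS.card hB (fun q hq => hm' q (hQW hq)) hS.notin
          hS.negnotin (fun q hq => mem_K.1 hm _ _ (hS.nbr.2 hq))
      · exact hm' a ha

omit [Fintype V] in
lemma absorb_one {p : V → E d} (hp : Generic p) (hd : 2 ≤ d) {f : Bool} {Y : V → V → Prop}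
    (hb : Built d f Y) {Q : Finset V} {x : V} (hc : Q.card = d) (hQ : Clique Y Q) (hx : x ∉ Q)
    (hx' : -x ∉ Q) (hI : Ind p (Y ⊔ kq (insert x Q))) : Built d f (Y ⊔ kq (insert x Q)) := by
  have hY := hb.sg
  by_cases hiso : ∀ y, ¬ Y x y
  · exact Built.add _ _ _ _ hb ⟨hY, hc, hQ, hiso, hx, hx'⟩
  push Not at hiso
  obtain ⟨y, hy⟩ := hiso
  have hne : ∀ q ∈ Q, x ≠ q := fun q hq e => hx (e ▸ hq)
  have hadj : ∀ q ∈ Q, (Y ⊔ kq (insert x Q)) x q := fun q hq =>
    Or.inr (clique_kq _ x (mem_insert_self _ _) q (mem_insert_of_mem hq) (hne q hq))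
  have key : ∀ q ∈ Q, Y x q := by
    intro q hq
    cases f with
    | true =>
      apply hI.present hY le_sup_left (hadj q hq) (hne q hq)
      intro m hm
      obtain ⟨b, hb'⟩ := rigB hp hd hb rfl m hm
      obtain ⟨z, hz⟩ := hQ.exists_adj (by omega) hq
      rw [ell_apply, hb' x y hy, hb' q z hz]; simp
    | false =>
      obtain ⟨W, hW⟩ := rigA hp hd hb rfl
      obtain ⟨W, ⟨h1, h2, -, h4⟩, hQW⟩ := hW.wlog hp.odd hY hQ (by omega)
      rcases (h2 x y hy).2 with h | h
      · apply hI.present hY le_sup_left (hadj q hq) (hne q hq)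
        intro m hm
        obtain ⟨B, b, hB, hm'⟩ := h4 hm
        exact ell_of_triv hB (hm' x h.1) (hm' q (hQW hq))
      · exfalso
        obtain ⟨m, hm, hne'⟩ := hI x q (hadj q hq)
        have hnY : ¬ Y x q := fun h' => by
          rcases (h2 x q h').2 with h3 | h3
          · exact h1 x h3.1 h.1
          · exact h1 q (hQW hq) h3.2
        obtain ⟨B, b, hB, hm'⟩ := h4 (K_anti (le_rem hY le_sup_left (hne q hq) hnY) hm)
        have hell : ∀ r ∈ Q, ell x r p m = 2 * B (p x) (p r) := by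
          intro r hr
          have e1 := hm' _ h.1
          rw [cls_neg, hp.odd, map_neg] at e1
          rw [ell_apply, e1, hm' r (hQW hr)]
          have := hB.skew (p r) (p x)
          simp only [LinearMap.sub_apply, LinearMap.add_apply, LinearMap.neg_apply, map_sub,
            hB (p x), hB (p r)]
          linarith
        have h0 : B (p x) = 0 := by
          apply hp.gp1 (insert x (Q.erase q))
          · exact ((hQ.af hY).mono (erase_subset _ _)).insert (fun h => hx' (mem_of_mem_erase h))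
          · rw [card_insert_of_notMem (fun h => hx (mem_of_mem_erase h)), card_erase_add_one hq, hc]
          · intro r hr
            rcases mem_insert.1 hr with rfl | hr
            · exact hB _
            have hrQ := mem_of_mem_erase hr
            have := mem_K.1 hm x r ⟨hadj r hrQ, fun hk => by
              rcases (kq_pair_iff (hne q hq)).1 hk with h | h | h | h
              · exact ne_of_mem_erase hr h.2
              · exact hne q hq h.1
              · exact ne_neg' _ h.1
              · exact hx' (by rw [h.1, neg_neg]; exact hq)⟩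
            rw [hell r hrQ] at this
            linarith
        apply hne'
        rw [hell q hq, h0]; simp
  have : kq (insert x Q) ≤ Y := by
    apply kq_le_of_clique hY
    intro a ha b hb hab
    rcases mem_insert.1 ha with ha' | ha' <;> rcases mem_insert.1 hb with hb' | hb'
    · exact absurd (ha'.trans hb'.symm) hab
    · rw [ha']; exact key b hb'
    · rw [hb']; exact hY.symm (key a ha')
    · exact hQ a ha' b hb' hab
  rwa [sup_eq_left.2 this]

omit [Fintype V] in
lemma absorb {p : V → E d} (hp : Generic p) (hd : 2 ≤ d) {f' : Bool} {X : V → V → Prop}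
    (hX : Built d f' X) {f : Bool} : (f' = true → f = true) → ∀ (U : V → V → Prop) (D : Finset V),
      Built d f U → D.card = d → Clique U D → Clique X D → Ind p (U ⊔ X) → Built d f (U ⊔ X) := by
  induction hX with
  | baseA Q hQ hc =>
    intro _ U D hU hD h1 h2 _
    have : kq Q ≤ U := by
      rcases clique_kq_eq hQ h2 (by omega) (hc.trans hD.symm) with rfl | rfl
      · exact kq_le_of_clique hU.sg h1
      · rw [← kq_neg]; exact kq_le_of_clique hU.sg h1
    rwa [sup_eq_left.2 this]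
  | baseB Q hQ hc =>
    intro hf U D hU hD h1 h2 hI
    have hDQ : ∀ x ∈ D, x ∈ Q ∨ -x ∈ Q := by
      intro x hx
      obtain ⟨y, hy⟩ := h2.exists_adj (by omega) hx
      exact hy.2.2.1
    have hv : ∀ x, (x ∈ Q ∨ -x ∈ Q) → ∃ y, U x y := by
      intro x hx
      rcases transversal (h1.af hU.sg) (hD.trans hc.symm) hDQ hx with h | h
      · exact h1.exists_adj (by omega) h
      · obtain ⟨y, hy⟩ := h1.exists_adj (by omega) h
        exact ⟨_, hU.sg.neg_left hy⟩
    have : oct Q ≤ U := by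
      intro x y hxy
      apply hI.present hU.sg le_sup_left (Or.inr hxy) hxy.1
      intro m hm
      obtain ⟨b, hb⟩ := rigB hp hd hU (hf rfl) m hm
      obtain ⟨x', hx'⟩ := hv x hxy.2.2.1
      obtain ⟨y', hy'⟩ := hv y hxy.2.2.2
      rw [ell_apply, hb x x' hx', hb y y' hy']; simp
    rwa [sup_eq_left.2 this]
  | add f' X Q x _ hS ih =>
    intro hf
    have aux : ∀ (U : V → V → Prop) (D : Finset V), Built d f U → D.card = d → Clique U D →
        Clique (X ⊔ kq (insert x Q)) D → Ind p (U ⊔ (X ⊔ kq (insert x Q))) → x ∈ D →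
        Built d f (U ⊔ (X ⊔ kq (insert x Q))) := by
      intro U D hU hD h1 h2 hI hx
      have hsub : D ⊆ insert x Q := by
        intro y hy
        by_cases h : x = y
        · rw [h]; exact mem_insert_self _ _
        · exact mem_insert_of_mem (hS.nbr.1 (h2 x hx y hy h))
      obtain ⟨q, hq, rfl⟩ := eq_erase_of_subset hsub
        (by rw [card_insert_of_notMem hS.notin, hS.card, hD])
      have h3 := absorb_one hp hd hU hD h1 (notMem_erase _ _)
        (fun h => hS.af q hq (mem_of_mem_erase h)) (by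
          rw [insert_erase hq]
          exact hI.mono (sup_le_sup_left le_sup_right _))
      rw [insert_erase hq] at h3
      have := ih hf _ Q h3 hS.card
        ((Clique.mono le_sup_right (clique_kq (insert x Q))) |> fun h a ha b hb hab =>
          h a (mem_insert_of_mem ha) b (mem_insert_of_mem hb) hab) hS.clique
        (by rwa [sup_assoc, sup_comm (kq _) X])
      rwa [sup_assoc, sup_comm (kq _) X] at this
    intro U D hU hD h1 h2 hI
    by_cases c1 : x ∈ D
    · exact aux U D hU hD h1 h2 hI c1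
    by_cases c2 : -x ∈ D
    · exact aux U (-D) hU (by rw [card_neg, hD]) (h1.neg hU.sg) (h2.neg hS.sg') hI
        (Finset.mem_neg'.2 c2)
    have h3 := ih hf U D hU hD h1 (fun a ha b hb hab => hS.old (h2 a ha b hb hab)
      (fun e => c1 (e ▸ ha)) (fun e => c2 (e ▸ ha)) (fun e => c1 (e ▸ hb)) (fun e => c2 (e ▸ hb)))
      (hI.mono (sup_le_sup_left le_sup_left _))
    rw [← sup_assoc] at hI ⊢
    exact absorb_one hp hd h3 hS.card (hS.clique.mono le_sup_right) hS.notin hS.negnotin hI

lemma split_of_ind {p : V → E d} (hp : Generic p) (hd : 4 ≤ d) {X : Finset (Finset V)}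
    (hX : Circ d X) {u v : V} (h1 : u ≠ v) (hD : ∃ D ∈ X, u ∈ D ∧ v ∈ D) (hn : ¬ gr X u (-v))
    (hX' : Circ d (ctr u v X)) (hc : -v ∉ vs X ∨ Big d (vs X)) (hI : Ind p (gr X))
    (ih : Ind p (gr (ctr u v X)) → ∃ f, Built d f (gr (ctr u v X))) :
    ∃ f, Built d f (gr X) := by
  classical
  let R : Finset V := univ.filter (fun r => gr X u r ∧ gr X v r)
  have hR : ∀ r, r ∈ R ↔ gr X u r ∧ gr X v r := fun r => by simp [R]
  have hi := ind_ctr hp (by omega) hX h1 hD hX' hc hI R (fun r => (hR r).1)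
  obtain ⟨D, hD, hu, hv⟩ := hD
  have h2 : u ≠ -v := fun h => hX.af D hD v hv (h ▸ hu)
  have hsg := sg_gr hX.af
  have hcard := card_erase_erase h1 hu hv
  rw [hX.card D hD] at hcard
  set R0 := (D.erase u).erase v with hR0
  have hface : ∀ F ∈ X, u ∈ F → v ∈ F → ∀ r ∈ F, r ≠ u → r ≠ v → r ∈ R := fun F hF hu hv r hr a b =>
    (hR r).2 ⟨clique_gr hF u hu r hr a.symm, clique_gr hF v hv r hr b.symm⟩
  have hsub : R0 ⊆ R := by
    intro r hr
    simp only [hR0, mem_erase] at hr
    exact hface D hD hu hv r hr.2.2 hr.2.1 hr.1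
  have hoth : ∀ r ∈ R0, ∃ z ∈ R, z ∉ D ∧ insert z (D.erase r) ∈ X := by
    intro r hr
    simp only [hR0, mem_erase] at hr
    obtain ⟨z, hz, hF⟩ := hX.cyc.other hD hr.2.2
    exact ⟨z, hface _ hF (mem_insert_of_mem (mem_erase.2 ⟨Ne.symm hr.2.1, hu⟩))
      (mem_insert_of_mem (mem_erase.2 ⟨Ne.symm hr.1, hv⟩)) z (mem_insert_self _ _)
      (fun e => hz (e ▸ hu)) (fun e => hz (e ▸ hv)), hz, hF⟩
  have hR0D : R0 ⊆ D := (erase_subset _ _).trans (erase_subset _ _)
  obtain ⟨r0, hr0⟩ : R0.Nonempty := card_pos.1 (by omega)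
  obtain ⟨z, hzR, hzD, -⟩ := hoth r0 hr0
  have hzR0 : z ∉ R0 := fun h => hzD (hR0D h)
  have hRe : insert z R0 = R := eq_of_subset_of_card_le (insert_subset hzR hsub)
    (by rw [card_insert_of_notMem hzR0]; omega)
  have hRc : R.card + 1 = d := by rw [← hRe, card_insert_of_notMem hzR0]; omega
  obtain ⟨f, hb⟩ := ih (hi.2 hRc.ge)
  have hz : ∀ r ∈ R0, gr X z r := by
    intro r hr
    obtain ⟨r', hr', hne⟩ := exists_mem_ne (s := R0) (by omega) r
    obtain ⟨z', hz'R, hz'D, hF⟩ := hoth r' hr'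
    rw [← hRe] at hz'R
    have : z' = z := (mem_insert.1 hz'R).resolve_right (fun h => hz'D (hR0D h))
    subst this
    exact clique_gr hF z' (mem_insert_self _ _) r
      (mem_insert_of_mem (mem_erase.2 ⟨hne.symm, hR0D hr⟩)) (fun e => hzR0 (e ▸ hr))
  have hcl : Clique (gr X) R := by
    rw [← hRe]
    intro a ha b hb hab
    rcases mem_insert.1 ha with ha' | ha' <;> rcases mem_insert.1 hb with hb' | hb'
    · exact absurd (ha'.trans hb'.symm) hab
    · rw [ha']; exact hz b hb'
    · rw [hb']; exact hsg.symm (hz a ha')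
    · exact clique_gr hD a (hR0D ha') b (hR0D hb') hab
  have e : gr (ctr u v X) = contr (gr X) u v := by
    funext a b; exact propext (gr_ctr hX.toGood hX.cyc h1 h2 a b)
  refine ⟨f, hb.split (by omega) (gr X) ⟨hsg, clique_gr hD u hu v hv h1, hn, hR, hRc, hcl, ?_⟩ e⟩
  intro a b ha hb' haR hbR hav hbu hab
  have hva : ¬ gr X v a := fun h => haR ((hR a).2 ⟨ha, h⟩)
  have hub : ¬ gr X u b := fun h => hbR ((hR b).2 ⟨h, hb'⟩)
  have hav' : a ≠ -v := fun e => hn (e ▸ ha)
  have hbu' : b ≠ -u := fun e => hn (hsg.symm (by simpa using hsg.neg (e ▸ hb' : gr X v (-u))))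
  have hau : a ≠ u := (hsg.ne ha).symm
  have hau' : a ≠ -u := fun e => hsg.ne_neg ha (by rw [e, neg_neg])
  have hbv : b ≠ v := (hsg.ne hb').symm
  have hbv' : b ≠ -v := fun e => hsg.ne_neg hb' (by rw [e, neg_neg])
  have ka : kap u v a = a := kap_of_ne hav hav'
  have kb : kap u v b = b := kap_of_ne hbv hbv'
  obtain ⟨F', hF', h⟩ := hb.tri hd _ hX' rfl u a b
    (e ▸ ⟨hau.symm, u, a, ha, kap_u h1 h2, ka⟩) (e ▸ ⟨hbu.symm, v, b, hb', kap_v _ _, kb⟩)
    (e ▸ ⟨hsg.ne hab, a, b, hab, ka, kb⟩)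
  obtain ⟨F, hF, rfl⟩ := mem_image.1 hF'
  replace hF := (mem_nd.1 hF).1
  rcases h with ⟨t1, t2, t3⟩ | ⟨t1, t2, t3⟩
  · obtain ⟨x, hx, ex⟩ := mem_image.1 t1
    obtain ⟨y, hy, ey⟩ := mem_image.1 t2
    obtain ⟨w, hw, ew⟩ := mem_image.1 t3
    rw [eq_of_kap_eq ey hau hau'] at hy
    rw [eq_of_kap_eq ew hbu hbu'] at hw
    rcases kap_eq_u ex with rfl | rfl
    · exact hub (clique_gr hF _ hx _ hw hbu.symm)
    · exact hva (clique_gr hF _ hx _ hy hav.symm)
  · obtain ⟨x, hx, ex⟩ := mem_image.1 t1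
    obtain ⟨y, hy, ey⟩ := mem_image.1 t2
    obtain ⟨w, hw, ew⟩ := mem_image.1 t3
    rw [eq_of_kap_eq ey (fun e => hau' (by rw [← e, neg_neg])) (by simpa using hau)] at hy
    rw [eq_of_kap_eq ew (fun e => hbu' (by rw [← e, neg_neg])) (by simpa using hbu)] at hw
    rcases kap_eq_negu ex with rfl | rfl
    · exact hub (hsg.neg' (clique_gr hF _ hx _ hw (by simpa using hbu.symm)))
    · exact hva (hsg.neg' (clique_gr hF _ hx _ hy (by simpa using hav.symm)))

lemma built_of_dbl {p : V → E d} (hp : Generic p) (hd : 3 ≤ d) {T : Finset (Finset V)}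
    (hT : Circ d T) (hdbl : ∀ x y, gr T x y → gr T x (-y)) (hI : Ind p (gr T)) :
    Built d true (gr T) := by
  have hsg := sg_gr hT.af
  obtain ⟨F0, hF0⟩ := hT.nonempty
  have key := hT.conn (fun F => ∀ x ∈ F, x ∈ F0 ∨ -x ∈ F0) ⟨F0, hF0, fun x hx => Or.inl hx⟩ (by
    intro R z z' hz hz' h1 h2 h3
    have hc := hT.card _ h1
    rw [card_insert_of_notMem hz] at hc
    suffices h : z' ∈ F0 ∨ -z' ∈ F0 by
      intro x hx
      rcases mem_insert.1 hx with rfl | hx
      · exact h
      · exact h3 x (mem_insert_of_mem hx)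
    by_contra hcon
    have hz1 : ∀ y ∈ insert z R, y ≠ z' ∧ y ≠ -z' := by
      intro y hy
      have := h3 y hy
      constructor <;> rintro rfl
      · exact hcon this
      · exact hcon (by simpa using this.symm)
    obtain ⟨r1, hr1, r2, hr2, hne⟩ := one_lt_card.1 (show 1 < R.card by omega)
    have hadj : ∀ r ∈ R, gr T z' r := fun r hr =>
      clique_gr h2 z' (mem_insert_self _ _) r (mem_insert_of_mem hr) (fun e => hz' (e ▸ hr))
    have hne2 : z' ≠ -r2 := hsg.ne_neg (hadj r2 hr2)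
    obtain ⟨m, hm, hne'⟩ := hI z' (-r2) (hdbl _ _ (hadj r2 hr2))
    rw [mem_K] at hm
    have hm1 : ∀ a b, gr T a b → a ≠ z' → a ≠ -z' → b ≠ z' → b ≠ -z' → ell a b p m = 0 := by
      intro a b hab c1 c2 c3 c4
      refine hm a b ⟨hab, fun hk => ?_⟩
      rcases (kq_pair_iff hne2).1 hk with h | h | h | h
      · exact c1 h.1
      · exact c3 h.2
      · exact c2 h.1
      · exact c4 h.2
    have hm2 : ∀ b, gr T z' b → b ≠ -r2 → ell z' b p m = 0 := by
      intro b hb c
      refine hm _ b ⟨hb, fun hk => ?_⟩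
      rcases (kq_pair_iff hne2).1 hk with h | h | h | h
      · exact c h.2
      · exact hne2 h.1
      · exact ne_neg' _ h.1
      · exact hsg.ne_neg hb (by rw [h.2, neg_neg])
    have hconst := hp.dbl_const (hT.af _ h1) (hT.card _ h1) (m := m) (fun x hx y hy hxy =>
      ⟨hm1 _ _ (clique_gr h1 x hx y hy hxy) (hz1 x hx).1 (hz1 x hx).2 (hz1 y hy).1 (hz1 y hy).2,
        hm1 _ _ (hdbl _ _ (clique_gr h1 x hx y hy hxy)) (hz1 x hx).1 (hz1 x hx).2
          (fun e => (hz1 y hy).2 (by rw [← e, neg_neg])) (by simpa using (hz1 y hy).1)⟩)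
      r1 (mem_insert_of_mem hr1) r2 (mem_insert_of_mem hr2)
    have a1 := hm2 r1 (hadj r1 hr1)
      (fun e => hT.af _ h1 r2 (mem_insert_of_mem hr2) (e ▸ mem_insert_of_mem hr1))
    have a2 := hm2 (-r1) (hdbl _ _ (hadj r1 hr1)) (by simpa using hne)
    have a3 := hm2 r2 (hadj r2 hr2) (ne_neg' _)
    have a4 := (hp.dbl_pair a1 a2).2
    apply hne'
    rw [hconst] at a4
    simp only [ell_apply, cls_neg, hp.odd r2, LinearMap.sub_apply, map_sub, map_neg] at a3 ⊢
    linarith)
  have e : gr T = oct F0 := by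
    apply le_antisymm
    · rintro a b hab
      refine ⟨hsg.ne hab, hsg.ne_neg hab, ?_⟩
      obtain ⟨F, hF, -, h | h⟩ := hab
      · exact ⟨key F hF a h.1, key F hF b h.2⟩
      · exact ⟨by simpa using (key F hF _ h.1).symm, by simpa using (key F hF _ h.2).symm⟩
    · have hc := clique_gr hF0
      rintro a b ⟨h1, h2, h3 | h3, h4 | h4⟩
      · exact hc a h3 b h4 h1
      · simpa using hdbl _ _ (hc a h3 _ h4 h2)
      · exact hsg.neg' (hdbl _ _ (hc _ h3 b h4 (fun e => h2 (by rw [← e, neg_neg]))))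
      · exact hsg.neg' (hc _ h3 _ h4 (by simpa using h1))
  rw [e]
  exact Built.baseB F0 (hT.af F0 hF0) (hT.card F0 hF0)

theorem built_of_ind {p : V → E d} (hp : Generic p) (hd : 4 ≤ d) :
    ∀ T, Circ d T → Ind p (gr T) → ∃ f, Built d f (gr T) := by
  apply circuit_ind (P := fun G _ => Ind p G → ∃ f, Built d f G)
  · intro G W G' W' D _ _ h h' hc _ _ hD hD' hI
    obtain ⟨f, hf⟩ := h (hI.mono le_sup_left)
    obtain ⟨f', hf'⟩ := h' (hI.mono le_sup_right)
    by_cases c : f' = true → f = true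
    · exact ⟨f, absorb hp (by omega) hf' c G D hf hc hD hD' hI⟩
    · push Not at c
      rw [sup_comm] at hI ⊢
      exact ⟨f', absorb hp (by omega) hf (fun _ => c.1) G' D hf' hc hD' hD hI⟩
  · intro T hT hdbl hI
    exact ⟨true, built_of_dbl hp (by omega) hT hdbl hI⟩
  · intro σ hσ hc hI
    obtain ⟨x, hx⟩ : σ.Nonempty := card_pos.1 (by omega)
    have hQ : AF (σ.erase x) := hσ.mono (erase_subset _ _)
    have hQc : (σ.erase x).card = d := by rw [card_erase_of_mem hx]; omega
    have e : kq (σ.erase x) ⊔ kq (insert x (σ.erase x)) = kq σ := by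
      rw [insert_erase hx, sup_eq_right.2 (kq_mono (erase_subset _ _))]
    have := absorb_one hp (by omega) (Built.baseA _ hQ hQc) hQc (clique_kq _) (notMem_erase x σ)
      (fun h => hσ x hx (mem_of_mem_erase h)) (by rwa [e])
    exact ⟨false, e ▸ this⟩
  · intro X u v hX h1 hD hn hX' hc ih hI
    exact split_of_ind hp hd hX h1 hD hn hX' hc hI ih

theorem core (hd : 4 ≤ d) {T : Finset (Finset V)} (hT : Circ d T) (hsym : ∀ F ∈ T, -F ∈ T)
    (hv : ∀ x, x ∈ vs T) :
    2 * d * Fintype.card V ≤ ec (gr T) + 4 * d ∧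
      (ec (gr T) + 4 * d = 2 * d * Fintype.card V → SS d T) := by
  obtain ⟨p, hp⟩ := exists_generic (V := V) d
  have hsg := sg_gr hT.af
  obtain ⟨F0, hF0⟩ := hT.nonempty
  obtain ⟨x0, hx0⟩ : F0.Nonempty := card_pos.1 (by rw [hT.card F0 hF0]; omega)
  have h1 : finrank ℝ (K p (gr T)) ≤ d := by
    have hinj : Function.Injective (evc (cls x0) ∘ₗ (K p (gr T)).subtype) := by
      refine (injective_iff_map_eq_zero _).2 ?_
      rintro ⟨m, hm⟩ h0
      obtain ⟨B, b, hB, hm'⟩ := rigid hp (by omega) T hT hm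
      have hB0 : B = 0 := by
        apply hp.map_zero' (hT.af F0 hF0) (hT.card F0 hF0)
        intro x _
        have b1 := hm' _ (hv x)
        have b2 := hm' _ (hv (-x))
        rw [cls_neg, hp.odd, map_neg, b1, add_left_inj] at b2
        have : (2 : ℝ) • B (p x) = 0 := by rw [two_smul]; nth_rewrite 1 [b2]; abel
        simpa using this
      have hb : b = 0 := by
        have := hm' x0 (hv x0)
        rw [hB0] at this
        simpa [this] using h0
      ext1
      funext c
      obtain ⟨x, rfl⟩ := cls_surj c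
      simp [hm' x (hv x), hB0, hb]
    have := LinearMap.finrank_le_finrank_of_injective hinj
    rwa [finrank_Du] at this
  have h2 : phi p ⊥ = 2 * d * Fintype.card V := by
    rw [phi_bot, card_cl, Module.finrank_pi_fintype]
    simp; ring
  have h3 := phi_ge hp.odd hsg
  refine ⟨by unfold phi at h3 h2; omega, fun h => ?_⟩
  have hI : Ind p (gr T) := ind_of_phi_le hp.odd hsg (by unfold phi at *; omega)
  obtain ⟨f, hb⟩ := built_of_ind hp hd T hT hI
  exact hb.ss (by omega) T hT hsym rfl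

end Pool.Agent.MP_d539bc_co
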