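import Pool.Agent.MP_d539bc_co.Basic

/-! Symmetric edge contraction and the Fogelsanger decomposition. -/

namespace Pool.Agent.MP_d539bc_co

open Finset
open scoped Pointwise

variable {V : Type} [Fintype V] [DecidableEq V] [FreeNeg V]

def kap (u v x : V) : V := if x = v then u else if x = -v then -u else x

def deg (u v : V) (F : Finset V) : Prop := (u ∈ F ∧ v ∈ F) ∨ (-u ∈ F ∧ -v ∈ F)

instance (u v : V) : DecidablePred (deg u v) := fun F => by unfold deg; infer_instance

def nd (u v : V) (T : Finset (Finset V)) : Finset (Finset V) := T.filter (fun F => ¬ deg u v F)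

def NoX (u v : V) (F : Finset V) : Prop := ¬ (u ∈ F ∧ -v ∈ F) ∧ ¬ (-u ∈ F ∧ v ∈ F)

omit [Fintype V] in
@[simp] lemma kap_v (u v : V) : kap u v v = u := by simp [kap]

omit [Fintype V] in
@[simp] lemma kap_negv (u v : V) : kap u v (-v) = -u := by simp [kap, neg_ne']

omit [Fintype V] in
lemma kap_of_ne {u v x : V} (h1 : x ≠ v) (h2 : x ≠ -v) : kap u v x = x := by simp [kap, h1, h2]

omit [Fintype V] in
lemma kap_neg (u v x : V) : kap u v (-x) = - kap u v x := by
  by_cases h1 : x = v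
  · subst h1; simp
  by_cases h2 : x = -v
  · subst h2; simp
  rw [kap_of_ne h1 h2, kap_of_ne]
  · intro h; apply h2; rw [← h, neg_neg]
  · simpa using h1

omit [Fintype V] in
lemma kap_negneg (u v : V) : kap (-u) (-v) = kap u v := by
  funext x
  by_cases h1 : x = v
  · subst h1; simpa using kap_negv (-u) (-x)
  by_cases h2 : x = -v
  · subst h2; simp
  rw [kap_of_ne h1 h2, kap_of_ne h2 (by simpa using h1)]

omit [Fintype V] in
lemma kap_cases (u v x : V) :
    (x = v ∧ kap u v x = u) ∨ (x = -v ∧ kap u v x = -u) ∨ (x ≠ v ∧ x ≠ -v ∧ kap u v x = x) := by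
  by_cases h1 : x = v
  · subst h1; simp
  by_cases h2 : x = -v
  · subst h2; simp
  exact Or.inr (Or.inr ⟨h1, h2, kap_of_ne h1 h2⟩)

omit [Fintype V] in
lemma kap_ne_v {u v : V} (h1 : u ≠ v) (h2 : u ≠ -v) (x : V) : kap u v x ≠ v := by
  rcases kap_cases u v x with ⟨-, h⟩ | ⟨-, h⟩ | ⟨h3, -, h⟩ <;> rw [h]
  · exact h1
  · intro h'; apply h2; rw [← h', neg_neg]
  · exact h3

omit [Fintype V] in
lemma kap_ne_negv {u v : V} (h1 : u ≠ v) (h2 : u ≠ -v) (x : V) : kap u v x ≠ -v := by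
  intro h
  apply kap_ne_v h1 h2 (-x)
  rw [kap_neg, h, neg_neg]

omit [Fintype V] in
lemma kap_u {u v : V} (h1 : u ≠ v) (h2 : u ≠ -v) : kap u v u = u := kap_of_ne h1 h2

omit [Fintype V] in
lemma eq_of_kap_eq {u v x y : V} (h : kap u v x = y) (h1 : y ≠ u) (h2 : y ≠ -u) : x = y := by
  rcases kap_cases u v x with ⟨-, h'⟩ | ⟨-, h'⟩ | ⟨-, -, h'⟩
  · exact absurd (h.symm.trans h') h1
  · exact absurd (h.symm.trans h') h2
  · exact h'.symm.trans h

omit [Fintype V] in
lemma kap_eq_u {u v x : V} (h : kap u v x = u) : x = u ∨ x = v := by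
  rcases kap_cases u v x with ⟨h0, -⟩ | ⟨-, h'⟩ | ⟨-, -, h'⟩
  · exact Or.inr h0
  · exact absurd (h'.symm.trans h) (neg_ne' u)
  · exact Or.inl (h'.symm.trans h)

omit [Fintype V] in
lemma kap_eq_negu {u v x : V} (h : kap u v x = -u) : x = -u ∨ x = -v := by
  have : kap u v (-x) = u := by rw [kap_neg, h, neg_neg]
  rcases kap_eq_u this with h | h
  · left; rw [← h, neg_neg]
  · right; rw [← h, neg_neg]

omit [Fintype V] [DecidableEq V] in
lemma deg_negneg (u v : V) : deg (-u) (-v) = deg u v := by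
  funext F; simp only [deg, neg_neg]; apply propext; tauto

omit [Fintype V] in
lemma nd_negneg (u v : V) (T : Finset (Finset V)) : nd (-u) (-v) T = nd u v T := by
  ext F; simp only [nd, mem_filter, deg_negneg]

omit [Fintype V] [DecidableEq V] in
lemma NoX_negneg (u v : V) (F : Finset V) : NoX (-u) (-v) F ↔ NoX u v F := by
  simp only [NoX, neg_neg]; tauto

omit [Fintype V] in
lemma mem_nd {u v : V} {T : Finset (Finset V)} {F : Finset V} :
    F ∈ nd u v T ↔ F ∈ T ∧ ¬ deg u v F := by simp [nd]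

omit [Fintype V] in
lemma image_kap_of_mem {u v : V} {F : Finset V} (hF : AF F) (hv : v ∈ F) :
    F.image (kap u v) = insert u (F.erase v) := by
  ext y
  simp only [mem_image, mem_insert, mem_erase]
  constructor
  · rintro ⟨x, hx, rfl⟩
    rcases kap_cases u v x with ⟨-, h⟩ | ⟨h0, -⟩ | ⟨h3, -, h⟩
    · exact Or.inl h
    · exact absurd (h0 ▸ hx) (hF v hv)
    · right; rw [h]; exact ⟨h3, hx⟩
  · rintro (rfl | ⟨h1, h2⟩)
    · exact ⟨v, hv, kap_v _ _⟩
    · exact ⟨y, h2, kap_of_ne h1 (fun h => hF v hv (h ▸ h2))⟩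

omit [Fintype V] in
lemma image_kap_of_not_mem {u v : V} {F : Finset V} (hv : v ∉ F) (hv' : -v ∉ F) :
    F.image (kap u v) = F := by
  conv_rhs => rw [← Finset.image_id (s := F)]
  apply image_congr
  intro x hx
  exact kap_of_ne (fun h => hv (h ▸ hx)) (fun h => hv' (h ▸ hx))

omit [Fintype V] in
lemma image_kap_good1 {u v : V} {F : Finset V} (hF : AF F) (hn : ¬ deg u v F) (hx : NoX u v F)
    (hv : v ∈ F) : (F.image (kap u v)).card = F.card ∧ AF (F.image (kap u v)) := by
  have hu : u ∉ F := fun h => hn (Or.inl ⟨h, hv⟩)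
  have hu' : -u ∉ F := fun h => hx.2 ⟨h, hv⟩
  rw [image_kap_of_mem hF hv]
  refine ⟨?_, ?_⟩
  · rw [card_insert_of_notMem (fun h => hu (mem_of_mem_erase h)), card_erase_add_one hv]
  · exact (hF.mono (erase_subset _ _)).insert (fun h => hu' (mem_of_mem_erase h))

omit [Fintype V] in
lemma image_kap_good {u v : V} {F : Finset V} (hF : AF F) (hn : ¬ deg u v F) (hx : NoX u v F) :
    (F.image (kap u v)).card = F.card ∧ AF (F.image (kap u v)) := by
  by_cases hv : v ∈ F
  · exact image_kap_good1 hF hn hx hv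
  by_cases hv' : -v ∈ F
  · rw [← kap_negneg]
    exact image_kap_good1 hF (by rwa [deg_negneg]) (by rwa [NoX_negneg]) hv'
  rw [image_kap_of_not_mem hv hv']
  exact ⟨rfl, hF⟩

/-- half of the degenerate part of the prism -/
def dg1 (u v : V) (F : Finset V) : Finset V → ZMod 2 :=
  if v ∈ F then ∑ r ∈ F.erase v, Pi.single (insert u (F.erase r)) 1 else 0

def dg (u v : V) (F : Finset V) : Finset V → ZMod 2 := dg1 u v F + dg1 (-u) (-v) F

lemma prism1 {u v : V} {F : Finset V} (hF : AF F) (hn : ¬ deg u v F) (hv : v ∈ F) :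
    bd (Pi.single F 1 + Pi.single (F.image (kap u v)) 1 + dg1 u v F) = 0 := by
  have hu : u ∉ F := fun h => hn (Or.inl ⟨h, hv⟩)
  have : Pi.single F 1 + Pi.single (F.image (kap u v)) 1 + dg1 u v F
      = bd (Pi.single (insert u F) (1 : ZMod 2)) := by
    rw [bd_single, sum_insert hu, erase_insert hu, image_kap_of_mem hF hv, dg1, if_pos hv,
      ← Finset.add_sum_erase F _ hv, add_assoc]
    congr 2
    · congr 1
      rw [erase_insert_of_ne]
      rintro rfl; exact hu hv
    · apply sum_congr rfl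
      intro r hr
      congr 1
      rw [erase_insert_of_ne]
      rintro rfl; exact hu (mem_of_mem_erase hr)
  rw [this, bd_bd]

lemma prism {u v : V} {F : Finset V} (hF : AF F) (hn : ¬ deg u v F) :
    bd (Pi.single F 1 + Pi.single (F.image (kap u v)) 1 + dg u v F) = 0 := by
  by_cases hv : v ∈ F
  · have : dg1 (-u) (-v) F = 0 := by simp [dg1, hF v hv]
    rw [dg, this, add_zero]
    exact prism1 hF hn hv
  have h0 : dg1 u v F = 0 := by simp [dg1, hv]
  by_cases hv' : -v ∈ F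
  · rw [dg, h0, zero_add, ← kap_negneg]
    exact prism1 hF (by rwa [deg_negneg]) hv'
  have h1 : dg1 (-u) (-v) F = 0 := by simp [dg1, hv']
  rw [dg, h0, h1, image_kap_of_not_mem hv hv']
  have : (Pi.single F 1 + Pi.single F 1 + (0 + 0) : Finset V → ZMod 2) = 0 := by
    funext R; simp [zmod2_add_self]
  rw [this, bd_zero]

omit [Fintype V] in
lemma dg1_supp {u v : V} {F D : Finset V} (hF : AF F) (hn : ¬ deg u v F) (hx : NoX u v F)
    (h : dg1 u v F D ≠ 0) : (u ∈ D ∧ v ∈ D) ∧ D.card = F.card ∧ AF D := by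
  unfold dg1 at h
  split_ifs at h with hv
  · rw [Finset.sum_apply] at h
    obtain ⟨r, hr, h1⟩ := exists_ne_zero_of_sum_ne_zero h
    have hD : D = insert u (F.erase r) := by
      by_contra hne
      exact h1 (Pi.single_eq_of_ne hne _)
    have hu : u ∉ F := fun h => hn (Or.inl ⟨h, hv⟩)
    have hu' : -u ∉ F := fun h => hx.2 ⟨h, hv⟩
    subst hD
    refine ⟨⟨mem_insert_self _ _, mem_insert_of_mem (mem_erase.2 ⟨?_, hv⟩)⟩, ?_, ?_⟩
    · exact (ne_of_mem_erase hr).symm
    · rw [card_insert_of_notMem (fun h => hu (mem_of_mem_erase h)),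
        card_erase_add_one (mem_of_mem_erase hr)]
    · exact (hF.mono (erase_subset _ _)).insert (fun h => hu' (mem_of_mem_erase h))
  · simp at h

omit [Fintype V] in
lemma dg_supp {u v : V} {F D : Finset V} (hF : AF F) (hn : ¬ deg u v F) (hx : NoX u v F)
    (h : dg u v F D ≠ 0) : deg u v D ∧ D.card = F.card ∧ AF D := by
  by_cases h1 : dg1 u v F D = 0
  · have h2 : dg1 (-u) (-v) F D ≠ 0 := by
      intro h2; apply h; simp [dg, h1, h2]
    have := dg1_supp hF (by rwa [deg_negneg]) (by rwa [NoX_negneg]) h2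
    exact ⟨Or.inr this.1, this.2⟩
  · have := dg1_supp hF hn hx h1
    exact ⟨Or.inl this.1, this.2⟩

lemma degzero1 {u v : V} (huv : u ≠ v) {c : Finset V → ZMod 2}
    (hc : ∀ D, c D ≠ 0 → deg u v D ∧ AF D) (hb : ∀ R, v ∈ R → bd c R = 0) {D : Finset V}
    (hu : u ∈ D) (hv : v ∈ D) : c D = 0 := by
  have hvR : v ∈ D.erase u := mem_erase.2 ⟨huv.symm, hv⟩
  have h1 := hb _ hvR
  unfold bd at h1
  rw [Finset.sum_eq_single u] at h1
  · rwa [insert_erase hu] at h1
  · intro z _ hzu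
    by_contra hne
    obtain ⟨h2 | h2, h3⟩ := hc _ hne
    · rcases mem_insert.1 h2.1 with h | h
      · exact hzu h.symm
      · exact notMem_erase _ _ h
    · exact h3 v (mem_insert_of_mem hvR) h2.2
  · intro h
    exact absurd (mem_compl.2 (notMem_erase _ _)) h

lemma degzero {u v : V} (huv : u ≠ v) {c : Finset V → ZMod 2}
    (hc : ∀ D, c D ≠ 0 → deg u v D ∧ AF D) (hb : ∀ R, v ∈ R ∨ -v ∈ R → bd c R = 0) : c = 0 := by
  funext D
  by_contra hne
  rcases (hc D hne).1 with h | h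
  · exact hne (degzero1 huv hc (fun R hR => hb R (Or.inl hR)) h.1 h.2)
  · exact hne (degzero1 (u := -u) (v := -v) (by simpa using huv) (by rwa [deg_negneg])
      (fun R hR => hb R (Or.inr hR)) h.1 h.2)

def kc (u v : V) (S : Finset (Finset V)) : Finset V → ZMod 2 :=
  ∑ F ∈ S, Pi.single (F.image (kap u v)) 1

def Dg (u v : V) (S : Finset (Finset V)) : Finset V → ZMod 2 := ∑ F ∈ S, dg u v F

def fill (u v : V) (S : Finset (Finset V)) : Finset (Finset V) :=
  univ.filter (fun D => Dg u v S D ≠ 0)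

def KCyc (u v : V) (S : Finset (Finset V)) : Prop := bd (kc u v S) = 0

/-- admissible families of nondegenerate faces -/
structure Adm (d : ℕ) (u v : V) (S : Finset (Finset V)) : Prop extends Good d S where
  nd : ∀ F ∈ S, ¬ deg u v F
  nox : ∀ F ∈ S, NoX u v F

omit [Fintype V] [DecidableEq V] in
lemma Adm.mono {d : ℕ} {u v : V} {S S' : Finset (Finset V)} (h : Adm d u v S) (hs : S' ⊆ S) :
    Adm d u v S' :=
  ⟨⟨fun F hF => h.card F (hs hF), fun F hF => h.af F (hs hF)⟩, fun F hF => h.nd F (hs hF),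
    fun F hF => h.nox F (hs hF)⟩

lemma ind_fill (u v : V) (S : Finset (Finset V)) : ind (fill u v S) = Dg u v S := by
  funext D
  simp only [ind, fill, mem_filter, mem_univ, true_and]
  split_ifs with h
  · exact (zmod2_ne_zero h).symm
  · simpa using (not_not.1 h).symm

lemma mem_fill {u v : V} {S : Finset (Finset V)} {D : Finset V} :
    D ∈ fill u v S ↔ Dg u v S D ≠ 0 := by simp [fill]

lemma fill_good {d : ℕ} {u v : V} {S : Finset (Finset V)} (h : Adm d u v S) {D : Finset V}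
    (hD : D ∈ fill u v S) : deg u v D ∧ D.card = d ∧ AF D := by
  rw [mem_fill, Dg, Finset.sum_apply] at hD
  obtain ⟨F, hF, h1⟩ := exists_ne_zero_of_sum_ne_zero hD
  have := dg_supp (h.af F hF) (h.nd F hF) (h.nox F hF) h1
  rwa [h.card F hF] at this

lemma prism_sum {d : ℕ} {u v : V} {S : Finset (Finset V)} (h : Adm d u v S) :
    bd (ind S) + bd (kc u v S) + bd (Dg u v S) = 0 := by
  rw [← bd_add, ← bd_add, ind_eq_sum, kc, Dg, ← sum_add_distrib, ← sum_add_distrib, bd_sum]
  exact sum_eq_zero (fun F hF => prism (h.af F hF) (h.nd F hF))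

lemma bd_kc_of_mem {u v : V} (h1 : u ≠ v) (h2 : u ≠ -v) (S : Finset (Finset V)) {R : Finset V}
    (hR : v ∈ R ∨ -v ∈ R) : bd (kc u v S) R = 0 := by
  unfold bd
  apply sum_eq_zero
  intro z _
  rw [kc, Finset.sum_apply]
  apply sum_eq_zero
  intro F _
  apply Pi.single_eq_of_ne
  intro h
  rcases hR with hR | hR
  · have : v ∈ F.image (kap u v) := h ▸ mem_insert_of_mem hR
    obtain ⟨x, -, hx⟩ := mem_image.1 this
    exact kap_ne_v h1 h2 x hx
  · have : -v ∈ F.image (kap u v) := h ▸ mem_insert_of_mem hR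
    obtain ⟨x, -, hx⟩ := mem_image.1 this
    exact kap_ne_negv h1 h2 x hx

omit [Fintype V] in
lemma adm_nd {d : ℕ} {u v : V} {Y : Finset (Finset V)} (hY : Good d Y)
    (hx : ∀ F ∈ Y, NoX u v F) : Adm d u v (nd u v Y) :=
  ⟨⟨fun F hF => hY.card F (mem_nd.1 hF).1, fun F hF => hY.af F (mem_nd.1 hF).1⟩,
    fun _ hF => (mem_nd.1 hF).2, fun F hF => hx F (mem_nd.1 hF).1⟩

/-- Lemma A -/
lemma lemA {d : ℕ} {u v : V} (h1 : u ≠ v) (h2 : u ≠ -v) {Y : Finset (Finset V)} (hY : Good d Y)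
    (hc : Cyc Y) (hx : ∀ F ∈ Y, NoX u v F) :
    KCyc u v (nd u v Y) ∧ fill u v (nd u v Y) = Y.filter (deg u v) := by
  have hA := adm_nd hY hx
  have hp := prism_sum hA
  have hsplit : ind Y = ind (nd u v Y) + ind (Y.filter (deg u v)) := by
    rw [← ind_union, nd, union_comm, filter_union_filter_not_eq]
    rw [nd]; exact (disjoint_filter_filter_not Y Y (deg u v)).symm
  have hc' : bd (ind (nd u v Y)) + bd (ind (Y.filter (deg u v))) = 0 := by
    rw [← bd_add, ← hsplit]; exact hc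
  have key : ∀ R, bd (ind (Y.filter (deg u v)) + Dg u v (nd u v Y)) R
      = bd (kc u v (nd u v Y)) R := by
    intro R
    have e1 := congrFun hp R
    have e2 := congrFun hc' R
    rw [bd_add]
    simp only [Pi.add_apply, Pi.zero_apply] at e1 e2 ⊢
    revert e1 e2
    generalize bd (ind (nd u v Y)) R = a
    generalize bd (kc u v (nd u v Y)) R = b
    generalize bd (Dg u v (nd u v Y)) R = c
    generalize bd (ind (Y.filter (deg u v))) R = e
    revert a b c e; decide
  have hz : ind (Y.filter (deg u v)) + Dg u v (nd u v Y) = 0 := by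
    apply degzero h1
    · intro D hD
      by_cases h3 : D ∈ Y.filter (deg u v)
      · exact ⟨(mem_filter.1 h3).2, hY.af D (mem_filter.1 h3).1⟩
      · have : D ∈ fill u v (nd u v Y) := by
          rw [mem_fill]; intro h4; apply hD; simp only [Pi.add_apply, ind, h3, h4]; simp
        have := fill_good hA this
        exact ⟨this.1, this.2.2⟩
    · intro R hR
      rw [key, bd_kc_of_mem h1 h2 _ hR]
  refine ⟨?_, ?_⟩
  · funext R
    rw [← key, hz, bd_zero]
  · ext D
    rw [mem_fill, ← ind_ne_zero]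
    have := congrFun hz D
    simp only [Pi.add_apply, Pi.zero_apply] at this
    rw [zmod2_eq_of_add this]

def plus (u v : V) (S : Finset (Finset V)) : Finset (Finset V) := S ∪ fill u v S

lemma disj_fill {d : ℕ} {u v : V} {S : Finset (Finset V)} (h : Adm d u v S) :
    Disjoint S (fill u v S) :=
  disjoint_left.2 (fun F hF hF' => h.nd F hF (fill_good h hF').1)

lemma plus_cyc {d : ℕ} {u v : V} {S : Finset (Finset V)} (h : Adm d u v S) (hk : KCyc u v S) :
    Cyc (plus u v S) := by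
  unfold Cyc plus
  rw [ind_union (disj_fill h), bd_add, ind_fill]
  have := prism_sum h
  rwa [hk, add_zero] at this

lemma plus_good {d : ℕ} {u v : V} {S : Finset (Finset V)} (h : Adm d u v S) :
    Good d (plus u v S) :=
  ⟨fun F hF => (mem_union.1 hF).elim (h.card F) (fun h' => (fill_good h h').2.1),
    fun F hF => (mem_union.1 hF).elim (h.af F) (fun h' => (fill_good h h').2.2)⟩

omit [Fintype V] [DecidableEq V] in
lemma nox_of_deg {u v : V} {D : Finset V} (h : deg u v D) (hD : AF D) : NoX u v D := by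
  rcases h with h | h
  · exact ⟨fun h' => hD v h.2 h'.2, fun h' => hD u h.1 h'.1⟩
  · exact ⟨fun h' => hD u h'.1 h.1, fun h' => hD v h'.2 h.2⟩

lemma plus_nox {d : ℕ} {u v : V} {S : Finset (Finset V)} (h : Adm d u v S) :
    ∀ F ∈ plus u v S, NoX u v F :=
  fun F hF => (mem_union.1 hF).elim (h.nox F)
    (fun h' => nox_of_deg (fill_good h h').1 (fill_good h h').2.2)

lemma nd_plus {d : ℕ} {u v : V} {S : Finset (Finset V)} (h : Adm d u v S) :
    nd u v (plus u v S) = S := by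
  ext F
  rw [mem_nd, plus, mem_union]
  constructor
  · rintro ⟨h1 | h1, h2⟩
    · exact h1
    · exact absurd (fill_good h h1).1 h2
  · intro h1; exact ⟨Or.inl h1, h.nd F h1⟩

lemma plus_nd {d : ℕ} {u v : V} (h1 : u ≠ v) (h2 : u ≠ -v) {Y : Finset (Finset V)} (hY : Good d Y)
    (hc : Cyc Y) (hx : ∀ F ∈ Y, NoX u v F) : plus u v (nd u v Y) = Y := by
  rw [plus, (lemA h1 h2 hY hc hx).2, nd, union_comm, filter_union_filter_not_eq]

lemma plus_empty (u v : V) : plus u v (∅ : Finset (Finset V)) = ∅ := by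
  ext D; simp [plus, mem_fill, Dg]

/-- a ridge of a degenerate face missing `v` lies in a nondegenerate face -/
lemma deg_ridge {d : ℕ} {u v : V} {Y : Finset (Finset V)} (hY : Good d Y)
    (hc : Cyc Y) {D : Finset V} (hD : D ∈ Y) (huv : u ≠ v) (hu : u ∈ D) (hv : v ∈ D) :
    ∃ F ∈ nd u v Y, D.erase v ⊆ F := by
  obtain ⟨z, hz, hF⟩ := hc.other hD hv
  refine ⟨_, mem_nd.2 ⟨hF, ?_⟩, subset_insert _ _⟩
  have hu' : u ∈ insert z (D.erase v) := mem_insert_of_mem (mem_erase.2 ⟨huv, hu⟩)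
  rintro (h | h)
  · rcases mem_insert.1 h.2 with h' | h'
    · exact hz (h' ▸ hv)
    · exact notMem_erase _ _ h'
  · exact hY.af _ hF u hu' h.1

omit [Fintype V] [DecidableEq V] in
lemma deg_comm (u v : V) : deg u v = deg v u := by
  funext F; simp only [deg]; apply propext; tauto

omit [Fintype V] in
lemma nd_comm (u v : V) (T : Finset (Finset V)) : nd u v T = nd v u T := by
  ext F; simp only [mem_nd, deg_comm u v]

/-- two vertices of a face, other than the contracted pair, lie in a nondegenerate face -/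
lemma pair_nd1 {d : ℕ} {u v : V} {Y : Finset (Finset V)} (hY : Good d Y)
    (hc : Cyc Y) {D : Finset V} (hD : D ∈ Y) (huv : u ≠ v) (hu : u ∈ D) (hv : v ∈ D)
    {a b : V} (ha : a ∈ D) (hb : b ∈ D) :
    (∃ F ∈ nd u v Y, a ∈ F ∧ b ∈ F) ∨ (a = u ∧ b = v) ∨ (a = v ∧ b = u) := by
  by_cases h1 : a ≠ v ∧ b ≠ v
  · obtain ⟨F, hF, hs⟩ := deg_ridge hY hc hD huv hu hv
    exact Or.inl ⟨F, hF, hs (mem_erase.2 ⟨h1.1, ha⟩), hs (mem_erase.2 ⟨h1.2, hb⟩)⟩
  by_cases h2 : a ≠ u ∧ b ≠ u
  · obtain ⟨F, hF, hs⟩ := deg_ridge hY hc hD huv.symm hv hu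
    rw [← nd_comm] at hF
    exact Or.inl ⟨F, hF, hs (mem_erase.2 ⟨h2.1, ha⟩), hs (mem_erase.2 ⟨h2.2, hb⟩)⟩
  right
  by_cases h3 : a = v
  · by_cases h4 : b = u
    · exact Or.inr ⟨h3, h4⟩
    · exfalso; apply h2; exact ⟨by rw [h3]; exact huv.symm, h4⟩
  · have h5 : b = v := by by_contra h; exact h1 ⟨h3, h⟩
    left
    refine ⟨?_, h5⟩
    by_contra h; apply h2; exact ⟨h, by rw [h5]; exact huv.symm⟩

lemma pair_nd {d : ℕ} {u v : V} {Y : Finset (Finset V)} (hY : Good d Y)
    (hc : Cyc Y) {D : Finset V} (hD : D ∈ Y) (huv : u ≠ v)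
    {a b : V} (ha : a ∈ D) (hb : b ∈ D) :
    (∃ F ∈ nd u v Y, a ∈ F ∧ b ∈ F) ∨ (a = u ∧ b = v) ∨ (a = v ∧ b = u) ∨
      (a = -u ∧ b = -v) ∨ (a = -v ∧ b = -u) := by
  by_cases hd : deg u v D
  · rcases hd with h | h
    · rcases pair_nd1 hY hc hD huv h.1 h.2 ha hb with h | h | h
      · exact Or.inl h
      · exact Or.inr (Or.inl h)
      · exact Or.inr (Or.inr (Or.inl h))
    · have := pair_nd1 hY hc hD (by simpa using huv) h.1 h.2 ha hb
      rw [nd_negneg] at this
      rcases this with h | h | h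
      · exact Or.inl h
      · exact Or.inr (Or.inr (Or.inr (Or.inl h)))
      · exact Or.inr (Or.inr (Or.inr (Or.inr h)))
  · exact Or.inl ⟨D, mem_nd.2 ⟨hD, hd⟩, ha, hb⟩

lemma vs_nd {d : ℕ} {u v : V} {Y : Finset (Finset V)} (hY : Good d Y)
    (hc : Cyc Y) (huv : u ≠ v) : vs (nd u v Y) = vs Y := by
  ext a
  simp only [mem_vs]
  constructor
  · rintro ⟨F, hF, h⟩; exact ⟨F, (mem_nd.1 hF).1, h⟩
  · rintro ⟨D, hD, ha⟩
    rcases pair_nd hY hc hD huv ha ha with ⟨F, hF, h, -⟩ | h | h | h | h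
    · exact ⟨F, hF, h⟩
    · exact absurd (h.1.symm.trans h.2) huv
    · exact absurd (h.2.symm.trans h.1) huv
    · exact absurd (neg_injective (h.1.symm.trans h.2)) huv
    · exact absurd (neg_injective (h.2.symm.trans h.1)) huv

lemma gr_nd {d : ℕ} {u v : V} {Y : Finset (Finset V)} (hY : Good d Y)
    (hc : Cyc Y) (huv : u ≠ v) (hdeg : ∃ D ∈ Y, deg u v D) :
    gr Y = gr (nd u v Y) ⊔ kq {u, v} := by
  have key : ∀ D ∈ Y, ∀ a ∈ D, ∀ b ∈ D, a ≠ b → (gr (nd u v Y) ⊔ kq {u, v}) a b := by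
    intro D hD a ha b hb hab
    rcases pair_nd hY hc hD huv ha hb with ⟨F, hF, h⟩ | h | h | h | h
    · exact Or.inl ⟨F, hF, hab, Or.inl h⟩
    all_goals
      right
      refine ⟨hab, ?_⟩
      simp [h.1, h.2]
  have hsg : SG (gr (nd u v Y) ⊔ kq {u, v}) := by
    apply (sg_gr (fun F hF => hY.af F (mem_nd.1 hF).1)).sup (sg_kq _)
    obtain ⟨D, hD, h | h⟩ := hdeg
    · exact (hY.af D hD).mono (by intro x; simp; rintro (rfl | rfl) <;> tauto)
    · exact (hY.af D hD).neg.mono (by intro x; simp [Finset.mem_neg']; rintro (rfl | rfl) <;> tauto)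
  apply le_antisymm
  · rintro a b ⟨D, hD, h⟩
    exact kq_le_of_clique hsg (key D hD) a b h
  · apply sup_le
    · rintro a b ⟨F, hF, h⟩; exact ⟨F, (mem_nd.1 hF).1, h⟩
    · obtain ⟨D, hD, h | h⟩ := hdeg
      · intro a b hab
        exact ⟨D, hD, kq_mono (by intro x; simp; rintro (rfl | rfl) <;> tauto) a b hab⟩
      · intro a b hab
        refine ⟨D, hD, ?_⟩
        rw [← kq_neg]
        exact kq_mono (by intro x; simp [Finset.mem_neg']; rintro (rfl | rfl) <;> tauto) a b hab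

end Pool.Agent.MP_d539bc_co
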