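import Pool.Agent.MP_d539bc_co.Basic

/-! Antisymmetric motions and generic centrally symmetric configurations. -/

namespace Pool.Agent.MP_d539bc_co

open Finset Module
open scoped Pointwise

section pencil

variable {A B : Type} [AddCommGroup A] [Module ℝ A] [FiniteDimensional ℝ A]
  [AddCommGroup B] [Module ℝ B]

theorem pencil_ker (f g : A →ₗ[ℝ] B) :
    {s : ℝ | finrank ℝ (LinearMap.ker f) < finrank ℝ (LinearMap.ker (f + s • g))}.Finite := by
  obtain ⟨C, hC⟩ := Submodule.exists_isCompl (LinearMap.ker f)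
  have hinj : LinearMap.ker (f ∘ₗ C.subtype) = ⊥ := by
    rw [LinearMap.ker_eq_bot']
    intro c hc
    have : (c : A) ∈ LinearMap.ker f ⊓ C := ⟨hc, c.2⟩
    rw [hC.inf_eq_bot] at this
    exact Subtype.ext this
  obtain ⟨L, hL⟩ := LinearMap.exists_leftInverse_of_injective _ hinj
  let T : Module.End ℝ C := L ∘ₗ g ∘ₗ C.subtype
  refine ((Module.End.finite_hasEigenvalue T).image (fun μ => -μ⁻¹)).subset ?_
  intro s hs
  by_contra hcon
  rw [Set.mem_ofPred_eq] at hs
  apply not_le.2 hs
  have hdis : Disjoint (LinearMap.ker (f + s • g)) C := by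
    rw [Submodule.disjoint_def]
    intro a ha haC
    by_contra hne
    have h1 : (⟨a, haC⟩ : C) + s • T ⟨a, haC⟩ = 0 := by
      have h2 := LinearMap.congr_fun hL ⟨a, haC⟩
      have h3 : f a + s • g a = 0 := by simpa using ha
      have h4 := congrArg L h3
      simp only [map_add, map_smul, map_zero] at h4
      simp only [LinearMap.comp_apply, Submodule.subtype_apply, LinearMap.id_apply] at h2
      rw [h2] at h4
      exact h4
    have hne' : (⟨a, haC⟩ : C) ≠ 0 := fun h => hne (congrArg Subtype.val h)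
    have hs0 : s ≠ 0 := by
      rintro rfl
      simp only [zero_smul, add_zero] at h1
      exact hne' h1
    apply hcon
    refine ⟨-s⁻¹, ?_, by simp⟩
    apply Module.End.hasEigenvalue_of_hasEigenvector (x := ⟨a, haC⟩)
    refine ⟨?_, hne'⟩
    rw [Module.End.mem_eigenspace_iff]
    have : s • T ⟨a, haC⟩ = -⟨a, haC⟩ := by rw [eq_neg_iff_add_eq_zero, add_comm]; exact h1
    calc T ⟨a, haC⟩ = s⁻¹ • (s • T ⟨a, haC⟩) := by rw [smul_smul, inv_mul_cancel₀ hs0, one_smul]
      _ = _ := by rw [this, smul_neg, neg_smul]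
  have e1 := Submodule.finrank_add_finrank_le_of_disjoint hdis
  have e2 := Submodule.finrank_add_eq_of_isCompl hC
  omega

/-- common kernel of a family of functionals -/
def Z {ι : Type} (f : ι → Dual ℝ A) : Submodule ℝ A := LinearMap.ker (LinearMap.pi f)

omit [FiniteDimensional ℝ A] in
lemma mem_Z {ι : Type} {f : ι → Dual ℝ A} {a : A} : a ∈ Z f ↔ ∀ i, f i a = 0 := by
  simp [Z, funext_iff]

theorem pencil_Z {ι : Type} (f g : ι → Dual ℝ A) :
    {s : ℝ | finrank ℝ (Z f) < finrank ℝ (Z (f + s • g))}.Finite := by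
  have := pencil_ker (LinearMap.pi f) (LinearMap.pi g)
  have e : ∀ s : ℝ, Z (f + s • g) = LinearMap.ker (LinearMap.pi f + s • LinearMap.pi g) := by
    intro s; unfold Z; congr 1
  refine this.subset ?_
  intro s hs
  rw [Set.mem_ofPred_eq] at hs ⊢
  rw [← e]
  exact hs

omit [FiniteDimensional ℝ A] in
theorem finrank_range_le_of_ker_le {C : Type} [AddCommGroup C] [Module ℝ C]
    [FiniteDimensional ℝ C] (f g : C →ₗ[ℝ] A) (h : LinearMap.ker g ≤ LinearMap.ker f) :
    finrank ℝ (LinearMap.range f) ≤ finrank ℝ (LinearMap.range g) := by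
  have e1 := LinearMap.finrank_range_add_finrank_ker f
  have e2 := LinearMap.finrank_range_add_finrank_ker g
  have e3 := Submodule.finrank_mono h
  omega

theorem finrank_le_inf_ker_add [FiniteDimensional ℝ B] (S : Submodule ℝ A) (f : A →ₗ[ℝ] B) :
    finrank ℝ S ≤ finrank ℝ (S ⊓ LinearMap.ker f : Submodule ℝ A) + finrank ℝ B := by
  have e1 := LinearMap.finrank_range_add_finrank_ker (f ∘ₗ S.subtype)
  have e2 : finrank ℝ (LinearMap.range (f ∘ₗ S.subtype)) ≤ finrank ℝ B := Submodule.finrank_le _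
  have e3 : finrank ℝ (LinearMap.ker (f ∘ₗ S.subtype))
      = finrank ℝ (S ⊓ LinearMap.ker f : Submodule ℝ A) := by
    rw [LinearMap.ker_comp, ← Submodule.map_comap_subtype,
      Submodule.finrank_map_subtype_eq]
  omega

end pencil

variable {V : Type} [Fintype V] [DecidableEq V] [FreeNeg V]

def clsSetoid (V : Type) [FreeNeg V] : Setoid V where
  r x y := x = y ∨ x = -y
  iseqv := ⟨fun _ => Or.inl rfl, by rintro x y (rfl | rfl) <;> simp,
    by rintro x y z (rfl | rfl) (rfl | rfl) <;> simp⟩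

def Cl (V : Type) [FreeNeg V] : Type := Quotient (clsSetoid V)

def cls (x : V) : Cl V := Quotient.mk (clsSetoid V) x

noncomputable instance : DecidableEq (Cl V) := Classical.decEq _

omit [DecidableEq V] in
instance : Finite (Cl V) := Quotient.finite _

noncomputable instance : Fintype (Cl V) := Fintype.ofFinite _

omit [Fintype V] [DecidableEq V] in
lemma cls_eq {x y : V} : cls x = cls y ↔ x = y ∨ x = -y := Quotient.eq

omit [Fintype V] [DecidableEq V] in
@[simp] lemma cls_neg (x : V) : cls (-x) = cls x := cls_eq.2 (Or.inr rfl)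

omit [Fintype V] [DecidableEq V] in
lemma cls_surj (c : Cl V) : ∃ x, cls x = c := Quotient.exists_rep c

lemma card_cl : Fintype.card V = 2 * Fintype.card (Cl V) := by
  have h := Finset.card_eq_sum_card_fiberwise (f := cls) (s := (univ : Finset V))
    (t := (univ : Finset (Cl V))) (fun _ _ => mem_univ _)
  rw [← card_univ, h, ← card_univ, mul_comm, ← smul_eq_mul, ← sum_const]
  apply sum_congr rfl
  intro c _
  obtain ⟨x, rfl⟩ := cls_surj c
  have : univ.filter (fun a : V => cls a = cls x) = {x, -x} := by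
    ext y; simp [cls_eq]
  rw [this, card_pair (ne_neg' x)]

abbrev E (d : ℕ) := Fin d → ℝ
abbrev Du (d : ℕ) := Dual ℝ (E d)
abbrev Mot (V : Type) [FreeNeg V] (d : ℕ) := Cl V → Du d

lemma finrank_Du (d : ℕ) : finrank ℝ (Du d) = d := by simp

variable {d : ℕ}

/-- the edge functional -/
noncomputable def ell (x y : V) : (V → E d) →ₗ[ℝ] Dual ℝ (Mot V d) :=
  LinearMap.mk₂ ℝ (fun p m => (m (cls x) - m (cls y)) (p x - p y))
    (by intro p q m; simp; ring) (by intro c p m; simp; ring)
    (by intro p m m'; simp; ring) (by intro c p m; simp; ring)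

omit [Fintype V] [DecidableEq V] in
lemma ell_apply (x y : V) (p : V → E d) (m : Mot V d) :
    ell x y p m = (m (cls x) - m (cls y)) (p x - p y) := rfl

noncomputable def K (p : V → E d) (G : V → V → Prop) : Submodule ℝ (Mot V d) :=
  Z (fun e : {e : V × V // G e.1 e.2} => ell e.1.1 e.1.2 p)

omit [Fintype V] [DecidableEq V] in
lemma mem_K {p : V → E d} {G : V → V → Prop} {m : Mot V d} :
    m ∈ K p G ↔ ∀ x y, G x y → ell x y p m = 0 := by
  simp [K, mem_Z]

omit [Fintype V] [DecidableEq V] in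
lemma K_anti {p : V → E d} {G H : V → V → Prop} (h : G ≤ H) : K p H ≤ K p G :=
  fun _ hm => mem_K.2 (fun x y hxy => mem_K.1 hm x y (h x y hxy))

def OddF (p : V → E d) : Prop := ∀ x, p (-x) = - p x

def Gen (P : (V → E d) → Prop) : Prop :=
  (∃ p, OddF p ∧ P p) ∧ ∀ p q, OddF p → OddF q → P p → {s : ℝ | ¬ P (p + s • q)}.Finite

omit [Fintype V] [DecidableEq V] in
lemma OddF.add_smul {p q : V → E d} (hp : OddF p) (hq : OddF q) (s : ℝ) : OddF (p + s • q) := by
  intro x; simp [hp x, hq x, add_comm]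

omit [Fintype V] [DecidableEq V] in
lemma OddF.sub {p q : V → E d} (hp : OddF p) (hq : OddF q) : OddF (p - q) := by
  intro x; simp [hp x, hq x]; abel

omit [Fintype V] [DecidableEq V] in
lemma Gen.and {P Q : (V → E d) → Prop} (hP : Gen P) (hQ : Gen Q) : Gen (fun p => P p ∧ Q p) := by
  refine ⟨?_, ?_⟩
  · obtain ⟨p, hp, hPp⟩ := hP.1
    obtain ⟨q, hq, hQq⟩ := hQ.1
    have f1 := hP.2 p (q - p) hp (hq.sub hp) hPp
    have f2 := (hQ.2 q (p - q) hq (hp.sub hq) hQq).image (fun t => 1 - t)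
    obtain ⟨s, hs⟩ := (f1.union f2).exists_notMem
    simp only [Set.mem_union, Set.mem_ofPred_eq, not_or, not_not, Set.mem_image, not_exists,
      not_and] at hs
    refine ⟨p + s • (q - p), hp.add_smul (hq.sub hp) s, hs.1, ?_⟩
    by_contra h
    apply hs.2 (1 - s) _ (by ring)
    convert h using 2
    module
  · intro p q hp hq h
    refine ((hP.2 p q hp hq h.1).union (hQ.2 p q hp hq h.2)).subset ?_
    intro s hs
    simp only [Set.mem_union, Set.mem_ofPred_eq] at hs ⊢
    tauto

omit [Fintype V] [DecidableEq V] in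
lemma gen_forall {J : Type} [Finite J] {P : J → (V → E d) → Prop} (h : ∀ j, Gen (P j)) :
    Gen (fun p => ∀ j, P j p) := by
  classical
  have := Fintype.ofFinite J
  have key : ∀ s : Finset J, Gen (fun p => ∀ j ∈ s, P j p) := by
    intro s
    induction s using Finset.induction_on with
    | empty => exact ⟨⟨0, fun _ => by simp, by simp⟩, by simp⟩
    | insert a s _ ih =>
      have := (h a).and ih
      simpa using this
  simpa using key univ

omit [Fintype V] [DecidableEq V] in
lemma gen_min {A ι : Type} [AddCommGroup A] [Module ℝ A] [FiniteDimensional ℝ A]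
    (L : ι → (V → E d) →ₗ[ℝ] Dual ℝ A) :
    Gen (fun p => ∀ q, OddF q →
      finrank ℝ (Z (fun i => L i p)) ≤ finrank ℝ (Z (fun i => L i q))) := by
  refine ⟨?_, ?_⟩
  · obtain ⟨p, hp, hmin⟩ := (measure (fun p : V → E d => finrank ℝ (Z (fun i => L i p)))).wf.has_min
      {p | OddF p} ⟨0, fun _ => by simp⟩
    exact ⟨p, hp, fun q hq => not_lt.1 (hmin q hq)⟩
  · intro p q _ _ h
    refine (pencil_Z (fun i => L i p) (fun i => L i q)).subset ?_
    intro s hs
    simp only [Set.mem_ofPred_eq, not_forall, not_le] at hs ⊢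
    obtain ⟨r, hr, hlt⟩ := hs
    have e : (fun i => L i (p + s • q)) = (fun i => L i p) + s • (fun i => L i q) := by
      funext i; simp
    rw [← e]
    exact lt_of_le_of_lt (h r hr) hlt

omit [Fintype V] in
lemma exists_frame {F : Finset V} (hF : AF F) (hc : F.card = d) :
    ∃ q : V → E d, OddF q ∧ (∀ x, x ∉ F → -x ∉ F → q x = 0) ∧
      ∀ φ : Du d, (∀ x ∈ F, φ (q x) = 0) → φ = 0 := by
  let e : F ≃ Fin d := F.equivFinOfCardEq hc
  refine ⟨fun x => if h : x ∈ F then Pi.single (e ⟨x, h⟩) 1 else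
    if h : -x ∈ F then - Pi.single (e ⟨-x, h⟩) 1 else 0, ?_, ?_, ?_⟩
  · intro x
    by_cases h1 : x ∈ F
    · simp [h1, hF x h1]
    · by_cases h2 : -x ∈ F <;> simp [h1, h2]
  · intro x h1 h2; simp [h1, h2]
  · intro φ hφ
    apply (Pi.basisFun ℝ (Fin d)).ext
    intro i
    have := hφ (e.symm i).1 (e.symm i).2
    simpa using this

structure Generic (p : V → E d) : Prop where
  odd : OddF p
  gp1 : ∀ F : Finset V, AF F → F.card = d → ∀ φ : Du d, (∀ x ∈ F, φ (p x) = 0) → φ = 0
  gp2 : ∀ (Q : Finset V) (x : V), AF Q → Q.card = d → x ∉ Q → -x ∉ Q →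
    ∀ φ : Du d, (∀ q ∈ Q, φ (p x - p q) = 0) → φ = 0
  min : ∀ G (q : V → E d), OddF q → finrank ℝ (K p G) ≤ finrank ℝ (K q G)

lemma Z_bot_of_le {A ι : Type} [AddCommGroup A] [Module ℝ A] [FiniteDimensional ℝ A]
    {f g : ι → Dual ℝ A} (h : finrank ℝ (Z f) ≤ finrank ℝ (Z g))
    (hg : ∀ a, (∀ i, g i a = 0) → a = 0) : ∀ a, (∀ i, f i a = 0) → a = 0 := by
  have h1 : Z g = ⊥ := (Submodule.eq_bot_iff _).2 (fun a ha => hg a (mem_Z.1 ha))
  rw [h1, finrank_bot, Nat.le_zero, Submodule.finrank_eq_zero] at h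
  exact fun a ha => (Submodule.eq_bot_iff _).1 h a (mem_Z.2 ha)

theorem exists_generic (d : ℕ) : ∃ p : V → E d, Generic p := by
  let ev : V → (V → E d) →ₗ[ℝ] Dual ℝ (Du d) := fun x =>
    LinearMap.mk₂ ℝ (fun p φ => φ (p x)) (by intros; simp) (by intros; simp)
      (by intros; simp) (by intros; simp)
  have g1 := gen_forall (fun F : Finset V => gen_min (fun x : F => ev x))
  have g2 := gen_forall (fun F : Finset V × V => gen_min (fun x : F.1 => ev F.2 - ev x))
  have g3 := gen_forall (fun G : V → V → Prop =>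
    gen_min (d := d) (fun e : {e : V × V // G e.1 e.2} => ell e.1.1 e.1.2))
  obtain ⟨p, hp, h1, h2, h3⟩ := (g1.and (g2.and g3)).1
  refine ⟨p, hp, ?_, ?_, h3⟩
  · intro F hF hc φ hφ
    obtain ⟨q, hq, -, hq2⟩ := exists_frame hF hc
    exact Z_bot_of_le (h1 F q hq) (fun a ha => hq2 a (fun x hx => ha ⟨x, hx⟩)) φ
      (fun i => hφ i.1 i.2)
  · intro Q x hQ hc hx hx' φ hφ
    obtain ⟨q, hq, hq1, hq2⟩ := exists_frame hQ hc
    refine Z_bot_of_le (h2 (Q, x) q hq) (fun a ha => hq2 a (fun y hy => ?_)) φ (fun i => ?_)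
    · have := ha ⟨y, hy⟩
      simpa [ev, hq1 x hx hx'] using this
    · simpa [ev] using hφ i.1 i.2

end Pool.Agent.MP_d539bc_co
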