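import Pool.Agent.MP_d539bc_co.Stack
import Pool.Agent.MP_d539bc_co.Defs

/-! Geometric realisation of symmetric stacking by polytopes. -/

namespace Pool.Agent.MP_d539bc_co

open Finset Filter Topology
open scoped Pointwise

variable {V : Type} [Fintype V] [DecidableEq V] [FreeNeg V] {d : ℕ}

def InCone (e : V → E d) (F : Finset V) (z : E d) : Prop :=
  ∃ l : V → ℝ, (∀ x, 0 ≤ l x) ∧ z = ∑ x ∈ F, l x • e x

structure Real' (e : V → E d) (T : Finset (Finset V)) : Prop extends Comb d T where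
  inj : Set.InjOn e (vs T)
  fn : ∀ F ∈ T, ∃ f : Du d, (∀ x ∈ F, f (e x) = 1) ∧ ∀ x ∈ vs T, x ∉ F → f (e x) < 1
  span : ∀ F ∈ T, ∀ φ : Du d, (∀ x ∈ F, φ (e x) = 0) → φ = 0
  cone : ∀ z, ∃ F ∈ T, InCone e F z

omit [Fintype V] in
lemma Comb.neg_mem_vs {T : Finset (Finset V)} (h : Comb d T) {x : V} (hx : x ∈ vs T) :
    -x ∈ vs T := by
  obtain ⟨F, hF, hx⟩ := mem_vs.1 hx
  exact subset_vs (h.sym F hF) (by simpa [Finset.mem_neg'] using hx)

namespace Real'

variable {e : V → E d} {T : Finset (Finset V)} (h : Real' e T)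
include h

omit [Fintype V] in
lemma congr {e' : V → E d} (he : ∀ x ∈ vs T, e' x = e x) : Real' e' T where
  toComb := h.toComb
  inj := fun x hx y hy hxy => h.inj hx hy (by rw [← he x hx, ← he y hy, hxy])
  fn := fun F hF => by
    obtain ⟨f, h1, h2⟩ := h.fn F hF
    exact ⟨f, fun x hx => by rw [he x (subset_vs hF hx), h1 x hx],
      fun x hx hx' => by rw [he x hx]; exact h2 x hx hx'⟩
  span := fun F hF φ hφ => h.span F hF φ (fun x hx => by rw [← he x (subset_vs hF hx), hφ x hx])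
  cone := fun z => by
    obtain ⟨F, hF, l, h1, h2⟩ := h.cone z
    exact ⟨F, hF, l, h1, h2.trans (sum_congr rfl (fun x hx => by rw [he x (subset_vs hF hx)]))⟩

omit [Fintype V] in
lemma lt_one {F : Finset V} (hF : F ∈ T) {f : Du d} (hf : ∀ x ∈ F, f (e x) = 1) :
    ∀ x ∈ vs T, x ∉ F → f (e x) < 1 := by
  obtain ⟨g, h1, h2⟩ := h.fn F hF
  have : f - g = 0 := h.span F hF _ (fun x hx => by simp [hf x hx, h1 x hx])
  rwa [sub_eq_zero.1 this]

omit [Fintype V] in
lemma le_one {F : Finset V} (hF : F ∈ T) {f : Du d} (hf : ∀ x ∈ F, f (e x) = 1) :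
    ∀ x ∈ vs T, f (e x) ≤ 1 := by
  intro x hx
  by_cases hxF : x ∈ F
  · exact (hf x hxF).le
  · exact (h.lt_one hF hf x hx hxF).le

omit [Fintype V] in
lemma face_sub (he : OddF e) {f : Du d} {c : ℝ} (hf : f ≠ 0) (hc : ∀ x ∈ vs T, f (e x) ≤ c) :
    0 < c ∧ ∃ F ∈ T, ∀ x ∈ vs T, f (e x) = c → x ∈ F := by
  classical
  have hpos : 0 < c := by
    by_contra hle
    push Not at hle
    obtain ⟨F, hF, -⟩ := h.cone 0
    apply hf
    apply h.span F hF
    intro x hx
    have h1 := hc x (subset_vs hF hx)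
    have h2 := hc _ (h.neg_mem_vs (subset_vs hF hx))
    rw [he, map_neg] at h2
    linarith
  refine ⟨hpos, ?_⟩
  let S := (vs T).filter (fun x => f (e x) = c)
  obtain ⟨G, hG, l, hl, hz⟩ := h.cone (∑ x ∈ S, e x)
  obtain ⟨g, hg1, hg2⟩ := h.fn G hG
  refine ⟨G, hG, fun x hx hxc => ?_⟩
  by_contra hxG
  have e1 : c * S.card ≤ c * ∑ y ∈ G, l y := by
    have := congrArg f hz
    simp only [map_sum, map_smul, smul_eq_mul] at this
    rw [sum_congr rfl (fun y hy => (mem_filter.1 hy).2), sum_const, nsmul_eq_mul] at this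
    rw [mul_comm, this, mul_sum]
    exact sum_le_sum (fun y hy => by
      rw [mul_comm c]; exact mul_le_mul_of_nonneg_left (hc y (subset_vs hG hy)) (hl y))
  have e2 : ∑ y ∈ G, l y < S.card := by
    have := congrArg g hz
    simp only [map_sum, map_smul, smul_eq_mul] at this
    rw [sum_congr rfl (fun y hy => by rw [hg1 y hy, mul_one] : ∀ y ∈ G, l y * g (e y) = l y)] at this
    rw [← this, card_eq_sum_ones, Nat.cast_sum]
    exact sum_lt_sum (fun y hy => by simpa using h.le_one hG hg1 y (mem_filter.1 hy).1)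
      ⟨x, mem_filter.2 ⟨hx, hxc⟩, by simpa using hg2 x hx hxG⟩
  have := le_of_mul_le_mul_left e1 hpos
  linarith

omit [Fintype V] in
lemma exists_support {F : Finset V} (hF : F ∈ T) (D : Finset V) : D ⊆ F →
    ∃ (f : Du d) (c : ℝ), 0 < c ∧ (∀ x ∈ vs T, f (e x) ≤ c) ∧
      ∀ x ∈ vs T, (f (e x) = c ↔ x ∈ F ∧ x ∉ D) := by
  induction D using Finset.induction_on with
  | empty =>
    intro _
    obtain ⟨f, h1, h2⟩ := h.fn F hF
    refine ⟨f, 1, one_pos, h.le_one hF h1, fun x hx => ⟨fun h3 => ⟨?_, by simp⟩, fun h3 => h1 x h3.1⟩⟩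
    by_contra h4
    exact (h2 x hx h4).ne h3
  | insert q D _ ih =>
    intro hs
    obtain ⟨f, c, hc, h1, h2⟩ := ih ((subset_insert _ _).trans hs)
    have hq := hs (mem_insert_self _ _)
    obtain ⟨G, hG, hGF, hsG⟩ := h.ridge F hF q hq
    obtain ⟨g, hg1, hg2⟩ := h.fn G hG
    have hqG : q ∉ G := fun hqG => hGF (eq_of_subset_of_card_le
      (by rw [← insert_erase hq]; exact insert_subset hqG hsG) (by rw [h.card F hF, h.card G hG])).symm
    refine ⟨f + g, c + 1, by positivity, fun x hx => add_le_add (h1 x hx) (h.le_one hG hg1 x hx),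
      fun x hx => ?_⟩
    have a1 := h1 x hx
    have a2 := h.le_one hG hg1 x hx
    rw [LinearMap.add_apply, mem_insert, not_or]
    constructor
    · intro h3
      have a3 := (h2 x hx).1 (by linarith)
      refine ⟨a3.1, ?_, a3.2⟩
      rintro rfl
      linarith [hg2 x hx hqG]
    · rintro ⟨b1, b2, b3⟩
      rw [(h2 x hx).2 ⟨b1, b3⟩, hg1 x (hsG (mem_erase.2 ⟨b2, b1⟩))]

omit [Fintype V] in
lemma isFace_of_sub {F s : Finset V} (hF : F ∈ T) (hs : s ⊆ F) (hne : s.Nonempty) :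
    IsFace (e '' (vs T : Set V)) (e '' (s : Set V)) := by
  obtain ⟨f, c, hc, h1, h2⟩ := h.exists_support hF (F \ s) sdiff_subset
  have h3 : ∀ x ∈ vs T, (f (e x) = c ↔ x ∈ s) := by
    intro x hx
    rw [h2 x hx]
    exact ⟨fun h => by by_contra h'; exact h.2 (mem_sdiff.2 ⟨h.1, h'⟩),
      fun h => ⟨hs h, fun h' => (mem_sdiff.1 h').2 h⟩⟩
  obtain ⟨x0, hx0⟩ := hne
  refine ⟨⟨_, x0, hx0, rfl⟩, f, c, ?_, ?_, ?_⟩
  · rintro rfl
    have := (h3 x0 (subset_vs hF (hs hx0))).2 hx0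
    simp at this
    linarith
  · rintro _ ⟨x, hx, rfl⟩; exact h1 x hx
  · ext y
    constructor
    · rintro ⟨x, hx, rfl⟩
      have hx' := subset_vs hF (hs hx)
      exact ⟨⟨x, hx', rfl⟩, (h3 x hx').2 hx⟩
    · rintro ⟨⟨x, hx, rfl⟩, hy⟩
      exact ⟨x, (h3 x hx).1 hy, rfl⟩

omit [Fintype V] in
lemma sub_of_isFace (he : OddF e) {S : Set (E d)} (hS : IsFace (e '' (vs T : Set V)) S) :
    ∃ F ∈ T, S ⊆ e '' (F : Set V) := by
  obtain ⟨-, f, c, h1, h2, rfl⟩ := hS
  obtain ⟨-, F, hF, h3⟩ := h.face_sub he h1 (fun x hx => h2 _ ⟨x, hx, rfl⟩)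
  refine ⟨F, hF, ?_⟩
  rintro _ ⟨⟨x, hx, rfl⟩, hy⟩
  exact ⟨x, h3 x hx hy, rfl⟩

omit [Fintype V] in
lemma sub_of_image {s t : Finset V} (hs : s ⊆ vs T) (ht : t ⊆ vs T)
    (hst : e '' (s : Set V) ⊆ e '' (t : Set V)) : s ⊆ t := by
  intro x hx
  obtain ⟨y, hy, hxy⟩ := hst ⟨x, hx, rfl⟩
  rwa [← h.inj (ht hy) (hs hx) hxy]

omit [Fintype V] in
lemma isFace_iff (he : OddF e) {s : Finset V} (hs : s ⊆ vs T) :
    IsFace (e '' (vs T : Set V)) (e '' (s : Set V)) ↔ s.Nonempty ∧ ∃ F ∈ T, s ⊆ F := by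
  constructor
  · intro hS
    obtain ⟨F, hF, h1⟩ := h.sub_of_isFace he hS
    exact ⟨by simpa using hS.1, F, hF, h.sub_of_image hs (subset_vs hF) h1⟩
  · rintro ⟨h1, F, hF, h2⟩
    exact h.isFace_of_sub hF h2 h1

omit [Fintype V] in
lemma isFacet_iff (hd : 1 ≤ d) (he : OddF e) {S : Set (E d)} :
    IsFacet (e '' (vs T : Set V)) S ↔ ∃ F ∈ T, S = e '' (F : Set V) := by
  have hne : ∀ F ∈ T, F.Nonempty := fun F hF => card_pos.1 (by rw [h.card F hF]; omega)
  constructor
  · rintro ⟨h1, h2⟩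
    obtain ⟨F, hF, h3⟩ := h.sub_of_isFace he h1
    exact ⟨F, hF, (h2 _ (h.isFace_of_sub hF subset_rfl (hne F hF)) h3).symm⟩
  · rintro ⟨F, hF, rfl⟩
    refine ⟨h.isFace_of_sub hF subset_rfl (hne F hF), fun G hG hs => ?_⟩
    obtain ⟨F', hF', h3⟩ := h.sub_of_isFace he hG
    have := eq_of_subset_of_card_le (h.sub_of_image (subset_vs hF) (subset_vs hF') (hs.trans h3))
      (by rw [h.card F hF, h.card F' hF'])
    subst this
    exact Set.Subset.antisymm h3 hs

omit [Fintype V] in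
lemma supports_fn (hd : 1 ≤ d) {F : Finset V} (hF : F ∈ T) {f : Du d}
    (hf : ∀ x ∈ F, f (e x) = 1) : Supports (e '' (vs T : Set V)) f 1 (e '' (F : Set V)) := by
  obtain ⟨x0, hx0⟩ : F.Nonempty := card_pos.1 (by rw [h.card F hF]; omega)
  refine ⟨?_, ?_, ?_⟩
  · rintro rfl
    simpa using hf x0 hx0
  · rintro _ ⟨x, hx, rfl⟩; exact h.le_one hF hf x hx
  · ext y
    constructor
    · rintro ⟨x, hx, rfl⟩
      exact ⟨⟨x, subset_vs hF hx, rfl⟩, hf x hx⟩
    · rintro ⟨⟨x, hx, rfl⟩, hy⟩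
      refine ⟨x, ?_, rfl⟩
      by_contra h'
      exact (h.lt_one hF hf x hx h').ne hy

omit [Fintype V] in
lemma of_supports (he : OddF e) {F : Finset V} {f : Du d} {c : ℝ}
    (hS : Supports (e '' (vs T : Set V)) f c (e '' (F : Set V))) :
    0 < c ∧ ∀ x ∈ F, (c⁻¹ • f) (e x) = 1 := by
  obtain ⟨h1, h2, h3⟩ := hS
  have hc := (h.face_sub he h1 (fun x hx => h2 _ ⟨x, hx, rfl⟩)).1
  refine ⟨hc, fun x hx => ?_⟩
  have : e x ∈ e '' (F : Set V) := ⟨x, hx, rfl⟩
  rw [h3] at this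
  simp [this.2, hc.ne']

end Real'

/-- the new vertex is beyond `Q` and beneath all other facets -/
def Beyond (e : V → E d) (T : Finset (Finset V)) (Q : Finset V) (v : E d) : Prop :=
  (∀ f : Du d, (∀ q ∈ Q, f (e q) = 1) → 1 < f v) ∧
    ∀ G ∈ T, G ≠ Q → ∀ g : Du d, (∀ q ∈ G, g (e q) = 1) → g v < 1

omit [Fintype V] in
lemma Beyond.neg {e : V → E d} (he : OddF e) {T : Finset (Finset V)} (h : Comb d T) {Q : Finset V}
    {v : E d} (hb : Beyond e T Q v) : Beyond e T (-Q) (-v) := by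
  refine ⟨fun f hf => ?_, fun G hG hGQ g hg => ?_⟩
  · have := hb.1 (-f) (fun q hq => by
      rw [LinearMap.neg_apply, ← map_neg, ← he, hf _ (by simpa [Finset.mem_neg'])])
    simpa using this
  · have := hb.2 (-G) (h.sym G hG) (fun e => hGQ (by rw [← e, negneg_finset])) (-g) (fun q hq => by
      rw [LinearMap.neg_apply, ← map_neg, ← he, hg _ (Finset.mem_neg'.1 hq)])
    simpa using this

omit [Fintype V] in
lemma Real'.half {e : V → E d} {T : Finset (Finset V)} (h : Real' e T) (he : OddF e)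
    {Q : Finset V} (hQ : Q ∈ T) {x : V} (hx : x ∉ vs T) (hb : Beyond e T Q (e x)) :
    (∀ q ∈ Q, ∃ f : Du d, (∀ y ∈ (insert x Q).erase q, f (e y) = 1) ∧
      (∀ y ∈ vs T, y ∉ (insert x Q).erase q → f (e y) < 1) ∧ f (e (-x)) < 1) ∧
    (∀ q ∈ Q, ∀ φ : Du d, (∀ y ∈ (insert x Q).erase q, φ (e y) = 0) → φ = 0) ∧
    (∀ z, InCone e Q z → Q.Nonempty → ∃ q ∈ Q, InCone e ((insert x Q).erase q) z) := by
  have hxQ : x ∉ Q := fun h' => hx (subset_vs hQ h')
  obtain ⟨fQ, hf1, hf2⟩ := h.fn Q hQ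
  have hfv := hb.1 fQ hf1
  have herase : ∀ q ∈ Q, (insert x Q).erase q = insert x (Q.erase q) := fun q hq =>
    erase_insert_of_ne (fun e => hxQ (e ▸ hq))
  obtain ⟨μ, hμ0, hμ⟩ : InCone e Q (e x) := by
    obtain ⟨G, hG, l, hl, hz⟩ := h.cone (e x)
    by_cases hGQ : G = Q
    · exact ⟨l, hl, hGQ ▸ hz⟩
    exfalso
    obtain ⟨g, hg1, -⟩ := h.fn G hG
    have a1 := hb.2 G hG hGQ g hg1
    rw [hz] at a1 hfv
    simp only [map_sum, map_smul, smul_eq_mul] at a1 hfv
    have : ∑ y ∈ G, l y * fQ (e y) ≤ ∑ y ∈ G, l y * g (e y) := sum_le_sum (fun y hy => by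
      rw [hg1 y hy]; exact mul_le_mul_of_nonneg_left (h.le_one hQ hf1 y (subset_vs hG hy)) (hl y))
    linarith
  have hval : ∀ q ∈ Q, ∀ φ : Du d, φ (e x) = μ q * φ (e q) + ∑ y ∈ Q.erase q, μ y * φ (e y) := by
    intro q hq φ
    rw [hμ, ← add_sum_erase _ _ hq]; simp
  have hμpos : ∀ q ∈ Q, 0 < μ q := by
    intro q hq
    refine lt_of_le_of_ne (hμ0 q) (fun h0 => ?_)
    obtain ⟨G, hG, hGQ, hs⟩ := h.ridge Q hQ q hq
    obtain ⟨g, hg1, -⟩ := h.fn G hG
    have a1 := hb.2 G hG hGQ g hg1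
    rw [hval q hq, ← h0, zero_mul] at a1 hfv
    rw [sum_congr rfl (fun y hy => by rw [hg1 y (hs hy)])] at a1
    rw [sum_congr rfl (fun y hy => by rw [hf1 y (mem_of_mem_erase hy)])] at hfv
    linarith
  refine ⟨fun q hq => ?_, fun q hq φ hφ => ?_, fun z ⟨l, hl, hz⟩ hne => ?_⟩
  · obtain ⟨G, hG, hGQ, hs⟩ := h.ridge Q hQ q hq
    obtain ⟨g, hg1, hg2⟩ := h.fn G hG
    have a1 := hb.2 G hG hGQ g hg1
    have hqG : q ∉ G := fun hqG => hGQ (eq_of_subset_of_card_le
      (by rw [← insert_erase hq]; exact insert_subset hqG hs) (by rw [h.card Q hQ, h.card G hG])).symm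
    set θ := (fQ (e x) - 1) / (fQ (e x) - g (e x)) with hθ
    have hden : 0 < fQ (e x) - g (e x) := by linarith
    have θ0 : 0 < θ := div_pos (by linarith) hden
    have θ1 : θ < 1 := (div_lt_one hden).2 (by linarith)
    have hfx : ((1 - θ) • fQ + θ • g) (e x) = 1 := by
      simp only [LinearMap.add_apply, LinearMap.smul_apply, smul_eq_mul, hθ]
      field_simp
      ring
    refine ⟨(1 - θ) • fQ + θ • g, fun y hy => ?_, fun y hy hy' => ?_, ?_⟩
    · rw [herase q hq] at hy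
      rcases mem_insert.1 hy with rfl | hy
      · exact hfx
      · simp [hf1 y (mem_of_mem_erase hy), hg1 y (hs hy)]
    · rw [herase q hq, mem_insert, mem_erase, not_or] at hy'
      simp only [LinearMap.add_apply, LinearMap.smul_apply, smul_eq_mul]
      have b1 := h.le_one hQ hf1 y hy
      have b2 := h.le_one hG hg1 y hy
      by_cases hyQ : y ∈ Q
      · have : y = q := by by_contra h'; exact hy'.2 ⟨h', hyQ⟩
        have b3 := hg2 y hy (this ▸ hqG)
        nlinarith
      · have b3 := hf2 y hy hyQ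
        nlinarith
    · rw [he, map_neg, hfx]; norm_num
  · rw [herase q hq] at hφ
    apply h.span Q hQ
    intro y hy
    by_cases hyq : y = q
    · have := hval q hq φ
      rw [hφ x (mem_insert_self _ _), sum_eq_zero (fun y hy => by
        rw [hφ y (mem_insert_of_mem hy), mul_zero]), add_zero] at this
      rw [hyq]
      exact (mul_eq_zero.1 this.symm).resolve_left (hμpos q hq).ne'
    · exact hφ y (mem_insert_of_mem (mem_erase.2 ⟨hyq, hy⟩))
  · obtain ⟨q, hq, hmin⟩ := exists_min_image Q (fun y => l y / μ y) hne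
    refine ⟨q, hq, fun y => if y = x then l q / μ q else if y ∈ Q then l y - l q / μ q * μ y else 0,
      fun y => ?_, ?_⟩
    · beta_reduce
      split_ifs with h1 h2
      · exact div_nonneg (hl q) (hμ0 q)
      · have := hmin y h2
        rw [le_div_iff₀ (hμpos y h2)] at this
        linarith
      · exact le_rfl
    · beta_reduce
      rw [herase q hq, sum_insert (fun h' => hxQ (mem_of_mem_erase h')), if_pos rfl,
        sum_congr rfl (g := fun y => (l y - l q / μ q * μ y) • e y) (fun y hy => by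
          rw [if_neg (fun e : y = x => hxQ (e ▸ mem_of_mem_erase hy)),
            if_pos (mem_of_mem_erase hy)]),
        sum_erase _ (by rw [div_mul_cancel₀ _ (hμpos q hq).ne', sub_self, zero_smul])]
      nth_rewrite 1 [hμ]
      rw [hz, smul_sum, ← sum_add_distrib]
      exact sum_congr rfl (fun y _ => by module)

omit [Fintype V] in
lemma Real'.stack (hd : 3 ≤ d) {e : V → E d} {T : Finset (Finset V)} (h : Real' e T) (he : OddF e)
    {Q : Finset V} (hQ : Q ∈ T) {x : V} (hx : x ∉ vs T) (hb : Beyond e T Q (e x)) :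
    Real' e (stackF T Q x) := by
  have hx' : -x ∉ vs T := fun h' => hx (by simpa using h.neg_mem_vs h')
  have hxF : ∀ F ∈ T, x ∉ F ∧ -x ∉ F := fun F hF =>
    ⟨fun h' => hx (subset_vs hF h'), fun h' => hx' (subset_vs hF h')⟩
  have hQ' := h.sym Q hQ
  have hb' : Beyond e T (-Q) (e (-x)) := by rw [he]; exact hb.neg he h.toComb
  obtain ⟨a1, a2, a3⟩ := h.half he hQ hx hb
  obtain ⟨b1, b2, b3⟩ := h.half he hQ' hx' hb'
  have hvs := vs_stackF hd h.toComb x hQ
  refine ⟨comb_stack (by omega) h.toComb hQ hxF, ?_, fun F hF => ?_, fun F hF => ?_, fun z => ?_⟩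
  · obtain ⟨f, hf1, -⟩ := h.fn Q hQ
    have c1 := hb.1 f hf1
    have c2 : ∀ y ∈ vs T, -1 ≤ f (e y) ∧ f (e y) ≤ 1 := fun y hy =>
      ⟨by have := h.le_one hQ hf1 _ (h.neg_mem_vs hy); rw [he, map_neg] at this; linarith,
        h.le_one hQ hf1 y hy⟩
    have c3 : f (e (-x)) < -1 := by rw [he, map_neg]; linarith
    rw [hvs]
    intro y hy y' hy' hyy
    have c4 := congrArg f hyy
    simp only [coe_insert, Set.mem_insert_iff, mem_coe] at hy hy'
    rcases hy with rfl | rfl | hy <;> rcases hy' with rfl | rfl | hy' <;>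
      first | rfl | exact h.inj hy hy' hyy | (exfalso; first | linarith | linarith [c2 _ hy] | linarith [c2 _ hy'])
  · rw [hvs]
    rcases mem_stackF.1 hF with h1 | ⟨r, hr, rfl⟩ | ⟨r, hr, rfl⟩
    · obtain ⟨f, hf1, hf2⟩ := h.fn F h1.1
      refine ⟨f, hf1, fun y hy hyF => ?_⟩
      rcases mem_insert.1 hy with rfl | hy
      · exact hb.2 F h1.1 h1.2.1 f hf1
      rcases mem_insert.1 hy with rfl | hy
      · exact hb'.2 F h1.1 h1.2.2 f hf1
      · exact hf2 y hy hyF
    · obtain ⟨f, hf1, hf2, hf3⟩ := a1 r hr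
      refine ⟨f, hf1, fun y hy hyF => ?_⟩
      rcases mem_insert.1 hy with rfl | hy
      · exact absurd (mem_erase.2 ⟨fun e : y = r => (hxF Q hQ).1 (e ▸ hr), mem_insert_self _ _⟩) hyF
      rcases mem_insert.1 hy with rfl | hy
      · exact hf3
      · exact hf2 y hy hyF
    · obtain ⟨f, hf1, hf2, hf3⟩ := b1 r hr
      refine ⟨f, hf1, fun y hy hyF => ?_⟩
      rcases mem_insert.1 hy with rfl | hy
      · simpa using hf3
      rcases mem_insert.1 hy with rfl | hy
      · exact absurd (mem_erase.2 ⟨fun e : -x = r => (hxF _ hQ').2 (e ▸ hr), mem_insert_self _ _⟩) hyF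
      · exact hf2 y hy hyF
  · rcases mem_stackF.1 hF with h1 | ⟨r, hr, rfl⟩ | ⟨r, hr, rfl⟩
    · exact h.span F h1.1
    · exact a2 r hr
    · exact b2 r hr
  · obtain ⟨F, hF, hz⟩ := h.cone z
    have hne : F.Nonempty := card_pos.1 (by rw [h.card F hF]; omega)
    by_cases c1 : F = Q
    · obtain ⟨q, hq, h1⟩ := a3 z (c1 ▸ hz) (c1 ▸ hne)
      exact ⟨_, mem_stackF.2 (Or.inr (Or.inl ⟨q, hq, rfl⟩)), h1⟩
    by_cases c2 : F = -Q
    · obtain ⟨q, hq, h1⟩ := b3 z (c2 ▸ hz) (c2 ▸ hne)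
      exact ⟨_, mem_stackF.2 (Or.inr (Or.inr ⟨q, hq, rfl⟩)), h1⟩
    exact ⟨F, mem_stackF.2 (Or.inl ⟨hF, c1, c2⟩), hz⟩

omit [Fintype V] in
lemma Real'.beyond_iff (hd : 1 ≤ d) {e : V → E d} {T : Finset (Finset V)} (h : Real' e T)
    (he : OddF e) {Q : Finset V} (hQ : Q ∈ T) (v : E d) : Beyond e T Q v ↔
      (∀ f c, Supports (e '' (vs T : Set V)) f c (e '' (Q : Set V)) → c < f v) ∧
      (∀ G f c, IsFacet (e '' (vs T : Set V)) G → G ≠ e '' (Q : Set V) →
        Supports (e '' (vs T : Set V)) f c G → f v < c) := by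
  constructor
  · intro hb
    refine ⟨fun f c hS => ?_, fun G f c hG hne hS => ?_⟩
    · obtain ⟨hc, h1⟩ := h.of_supports he hS
      have := hb.1 _ h1
      simp only [LinearMap.smul_apply, smul_eq_mul] at this
      rwa [lt_inv_mul_iff₀ hc, mul_one] at this
    · obtain ⟨F, hF, rfl⟩ := (h.isFacet_iff hd he).1 hG
      obtain ⟨hc, h1⟩ := h.of_supports he hS
      have := hb.2 F hF (fun e => hne (by rw [e])) _ h1
      simp only [LinearMap.smul_apply, smul_eq_mul] at this
      rwa [inv_mul_lt_iff₀ hc, mul_one] at this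
  · rintro ⟨h1, h2⟩
    refine ⟨fun f hf => h1 f 1 (h.supports_fn hd hQ hf), fun G hG hne g hg => ?_⟩
    refine h2 _ g 1 ((h.isFacet_iff hd he).2 ⟨G, hG, rfl⟩) (fun e' => hne ?_)
      (h.supports_fn hd hG hg)
    exact Subset.antisymm (h.sub_of_image (subset_vs hG) (subset_vs hQ) e'.le)
      (h.sub_of_image (subset_vs hQ) (subset_vs hG) e'.ge)

omit [Fintype V] in
lemma Real'.exists_beyond (hd : 1 ≤ d) {e : V → E d} {T : Finset (Finset V)} (h : Real' e T)
    {Q : Finset V} (hQ : Q ∈ T) : ∃ v, Beyond e T Q v := by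
  have hd' : (0 : ℝ) < d := by exact_mod_cast hd
  let c : E d := (d : ℝ)⁻¹ • ∑ q ∈ Q, e q
  have h1 : ∀ G ∈ T, ∀ᶠ t : ℝ in 𝓝 1, G ≠ Q → ∀ g : Du d, (∀ q ∈ G, g (e q) = 1) →
      g (t • c) < 1 := by
    intro G hG
    by_cases hGQ : G = Q
    · exact Eventually.of_forall (fun _ h => absurd hGQ h)
    obtain ⟨g, hg1, hg2⟩ := h.fn G hG
    have hlt : g c < 1 := by
      obtain ⟨q, hq, hq'⟩ : ∃ q ∈ Q, q ∉ G := by
        by_contra hcon
        push Not at hcon
        exact hGQ (eq_of_subset_of_card_le hcon (by rw [h.card Q hQ, h.card G hG])).symm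
      have : ∑ q ∈ Q, g (e q) < ∑ _q ∈ Q, (1 : ℝ) :=
        sum_lt_sum (fun y hy => h.le_one hG hg1 y (subset_vs hQ hy))
          ⟨q, hq, hg2 q (subset_vs hQ hq) hq'⟩
      simp only [sum_const, h.card Q hQ, nsmul_eq_mul, mul_one] at this
      simp only [c, map_smul, map_sum, smul_eq_mul]
      rwa [inv_mul_lt_iff₀ hd', mul_one]
    have hcont : Continuous (fun t : ℝ => t * g c) := by fun_prop
    have := (hcont.tendsto 1).eventually (gt_mem_nhds (by simpa using hlt))
    filter_upwards [this] with t ht _ g' hg'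
    have : g' - g = 0 := h.span G hG _ (fun x hx => by simp [hg' x hx, hg1 x hx])
    rw [sub_eq_zero.1 this]
    simpa using ht
  have h2 := (eventually_all_finset T).2 h1
  obtain ⟨t, ht, ht1⟩ := ((h2.filter_mono (nhdsWithin_le_nhds (s := Set.Ioi 1))).and
    self_mem_nhdsWithin).exists
  refine ⟨t • c, fun f hf => ?_, ht⟩
  simp only [c, map_smul, map_sum, smul_eq_mul, sum_congr rfl hf, sum_const, h.card Q hQ,
    nsmul_eq_mul, mul_one, inv_mul_cancel₀ hd'.ne']
  exact ht1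

lemma real_cross {e : V → E d} (he : OddF e) {b : Fin d → V} (hb : ∀ i, e (b i) = Pi.single i 1) :
    AF (univ.image b) ∧ (univ.image b).card = d ∧ Real' e (crossF d (univ.image b)) ∧
      e '' (vs (crossF d (univ.image b)) : Set V) =
        {x | ∃ i, x = Pi.single i 1 ∨ x = -Pi.single i 1} := by
  have hb' : ∀ i, e (-b i) = -Pi.single i 1 := fun i => by rw [he, hb]
  have hne : ∀ i j : Fin d, (Pi.single i 1 : E d) ≠ -Pi.single j 1 := by
    intro i j h
    have := congrFun h i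
    simp only [Pi.single_eq_same, Pi.neg_apply, Pi.single_apply] at this
    split_ifs at this <;> linarith
  have hinj1 : ∀ i j : Fin d, (Pi.single i 1 : E d) = Pi.single j 1 → i = j := by
    intro i j h
    have := congrFun h i
    simp only [Pi.single_eq_same, Pi.single_apply] at this
    split_ifs at this with h'
    · exact h'
    · linarith
  have hbinj : Function.Injective b := fun i j h => hinj1 i j (by rw [← hb, ← hb, h])
  have haf : AF (univ.image b) := by
    intro x hx hx'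
    obtain ⟨i, -, rfl⟩ := mem_image.1 hx
    obtain ⟨j, -, h⟩ := mem_image.1 hx'
    exact hne j i (by rw [← hb, h, hb'])
  have hc : (univ.image b).card = d := by rw [card_image_of_injective _ hbinj]; simp
  have hpm : ∀ x, (x ∈ univ.image b ∨ -x ∈ univ.image b) ↔ ∃ i, x = b i ∨ x = -b i := by
    intro x
    simp only [mem_image, mem_univ, true_and, exists_or]
    exact or_congr (exists_congr (fun _ => eq_comm))
      (exists_congr (fun i => by rw [eq_comm, neg_eq_iff_eq_neg]))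
  have hvs : ∀ x, x ∈ vs (crossF d (univ.image b)) ↔ ∃ i, x = b i ∨ x = -b i := by
    intro x; rw [vs_crossF haf hc, mem_union, Finset.mem_neg', hpm]
  have htr : ∀ F ∈ crossF d (univ.image b), ∀ i, b i ∈ F ∨ -b i ∈ F := by
    intro F hF i
    rw [mem_crossF] at hF
    exact transversal hF.2.1 (hF.1.trans hc.symm) hF.2.2 (Or.inl (mem_image_of_mem _ (mem_univ i)))
  refine ⟨haf, hc, ⟨comb_cross _, ?_, fun F hF => ?_, fun F hF φ hφ => ?_, fun z => ?_⟩, ?_⟩
  · intro x hx y hy h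
    obtain ⟨i, rfl | rfl⟩ := (hvs x).1 hx <;> obtain ⟨j, rfl | rfl⟩ := (hvs y).1 hy <;>
      simp only [hb, hb', neg_inj] at h
    · rw [hinj1 i j h]
    · exact absurd h (hne i j)
    · exact absurd h.symm (hne j i)
    · rw [hinj1 i j h]
  · let f : Du d := ∑ i, (if b i ∈ F then (1 : ℝ) else -1) • LinearMap.proj i
    have hf : ∀ i, f (Pi.single i 1) = if b i ∈ F then 1 else -1 := by
      intro i
      simp only [f, LinearMap.sum_apply, LinearMap.smul_apply, LinearMap.proj_apply,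
        Pi.single_apply, smul_eq_mul, mul_ite, mul_one, mul_zero]
      simp
    have hF' := mem_crossF.1 hF
    refine ⟨f, fun x hx => ?_, fun x hx hxF => ?_⟩
    · obtain ⟨i, rfl | rfl⟩ := (hpm x).1 (hF'.2.2 x hx)
      · rw [hb, hf, if_pos hx]
      · rw [hb', map_neg, hf, if_neg (fun h => hF'.2.1 _ h hx)]; norm_num
    · obtain ⟨i, rfl | rfl⟩ := (hvs x).1 hx
      · rw [hb, hf, if_neg hxF]; norm_num
      · rw [hb', map_neg, hf, if_pos ((htr F hF i).resolve_right hxF)]; norm_num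
  · apply (Pi.basisFun ℝ (Fin d)).ext
    intro i
    rcases htr F hF i with h | h
    · simpa [hb] using hφ _ h
    · simpa [hb'] using hφ _ h
  · let s : Fin d → V := fun i => if 0 ≤ z i then b i else -b i
    have hs : ∀ i, e (s i) = (if 0 ≤ z i then (1 : ℝ) else -1) • Pi.single i 1 := by
      intro i; simp only [s]; split_ifs <;> simp [hb, hb']
    have hcl : ∀ i j, s i = s j ∨ s i = -s j → i = j := by
      intro i j h
      by_contra hij
      have h1 : e (s i) i = 0 := by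
        rcases h with h | h <;> rw [h]
        · rw [hs, Pi.smul_apply, Pi.single_eq_of_ne hij, smul_zero]
        · rw [he, hs, Pi.neg_apply, Pi.smul_apply, Pi.single_eq_of_ne hij, smul_zero, neg_zero]
      rw [hs, Pi.smul_apply, Pi.single_eq_same] at h1
      split_ifs at h1 <;> simp at h1
    have hsinj : Function.Injective s := fun i j h => hcl i j (Or.inl h)
    refine ⟨univ.image s, mem_crossF.2 ⟨by rw [card_image_of_injective _ hsinj]; simp, ?_, ?_⟩,
      fun x => |∑ i, e x i * z i|, fun x => abs_nonneg _, ?_⟩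
    · intro x hx hx'
      obtain ⟨i, -, rfl⟩ := mem_image.1 hx
      obtain ⟨j, -, h⟩ := mem_image.1 hx'
      have := hcl j i (Or.inr h)
      subst this
      exact ne_neg' _ h
    · intro x hx
      obtain ⟨i, -, rfl⟩ := mem_image.1 hx
      refine (hpm _).2 ⟨i, ?_⟩
      simp only [s]; split_ifs <;> simp
    · rw [sum_image (fun i _ j _ h => hsinj h)]
      funext j
      simp only [hs, Finset.sum_apply, Pi.smul_apply, Pi.single_apply, smul_eq_mul, mul_ite,
        mul_one, mul_zero, ite_mul, zero_mul, sum_ite_eq, sum_ite_eq', mem_univ, if_true]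
      split_ifs with h
      · simp [abs_of_nonneg h]
      · simp [abs_of_neg (not_le.1 h)]
  · ext y
    simp only [Set.mem_image, mem_coe, hvs, Set.mem_ofPred_eq]
    constructor
    · rintro ⟨x, ⟨i, rfl | rfl⟩, rfl⟩
      · exact ⟨i, Or.inl (hb i)⟩
      · exact ⟨i, Or.inr (hb' i)⟩
    · rintro ⟨i, rfl | rfl⟩
      · exact ⟨_, ⟨i, Or.inl rfl⟩, hb i⟩
      · exact ⟨_, ⟨i, Or.inr rfl⟩, hb' i⟩

theorem SS.realize (hd : 3 ≤ d) {T : Finset (Finset V)} (h : SS d T) :
    ∃ e : V → E d, OddF e ∧ Real' e T ∧ SymStacked d (e '' (vs T : Set V)) := by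
  induction h with
  | base Q hQ hc =>
    let σ : Q ≃ Fin d := Q.equivFinOfCardEq hc
    let e : V → E d := fun x => if h : x ∈ Q then Pi.single (σ ⟨x, h⟩) 1 else
      if h : -x ∈ Q then - Pi.single (σ ⟨-x, h⟩) 1 else 0
    have he : OddF e := by
      intro x
      by_cases h1 : x ∈ Q
      · simp [e, h1, hQ x h1]
      · by_cases h2 : -x ∈ Q <;> simp [e, h1, h2]
    have hb : ∀ i, e (σ.symm i) = Pi.single i 1 := fun i => by simp [e, (σ.symm i).2]
    have hQb : univ.image (fun i => (σ.symm i : V)) = Q := by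
      ext x
      simp only [mem_image, mem_univ, true_and]
      exact ⟨fun ⟨i, hi⟩ => hi ▸ (σ.symm i).2, fun hx => ⟨σ ⟨x, hx⟩, by simp⟩⟩
    have := real_cross he hb
    rw [hQb] at this
    exact ⟨e, he, this.2.2.1, this.2.2.2 ▸ SymStacked.cross⟩
  | step T Q x _ hQ hx ih =>
    obtain ⟨e, he, hr, hs⟩ := ih
    obtain ⟨v, hv⟩ := hr.exists_beyond (by omega) hQ
    have h1 : x ∉ vs T := fun h => by
      obtain ⟨F, hF, h⟩ := mem_vs.1 h; exact (hx F hF).1 h
    have h2 : -x ∉ vs T := fun h => by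
      obtain ⟨F, hF, h⟩ := mem_vs.1 h; exact (hx F hF).2 h
    let e' : V → E d := fun y => if y = x then v else if y = -x then -v else e y
    have he' : OddF e' := by
      intro y
      by_cases e1 : y = x
      · subst e1; simp [e', neg_ne']
      by_cases e2 : y = -x
      · subst e2; simp [e', neg_ne']
      have e3 : -y ≠ x := fun h => e2 (by rw [← h, neg_neg])
      simp [e', e1, e2, e3, he y]
    have hee : ∀ y ∈ vs T, e' y = e y := by
      intro y hy
      have e1 : y ≠ x := fun h => h1 (h ▸ hy)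
      have e2 : y ≠ -x := fun h => h2 (h ▸ hy)
      simp [e', e1, e2]
    have hex : e' x = v := by simp [e']
    have hr' := hr.congr hee
    have hv' : Beyond e' T Q (e' x) := by
      rw [hex]
      exact ⟨fun f hf => hv.1 f (fun q hq => by rw [← hee q (subset_vs hQ hq), hf q hq]),
        fun G hG hne g hg => hv.2 G hG hne g
          (fun q hq => by rw [← hee q (subset_vs hG hq), hg q hq])⟩
    refine ⟨e', he', hr'.stack hd he' hQ h1 hv', ?_⟩
    rw [vs_stackF hd hr.toComb x hQ, coe_insert, coe_insert, Set.image_insert_eq,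
      Set.image_insert_eq, he']
    have hb := (hr'.beyond_iff (by omega) he' hQ _).1 hv'
    exact SymStacked.stack _ _ _ (by rwa [Set.image_congr hee])
      ((hr'.isFacet_iff (by omega) he').2 ⟨Q, hQ, rfl⟩) hb.1 hb.2

theorem SymStacked.unrealize (hd : 3 ≤ d) {e : V → E d} (he : OddF e) {P : Set (E d)}
    (h : SymStacked d P) : P ⊆ Set.range e →
      ∃ T, SS d T ∧ Real' e T ∧ e '' (vs T : Set V) = P := by
  induction h with
  | cross =>
    intro hP
    choose b hb using fun i : Fin d => hP ⟨i, Or.inl rfl⟩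
    have := real_cross he hb
    exact ⟨_, SS.base _ this.1 this.2.1, this.2.2⟩
  | stack P F v _ hF h1 h2 ih =>
    intro hP
    obtain ⟨T, hT, hr, rfl⟩ := ih (fun y hy => hP (Or.inr (Or.inr hy)))
    obtain ⟨x, rfl⟩ := hP (Set.mem_insert _ _)
    obtain ⟨Q, hQ, rfl⟩ := (hr.isFacet_iff (by omega) he).1 hF
    have hb := (hr.beyond_iff (by omega) he hQ _).2 ⟨h1, h2⟩
    have hx : x ∉ vs T := fun hx => by
      obtain ⟨f, hf, -⟩ := hr.fn Q hQ
      exact absurd (hb.1 f hf) (not_lt.2 (hr.le_one hQ hf x hx))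
    have hx' : -x ∉ vs T := fun h' => hx (by simpa using hr.neg_mem_vs h')
    refine ⟨_, SS.step T Q x hT hQ (fun F hF =>
      ⟨fun h' => hx (subset_vs hF h'), fun h' => hx' (subset_vs hF h')⟩),
      hr.stack hd he hQ hx hb, ?_⟩
    rw [vs_stackF hd hr.toComb x hQ, coe_insert, coe_insert, Set.image_insert_eq,
      Set.image_insert_eq, he]

theorem SymStacked.symm {P : Set (E d)} (h : SymStacked d P) : ∀ x ∈ P, -x ∈ P := by
  induction h with
  | cross => rintro x ⟨i, rfl | rfl⟩ <;> exact ⟨i, by simp⟩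
  | stack P F v _ _ _ _ ih =>
    rintro x (rfl | rfl | hx)
    · exact Or.inr (Or.inl rfl)
    · exact Or.inl (neg_neg _)
    · exact Or.inr (Or.inr (ih x hx))

end Pool.Agent.MP_d539bc_co
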