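import Pool.Agent.MP_d539bc_co.Geom
import Pool.Agent.MP_d539bc_co.Equal
import Pool.Agent.MP_d539bc_co.Topo

/-! Assembly of the lower bound theorem for centrally symmetric pseudomanifolds. -/

namespace Pool.Agent.MP_d539bc_co

open Finset
open scoped Pointwise

variable {V : Type} [Fintype V] [DecidableEq V] {d : ℕ}

lemma numFaces_one (K : AbstractSimplicialComplex V) : numFaces K 1 = Fintype.card V := by
  have : {s : Finset V | s ∈ K.faces ∧ s.card = 1} = Set.range (fun v : V => ({v} : Finset V)) := by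
    ext s
    simp only [Set.mem_ofPred_eq, card_eq_one, Set.mem_range]
    exact ⟨fun ⟨_, a, h⟩ => ⟨a, h.symm⟩, fun ⟨a, h⟩ => ⟨h ▸ K.singleton_mem a, a, h.symm⟩⟩
  rw [numFaces, this, Set.ncard_range_of_injective singleton_injective, Nat.card_eq_fintype_card]

lemma ec_eq (K : AbstractSimplicialComplex V) {G : V → V → Prop}
    (h : ∀ x y, G x y ↔ x ≠ y ∧ {x, y} ∈ K.faces) : ec G = 2 * numFaces K 2 := by
  classical
  have e : {s : Finset V | s ∈ K.faces ∧ s.card = 2}
      = ↑(univ.filter (fun s : Finset V => s ∈ K.faces ∧ s.card = 2)) := by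
    ext s; simp
  rw [numFaces, e, Set.ncard_coe_finset, ec,
    card_eq_sum_card_fiberwise (f := fun e : V × V => ({e.1, e.2} : Finset V))
      (t := univ.filter (fun s : Finset V => s ∈ K.faces ∧ s.card = 2)), mul_comm,
    ← smul_eq_mul, ← sum_const]
  · apply sum_congr rfl
    intro s hs
    obtain ⟨hs, hc⟩ := (mem_filter.1 hs).2
    obtain ⟨a, b, hab, rfl⟩ := card_eq_two.1 hc
    rw [← card_pair (show (a, b) ≠ (b, a) from fun e => hab (congrArg Prod.fst e))]
    congr 1
    ext ⟨x, y⟩
    simp only [mem_filter, mem_univ, true_and, h, mem_insert, mem_singleton, Prod.mk.injEq]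
    constructor
    · rintro ⟨⟨h1, -⟩, h2⟩
      have hx : x ∈ ({a, b} : Finset V) := h2 ▸ by simp
      have hy : y ∈ ({a, b} : Finset V) := h2 ▸ by simp
      simp only [mem_insert, mem_singleton] at hx hy
      rcases hx with rfl | rfl <;> rcases hy with rfl | rfl <;> simp at h1 ⊢
    · rintro (⟨rfl, rfl⟩ | ⟨rfl, rfl⟩)
      · exact ⟨⟨hab, hs⟩, rfl⟩
      · exact ⟨⟨hab.symm, by rwa [pair_comm]⟩, pair_comm _ _⟩
  · rintro ⟨x, y⟩ hxy
    simp only [coe_filter, mem_univ, true_and, Set.mem_ofPred_eq, h] at hxy ⊢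
    exact ⟨hxy.2, card_pair hxy.1⟩

omit [Fintype V] in
lemma gr_iff [FreeNeg V] (K : AbstractSimplicialComplex V) {T : Finset (Finset V)}
    (hsym : ∀ F ∈ T, -F ∈ T) (h : ∀ s, s ∈ K.faces ↔ s.Nonempty ∧ ∃ F ∈ T, s ⊆ F) (x y : V) :
    gr T x y ↔ x ≠ y ∧ {x, y} ∈ K.faces := by
  rw [h]
  constructor
  · rintro ⟨F, hF, hxy, h1 | h1⟩
    · exact ⟨hxy, by simp, F, hF, insert_subset h1.1 (singleton_subset_iff.2 h1.2)⟩
    · exact ⟨hxy, by simp, -F, hsym F hF, insert_subset (Finset.mem_neg'.2 h1.1)
        (singleton_subset_iff.2 (Finset.mem_neg'.2 h1.2))⟩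
  · rintro ⟨hxy, -, F, hF, hs⟩
    exact clique_gr hF x (hs (by simp)) y (hs (by simp)) hxy

lemma count_of_stacked (hd : 3 ≤ d) {K : AbstractSimplicialComplex V}
    (h : IsStackedBoundary K d) : numFaces K 2 + 2 * d = d * Fintype.card V := by
  obtain ⟨P, hP, e, hinj, hrange, hfaces⟩ := h
  choose φ hφ using fun x : V => (hrange ▸ hP.symm (e x) (hrange ▸ Set.mem_range_self x) :
    -e x ∈ Set.range e)
  have hne : ∀ x, φ x ≠ x := by
    intro x hx
    have h0 : e x = 0 := by
      have := hφ x
      rw [hx] at this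
      have h2 : (2 : ℝ) • e x = 0 := by rw [two_smul]; nth_rewrite 1 [this]; abel
      simpa using h2
    obtain ⟨-, f, c, h1, h2, h3⟩ := (hfaces {x}).1 (K.singleton_mem x)
    have hx' : e x ∈ e '' (({x} : Finset V) : Set V) := ⟨x, by simp, rfl⟩
    rw [h3] at hx'
    have hc : c = 0 := by rw [← hx'.2, h0, map_zero]
    have hall : ∀ y ∈ P, y = e x := by
      intro y hy
      have a1 := h2 y hy
      have a2 := h2 _ (hP.symm y hy)
      rw [map_neg] at a2
      have : y ∈ e '' (({x} : Finset V) : Set V) := by rw [h3]; exact ⟨hy, by linarith⟩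
      simpa [eq_comm] using this
    have : ∀ {P : Set (E d)}, SymStacked d P → Pi.single ⟨0, by omega⟩ 1 ∈ P := by
      intro P hP
      induction hP with
      | cross => exact ⟨_, Or.inl rfl⟩
      | stack _ _ _ _ _ _ _ ih => exact Or.inr (Or.inr ih)
    have := congrFun ((hall _ (this hP)).trans h0) ⟨0, by omega⟩
    simp at this
  letI : FreeNeg V :=
    { neg := φ
      neg_neg := fun x => hinj (by
        change e (φ (φ x)) = e x
        rw [hφ, hφ, neg_neg])
      neg_ne := hne }
  have he : OddF e := hφ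
  obtain ⟨T, hT, hr, hTP⟩ := hP.unrealize hd he hrange.ge
  have hv : vs T = univ := by
    apply eq_univ_of_forall
    intro x
    have : e x ∈ e '' (vs T : Set V) := by rw [hTP, ← hrange]; exact Set.mem_range_self x
    obtain ⟨y, hy, hyx⟩ := this
    exact hinj hyx ▸ hy
  have h1 := hT.count hd
  rw [hv, card_univ, ec_eq K (gr_iff K hr.sym (fun s => by
    rw [hfaces, ← hTP, hr.isFace_iff he (hv ▸ subset_univ s)]))] at h1
  nlinarith

theorem main_pm (hd : 4 ≤ d) {K : AbstractSimplicialComplex V} (hcs : IsCS K) (h : PM K d)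
    (hne : ∃ s, s ∈ K.faces) : d * Fintype.card V ≤ numFaces K 2 + 2 * d ∧
      (numFaces K 2 + 2 * d = d * Fintype.card V → IsStackedBoundary K d) := by
  classical
  obtain ⟨φ, hφ, hK⟩ := hcs
  letI : FreeNeg V :=
    { neg := φ
      neg_neg := hφ
      neg_ne := fun x hx => (hK {x} (K.singleton_mem x)).2 (by
        rw [image_singleton]; exact congrArg _ hx) }
  let T : Finset (Finset V) := univ.filter (fun s => s ∈ K.faces ∧ s.card = d)
  have hT : ∀ s, s ∈ T ↔ s ∈ K.faces ∧ s.card = d := fun s => by simp [T]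
  have hsym : ∀ F ∈ T, -F ∈ T := fun F hF =>
    (hT _).2 ⟨(hK F ((hT F).1 hF).1).1, by rw [card_neg, ((hT F).1 hF).2]⟩
  have hfaces : ∀ s, s ∈ K.faces ↔ s.Nonempty ∧ ∃ F ∈ T, s ⊆ F := by
    intro s
    constructor
    · intro hs
      obtain ⟨t, ht, hst, htc⟩ := h.pure s hs
      exact ⟨face_nonempty hs, t, (hT t).2 ⟨ht, htc⟩, hst⟩
    · rintro ⟨h1, F, hF, h2⟩
      exact face_down ((hT F).1 hF).1 h2 h1
  have hrid : ∀ (R : Finset V) z, z ∉ R → insert z R ∈ T → R ∈ K.faces ∧ R.card + 1 = d := by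
    intro R z hz hR
    have h1 := (hT _).1 hR
    rw [card_insert_of_notMem hz] at h1
    exact ⟨face_down h1.1 (subset_insert _ _) (card_pos.1 (by omega)), h1.2⟩
  have hcirc : Circ d T :=
    { card := fun F hF => ((hT F).1 hF).2
      af := fun F hF x hx hx' => by
        have h1 : {x, -x} ∈ K.faces := face_down ((hT F).1 hF).1
          (insert_subset hx (singleton_subset_iff.2 hx')) (insert_nonempty _ _)
        apply (hK _ h1).2
        change -({x, -x} : Finset V) = _
        ext y; simp [Finset.mem_neg', neg_eq_iff_eq_neg, or_comm]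
      nonempty := by
        obtain ⟨s, hs⟩ := hne
        obtain ⟨-, F, hF, -⟩ := (hfaces s).1 hs
        exact ⟨F, hF⟩
      cyc := by
        funext R
        simp only [bd, Pi.zero_apply]
        by_cases hex : ∃ z, z ∉ R ∧ insert z R ∈ T
        · obtain ⟨z, hz, hzT⟩ := hex
          obtain ⟨hR, hRc⟩ := hrid R z hz hzT
          obtain ⟨z1, z2, h12, h1, h2, f1, f2, hall⟩ := h.ridge R hR hRc
          rw [← sum_subset (s₁ := {z1, z2}), sum_pair h12]
          · have t1 : insert z1 R ∈ T := (hT _).2 ⟨f1, by rw [card_insert_of_notMem h1, hRc]⟩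
            have t2 : insert z2 R ∈ T := (hT _).2 ⟨f2, by rw [card_insert_of_notMem h2, hRc]⟩
            simp only [ind, t1, t2, if_true]; decide
          · exact insert_subset (mem_compl.2 h1) (singleton_subset_iff.2 (mem_compl.2 h2))
          · intro w hw hw'
            rw [ind, if_neg]
            intro hwT
            exact hw' (by simpa using hall w (mem_compl.1 hw) ((hT _).1 hwT).1)
        · push Not at hex
          exact sum_eq_zero (fun w hw => by rw [ind, if_neg (hex w (mem_compl.1 hw))])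
      min := by
        intro S hS ⟨F0, hF0⟩ hc
        apply Subset.antisymm hS
        intro F hF
        refine h.strong (fun F => F ∈ S) ?_ F0 ((hT _).1 (hS hF0)).1 F ((hT _).1 hF).1
          ((hT _).1 (hS hF0)).2 ((hT _).1 hF).2 hF0
        intro R z z' _ hz hz' f1 f2 hzS
        obtain ⟨hR, hRc⟩ := hrid R z hz (hS hzS)
        obtain ⟨z1, z2, -, -, -, -, -, hall⟩ := h.ridge R hR hRc
        obtain ⟨w, hw, hwS⟩ := hc.other hzS (mem_insert_self z R)
        rw [erase_insert hz] at hwS
        rw [mem_insert, not_or] at hw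
        have a1 := hall z hz f1
        have a2 := hall z' hz' f2
        have a3 := hall w hw.2 ((hT _).1 (hS hwS)).1
        have : z' = z ∨ z' = w := by
          have := hw.1
          rcases a1 with rfl | rfl <;> rcases a2 with rfl | rfl <;> rcases a3 with rfl | rfl <;>
            simp at this ⊢
        rcases this with rfl | rfl
        · exact hzS
        · exact hwS }
  have hv : ∀ x, x ∈ vs T := fun x => by
    obtain ⟨-, F, hF, hs⟩ := (hfaces {x}).1 (K.singleton_mem x)
    exact subset_vs hF (hs (mem_singleton_self x))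
  have hc := core hd hcirc hsym hv
  rw [ec_eq K (gr_iff K hsym hfaces)] at hc
  refine ⟨by nlinarith [hc.1], fun heq => ?_⟩
  obtain ⟨e, he, hr, hs⟩ := (hc.2 (by nlinarith)).realize (by omega)
  have hv' : vs T = univ := eq_univ_of_forall hv
  refine ⟨_, hs, e, fun x y hxy => hr.inj (hv x) (hv y) hxy, by simp [hv'], fun s => ?_⟩
  rw [hfaces, hr.isFace_iff he (fun x _ => hv x)]

end Pool.Agent.MP_d539bc_co
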