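import Pool.Agent.MP_d539bc_co.Generic
import Pool.Agent.MP_d539bc_co.CircInd

/-! Antisymmetric rigidity of antipodal free circuits. -/

namespace Pool.Agent.MP_d539bc_co

open Finset Module
open scoped Pointwise

variable {V : Type} [Fintype V] [DecidableEq V] [FreeNeg V] {d : ℕ}

def Alt (B : E d →ₗ[ℝ] Du d) : Prop := ∀ w, B w w = 0

lemma Alt.skew {B : E d →ₗ[ℝ] Du d} (h : Alt B) (w w' : E d) : B w w' = - B w' w := by
  have := h (w + w')
  simp only [map_add, LinearMap.add_apply, h w, h w'] at this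
  linarith

def Triv (p : V → E d) (W : Finset V) : Submodule ℝ (Mot V d) where
  carrier := {m | ∃ (B : E d →ₗ[ℝ] Du d) (b : Du d), Alt B ∧ ∀ x ∈ W, m (cls x) = B (p x) + b}
  add_mem' := by
    rintro m m' ⟨B, b, h1, h2⟩ ⟨B', b', h1', h2'⟩
    refine ⟨B + B', b + b', fun w => by simp [h1 w, h1' w], fun x hx => ?_⟩
    simp only [Pi.add_apply, h2 x hx, h2' x hx, LinearMap.add_apply]; abel
  zero_mem' := ⟨0, 0, fun w => by simp, fun x _ => by simp⟩
  smul_mem' := by
    rintro c m ⟨B, b, h1, h2⟩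
    refine ⟨c • B, c • b, fun w => by simp [h1 w], fun x hx => ?_⟩
    simp [h2 x hx]

omit [Fintype V] [DecidableEq V] in
lemma mem_Triv {p : V → E d} {W : Finset V} {m : Mot V d} : m ∈ Triv p W ↔
    ∃ (B : E d →ₗ[ℝ] Du d) (b : Du d), Alt B ∧ ∀ x ∈ W, m (cls x) = B (p x) + b := Iff.rfl

omit [Fintype V] [DecidableEq V] in
lemma ell_neg {p : V → E d} (hp : OddF p) (x y : V) (m : Mot V d) :
    ell (-x) (-y) p m = - ell x y p m := by
  rw [ell_apply, ell_apply, cls_neg, cls_neg, hp, hp, ← map_neg]; congr 1; abel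

omit [Fintype V] [DecidableEq V] in
lemma ell_symm (p : V → E d) (x y : V) (m : Mot V d) : ell y x p m = ell x y p m := by
  simp only [ell_apply, LinearMap.sub_apply, map_sub]; ring

omit [Fintype V] [DecidableEq V] in
lemma ell_of_triv {p : V → E d} {m : Mot V d} {B : E d →ₗ[ℝ] Du d} {b : Du d} (hB : Alt B)
    {x y : V} (hx : m (cls x) = B (p x) + b) (hy : m (cls y) = B (p y) + b) :
    ell x y p m = 0 := by
  rw [ell_apply, hx, hy, add_sub_add_right_eq_sub, ← map_sub]; exact hB _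

omit [Fintype V] [DecidableEq V] in
lemma triv_le_K {p : V → E d} (hp : OddF p) {G : V → V → Prop} {W : Finset V} (h : G ≤ kq W) :
    Triv p W ≤ K p G := by
  rintro m ⟨B, b, hB, hm⟩
  rw [mem_K]
  intro x y hxy
  rcases (h x y hxy).2 with h1 | h1
  · exact ell_of_triv hB (hm x h1.1) (hm y h1.2)
  · have := ell_of_triv hB (hm _ h1.1) (hm _ h1.2)
    rwa [ell_neg hp, neg_eq_zero] at this

omit [Fintype V] in
lemma Triv_neg {p : V → E d} (hp : OddF p) (W : Finset V) : Triv p W ≤ Triv p (-W) := by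
  rintro m ⟨B, b, hB, hm⟩
  refine ⟨-B, b, fun w => by simp [hB w], fun x hx => ?_⟩
  have := hm _ (Finset.mem_neg'.1 hx)
  rw [cls_neg, hp] at this
  simp [this]

omit [Fintype V] [DecidableEq V] in
lemma gr_le_kq_vs [DecidableEq V] (T : Finset (Finset V)) : gr T ≤ kq (vs T) := by
  rintro a b ⟨F, hF, h⟩
  exact kq_mono (subset_vs hF) a b h

namespace Generic

variable {p : V → E d} (hp : Generic p)
include hp

omit [Fintype V] [DecidableEq V] in
lemma map_zero' {F : Finset V} (hF : AF F) (hc : F.card = d) {B : E d →ₗ[ℝ] Du d}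
    (h : ∀ x ∈ F, B (p x) = 0) : B = 0 := by
  refine LinearMap.ext (fun w => LinearMap.ext (fun w' => ?_))
  have := hp.gp1 F hF hc (B.flip w') (fun x hx => by simp [h x hx])
  simpa using LinearMap.congr_fun this w

omit [Fintype V] [DecidableEq V] in
lemma uniq {F : Finset V} (hF : AF F) (hc : F.card = d) {B B' : E d →ₗ[ℝ] Du d} {b b' : Du d}
    (hB : Alt B) (hB' : Alt B') (h : ∀ x ∈ F, B (p x) + b = B' (p x) + b') : B = B' ∧ b = b' := by
  have h1 : b - b' = 0 := by
    apply hp.gp1 F hF hc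
    intro x hx
    have := LinearMap.congr_fun (h x hx) (p x)
    simp only [LinearMap.add_apply, hB (p x), hB' (p x), zero_add] at this
    simp [this]
  have h2 : b = b' := sub_eq_zero.1 h1
  subst h2
  refine ⟨sub_eq_zero.1 (hp.map_zero' hF hc (fun x hx => ?_)), rfl⟩
  have := add_right_cancel (h x hx)
  simp [this]

omit [Fintype V] [DecidableEq V] in
lemma exists_dual {F : Finset V} (hF : AF F) (hc : F.card = d) (c : V → ℝ) :
    ∃ φ : Du d, ∀ x ∈ F, φ (p x) = c x := by
  let L : Du d →ₗ[ℝ] (F → ℝ) := LinearMap.pi (fun x => Dual.eval ℝ (E d) (p x))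
  have hinj : Function.Injective L := by
    rw [← LinearMap.ker_eq_bot, LinearMap.ker_eq_bot']
    intro φ hφ
    exact hp.gp1 F hF hc φ (fun x hx => congrFun hφ ⟨x, hx⟩)
  have hsurj := (LinearMap.injective_iff_surjective_of_finrank_eq_finrank
    (by simp [hc])).1 hinj
  obtain ⟨φ, hφ⟩ := hsurj (fun x => c x)
  exact ⟨φ, fun x hx => congrFun hφ ⟨x, hx⟩⟩

omit [Fintype V] in
lemma clique_triv {Q : Finset V} (hQ : AF Q) (hc : Q.card = d) {m : Mot V d}
    (h : ∀ x ∈ Q, ∀ y ∈ Q, x ≠ y → ell x y p m = 0) : m ∈ Triv p Q := by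
  obtain ⟨b, hb⟩ := hp.exists_dual hQ hc (fun x => m (cls x) (p x))
  choose φ hφ using fun x : V => hp.exists_dual hQ hc (fun y => if x = y then 1 else 0)
  let B : E d →ₗ[ℝ] Du d := ∑ x ∈ Q, (φ x).smulRight (m (cls x) - b)
  have hB : ∀ y ∈ Q, B (p y) = m (cls y) - b := by
    intro y hy
    simp only [B, LinearMap.sum_apply, LinearMap.smulRight_apply]
    rw [sum_congr rfl (fun x _ => by rw [hφ x y hy])]
    simp [hy]
  have hS : B + B.flip = 0 := by
    apply hp.map_zero' hQ hc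
    intro x hx
    apply hp.gp1 Q hQ hc
    intro y hy
    simp only [LinearMap.add_apply, LinearMap.flip_apply, hB x hx, hB y hy, LinearMap.sub_apply,
      hb x hx, hb y hy]
    by_cases hxy : x = y
    · subst hxy; ring
    · have := h x hx y hy hxy
      simp only [ell_apply, LinearMap.sub_apply, map_sub] at this
      linarith
  refine ⟨B, b, fun w => ?_, fun x hx => by rw [hB x hx]; abel⟩
  have := LinearMap.congr_fun (LinearMap.congr_fun hS w) w
  simp only [LinearMap.add_apply, LinearMap.flip_apply, LinearMap.zero_apply] at this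
  linarith

omit [Fintype V] [DecidableEq V] in
lemma extend {Q : Finset V} (hQ : AF Q) (hc : Q.card = d) {m : Mot V d} {B : E d →ₗ[ℝ] Du d}
    {b : Du d} (hB : Alt B) (hm : ∀ q ∈ Q, m (cls q) = B (p q) + b) {x : V} (hx : x ∉ Q)
    (hx' : -x ∉ Q) (h : ∀ q ∈ Q, ell x q p m = 0) : m (cls x) = B (p x) + b := by
  rw [← sub_eq_zero]
  apply hp.gp2 Q x hQ hc hx hx'
  intro q hq
  have h1 := h q hq
  have h2 := hB (p x - p q)
  simp only [ell_apply, hm q hq, LinearMap.sub_apply, LinearMap.add_apply, map_sub] at h1 h2 ⊢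
  linarith

omit [Fintype V] [DecidableEq V] in
lemma alt_zero {F : Finset V} (hF : AF F) (hc : F.card = d) {B : E d →ₗ[ℝ] Du d} (hB : Alt B)
    (y : V) (h : ∀ x ∈ F, x ≠ y → B (p x) = 0) : B = 0 := by
  apply hp.map_zero' hF hc
  intro x hx
  by_cases hxy : x = y
  · apply hp.gp1 F hF hc
    intro z hz
    by_cases hzy : z = y
    · rw [hxy, hzy]; exact hB _
    · rw [hB.skew, h z hz hzy]; simp
  · exact h x hx hxy

omit [Fintype V] [DecidableEq V] in
lemma dbl_pair {m : Mot V d} {x y : V} (h1 : ell x y p m = 0) (h2 : ell x (-y) p m = 0) :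
    m (cls x) (p y) = m (cls y) (p y) ∧ m (cls x) (p x) = m (cls y) (p x) := by
  simp only [ell_apply, cls_neg, hp.odd y, LinearMap.sub_apply, map_sub, map_neg] at h1 h2
  constructor <;> linarith

omit [Fintype V] [DecidableEq V] in
lemma dbl_const {F : Finset V} (hF : AF F) (hc : F.card = d) {m : Mot V d}
    (h : ∀ x ∈ F, ∀ y ∈ F, x ≠ y → ell x y p m = 0 ∧ ell x (-y) p m = 0) :
    ∀ x ∈ F, ∀ y ∈ F, m (cls x) = m (cls y) := by
  have key : ∀ x ∈ F, ∀ y ∈ F, m (cls x) (p y) = m (cls y) (p y) := by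
    intro x hx y hy
    by_cases hxy : x = y
    · rw [hxy]
    · exact (hp.dbl_pair (h x hx y hy hxy).1 (h x hx y hy hxy).2).1
  intro x hx y hy
  rw [← sub_eq_zero]
  apply hp.gp1 F hF hc
  intro z hz
  simp [key x hx z hz, key y hy z hz]

end Generic

omit [Fintype V] in
lemma kap_eq_of_kq {u v x y : V} (h1 : u ≠ v) (h2 : u ≠ -v) (h : kq {u, v} x y) :
    kap u v x = kap u v y := by
  have key : ∀ z ∈ ({u, v} : Finset V), kap u v z = u := by
    intro z hz
    rcases mem_insert.1 hz with rfl | hz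
    · exact kap_u h1 h2
    · rw [mem_singleton.1 hz, kap_v]
  rcases h.2 with h | h
  · rw [key x h.1, key y h.2]
  · apply neg_injective
    rw [← kap_neg, ← kap_neg, key _ h.1, key _ h.2]

noncomputable def evc (c : Cl V) : Mot V d →ₗ[ℝ] Du d := LinearMap.proj c

omit [Fintype V] [DecidableEq V] in
@[simp] lemma evc_apply (c : Cl V) (m : Mot V d) : evc c m = m c := rfl

noncomputable def K0 (p : V → E d) (G : V → V → Prop) (u v : V) : Submodule ℝ (Mot V d) :=
  K p G ⊓ LinearMap.ker (evc (cls u) - evc (cls v))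

omit [Fintype V] [DecidableEq V] in
lemma mem_K0 {p : V → E d} {G : V → V → Prop} {u v : V} {m : Mot V d} :
    m ∈ K0 p G u v ↔ m ∈ K p G ∧ m (cls u) = m (cls v) := by
  simp [K0, sub_eq_zero]

omit [DecidableEq V] in
lemma finrank_K_le_K0 (p : V → E d) (G : V → V → Prop) (u v : V) :
    finrank ℝ (K p G) ≤ finrank ℝ (K0 p G u v) + d := by
  have := finrank_le_inf_ker_add (K p G) (evc (cls u) - evc (cls v))
  rwa [finrank_Du] at this

omit [Fintype V] in
lemma mot_kap {m : Mot V d} {u v : V} (h : m (cls u) = m (cls v)) (x : V) :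
    m (cls (kap u v x)) = m (cls x) := by
  rcases kap_cases u v x with ⟨h0, h1⟩ | ⟨h0, h1⟩ | ⟨-, -, h1⟩ <;> rw [h1]
  · rw [h0, h]
  · rw [h0, cls_neg, cls_neg, h]

theorem lift_dim {p : V → E d} (hp : Generic p) {G G' : V → V → Prop} (hG : SG G) {u v : V}
    (huv : G u v) (hG' : ∀ a b, G' a b → a ≠ b ∧ ∃ x y, G x y ∧ kap u v x = a ∧ kap u v y = b)
    (hδ : ∃ δ : E d, ∀ φ : Du d, (∀ r, G u r → G v r → φ (p u - p r) = 0) → φ δ = 0 → φ = 0) :
    finrank ℝ (K p G) ≤ finrank ℝ (K0 p G' u v) := by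
  classical
  obtain ⟨δ, hδ⟩ := hδ
  have h1 := hG.ne huv
  have h2 := hG.ne_neg huv
  let p' : V → E d := fun x => p (kap u v x)
  let δ' : V → E d := fun x => if x = v then δ else if x = -v then -δ else 0
  have hp' : OddF p' := fun x => by simp only [p', kap_neg, hp.odd (kap u v x)]
  have hδ' : OddF δ' := by
    intro x
    by_cases e1 : x = v
    · subst e1; simp [δ', neg_ne']
    by_cases e2 : x = -v
    · subst e2; simp [δ', neg_ne']
    have e3 : -x ≠ v := fun h => e2 (by rw [← h, neg_neg])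
    simp [δ', e1, e2, e3]
  let f : {e : V × V // G e.1 e.2} → Dual ℝ (Mot V d) := fun e =>
    if kq {u, v} e.1.1 e.1.2 then ell e.1.1 e.1.2 δ' else ell e.1.1 e.1.2 p'
  let g : {e : V × V // G e.1 e.2} → Dual ℝ (Mot V d) := fun e =>
    if kq {u, v} e.1.1 e.1.2 then 0 else ell e.1.1 e.1.2 δ'
  obtain ⟨s, hs⟩ := ((pencil_Z f g).union (Set.finite_singleton 0)).exists_notMem
  simp only [Set.mem_union, Set.mem_ofPred_eq, Set.mem_singleton_iff, not_or, not_lt] at hs
  have e1 := hp.min G (p' + s • δ') (hp'.add_smul hδ' s)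
  have e2 : K (p' + s • δ') G ≤ Z (f + s • g) := by
    intro m hm
    rw [mem_K] at hm
    rw [mem_Z]
    rintro ⟨⟨x, y⟩, hxy⟩
    have := hm x y hxy
    simp only [map_add, map_smul, LinearMap.add_apply, LinearMap.smul_apply, smul_eq_mul] at this
    by_cases hk : kq {u, v} x y
    · have h0 : ell x y p' m = 0 := by
        simp only [ell_apply, p', kap_eq_of_kq h1 h2 hk, sub_self, map_zero]
      rw [h0, zero_add] at this
      simpa [f, g, hk, hs.2] using this
    · simpa [f, g, hk] using this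
  have e3 : Z f ≤ K0 p G' u v := by
    intro m hm
    rw [mem_Z] at hm
    have hm1 : ∀ x y, G x y → ¬ kq {u, v} x y → ell x y p' m = 0 := by
      intro x y hxy hk
      simpa [f, hk] using hm ⟨(x, y), hxy⟩
    have hmuv : m (cls u) = m (cls v) := by
      rw [← sub_eq_zero]
      apply hδ
      · intro r hur hvr
        have hr : ∀ x, ¬ kq {u, v} x r := by
          rintro x ⟨-, h | h⟩
          · rcases mem_insert.1 h.2 with h | h
            · exact hG.ne hur h.symm
            · exact hG.ne hvr (mem_singleton.1 h).symm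
          · rcases mem_insert.1 h.2 with h | h
            · exact hG.ne_neg hur h.symm
            · exact hG.ne_neg hvr (mem_singleton.1 h).symm
        have hkr : kap u v r = r :=
          kap_of_ne (hG.ne hvr).symm (fun h => hG.ne_neg hvr (by rw [h, neg_neg]))
        have a1 := hm1 u r hur (hr u)
        have a2 := hm1 v r hvr (hr v)
        simp only [ell_apply, p', hkr, kap_v, kap_u h1 h2, LinearMap.sub_apply] at a1 a2 ⊢
        linarith
      · have hk : kq {u, v} u v := ⟨h1, Or.inl ⟨by simp, by simp⟩⟩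
        have := hm ⟨(u, v), huv⟩
        simp only [f, hk, if_true, ell_apply, δ', h1, h2, if_false, zero_sub, map_neg,
          neg_eq_zero] at this
        exact this
    rw [mem_K0, mem_K]
    refine ⟨?_, hmuv⟩
    intro a b hab
    obtain ⟨hne, x, y, hxy, rfl, rfl⟩ := hG' a b hab
    have := hm1 x y hxy (fun hk => hne (kap_eq_of_kq h1 h2 hk))
    rw [ell_apply, mot_kap hmuv, mot_kap hmuv]
    exact this
  exact e1.trans ((Submodule.finrank_mono e2).trans (hs.1.trans (Submodule.finrank_mono e3)))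

theorem finrank_map_le_of_ker {A C : Type} [AddCommGroup A] [Module ℝ A] [AddCommGroup C]
    [Module ℝ C] [FiniteDimensional ℝ C] (S : Submodule ℝ C) (f g : C →ₗ[ℝ] A)
    (h : ∀ t ∈ S, g t = 0 → f t = 0) : finrank ℝ (S.map f) ≤ finrank ℝ (S.map g) := by
  have := finrank_range_le_of_ker_le (f ∘ₗ S.subtype) (g ∘ₗ S.subtype) (fun t ht => h t t.2 ht)
  rwa [LinearMap.range_comp, LinearMap.range_comp, Submodule.range_subtype] at this

theorem K0_le_triv {p : V → E d} (hp : Generic p) {G' : V → V → Prop} {W W' : Finset V} {u v : V}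
    (h1 : u ≠ v) (h2 : u ≠ -v) (hK : K p G' ≤ Triv p W') (hW : ∀ x ∈ W, kap u v x ∈ W')
    (hc : -v ∉ W ∨ Big d W) : finrank ℝ (K0 p G' u v) ≤ finrank ℝ (Triv p W) := by
  rcases hc with hc | ⟨F, hF, hFc, hFW⟩
  · let 𝒢 : Submodule ℝ (Mot V d × (E d →ₗ[ℝ] Du d) × Du d) :=
      { carrier := {t | Alt t.2.1 ∧ ∀ x ∈ W', t.1 (cls x) = t.2.1 (p x) + t.2.2}
        add_mem' := by
          rintro ⟨m, B, b⟩ ⟨m', B', b'⟩ ⟨h1, h2⟩ ⟨h1', h2'⟩
          refine ⟨fun w => by simpa using by rw [h1 w, h1' w, add_zero], fun x hx => ?_⟩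
          have e1 := h2 x hx
          have e2 := h2' x hx
          simp only [Prod.mk_add_mk, Pi.add_apply, LinearMap.add_apply] at e1 e2 ⊢
          rw [e1, e2]; abel
        zero_mem' := ⟨fun w => by simp, fun x _ => by simp⟩
        smul_mem' := by
          rintro c ⟨m, B, b⟩ ⟨h1, h2⟩
          refine ⟨fun w => by simpa using Or.inr (h1 w), fun x hx => ?_⟩
          have e1 := h2 x hx
          simp only [Prod.smul_mk, Pi.smul_apply, LinearMap.smul_apply] at e1 ⊢
          rw [e1, smul_add] }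
    let π1 : (Mot V d × (E d →ₗ[ℝ] Du d) × Du d) →ₗ[ℝ] Mot V d :=
      LinearMap.pi (fun c => if c = cls v then LinearMap.proj (cls u) ∘ₗ LinearMap.fst ℝ _ _
        else LinearMap.proj c ∘ₗ LinearMap.fst ℝ _ _)
    let π2 : (Mot V d × (E d →ₗ[ℝ] Du d) × Du d) →ₗ[ℝ] Mot V d :=
      LinearMap.pi (fun c => if c = cls v then
        (LinearMap.applyₗ (p v) ∘ₗ LinearMap.fst ℝ _ _ + LinearMap.snd ℝ _ _) ∘ₗ LinearMap.snd ℝ _ _
        else LinearMap.proj c ∘ₗ LinearMap.fst ℝ _ _)
    have hπ1 : ∀ t c, π1 t c = if c = cls v then t.1 (cls u) else t.1 c := by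
      intro t c; simp only [π1, LinearMap.pi_apply]; split_ifs <;> rfl
    have hπ2 : ∀ t c, π2 t c = if c = cls v then t.2.1 (p v) + t.2.2 else t.1 c := by
      intro t c; simp only [π2, LinearMap.pi_apply]; split_ifs <;> rfl
    have huv : cls u ≠ cls v := fun h => (cls_eq.1 h).elim h1 h2
    have e1 : K0 p G' u v ≤ 𝒢.map π1 := by
      intro m hm
      rw [mem_K0] at hm
      obtain ⟨B, b, hB, hm'⟩ := hK hm.1
      refine ⟨(m, B, b), ⟨hB, hm'⟩, ?_⟩
      funext c
      rw [hπ1]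
      split_ifs with h
      · rw [h]; exact hm.2
      · rfl
    have e2 : 𝒢.map π2 ≤ Triv p W := by
      rintro _ ⟨⟨m, B, b⟩, ⟨hB, hm⟩, rfl⟩
      refine ⟨B, b, hB, fun x hx => ?_⟩
      rw [hπ2]
      have hxv : x ≠ -v := fun h => hc (h ▸ hx)
      split_ifs with h
      · rw [(cls_eq.1 h).resolve_right hxv]
      · have := hW x hx
        rw [kap_of_ne (fun h' => h (by rw [h'])) hxv] at this
        exact hm x this
    have e3 : ∀ t ∈ 𝒢, π2 t = 0 → π1 t = 0 := by
      intro t _ ht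
      have key : ∀ c, c ≠ cls v → t.1 c = 0 := by
        intro c hc
        have := congrFun ht c
        rw [hπ2, if_neg hc] at this
        exact this
      funext c
      rw [hπ1]
      split_ifs with h
      · exact key _ huv
      · exact key _ h
    have e4 := finrank_map_le_of_ker (A := Mot V d) (C := Mot V d × (E d →ₗ[ℝ] Du d) × Du d)
      𝒢 π1 π2 e3
    exact (Submodule.finrank_mono e1).trans (e4.trans (Submodule.finrank_mono e2))
  · apply Submodule.finrank_mono
    intro m hm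
    rw [mem_K0] at hm
    obtain ⟨B, b, hB, hm'⟩ := hK hm.1
    have hB0 : B = 0 := by
      apply hp.alt_zero hF hFc hB (if v ∈ F then v else -v)
      intro x hx hxy
      have hx1 : x ≠ v := by
        rintro rfl; simp [hx] at hxy
      have hx2 : x ≠ -v := by
        rintro rfl
        have : v ∉ F := fun h => hF v h hx
        simp [this] at hxy
      have a1 := hW x (hFW x hx).1
      have a2 := hW _ (hFW x hx).2
      rw [kap_neg] at a2
      rw [kap_of_ne hx1 hx2] at a1 a2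
      have b1 := hm' _ a1
      have b2 := hm' _ a2
      rw [cls_neg, hp.odd, map_neg, b1, add_left_inj] at b2
      have : (2 : ℝ) • B (p x) = 0 := by rw [two_smul]; nth_rewrite 1 [b2]; abel
      simpa using this
    refine ⟨0, b, fun w => by simp, fun x hx => ?_⟩
    rw [← mot_kap hm.2, hm' _ (hW x hx), hB0]
    simp

lemma gr_ctr {X : Finset (Finset V)} (hX : Good d X) (hc : Cyc X) {u v : V} (h1 : u ≠ v)
    (h2 : u ≠ -v) (a b : V) :
    gr (ctr u v X) a b ↔ a ≠ b ∧ ∃ x y, gr X x y ∧ kap u v x = a ∧ kap u v y = b := by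
  constructor
  · rintro ⟨F', hF', hab, h⟩
    obtain ⟨F, hF, rfl⟩ := mem_image.1 hF'
    refine ⟨hab, ?_⟩
    rcases h with h | h
    · obtain ⟨x, hx, rfl⟩ := mem_image.1 h.1
      obtain ⟨y, hy, rfl⟩ := mem_image.1 h.2
      exact ⟨x, y, ⟨F, (mem_nd.1 hF).1, fun h => hab (by rw [h]), Or.inl ⟨hx, hy⟩⟩, rfl, rfl⟩
    · obtain ⟨x, hx, ex⟩ := mem_image.1 h.1
      obtain ⟨y, hy, ey⟩ := mem_image.1 h.2
      refine ⟨-x, -y, ⟨F, (mem_nd.1 hF).1, ?_, Or.inr (by simp [hx, hy])⟩,
        by rw [kap_neg, ex, neg_neg], by rw [kap_neg, ey, neg_neg]⟩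
      intro h
      apply hab
      apply neg_injective
      rw [← ex, ← ey, neg_injective h]
  · have key : ∀ D ∈ X, ∀ x ∈ D, ∀ y ∈ D, kap u v x ≠ kap u v y →
        ∃ F' ∈ ctr u v X, kap u v x ∈ F' ∧ kap u v y ∈ F' := by
      intro D hD x hx y hy hne
      rcases pair_nd hX hc hD h1 hx hy with ⟨F, hF, h⟩ | h | h | h | h
      · exact ⟨_, mem_image_of_mem _ hF, mem_image_of_mem _ h.1, mem_image_of_mem _ h.2⟩
      all_goals
        exfalso; apply hne
        simp [h.1, h.2, kap_neg, kap_u h1 h2]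
    rintro ⟨hab, x, y, ⟨D, hD, -, h | h⟩, rfl, rfl⟩
    · obtain ⟨F', hF', h'⟩ := key D hD x h.1 y h.2 hab
      exact ⟨F', hF', hab, Or.inl h'⟩
    · obtain ⟨F', hF', h'⟩ := key D hD _ h.1 _ h.2 (by simpa [kap_neg] using hab)
      exact ⟨F', hF', hab, Or.inr (by simpa [kap_neg] using h')⟩

lemma kap_mem_vs_ctr {X : Finset (Finset V)} (hX : Good d X) (hc : Cyc X) {u v : V} (h1 : u ≠ v) :
    ∀ x ∈ vs X, kap u v x ∈ vs (ctr u v X) := by
  intro x hx
  rw [← vs_nd hX hc h1] at hx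
  obtain ⟨F, hF, hx⟩ := mem_vs.1 hx
  exact mem_vs.2 ⟨_, mem_image_of_mem _ hF, mem_image_of_mem _ hx⟩

omit [Fintype V] [FreeNeg V] in
lemma card_erase_erase {D : Finset V} {u v : V} (h : u ≠ v) (hu : u ∈ D) (hv : v ∈ D) :
    ((D.erase u).erase v).card + 2 = D.card := by
  rw [← card_erase_add_one hu, ← card_erase_add_one (mem_erase.2 ⟨h.symm, hv⟩)]

lemma exists_delta {p : V → E d} (hp : Generic p) (hd : 3 ≤ d) {X : Finset (Finset V)}
    (hX : Good d X) (hc : Cyc X) {u v : V} (h1 : u ≠ v) {D : Finset V} (hD : D ∈ X) (hu : u ∈ D)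
    (hv : v ∈ D) : ∃ δ : E d, ∀ φ : Du d,
      (∀ r, gr X u r → gr X v r → φ (p u - p r) = 0) → φ δ = 0 → φ = 0 := by
  have hcard := card_erase_erase h1 hu hv
  rw [hX.card D hD] at hcard
  obtain ⟨r, hr⟩ : ((D.erase u).erase v).Nonempty := card_pos.1 (by omega)
  simp only [mem_erase] at hr
  obtain ⟨z, hz, hD'⟩ := hc.other hD hr.2.2
  have huD' : u ∈ insert z (D.erase r) := mem_insert_of_mem (mem_erase.2 ⟨Ne.symm hr.2.1, hu⟩)
  have hvD' : v ∈ insert z (D.erase r) := mem_insert_of_mem (mem_erase.2 ⟨Ne.symm hr.1, hv⟩)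
  have hzu : u ≠ z := fun h => hz (h ▸ hu)
  have hzv : v ≠ z := fun h => hz (h ▸ hv)
  have key : ∀ φ : Du d, (∀ r, gr X u r → gr X v r → φ (p u - p r) = 0) →
      φ (p z) = φ (p u) ∧ ∀ x ∈ D, x ≠ v → φ (p x) = φ (p u) := by
    intro φ hφ
    refine ⟨?_, fun x hx hxv => ?_⟩
    · have := hφ z (clique_gr hD' _ huD' _ (mem_insert_self _ _) hzu)
        (clique_gr hD' _ hvD' _ (mem_insert_self _ _) hzv)
      rw [map_sub] at this; linarith
    · by_cases hxu : x = u
      · rw [hxu]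
      have := hφ x (clique_gr hD _ hu _ hx (Ne.symm hxu)) (clique_gr hD _ hv _ hx (Ne.symm hxv))
      rw [map_sub] at this; linarith
  by_cases hzr : z = -r
  · refine ⟨p v, fun φ hφ hδ => ?_⟩
    obtain ⟨k1, k2⟩ := key φ hφ
    have k3 := k2 r hr.2.2 hr.1
    rw [hzr, hp.odd, map_neg] at k1
    apply hp.gp1 D (hX.af D hD) (hX.card D hD)
    intro x hx
    by_cases hxv : x = v
    · rw [hxv, hδ]
    · rw [k2 x hx hxv]; linarith
  · refine ⟨p u, fun φ hφ hδ => ?_⟩
    obtain ⟨k1, k2⟩ := key φ hφ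
    apply hp.gp1 (insert z (D.erase v))
    · apply ((hX.af D hD).mono (erase_subset _ _)).insert
      intro h
      apply hX.af _ hD' z (mem_insert_self _ _)
      refine mem_insert_of_mem (mem_erase.2 ⟨?_, mem_of_mem_erase h⟩)
      intro h'; apply hzr; rw [← h', neg_neg]
    · rw [card_insert_of_notMem (fun h => hz (mem_of_mem_erase h)), card_erase_add_one hv,
        hX.card D hD]
    · intro x hx
      rcases mem_insert.1 hx with rfl | hx
      · rw [k1, hδ]
      · rw [k2 x (mem_of_mem_erase hx) (ne_of_mem_erase hx), hδ]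

/-- the dimension comparison in the lifting step -/
theorem lift_chain {p : V → E d} (hp : Generic p) (hd : 3 ≤ d) {X : Finset (Finset V)}
    (hX : Circ d X) {u v : V} (h1 : u ≠ v) (hD : ∃ D ∈ X, u ∈ D ∧ v ∈ D)
    (hc : -v ∉ vs X ∨ Big d (vs X)) (hK : K p (gr (ctr u v X)) ≤ Triv p (vs (ctr u v X))) :
    finrank ℝ (K p (gr X)) ≤ finrank ℝ (K0 p (gr (ctr u v X)) u v) ∧
      finrank ℝ (K0 p (gr (ctr u v X)) u v) ≤ finrank ℝ (Triv p (vs X)) := by
  obtain ⟨D, hD, hu, hv⟩ := hD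
  have h2 : u ≠ -v := fun h => hX.af D hD v hv (h ▸ hu)
  exact ⟨lift_dim hp (sg_gr hX.af) (clique_gr hD _ hu _ hv h1)
    (fun a b => (gr_ctr hX.toGood hX.cyc h1 h2 a b).1)
    (exists_delta hp hd hX.toGood hX.cyc h1 hD hu hv),
    K0_le_triv hp h1 h2 hK (kap_mem_vs_ctr hX.toGood hX.cyc h1) hc⟩

omit [Fintype V] in
lemma simplex_triv {p : V → E d} (hp : Generic p) {σ : Finset V} (hσ : AF σ)
    (hc : σ.card = d + 1) : K p (kq σ) ≤ Triv p σ := by
  intro m hm
  rw [mem_K] at hm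
  obtain ⟨x, hx⟩ : σ.Nonempty := card_pos.1 (by omega)
  have hQ : AF (σ.erase x) := hσ.mono (erase_subset _ _)
  have hQc : (σ.erase x).card = d := by rw [card_erase_of_mem hx]; omega
  obtain ⟨B, b, hB, hm'⟩ := hp.clique_triv hQ hQc (m := m) (fun a ha b hb hab =>
    hm a b (clique_kq σ a (mem_of_mem_erase ha) b (mem_of_mem_erase hb) hab))
  refine ⟨B, b, hB, fun y hy => ?_⟩
  by_cases hyx : y = x
  · subst hyx
    exact hp.extend hQ hQc hB hm' (notMem_erase _ _) (fun h => hσ y hy (mem_of_mem_erase h))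
      (fun q hq => hm y q (clique_kq σ y hy q (mem_of_mem_erase hq) (ne_of_mem_erase hq).symm))
  · exact hm' y (mem_erase.2 ⟨hyx, hy⟩)

theorem rigid {p : V → E d} (hp : Generic p) (hd : 3 ≤ d) :
    ∀ T, Circ d T → K p (gr T) ≤ Triv p (vs T) := by
  apply circuit_ind (P := fun G W => K p G ≤ Triv p W)
  · intro G W G' W' D hG _ h h' hc hDW hDW' hD _ m hm
    obtain ⟨B, b, hB, hm1⟩ := h (K_anti le_sup_left hm)
    obtain ⟨B', b', hB', hm2⟩ := h' (K_anti le_sup_right hm)
    obtain ⟨rfl, rfl⟩ := hp.uniq (hD.af hG) hc hB hB'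
      (fun x hx => (hm1 x (hDW hx)).symm.trans (hm2 x (hDW' hx)))
    exact ⟨B, b, hB, fun x hx => (mem_union.1 hx).elim (hm1 x) (hm2 x)⟩
  · intro T hT hdbl m hm
    rw [mem_K] at hm
    have hconst : ∀ F ∈ T, ∀ x ∈ F, ∀ y ∈ F, m (cls x) = m (cls y) := by
      intro F hF
      apply hp.dbl_const (hT.af F hF) (hT.card F hF)
      intro x hx y hy hxy
      exact ⟨hm _ _ (clique_gr hF x hx y hy hxy), hm _ _ (hdbl _ _ (clique_gr hF x hx y hy hxy))⟩
    obtain ⟨F0, hF0⟩ := hT.nonempty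
    obtain ⟨x0, hx0⟩ : F0.Nonempty := card_pos.1 (by rw [hT.card F0 hF0]; omega)
    have := hT.conn (fun F => ∀ x ∈ F, m (cls x) = m (cls x0))
      ⟨F0, hF0, fun x hx => hconst F0 hF0 x hx x0 hx0⟩ (by
        intro R z z' hz _ h1 h2 h3 x hx
        have hc := hT.card _ h1
        rw [card_insert_of_notMem hz] at hc
        obtain ⟨r, hr⟩ : R.Nonempty := card_pos.1 (by omega)
        rw [hconst _ h2 x hx r (mem_insert_of_mem hr), h3 r (mem_insert_of_mem hr)])
    refine ⟨0, m (cls x0), fun w => by simp, fun x hx => ?_⟩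
    obtain ⟨F, hF, hx⟩ := mem_vs.1 hx
    simp [this F hF x hx]
  · intro σ hσ hc
    exact simplex_triv hp hσ hc
  · intro X u v hX h1 hD _ _ hc hK
    have := lift_chain hp hd hX h1 hD hc hK
    exact (Submodule.eq_of_le_of_finrank_le (triv_le_K hp.odd (gr_le_kq_vs X))
      (this.1.trans this.2)).ge

end Pool.Agent.MP_d539bc_co
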