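import Pool.Agent.MP_d539bc_co.Built

/-! Vertex splitting for built graphs; unstacking of circuits. -/

namespace Pool.Agent.MP_d539bc_co

open Finset
open scoped Pointwise

variable {V : Type} [Fintype V] [DecidableEq V] [FreeNeg V] {d : ℕ}

omit [Fintype V] in
lemma Split.easy {G : V → V → Prop} {u v : V} {R : Finset V} (h : Split d G u v R) {f : Bool}
    (hb : Built d f (contr G u v)) : Built d f G ∨
      ∃ a b, (G u a ∧ a ∉ R ∧ a ≠ v) ∧ (G v b ∧ b ∉ R ∧ b ≠ u) := by
  by_cases hB : ∀ b, G v b → b ∈ R ∨ b = u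
  · exact Or.inl (h.direct hB hb)
  by_cases hA : ∀ a, G u a → a ∈ R ∨ a = v
  · exact Or.inl (h.symm.direct hA (contr_swap (h.sg.ne h.adj) (h.sg.ne_neg h.adj) hb))
  push Not at hA hB
  obtain ⟨a, ha⟩ := hA
  obtain ⟨b, hb⟩ := hB
  exact Or.inr ⟨a, b, ha, hb⟩

omit [Fintype V] in
lemma Split.nonadj {G : V → V → Prop} {u v : V} {R : Finset V} (h : Split d G u v R) {a b : V}
    (ha : G u a ∧ a ∉ R ∧ a ≠ v) (hb : G v b ∧ b ∉ R ∧ b ≠ u) : a ≠ b ∧ ¬ contr G u v a b := by
  refine ⟨fun e => ha.2.1 ((h.mem a).2 ⟨ha.1, e ▸ hb.1⟩), fun hc => ?_⟩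
  have h1 := h.kap_nbr (Or.inl ⟨ha.1, ha.2.2⟩)
  have h2 := h.kap_nbr (Or.inr ⟨hb.1, hb.2.2⟩)
  exact h.sep a b ha.1 hb.1 ha.2.1 hb.2.1 ha.2.2 hb.2.2
    (adj_of_contr hc h1.2.2.1 h1.2.2.2 h2.2.2.1 h2.2.2.2)

def del (G : V → V → Prop) (x a b : V) : Prop := G a b ∧ a ≠ x ∧ a ≠ -x ∧ b ≠ x ∧ b ≠ -x

omit [Fintype V] [DecidableEq V] in
lemma SG.del {G : V → V → Prop} (hG : SG G) (x : V) : SG (del G x) where
  symm := fun ⟨h, h1, h2, h3, h4⟩ => ⟨hG.symm h, h3, h4, h1, h2⟩
  neg := fun ⟨h, h1, h2, h3, h4⟩ => ⟨hG.neg h, fun e => h2 (by rw [← e, neg_neg]), by simpa using h1,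
    fun e => h4 (by rw [← e, neg_neg]), by simpa using h3⟩
  ne := fun h => hG.ne h.1
  ne_neg := fun h => hG.ne_neg h.1

omit [Fintype V] in
lemma eq_del_sup {G : V → V → Prop} (hG : SG G) {x : V} {Q : Finset V}
    (hQ : ∀ y, y ∈ Q ↔ G x y) (hc : Clique G Q) : G = del G x ⊔ kq (insert x Q) := by
  have hcl : Clique G (insert x Q) := by
    intro a ha b hb hab
    rcases mem_insert.1 ha with ha' | ha' <;> rcases mem_insert.1 hb with hb' | hb'
    · exact absurd (ha'.trans hb'.symm) hab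
    · rw [ha']; exact (hQ b).1 hb'
    · rw [hb']; exact hG.symm ((hQ a).1 ha')
    · exact hc a ha' b hb' hab
  have hk := sg_kq (hcl.af hG)
  have key : ∀ y, G x y → kq (insert x Q) x y := fun y hy =>
    ⟨hG.ne hy, Or.inl ⟨mem_insert_self _ _, mem_insert_of_mem ((hQ y).2 hy)⟩⟩
  apply le_antisymm
  · intro a b hab
    by_cases c1 : a = x
    · subst c1; exact Or.inr (key b hab)
    by_cases c2 : a = -x
    · subst c2; exact Or.inr (hk.neg_right (key _ (hG.neg_left hab)))
    by_cases c3 : b = x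
    · subst c3; exact Or.inr (hk.symm (key a (hG.symm hab)))
    by_cases c4 : b = -x
    · subst c4
      exact Or.inr (hk.symm (hk.neg_right (key _ (hG.neg_left (hG.symm hab)))))
    exact Or.inl ⟨hab, c1, c2, c3, c4⟩
  · exact sup_le (fun _ _ h => h.1) (kq_le_of_clique hG hcl)

theorem Built.split (hd : 3 ≤ d) {f : Bool} {G' : V → V → Prop} (hb : Built d f G') {u v : V}
    {R : Finset V} : ∀ G, Split d G u v R → G' = contr G u v → Built d f G := by
  induction hb with
  | baseA Q hQ hc =>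
    intro G h e
    rcases h.easy (e ▸ Built.baseA Q hQ hc) with h' | ⟨a, b, ha, hb⟩
    · exact h'
    exfalso
    have h1 := (h.kap_nbr (Or.inl ⟨ha.1, ha.2.2⟩)).2.1
    have h2 := (h.kap_nbr (Or.inr ⟨hb.1, hb.2.2⟩)).2.1
    have h3 := h.nonadj ha hb
    rw [← e] at h1 h2 h3
    exact h3.2 (kq_nbr hQ h1 h2 h3.1)
  | baseB Q hQ hc =>
    intro G h e
    rcases h.easy (e ▸ Built.baseB Q hQ hc) with h' | ⟨a, b, ha, hb⟩
    · exact h'
    exfalso
    have h1 := (h.kap_nbr (Or.inl ⟨ha.1, ha.2.2⟩)).2.1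
    have h2 := (h.kap_nbr (Or.inr ⟨hb.1, hb.2.2⟩)).2.1
    have h3 := h.nonadj ha hb
    rw [← e] at h1 h2 h3
    have hab : a = -b := by
      by_contra hne
      exact h3.2 ⟨h3.1, hne, h1.2.2.2, h2.2.2.2⟩
    have hR : ∀ r ∈ R, oct Q u r := by
      intro r hr
      have := (h.mem r).1 hr
      rw [e]
      exact (h.kap_nbr (Or.inl ⟨this.1, (h.sg.ne this.2).symm⟩)).2.1
    have huR : u ∉ insert a R := by
      intro hu
      rcases mem_insert.1 hu with e' | e'
      · exact h1.1 e'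
      · exact (hR u e').1 rfl
    have := card_le_of_pm (S := insert u (insert a R)) (Q := Q) (by
      apply AF.insert
      · apply (h.clique.af h.sg).insert
        rw [hab, neg_neg]; exact hb.2.1
      · intro hu
        rcases mem_insert.1 hu with e' | e'
        · exact h1.2.1 (by rw [← e', neg_neg])
        · exact (hR _ e').2.1 (by simp)) (by
      intro x hx
      rcases mem_insert.1 hx with rfl | hx
      · exact h1.2.2.1
      rcases mem_insert.1 hx with rfl | hx
      · exact h1.2.2.2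
      · exact (hR x hx).2.2.2)
    rw [card_insert_of_notMem huR, card_insert_of_notMem ha.2.1] at this
    have := h.card
    omega
  | add f G0 Q x hb0 hS ih =>
    classical
    intro G h e
    rcases h.easy (e ▸ Built.add f G0 Q x hb0 hS) with h' | ⟨a0, b0, ha0, hb0'⟩
    · exact h'
    obtain ⟨Q, x, hS, e', hu⟩ := hS.wlog u
    rw [e'] at e
    have h1 := h.sg.ne h.adj
    have h2 := h.sg.ne_neg h.adj
    have hsg := hS.sg'
    have hnx : ¬ contr G u v u (-x) := fun h' => by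
      rw [← e] at h'
      exact hu (mem_insert_of_mem (hS.nbr.1 (hsg.symm (hsg.neg_right h'))))
    have hux' : u ≠ -x := by rintro rfl; exact hu (by simp)
    have hxu' : x ≠ -u := fun e => hux' (by rw [e, neg_neg])
    have hA : ∀ a, (G u a ∧ a ∉ R ∧ a ≠ v) → contr G u v u a := fun a ha =>
      (h.kap_nbr (Or.inl ⟨ha.1, ha.2.2⟩)).2.1
    have hB : ∀ b, (G v b ∧ b ∉ R ∧ b ≠ u) → contr G u v u b := fun b hb =>
      (h.kap_nbr (Or.inr ⟨hb.1, hb.2.2⟩)).2.1
    have hux : u ≠ x := by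
      rintro rfl
      have h3 := h.nonadj ha0 hb0'
      apply h3.2
      rw [← e]
      exact Or.inl (hS.clique a0 (hS.nbr.1 (e ▸ hA a0 ha0)) b0 (hS.nbr.1 (e ▸ hB b0 hb0')) h3.1)
    obtain ⟨q0, hq0⟩ : Q.Nonempty := card_pos.1 (by rw [hS.card]; omega)
    have hxv := contr_ne h1 h2 (e ▸ hS.nbr.2 hq0 : contr G u v x q0)
    have hkx : kap u v x = x := kap_of_ne hxv.1 hxv.2.1
    have hkx1 : ∀ y, kap u v y = x → y = x := fun y hy => eq_of_kap_eq hy hux.symm hxu'
    have hkx2 : ∀ y, kap u v y = -x → y = -x := fun y hy =>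
      eq_of_kap_eq hy hux'.symm (by simpa using hux.symm)
    by_cases hxR : x ∈ R
    · exfalso
      refine hb0.conn hd u (fun a => G u a ∧ a ∉ R ∧ a ≠ v) (fun b => G v b ∧ b ∉ R ∧ b ≠ u)
        (R.erase x) ?_ ?_ ?_ ?_ ?_ a0 b0 ha0 hb0'
      · have := h.card
        have := card_erase_add_one hxR
        omega
      · intro y hy
        have h3 := h.nbr_of_contr (e ▸ Or.inl hy : contr G u v u y)
        have h4 := (hS.ne_of_adj hy).2.2.1
        by_cases hyR : y ∈ R
        · exact Or.inr (Or.inr (mem_erase.2 ⟨h4, hyR⟩))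
        · tauto
      · intro a ha
        exact hS.old (e ▸ hA a ha) hux hux' (fun e => ha.2.1 (e ▸ hxR))
          (fun e => hnx (e ▸ hA a ha))
      · intro b hb
        exact hS.old (e ▸ hB b hb) hux hux' (fun e => hb.2.1 (e ▸ hxR))
          (fun e => hnx (e ▸ hB b hb))
      · intro a b ha hb
        have h3 := h.nonadj ha hb
        exact ⟨h3.1, fun h' => h3.2 (e ▸ Or.inl h')⟩
    have hRx : ∀ r ∈ R, r ≠ x ∧ r ≠ -x := by
      intro r hr
      have := (h.mem r).1 hr
      exact ⟨fun e => hxR (e ▸ hr), fun e => hnx (e ▸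
        (h.kap_nbr (Or.inl ⟨this.1, (h.sg.ne this.2).symm⟩)).2.1)⟩
    have hvx' : v ≠ -x := fun e => hxv.2.1 (by rw [e, neg_neg])
    have hS0 : Split d (del G x) u v R :=
      { sg := h.sg.del x
        adj := ⟨h.adj, hux, hux', hxv.1.symm, hvx'⟩
        nadj := fun h' => h.nadj h'.1
        mem := fun r => ⟨fun hr => ⟨⟨((h.mem r).1 hr).1, hux, hux', hRx r hr⟩,
          ⟨((h.mem r).1 hr).2, hxv.1.symm, hvx', hRx r hr⟩⟩, fun hr => (h.mem r).2 ⟨hr.1.1, hr.2.1⟩⟩
        card := h.card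
        clique := fun a ha b hb hab =>
          ⟨h.clique a ha b hb hab, (hRx a ha).1, (hRx a ha).2, hRx b hb⟩
        sep := fun a b ha hb c1 c2 c3 c4 c5 => h.sep a b ha.1 hb.1 c1 c2 c3 c4 c5.1 }
    have e0 : G0 = contr (del G x) u v := by
      apply le_antisymm
      · intro a b hab
        obtain ⟨hne, a', b', hab', rfl, rfl⟩ := (e ▸ Or.inl hab : contr G u v a b)
        have := hS.ne_of_adj hab
        refine ⟨hne, a', b', ⟨hab', ?_, ?_, ?_, ?_⟩, rfl, rfl⟩ <;> rintro rfl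
        · exact this.1 hkx
        · exact this.2.1 (by rw [kap_neg, hkx])
        · exact this.2.2.1 hkx
        · exact this.2.2.2 (by rw [kap_neg, hkx])
      · rintro _ _ ⟨hne, a, b, hab, rfl, rfl⟩
        exact hS.old (e ▸ contr_of_adj hab.1 hne) (fun e => hab.2.1 (hkx1 _ e))
          (fun e => hab.2.2.1 (hkx2 _ e)) (fun e => hab.2.2.2.1 (hkx1 _ e))
          (fun e => hab.2.2.2.2 (hkx2 _ e))
    have hb1 := ih _ hS0 e0
    let N : Finset V := univ.filter (fun y => G x y)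
    have hN : ∀ y, y ∈ N ↔ G x y := fun y => by simp [N]
    have hNQ : ∀ y, G x y → kap u v y ∈ Q := by
      intro y hy
      apply hS.nbr.1
      rw [e]
      exact ⟨fun e => h.sg.ne hy (hkx1 y e.symm).symm, x, y, hy, hkx, rfl⟩
    have hinj : ∀ y y', G x y → G x y' → kap u v y = kap u v y' → y = y' := by
      intro y y' hy hy' hk
      by_cases c : kap u v y = u
      · have hnot : ¬ (G x u ∧ G x v) := fun h' =>
          hxR ((h.mem x).2 ⟨h.sg.symm h'.1, h.sg.symm h'.2⟩)
        rcases kap_eq_u c with rfl | rfl <;> rcases kap_eq_u (hk ▸ c : kap _ _ y' = _) with rfl | rfl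
        · rfl
        · exact absurd ⟨hy, hy'⟩ hnot
        · exact absurd ⟨hy', hy⟩ hnot
        · rfl
      have c' : kap u v y ≠ -u := fun e => hu (mem_insert_of_mem (e ▸ hNQ y hy))
      exact (eq_of_kap_eq rfl c c').trans (eq_of_kap_eq hk.symm c c').symm
    have hNc : N.card = d := by
      rw [← hS.card]
      apply card_bij (fun y _ => kap u v y)
      · intro y hy; exact hNQ y ((hN y).1 hy)
      · intro y hy y' hy'; exact hinj y y' ((hN y).1 hy) ((hN y').1 hy')
      · intro q hq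
        obtain ⟨-, x', y, hy, hx', rfl⟩ := (e ▸ hS.nbr.2 hq : contr G u v x q)
        rw [hkx1 x' hx'] at hy
        exact ⟨y, (hN y).2 hy, rfl⟩
    have hcl0 : ∀ y y', G x y → G x y' → y ≠ y' → kap u v y' ≠ u → G y y' := by
      intro y y' hy hy' hne c
      have c' : kap u v y' ≠ -u := fun e => hu (mem_insert_of_mem (e ▸ hNQ y' hy'))
      have hc : contr G u v (kap u v y) (kap u v y') := by
        rw [← e]
        exact Or.inl (hS.clique _ (hNQ y hy) _ (hNQ y' hy') (fun e => hne (hinj y y' hy hy' e)))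
      have ey' : kap u v y' = y' := (eq_of_kap_eq rfl c c').symm
      rw [ey'] at c c'
      by_cases c2 : kap u v y = u
      · rw [c2, ey'] at hc
        by_contra hcon
        rcases kap_eq_u c2 with rfl | rfl
        · rcases h.nbr_of_contr hc with h3 | h3
          · exact hcon h3.1
          · exact h.sep x y' (h.sg.symm hy) h3.1 hxR (fun e => hcon ((h.mem _).1 e).1) hxv.1 c hy'
        · rcases h.nbr_of_contr hc with h3 | h3
          · exact h.sep y' x h3.1 (h.sg.symm hy) (fun e => hcon ((h.mem _).1 e).2) hxR h3.2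
              hux.symm (h.sg.symm hy')
          · exact hcon h3.1
      have c2' : kap u v y ≠ -u := fun e => hu (mem_insert_of_mem (e ▸ hNQ y hy))
      have ey : kap u v y = y := (eq_of_kap_eq rfl c2 c2').symm
      rw [ey] at c2 c2'
      rw [ey, ey'] at hc
      exact adj_of_contr hc c2 c2' c c'
    have hcl : Clique G N := by
      intro y hy y' hy' hne
      rw [hN] at hy hy'
      by_cases c : kap u v y' = u
      · exact h.sg.symm (hcl0 y' y hy' hy hne.symm
          (fun c' => hne (hinj y y' hy hy' (c'.trans c.symm))))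
      · exact hcl0 y y' hy hy' hne c
    have hNx : ∀ y ∈ N, y ≠ x ∧ y ≠ -x := fun y hy =>
      ⟨(h.sg.ne ((hN y).1 hy)).symm, fun e => h.sg.ne_neg ((hN y).1 hy) (by rw [e, neg_neg])⟩
    rw [eq_del_sup h.sg hN hcl]
    exact Built.add _ _ _ _ hb1 ⟨hS0.sg, hNc,
      fun a ha b hb hab => ⟨hcl a ha b hb hab, (hNx a ha).1, (hNx a ha).2, hNx b hb⟩,
      fun y hy => hy.2.1 rfl, fun hx => (hNx x hx).1 rfl, fun hx => (hNx _ hx).2 rfl⟩

end Pool.Agent.MP_d539bc_co
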