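import Pool.Agent.MP_d539bc_co.Unstack
import Pool.Agent.MP_d539bc_co.Count

/-! Combinatorics of symmetric stacking. -/

namespace Pool.Agent.MP_d539bc_co

open Finset
open scoped Pointwise

variable {V : Type} [Fintype V] [DecidableEq V] [FreeNeg V] {d : ℕ}

lemma mem_crossF {Q F : Finset V} :
    F ∈ crossF d Q ↔ F.card = d ∧ AF F ∧ ∀ x ∈ F, x ∈ Q ∨ -x ∈ Q := by simp [crossF]

omit [Fintype V] in
lemma mem_stackF {T : Finset (Finset V)} {Q F : Finset V} {x : V} :
    F ∈ stackF T Q x ↔ (F ∈ T ∧ F ≠ Q ∧ F ≠ -Q) ∨ (∃ q ∈ Q, F = (insert x Q).erase q) ∨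
      (∃ q ∈ -Q, F = (insert (-x) (-Q)).erase q) := by
  simp only [stackF, mem_union, mem_erase, mem_image, or_assoc, eq_comm (a := F)]
  exact or_congr_left (by tauto)

lemma exists_cross {Q S : Finset V} (hQ : AF Q) (hc : Q.card = d) (hS : AF S)
    (h : ∀ x ∈ S, x ∈ Q ∨ -x ∈ Q) : ∃ F ∈ crossF d Q, S ⊆ F := by
  refine ⟨Q.image (fun q => if -q ∈ S then -q else q), mem_crossF.2 ⟨?_, ?_, ?_⟩, ?_⟩
  · rw [card_image_of_injOn, hc]
    intro a ha b hb hab
    simp only at hab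
    split_ifs at hab
    · exact neg_injective hab
    · exact absurd (show -a ∈ Q from hab ▸ hb) (hQ a ha)
    · exact absurd (show -b ∈ Q from hab ▸ ha) (hQ b hb)
    · exact hab
  · intro y hy hy'
    obtain ⟨a, ha, e1⟩ := mem_image.1 hy
    obtain ⟨b, hb, e2⟩ := mem_image.1 hy'
    split_ifs at e1 e2 with h1 h2 h2
    · subst e1; exact hQ a ha (by rw [← neg_injective e2]; exact hb)
    · subst e1; rw [neg_neg] at e2; subst e2; exact h2 h1
    · subst e1; rw [neg_injective e2] at h2; exact h1 h2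
    · subst e1; exact hQ a ha (e2 ▸ hb)
  · intro y hy
    obtain ⟨a, ha, rfl⟩ := mem_image.1 hy
    split_ifs
    · right; simpa
    · left; exact ha
  · intro y hy
    rcases h y hy with h1 | h1
    · exact mem_image.2 ⟨y, h1, by simp [hS y hy]⟩
    · exact mem_image.2 ⟨-y, h1, by simp [hy]⟩

lemma vs_crossF {Q : Finset V} (hQ : AF Q) (hc : Q.card = d) : vs (crossF d Q) = Q ∪ -Q := by
  ext x
  rw [mem_vs, mem_union, Finset.mem_neg']
  constructor
  · rintro ⟨F, hF, hx⟩; exact (mem_crossF.1 hF).2.2 x hx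
  · intro h
    obtain ⟨F, hF, hs⟩ := exists_cross hQ hc (S := {x})
      (by intro y hy; simp only [mem_singleton] at hy ⊢; subst hy; exact neg_ne' _) (by simpa)
    exact ⟨F, hF, hs (by simp)⟩

lemma gr_crossF {Q : Finset V} (hQ : AF Q) (hc : Q.card = d) : gr (crossF d Q) = oct Q := by
  apply le_antisymm
  · rintro a b ⟨F, hF, h⟩
    rw [mem_crossF] at hF
    refine kq_le_of_clique (sg_oct Q) (fun x hx y hy hxy => ?_) a b h
    exact ⟨hxy, fun e => hF.2.1 y hy (e ▸ hx), hF.2.2 x hx, hF.2.2 y hy⟩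
  · intro a b hab
    obtain ⟨F, hF, hs⟩ := exists_cross hQ hc (af_pair hab.2.1) (by
      intro x hx
      rcases mem_insert.1 hx with rfl | hx
      · exact hab.2.2.1
      · rw [mem_singleton.1 hx]; exact hab.2.2.2)
    exact clique_gr hF a (hs (by simp)) b (hs (by simp)) hab.1

omit [Fintype V] in
lemma card_pm {Q : Finset V} (hQ : AF Q) : (Q ∪ -Q).card = 2 * Q.card := by
  rw [card_union_of_disjoint (disjoint_left.2 (fun y hy hy' => hQ y hy (Finset.mem_neg'.1 hy'))),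
    card_neg, two_mul]

lemma ec_oct {Q : Finset V} (hQ : AF Q) (hc : Q.card = d) : ec (oct Q) + 4 * d = 2 * d * (2 * d) := by
  classical
  have hW := card_pm hQ
  rw [hc] at hW
  have h1 : ec (oct Q) = ∑ a ∈ Q ∪ -Q, (((Q ∪ -Q).erase a).erase (-a)).card := by
    rw [ec, card_eq_sum_card_fiberwise (f := Prod.fst) (t := Q ∪ -Q)]
    · apply sum_congr rfl
      intro a ha
      apply card_bij (fun e _ => e.2)
      · rintro ⟨x, y⟩ h
        simp only [mem_filter, mem_univ, true_and] at h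
        obtain ⟨h, rfl⟩ := h
        simp only [mem_erase, mem_union, Finset.mem_neg']
        exact ⟨fun e => h.2.1 (by rw [e, neg_neg]), h.1.symm, h.2.2.2⟩
      · rintro ⟨x, y⟩ h ⟨x', y'⟩ h' e
        simp only [mem_filter] at h h'
        exact Prod.ext (h.2.trans h'.2.symm) e
      · intro y hy
        simp only [mem_erase, mem_union, Finset.mem_neg'] at hy ha
        exact ⟨(a, y), by
          simp only [mem_filter, mem_univ, true_and, and_true]
          exact ⟨hy.2.1.symm, fun e => hy.1 (by rw [e, neg_neg]), ha, hy.2.2⟩, rfl⟩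
    · rintro ⟨x, y⟩ h
      simp only [coe_filter, mem_univ, true_and, Set.mem_ofPred_eq] at h
      simpa [Finset.mem_neg'] using h.2.2.1
  have h2 : ∀ a ∈ Q ∪ -Q, (((Q ∪ -Q).erase a).erase (-a)).card + 2 = 2 * d := by
    intro a ha
    rw [card_erase_erase (ne_neg' a) ha (by simpa [Finset.mem_neg', or_comm] using ha), hW]
  have h3 := sum_congr rfl h2
  rw [sum_add_distrib, ← h1] at h3
  simp only [sum_const, hW, smul_eq_mul] at h3
  omega

/-- combinatorial invariants of symmetric stacking -/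
structure Comb (d : ℕ) (T : Finset (Finset V)) : Prop extends Good d T where
  sym : ∀ F ∈ T, -F ∈ T
  ridge : ∀ F ∈ T, ∀ q ∈ F, ∃ G ∈ T, G ≠ F ∧ F.erase q ⊆ G

lemma comb_cross (Q : Finset V) : Comb d (crossF d Q) where
  card := fun _ hF => (mem_crossF.1 hF).1
  af := fun _ hF => (mem_crossF.1 hF).2.1
  sym := fun F hF => by
    rw [mem_crossF] at hF ⊢
    exact ⟨by rw [card_neg, hF.1], hF.2.1.neg, fun x hx => by
      simpa [or_comm] using hF.2.2 _ (Finset.mem_neg'.1 hx)⟩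
  ridge := fun F hF q hq => by
    rw [mem_crossF] at hF
    have h1 : -q ∉ F := hF.2.1 q hq
    refine ⟨insert (-q) (F.erase q), mem_crossF.2 ⟨?_, ?_, ?_⟩,
      fun e => h1 (e ▸ mem_insert_self _ _), subset_insert _ _⟩
    · rw [card_insert_of_notMem (fun h => h1 (mem_of_mem_erase h)), card_erase_add_one hq, hF.1]
    · exact (hF.2.1.mono (erase_subset _ _)).insert (by simp)
    · intro x hx
      rcases mem_insert.1 hx with rfl | hx
      · simpa [or_comm] using hF.2.2 q hq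
      · exact hF.2.2 x (mem_of_mem_erase hx)

omit [Fintype V] in
lemma neg_erase_insert (Q : Finset V) (x q : V) :
    -((insert x Q).erase q) = (insert (-x) (-Q)).erase (-q) := by
  ext y; simp [Finset.mem_neg', neg_eq_iff_eq_neg]

omit [Fintype V] in
lemma stackF_neg (T : Finset (Finset V)) (Q : Finset V) (x : V) :
    stackF T (-Q) (-x) = stackF T Q x := by
  ext F; simp only [mem_stackF, negneg_finset, neg_neg]
  exact or_congr (by tauto) or_comm

omit [Fintype V] in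
lemma comb_stack (hd : 2 ≤ d) {T : Finset (Finset V)} (h : Comb d T) {Q : Finset V} {x : V}
    (hQ : Q ∈ T) (hx : ∀ F ∈ T, x ∉ F ∧ -x ∉ F) : Comb d (stackF T Q x) := by
  have half : ∀ (Q : Finset V) (x : V), Q ∈ T → (∀ F ∈ T, x ∉ F ∧ -x ∉ F) → ∀ r ∈ Q,
      ((insert x Q).erase r).card = d ∧ AF ((insert x Q).erase r) ∧
      ∀ q ∈ (insert x Q).erase r, ∃ G ∈ stackF T Q x, G ≠ (insert x Q).erase r ∧
        ((insert x Q).erase r).erase q ⊆ G := by
    intro Q x hQ hx r hr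
    have hxQ := (hx Q hQ).1
    refine ⟨?_, ((h.af Q hQ).insert (hx Q hQ).2).mono (erase_subset _ _), fun q hq => ?_⟩
    · rw [card_erase_of_mem (mem_insert_of_mem hr), card_insert_of_notMem hxQ, h.card Q hQ]; rfl
    by_cases hqx : q = x
    · obtain ⟨G, hG, hGQ, hs⟩ := h.ridge Q hQ r hr
      refine ⟨G, mem_stackF.2 (Or.inl ⟨hG, hGQ, ?_⟩), fun e => (hx G hG).1 (e ▸ hqx ▸ hq), ?_⟩
      · rintro rfl
        obtain ⟨y, hy⟩ : (Q.erase r).Nonempty :=
          card_pos.1 (by rw [card_erase_of_mem hr, h.card Q hQ]; omega)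
        exact h.af Q hQ y (mem_of_mem_erase hy) (Finset.mem_neg'.1 (hs hy))
      · rw [hqx, erase_right_comm, erase_insert hxQ]; exact hs
    · have hq' := mem_erase.1 hq
      refine ⟨(insert x Q).erase q,
        mem_stackF.2 (Or.inr (Or.inl ⟨q, (mem_insert.1 hq'.2).resolve_left hqx, rfl⟩)),
        fun e => notMem_erase q (insert x Q) (e ▸ hq), ?_⟩
      rw [erase_right_comm]; exact erase_subset _ _
  have hx' : ∀ F ∈ T, -x ∉ F ∧ - -x ∉ F := fun F hF => by simp [(hx F hF).1, (hx F hF).2]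
  have old : ∀ (Q : Finset V) (x : V), Q ∈ T → (∀ F ∈ T, x ∉ F ∧ -x ∉ F) → ∀ F ∈ T, ∀ q ∈ F,
      F.erase q ⊆ Q → ∃ G ∈ stackF T Q x, G ≠ F ∧ F.erase q ⊆ G := by
    intro Q x hQ hx F hF q hq hs
    obtain ⟨r, hr, e⟩ := eq_erase_of_subset hs
      (by rw [card_erase_add_one hq, h.card Q hQ, h.card F hF])
    refine ⟨(insert x Q).erase r, mem_stackF.2 (Or.inr (Or.inl ⟨r, hr, rfl⟩)), fun e' => ?_, ?_⟩
    · exact (hx F hF).1 (e' ▸ mem_erase.2 ⟨fun e => (hx Q hQ).1 (e ▸ hr), mem_insert_self _ _⟩)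
    · rw [e]; exact erase_subset_erase _ (subset_insert _ _)
  refine ⟨⟨fun F hF => ?_, fun F hF => ?_⟩, fun F hF => ?_, fun F hF q hq => ?_⟩
  · rcases mem_stackF.1 hF with h1 | ⟨r, hr, rfl⟩ | ⟨r, hr, rfl⟩
    · exact h.card F h1.1
    · exact (half Q x hQ hx r hr).1
    · exact (half _ _ (h.sym Q hQ) hx' r hr).1
  · rcases mem_stackF.1 hF with h1 | ⟨r, hr, rfl⟩ | ⟨r, hr, rfl⟩
    · exact h.af F h1.1
    · exact (half Q x hQ hx r hr).2.1
    · exact (half _ _ (h.sym Q hQ) hx' r hr).2.1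
  · rw [mem_stackF]
    rcases mem_stackF.1 hF with h1 | ⟨r, hr, rfl⟩ | ⟨r, hr, rfl⟩
    · exact Or.inl ⟨h.sym F h1.1, fun e => h1.2.2 (by rw [← e, negneg_finset]),
        fun e => h1.2.1 (by rw [← negneg_finset F, e, negneg_finset])⟩
    · exact Or.inr (Or.inr ⟨-r, by simpa [Finset.mem_neg'], neg_erase_insert _ _ _⟩)
    · exact Or.inr (Or.inl ⟨-r, Finset.mem_neg'.1 hr,
        by rw [neg_erase_insert, neg_neg, negneg_finset]⟩)
  · rcases mem_stackF.1 hF with h1 | ⟨r, hr, rfl⟩ | ⟨r, hr, rfl⟩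
    · obtain ⟨G, hG, hGF, hs⟩ := h.ridge F h1.1 q hq
      by_cases c1 : G = Q
      · exact old Q x hQ hx F h1.1 q hq (c1 ▸ hs)
      by_cases c2 : G = -Q
      · rw [← stackF_neg]
        exact old _ _ (h.sym Q hQ) hx' F h1.1 q hq (c2 ▸ hs)
      exact ⟨G, mem_stackF.2 (Or.inl ⟨hG, c1, c2⟩), hGF, hs⟩
    · exact (half Q x hQ hx r hr).2.2 q hq
    · rw [← stackF_neg]
      exact (half _ _ (h.sym Q hQ) hx' r hr).2.2 q hq

omit [Fintype V] in
lemma pair_stack (hd : 3 ≤ d) (T : Finset (Finset V)) {Q : Finset V} (hc : Q.card = d) (x : V)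
    {a b : V} (ha : a ∈ insert x Q) (hb : b ∈ insert x Q) :
    ∃ F ∈ stackF T Q x, a ∈ F ∧ b ∈ F := by
  obtain ⟨q, hq, hq'⟩ : ∃ q ∈ Q, q ∉ ({a, b} : Finset V) := by
    apply exists_mem_notMem_of_card_lt_card
    have : ({a, b} : Finset V).card ≤ 2 := card_le_two
    omega
  simp only [mem_insert, mem_singleton, not_or] at hq'
  exact ⟨_, mem_stackF.2 (Or.inr (Or.inl ⟨q, hq, rfl⟩)), mem_erase.2 ⟨Ne.symm hq'.1, ha⟩,
    mem_erase.2 ⟨Ne.symm hq'.2, hb⟩⟩

omit [Fintype V] in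
lemma pair_stack' (hd : 3 ≤ d) {T : Finset (Finset V)} {Q : Finset V} (hc : Q.card = d) (x : V)
    {F : Finset V} (hF : F ∈ T) {a b : V} (ha : a ∈ F) (hb : b ∈ F) :
    ∃ F ∈ stackF T Q x, a ∈ F ∧ b ∈ F := by
  by_cases c1 : F = Q
  · exact pair_stack hd T hc x (mem_insert_of_mem (c1 ▸ ha)) (mem_insert_of_mem (c1 ▸ hb))
  by_cases c2 : F = -Q
  · rw [← stackF_neg]
    exact pair_stack hd T (by rw [card_neg, hc]) _ (mem_insert_of_mem (c2 ▸ ha))
      (mem_insert_of_mem (c2 ▸ hb))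
  exact ⟨F, mem_stackF.2 (Or.inl ⟨hF, c1, c2⟩), ha, hb⟩

omit [Fintype V] in
lemma vs_stackF (hd : 3 ≤ d) {T : Finset (Finset V)} (h : Comb d T) {Q : Finset V} (x : V)
    (hQ : Q ∈ T) : vs (stackF T Q x) = insert x (insert (-x) (vs T)) := by
  ext y
  simp only [mem_insert]
  constructor
  · intro hy
    obtain ⟨F, hF, hy⟩ := mem_vs.1 hy
    rcases mem_stackF.1 hF with h1 | ⟨r, hr, rfl⟩ | ⟨r, hr, rfl⟩
    · exact Or.inr (Or.inr (subset_vs h1.1 hy))
    · exact (mem_insert.1 (mem_of_mem_erase hy)).imp_right (fun h => Or.inr (subset_vs hQ h))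
    · exact Or.inr ((mem_insert.1 (mem_of_mem_erase hy)).imp_right
        (fun h' => subset_vs (h.sym Q hQ) h'))
  · rintro (rfl | rfl | hy)
    · obtain ⟨F, hF, h1, -⟩ := pair_stack hd T (h.card Q hQ) y (mem_insert_self _ _)
        (mem_insert_self _ _)
      exact subset_vs hF h1
    · obtain ⟨F, hF, h1, -⟩ := pair_stack hd T (h.card _ (h.sym Q hQ)) (-x) (mem_insert_self _ _)
        (mem_insert_self _ _)
      rw [stackF_neg] at hF
      exact subset_vs hF h1
    · obtain ⟨F, hF, hy⟩ := mem_vs.1 hy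
      obtain ⟨F', hF', h1, -⟩ := pair_stack' hd (h.card Q hQ) x hF hy hy
      exact subset_vs hF' h1

omit [Fintype V] in
lemma gr_stackF (hd : 3 ≤ d) {T : Finset (Finset V)} (h : Comb d T) {Q : Finset V} {x : V}
    (hQ : Q ∈ T) (hx : ∀ F ∈ T, x ∉ F ∧ -x ∉ F) :
    gr (stackF T Q x) = gr T ⊔ kq (insert x Q) := by
  have hsg := sg_gr (comb_stack (by omega) h hQ hx).af
  apply le_antisymm
  · rintro a b ⟨F, hF, hab⟩
    rcases mem_stackF.1 hF with h1 | ⟨r, hr, rfl⟩ | ⟨r, hr, rfl⟩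
    · exact Or.inl ⟨F, h1.1, hab⟩
    · exact Or.inr (kq_mono (erase_subset _ _) a b hab)
    · right; rw [← AddS.kq_neg_insert]; exact kq_mono (erase_subset _ _) a b hab
  · apply sup_le
    · rintro a b ⟨F, hF, hab⟩
      refine kq_le_of_clique hsg (fun a ha b hb hab => ?_) a b hab
      obtain ⟨F', hF', h1⟩ := pair_stack' hd (h.card Q hQ) x hF ha hb
      exact clique_gr hF' a h1.1 b h1.2 hab
    · refine kq_le_of_clique hsg (fun a ha b hb hab => ?_)
      obtain ⟨F', hF', h1⟩ := pair_stack hd T (h.card Q hQ) x ha hb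
      exact clique_gr hF' a h1.1 b h1.2 hab

lemma ec_add {G : V → V → Prop} {Q : Finset V} {x : V} (hS : AddS d G Q x) :
    ec (G ⊔ kq (insert x Q)) = ec G + 4 * d := by
  have := (ec_star hS.sg' x Q (fun r hr => hS.nbr.2 hr)).2
  rw [← this, hS.card]
  congr 2
  funext a b
  apply propext
  constructor
  · rintro ⟨h1, h2⟩
    have key : ∀ a b, (G ⊔ kq (insert x Q)) a b → (∀ r ∈ Q, ¬ kq {x, r} a b) → a ≠ x ∧ a ≠ -x := by
      intro a b h1 h2
      constructor <;> rintro rfl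
      · exact h2 b (hS.nbr.1 h1) ⟨hS.sg'.ne h1, Or.inl (by simp)⟩
      · exact h2 (-b) (hS.nbr.1 (hS.sg'.neg_left h1)) ⟨hS.sg'.ne h1, Or.inr (by simp)⟩
    have k1 := key a b h1 h2
    have k2 := key b a (hS.sg'.symm h1) (fun r hr hk => h2 r hr ⟨hk.1.symm, by
      have := hk.2; tauto⟩)
    exact hS.old h1 k1.1 k1.2 k2.1 k2.2
  · intro h1
    refine ⟨Or.inl h1, fun r hr hk => ?_⟩
    have := hS.ne_of_adj h1
    have hxr : x ≠ r := fun e => hS.notin (e ▸ hr)
    rcases (kq_pair_iff hxr).1 hk with h | h | h | h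
    · exact this.1 h.1
    · exact this.2.2.1 h.2
    · exact this.2.1 h.1
    · exact this.2.2.2 h.2

theorem SS.comb (hd : 2 ≤ d) {T : Finset (Finset V)} (h : SS d T) : Comb d T := by
  induction h with
  | base Q _ _ => exact comb_cross Q
  | step T Q x _ hQ hx ih => exact comb_stack hd ih hQ hx

theorem SS.count (hd : 3 ≤ d) {T : Finset (Finset V)} (h : SS d T) :
    ec (gr T) + 4 * d = 2 * d * (vs T).card := by
  induction h with
  | base Q hQ hc => rw [gr_crossF hQ hc, vs_crossF hQ hc, card_pm hQ, hc, ec_oct hQ hc]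
  | step T Q x h hQ hx ih =>
    have hC := h.comb (by omega)
    have h1 : x ∉ vs T := fun h => by
      obtain ⟨F, hF, h⟩ := mem_vs.1 h; exact (hx F hF).1 h
    have h2 : -x ∉ vs T := fun h => by
      obtain ⟨F, hF, h⟩ := mem_vs.1 h; exact (hx F hF).2 h
    rw [gr_stackF hd hC hQ hx, vs_stackF hd hC x hQ, ec_add ⟨sg_gr hC.af, hC.card Q hQ, clique_gr hQ,
      fun y ⟨F, hF, h⟩ => h.2.elim (fun h => (hx F hF).1 h.1) (fun h => (hx F hF).2 h.1),
      (hx Q hQ).1, (hx Q hQ).2⟩, card_insert_of_notMem (by simp [ne_neg', h1, -mem_vs]),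
      card_insert_of_notMem h2, ih]
    ring

end Pool.Agent.MP_d539bc_co
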