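import Pool.Agent.MP_d539bc_co.Split
import Pool.Agent.MP_d539bc_co.CircInd

/-! Unstacking of circuits whose graph is built by simplicial additions. -/

namespace Pool.Agent.MP_d539bc_co

open Finset
open scoped Pointwise symmDiff

variable {V : Type} [Fintype V] [DecidableEq V] [FreeNeg V] {d : ℕ}

omit [Fintype V] in
lemma negneg_finset (Q : Finset V) : - -Q = Q := by ext; simp [Finset.mem_neg']

def bdy (σ : Finset V) : Finset (Finset V) := σ.image (fun r => σ.erase r)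

omit [FreeNeg V] in
lemma cyc_bdy (σ : Finset V) : Cyc (bdy σ) := by
  unfold Cyc
  rw [ind_eq_sum, bdy, sum_image (fun a ha b hb h => erase_injOn σ ha hb h), ← bd_single, bd_bd]

omit [FreeNeg V] in
lemma Cyc.symmDiff {S T : Finset (Finset V)} (hS : Cyc S) (hT : Cyc T) : Cyc (S ∆ T) := by
  have : ind (S ∆ T) = ind S + ind T := by
    funext F
    simp only [ind, mem_symmDiff, Pi.add_apply]
    by_cases h1 : F ∈ S <;> by_cases h2 : F ∈ T <;> simp [h1, h2, zmod2_add_self]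
  unfold Cyc at *
  rw [this, bd_add, hS, hT, add_zero]

omit [Fintype V] [FreeNeg V] in
lemma eq_erase_of_subset {F σ : Finset V} (h : F ⊆ σ) (hc : σ.card = F.card + 1) :
    ∃ r ∈ σ, F = σ.erase r := by
  obtain ⟨r, hr, hr'⟩ : ∃ r ∈ σ, r ∉ F := exists_mem_notMem_of_card_lt_card (by omega)
  refine ⟨r, hr, eq_of_subset_of_card_le (subset_erase.2 ⟨h, hr'⟩) ?_⟩
  rw [card_erase_of_mem hr]; omega

lemma star_faces {Y : Finset (Finset V)} (hY : Good d Y) (hc : Cyc Y) {σ : Finset V} {x : V}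
    (hσ : σ.card = d + 1) (hx : ∀ F ∈ Y, x ∈ F → F ⊆ σ) (hex : ∃ F ∈ Y, x ∈ F) :
    ∀ q ∈ σ, q ≠ x → σ.erase q ∈ Y := by
  obtain ⟨F, hF, hxF⟩ := hex
  obtain ⟨r, hr, rfl⟩ := eq_erase_of_subset (hx F hF hxF) (by rw [hY.card F hF, hσ])
  intro q hq hqx
  by_cases hqr : q = r
  · rwa [hqr]
  obtain ⟨z, hz, hF'⟩ := hc.other hF (mem_erase.2 ⟨hqr, hq⟩)
  have h1 := hx _ hF' (mem_insert_of_mem (mem_erase.2 ⟨hqx.symm, hxF⟩))
  have h2 : z = r := by
    by_contra hne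
    exact hz (mem_erase.2 ⟨hne, h1 (mem_insert_self _ _)⟩)
  rwa [h2, erase_right_comm, insert_erase (mem_erase.2 ⟨Ne.symm hqr, hr⟩)] at hF'

lemma unstack1 {Y : Finset (Finset V)} (hY : Circ d Y) {Q : Finset V} {x : V} (hQ : AF Q)
    (hc : Q.card = d) (hxQ : x ∉ Q) (hx : ∀ F ∈ Y, x ∈ F → F ⊆ insert x Q) :
    (∀ F ∈ Y, F ⊆ insert x Q) ∨ ∃ Y1, Circ d Y1 ∧ (∀ F ∈ Y1, x ∉ F) ∧ (∀ F ∈ Y1, F ∈ Y ∨ F = Q) ∧
      (∀ F ∈ Y, x ∉ F → F ∈ Y1) ∧ ((∃ F ∈ Y, x ∈ F) → Q ∈ Y1 ∧ Q ∉ Y) := by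
  by_cases hex : ∃ F ∈ Y, x ∈ F
  swap
  · refine Or.inr ⟨Y, hY, fun F hF h => hex ⟨F, hF, h⟩, fun F hF => Or.inl hF, fun F hF _ => hF,
      fun h => absurd h hex⟩
  have hσ : (insert x Q).card = d + 1 := by rw [card_insert_of_notMem hxQ, hc]
  have hst := star_faces hY.toGood hY.cyc hσ hx hex
  have hb : ∀ F, F ∈ bdy (insert x Q) ↔ F = Q ∨ (F ∈ Y ∧ x ∈ F) := by
    intro F
    simp only [bdy, mem_image]
    constructor
    · rintro ⟨r, hr, rfl⟩
      by_cases hrx : r = x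
      · left; rw [hrx, erase_insert hxQ]
      · exact Or.inr ⟨hst r hr hrx, mem_erase.2 ⟨Ne.symm hrx, mem_insert_self _ _⟩⟩
    · rintro (rfl | ⟨h1, h2⟩)
      · exact ⟨x, mem_insert_self _ _, erase_insert hxQ⟩
      · obtain ⟨r, hr, h3⟩ := eq_erase_of_subset (hx F h1 h2) (by rw [hY.card F h1, hσ])
        exact ⟨r, hr, h3.symm⟩
  by_cases hQY : Q ∈ Y
  · left
    have : bdy (insert x Q) = Y := by
      apply hY.min _ _ ⟨Q, (hb Q).2 (Or.inl rfl)⟩ (cyc_bdy _)
      intro F hF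
      rcases (hb F).1 hF with rfl | h
      · exact hQY
      · exact h.1
    intro F hF
    rw [← this] at hF
    obtain ⟨r, -, rfl⟩ := mem_image.1 hF
    exact erase_subset _ _
  right
  have hm : ∀ F, F ∈ Y ∆ bdy (insert x Q) ↔ F = Q ∨ (F ∈ Y ∧ x ∉ F) := by
    intro F
    rw [mem_symmDiff, hb]
    by_cases h1 : F = Q
    · subst h1; simp [hQY]
    · tauto
  refine ⟨Y ∆ bdy (insert x Q), ⟨⟨?_, ?_⟩, ⟨Q, (hm Q).2 (Or.inl rfl)⟩,
    hY.cyc.symmDiff (cyc_bdy _), ?_⟩, ?_, ?_, ?_, fun _ => ⟨(hm Q).2 (Or.inl rfl), hQY⟩⟩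
  · intro F hF
    rcases (hm F).1 hF with rfl | h
    · exact hc
    · exact hY.card F h.1
  · intro F hF
    rcases (hm F).1 hF with rfl | h
    · exact hQ
    · exact hY.af F h.1
  · intro Z hZ hne hcZ
    obtain ⟨F0, hF0, hxF0⟩ := hex
    have hF0Z : F0 ∉ Z := fun h => by
      rcases (hm F0).1 (hZ h) with rfl | h
      · exact hQY hF0
      · exact h.2 hxF0
    by_cases hQZ : Q ∈ Z
    · have : Z ∆ bdy (insert x Q) = Y := by
        apply hY.min _ _ ⟨F0, mem_symmDiff.2 (Or.inr ⟨(hb _).2 (Or.inr ⟨hF0, hxF0⟩), hF0Z⟩)⟩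
          (hcZ.symmDiff (cyc_bdy _))
        intro F hF
        rcases mem_symmDiff.1 hF with h | h
        · rcases (hm F).1 (hZ h.1) with rfl | h'
          · exact absurd ((hb _).2 (Or.inl rfl)) h.2
          · exact h'.1
        · rcases (hb F).1 h.1 with rfl | h'
          · exact absurd hQZ h.2
          · exact h'.1
      rw [← this, symmDiff_symmDiff_cancel_right]
    · exfalso
      have : Z = Y := by
        apply hY.min _ _ hne hcZ
        intro F hF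
        rcases (hm F).1 (hZ hF) with rfl | h'
        · exact absurd hF hQZ
        · exact h'.1
      exact hF0Z (this ▸ hF0)
  · intro F hF
    rcases (hm F).1 hF with rfl | h
    · exact hxQ
    · exact h.2
  · intro F hF
    rcases (hm F).1 hF with rfl | h
    · exact Or.inr rfl
    · exact Or.inl h.1
  · intro F hF hxF
    exact (hm F).2 (Or.inr ⟨hF, hxF⟩)

omit [Fintype V] in
lemma AddS.face_sub {G : V → V → Prop} {Q : Finset V} {x : V} (hS : AddS d G Q x)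
    {Y : Finset (Finset V)} (e : gr Y = G ⊔ kq (insert x Q)) :
    ∀ F ∈ Y, x ∈ F → F ⊆ insert x Q := by
  intro F hF hx y hy
  by_cases h : x = y
  · rw [h]; exact mem_insert_self _ _
  · exact mem_insert_of_mem (hS.nbr.1 (e ▸ clique_gr hF x hx y hy h))

lemma unstack2 (hd : 1 ≤ d) {G : V → V → Prop} {Q : Finset V} {x : V} (hS : AddS d G Q x)
    {Y : Finset (Finset V)} (hY : Circ d Y) (e : gr Y = G ⊔ kq (insert x Q)) :
    (∀ F ∈ Y, F ⊆ insert x Q) ∨ (∀ F ∈ Y, F ⊆ insert (-x) (-Q)) ∨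
      ∃ Y2, Circ d Y2 ∧ gr Y2 = G ∧ (∀ F ∈ Y2, F ∈ Y ∨ F = Q ∨ F = -Q) ∧
        (∀ F ∈ Y2, x ∉ F ∧ -x ∉ F) ∧ (∀ F ∈ Y, x ∉ F → -x ∉ F → F ∈ Y2) ∧
        ((∃ F ∈ Y, x ∈ F) → Q ∈ Y2 ∧ Q ∉ Y) ∧ ((∃ F ∈ Y, -x ∈ F) → -Q ∈ Y2 ∧ -Q ∉ Y) := by
  have hQ := hS.clique.af hS.sg
  have f1 := hS.face_sub e
  have f2 := hS.neg.face_sub (e.trans (by rw [AddS.kq_neg_insert]))
  rcases unstack1 hY hQ hS.card hS.notin f1 with h | ⟨Y1, hY1, a1, a2, a3, a4⟩
  · exact Or.inl h
  right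
  have f3 : ∀ F ∈ Y1, -x ∈ F → F ⊆ insert (-x) (-Q) := by
    intro F hF hx
    rcases a2 F hF with h | rfl
    · exact f2 F h hx
    · exact absurd hx hS.negnotin
  obtain ⟨q0, hq0⟩ : Q.Nonempty := card_pos.1 (by rw [hS.card]; omega)
  have hQn : ¬ Q ⊆ insert (-x) (-Q) := by
    intro h
    rcases mem_insert.1 (h hq0) with h' | h'
    · exact hS.negnotin (h' ▸ hq0)
    · exact hQ q0 hq0 (Finset.mem_neg'.1 h')
  rcases unstack1 hY1 hQ.neg hS.neg.card hS.neg.notin f3 with h | ⟨Y2, hY2, b1, b2, b3, b4⟩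
  · left
    intro F hF
    apply h F (a3 F hF _)
    intro hx
    exact hQn (h Q (a4 ⟨F, hF, hx⟩).1)
  right
  have c1 : ∀ F ∈ Y2, F ∈ Y ∨ F = Q ∨ F = -Q := by
    intro F hF
    rcases b2 F hF with h | h
    · exact (a2 F h).imp_right Or.inl
    · exact Or.inr (Or.inr h)
  have c2 : ∀ F ∈ Y2, x ∉ F ∧ -x ∉ F := by
    intro F hF
    refine ⟨?_, b1 F hF⟩
    rcases b2 F hF with h | rfl
    · exact a1 F h
    · simpa [Finset.mem_neg'] using hS.negnotin
  have c3 : ∀ F ∈ Y, x ∉ F → -x ∉ F → F ∈ Y2 := fun F hF h1 h2 => b3 F (a3 F hF h1) h2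
  have c4 : (∃ F ∈ Y, x ∈ F) → Q ∈ Y2 ∧ Q ∉ Y := fun h =>
    ⟨b3 Q (a4 h).1 hS.negnotin, (a4 h).2⟩
  have c5 : (∃ F ∈ Y, -x ∈ F) → -Q ∈ Y2 ∧ -Q ∉ Y := by
    rintro ⟨F, hF, hx⟩
    have := b4 ⟨F, a3 F hF (fun h => hY.af F hF x h hx), hx⟩
    exact ⟨this.1, fun h => this.2 (a3 _ h (by simpa [Finset.mem_neg'] using hS.negnotin))⟩
  refine ⟨Y2, hY2, ?_, c1, c2, c3, c4, c5⟩
  apply le_antisymm
  · rintro a b ⟨F, hF, hab⟩
    refine kq_le_of_clique hS.sg ?_ a b hab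
    rcases c1 F hF with h | rfl | rfl
    · intro a ha b hb hab
      exact hS.old (e ▸ clique_gr h a ha b hb hab) (fun e => (c2 F hF).1 (e ▸ ha))
        (fun e => (c2 F hF).2 (e ▸ ha)) (fun e => (c2 F hF).1 (e ▸ hb))
        (fun e => (c2 F hF).2 (e ▸ hb))
    · exact hS.clique
    · exact hS.neg.clique
  · have key : ∀ a b, G a b → ∀ F ∈ Y, a ∈ F → b ∈ F → gr Y2 a b := by
      intro a b hab F hF ha hb
      have hne := hS.ne_of_adj hab
      by_cases h1 : x ∈ F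
      · exact clique_gr (c4 ⟨F, hF, h1⟩).1 a ((mem_insert.1 (f1 F hF h1 ha)).resolve_left hne.1)
          b ((mem_insert.1 (f1 F hF h1 hb)).resolve_left hne.2.2.1) (hS.sg.ne hab)
      by_cases h2 : -x ∈ F
      · exact clique_gr (c5 ⟨F, hF, h2⟩).1 a ((mem_insert.1 (f2 F hF h2 ha)).resolve_left hne.2.1)
          b ((mem_insert.1 (f2 F hF h2 hb)).resolve_left hne.2.2.2) (hS.sg.ne hab)
      exact clique_gr (c3 F hF h1 h2) a ha b hb (hS.sg.ne hab)
    intro a b hab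
    obtain ⟨F, hF, -, h | h⟩ := (e ▸ Or.inl hab : gr Y a b)
    · exact key a b hab F hF h.1 h.2
    · exact (sg_gr hY2.af).neg' (key _ _ (hS.sg.neg hab) F hF h.1 h.2)

omit [Fintype V] in
lemma transversal {S Q : Finset V} (hS : AF S) (hc : S.card = Q.card)
    (h : ∀ x ∈ S, x ∈ Q ∨ -x ∈ Q) {y : V} (hy : y ∈ Q ∨ -y ∈ Q) : y ∈ S ∨ -y ∈ S := by
  by_contra hcon
  push Not at hcon
  have := card_le_of_pm (hS.insert hcon.2) (Q := Q) (by
    intro x hx
    rcases mem_insert.1 hx with rfl | hx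
    · exact hy
    · exact h x hx)
  rw [card_insert_of_notMem hcon.1] at this
  omega

lemma cross_sub {Y : Finset (Finset V)} (hY : Circ d Y) {Q : Finset V} (hc : Q.card = d)
    (h : ∀ F ∈ Y, ∀ x ∈ F, x ∈ Q ∨ -x ∈ Q) (S : Finset V) :
    AF S → (∀ x ∈ S, x ∈ Q ∨ -x ∈ Q) → ∃ F ∈ Y, S ⊆ F := by
  induction S using Finset.induction_on with
  | empty => intro _ _; obtain ⟨F, hF⟩ := hY.nonempty; exact ⟨F, hF, empty_subset _⟩
  | insert a S _ ih =>
    intro hS hSQ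
    obtain ⟨F, hF, hs⟩ := ih (hS.mono (subset_insert _ _)) (fun x hx => hSQ x (mem_insert_of_mem hx))
    have tr := fun y hy => transversal (hY.af F hF) ((hY.card F hF).trans hc.symm) (h F hF) (y := y) hy
    rcases tr a (hSQ a (mem_insert_self _ _)) with ha | ha
    · exact ⟨F, hF, insert_subset ha hs⟩
    obtain ⟨z, hz, hF'⟩ := hY.cyc.other hF ha
    have hz' := (tr z (h _ hF' z (mem_insert_self _ _))).resolve_left hz
    have hza : z = a := by
      by_contra hne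
      exact hY.af _ hF' z (mem_insert_self _ _)
        (mem_insert_of_mem (mem_erase.2 ⟨by simpa using hne, hz'⟩))
    subst hza
    refine ⟨_, hF', insert_subset_insert _ (subset_erase.2 ⟨hs, fun h => ?_⟩)⟩
    exact hS z (mem_insert_self _ _) (mem_insert_of_mem h)

omit [Fintype V] [DecidableEq V] in
lemma face_pm_of_oct (hd : 2 ≤ d) {Y : Finset (Finset V)} (hY : Good d Y) {Q : Finset V}
    (e : gr Y ≤ oct Q) : ∀ F ∈ Y, ∀ x ∈ F, x ∈ Q ∨ -x ∈ Q := by
  intro F hF x hx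
  obtain ⟨y, hy, hyx⟩ := exists_mem_ne (s := F) (by rw [hY.card F hF]; omega) x
  exact (e _ _ (clique_gr hF x hx y hy hyx.symm)).2.2.1

omit [Fintype V] in
lemma clique_kq_sub {Q D : Finset V} (hQ : AF Q) (h : Clique (kq Q) D) (hD : 2 ≤ D.card) :
    D ⊆ Q ∨ D ⊆ -Q := by
  obtain ⟨x, hx⟩ : D.Nonempty := card_pos.1 (by omega)
  obtain ⟨y, hy, hyx⟩ := exists_mem_ne (s := D) (by omega) x
  rcases (h x hx y hy hyx.symm).2 with h1 | h1
  · left
    intro z hz
    by_cases hzx : x = z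
    · exact hzx ▸ h1.1
    · rcases (h x hx z hz hzx).2 with h2 | h2
      · exact h2.2
      · exact absurd h2.1 (hQ x h1.1)
  · right
    intro z hz
    rw [Finset.mem_neg']
    by_cases hzx : x = z
    · exact hzx ▸ h1.1
    · rcases (h x hx z hz hzx).2 with h2 | h2
      · exact absurd h1.1 (hQ x h2.1)
      · exact h2.2

omit [Fintype V] in
lemma clique_kq_eq {Q D : Finset V} (hQ : AF Q) (h : Clique (kq Q) D) (hD : 2 ≤ D.card)
    (hc : Q.card = D.card) : D = Q ∨ D = -Q :=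
  (clique_kq_sub hQ h hD).imp (fun h => eq_of_subset_of_card_le h hc.le)
    (fun h => eq_of_subset_of_card_le h (by rw [card_neg, hc]))

lemma not_gr_eq_kq (hd : 2 ≤ d) {Y : Finset (Finset V)} (hY : Circ d Y) {Q : Finset V} (hQ : AF Q)
    (hc : Q.card = d) (e : gr Y = kq Q) : False := by
  have key : ∀ F ∈ Y, F = Q ∨ F = -Q := fun F hF =>
    clique_kq_eq hQ (e ▸ clique_gr hF) (by rw [hY.card F hF]; exact hd) (by rw [hY.card F hF, hc])
  obtain ⟨F, hF⟩ := hY.nonempty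
  obtain ⟨x, hx⟩ : F.Nonempty := card_pos.1 (by rw [hY.card F hF]; omega)
  obtain ⟨y, hy, hyx⟩ := exists_mem_ne (s := F) (by rw [hY.card F hF]; omega) x
  obtain ⟨z, hz, hF'⟩ := hY.cyc.other hF hy
  have hx' : x ∈ insert z (F.erase y) := mem_insert_of_mem (mem_erase.2 ⟨hyx.symm, hx⟩)
  have hz' : z ∈ insert z (F.erase y) := mem_insert_self _ _
  rcases key F hF with h1 | h1 <;> rcases key _ hF' with h2 | h2 <;> rw [h2] at hx' hz' <;>
    rw [h1] at hx hz
  · exact hz hz'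
  · exact hQ x hx (Finset.mem_neg'.1 hx')
  · exact hQ x hx' (Finset.mem_neg'.1 hx)
  · exact hz hz'

/-- every triangle of the graph lies in a face up to sign -/
theorem Built.tri (hd : 4 ≤ d) {f : Bool} {G : V → V → Prop} (hb : Built d f G) :
    ∀ Y, Circ d Y → gr Y = G → ∀ a b c, G a b → G a c → G b c →
      ∃ F ∈ Y, (a ∈ F ∧ b ∈ F ∧ c ∈ F) ∨ (-a ∈ F ∧ -b ∈ F ∧ -c ∈ F) := by
  induction hb with
  | baseA Q hQ hc =>
    intro Y hY e
    exact (not_gr_eq_kq (by omega) hY hQ hc e).elim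
  | baseB Q hQ hc =>
    intro Y hY e a b c hab hac hbc
    have hcl : Clique (oct Q) {a, b, c} := by
      have hs := sg_oct Q
      intro x hx y hy hxy
      simp only [mem_insert, mem_singleton] at hx hy
      rcases hx with rfl | rfl | rfl <;> rcases hy with rfl | rfl | rfl <;>
        first | exact absurd rfl hxy | assumption | exact hs.symm (by assumption)
    obtain ⟨F, hF, hs⟩ := cross_sub hY hc (face_pm_of_oct (by omega) hY.toGood e.le) {a, b, c}
      (hcl.af (sg_oct Q)) (by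
        intro x hx
        simp only [mem_insert, mem_singleton] at hx
        rcases hx with rfl | rfl | rfl
        · exact hab.2.2.1
        · exact hab.2.2.2
        · exact hac.2.2.2)
    exact ⟨F, hF, Or.inl ⟨hs (by simp), hs (by simp), hs (by simp)⟩⟩
  | add f G Q x _ hS ih =>
    intro Y hY e
    have hsg := hS.sg'
    have f1 := hS.face_sub e
    have f2 := hS.neg.face_sub (e.trans (by rw [AddS.kq_neg_insert]))
    have hσ : (insert x Q).card = d + 1 := by rw [card_insert_of_notMem hS.notin, hS.card]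
    have hσ' : (insert (-x) (-Q)).card = d + 1 := by
      rw [card_insert_of_notMem hS.neg.notin, hS.neg.card]
    have H : ∀ a ∈ insert x Q, ∀ b ∈ insert x Q, ∀ c ∈ insert x Q,
        ∃ F ∈ Y, (a ∈ F ∧ b ∈ F ∧ c ∈ F) ∨ (-a ∈ F ∧ -b ∈ F ∧ -c ∈ F) := by
      intro a ha b hb c hc
      obtain ⟨q, hq, hq'⟩ : ∃ q ∈ Q, q ∉ ({a, b, c} : Finset V) := by
        apply exists_mem_notMem_of_card_lt_card
        have : ({a, b, c} : Finset V).card ≤ 3 := card_le_three
        rw [hS.card]; omega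
      simp only [mem_insert, mem_singleton, not_or] at hq'
      have hqx : q ≠ x := fun e => hS.notin (e ▸ hq)
      obtain ⟨F, hF, -, h | h⟩ := (e ▸ hS.nbr.2 hq : gr Y x q)
      · refine ⟨_, star_faces hY.toGood hY.cyc hσ f1 ⟨F, hF, h.1⟩ q (mem_insert_of_mem hq) hqx,
          Or.inl ⟨mem_erase.2 ⟨Ne.symm hq'.1, ha⟩, mem_erase.2 ⟨Ne.symm hq'.2.1, hb⟩,
            mem_erase.2 ⟨Ne.symm hq'.2.2, hc⟩⟩⟩
      · have hm : ∀ y ∈ insert x Q, q ≠ y → -y ∈ (insert (-x) (-Q)).erase (-q) := by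
          intro y hy hqy
          simpa [Finset.mem_neg', hqy.symm] using hy
        refine ⟨_, star_faces hY.toGood hY.cyc hσ' f2 ⟨F, hF, h.1⟩ (-q)
          (by simp [Finset.mem_neg', hq]) (by simpa using hqx),
          Or.inr ⟨hm a ha hq'.1, hm b hb hq'.2.1, hm c hc hq'.2.2⟩⟩
    have H' : ∀ a b c, -a ∈ insert x Q → -b ∈ insert x Q → -c ∈ insert x Q →
        ∃ F ∈ Y, (a ∈ F ∧ b ∈ F ∧ c ∈ F) ∨ (-a ∈ F ∧ -b ∈ F ∧ -c ∈ F) := by
      intro a b c ha hb hc
      obtain ⟨F, hF, h⟩ := H _ ha _ hb _ hc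
      simp only [neg_neg] at h
      exact ⟨F, hF, h.symm⟩
    have H2 : ∀ a b c, kq (insert x Q) a b → kq (insert x Q) a c →
        ∃ F ∈ Y, (a ∈ F ∧ b ∈ F ∧ c ∈ F) ∨ (-a ∈ F ∧ -b ∈ F ∧ -c ∈ F) := by
      rintro a b c ⟨-, h1 | h1⟩ ⟨-, h2 | h2⟩
      · exact H a h1.1 b h1.2 c h2.2
      · exact absurd h2.1 (hS.af a h1.1)
      · exact absurd h1.1 (hS.af a h2.1)
      · exact H' a b c h1.1 h1.2 h2.2
    have hx : ∀ a y, (a = x ∨ a = -x) → (G ⊔ kq (insert x Q)) a y → kq (insert x Q) a y := by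
      rintro a y ha (h | h)
      · have := hS.ne_of_adj h; tauto
      · exact h
    intro a b c hab hac hbc
    by_cases ha : a = x ∨ a = -x
    · exact H2 a b c (hx a b ha hab) (hx a c ha hac)
    by_cases hb : b = x ∨ b = -x
    · obtain ⟨F, hF, h⟩ := H2 b a c (hx b a hb (hsg.symm hab)) (hx b c hb hbc)
      exact ⟨F, hF, by tauto⟩
    by_cases hc : c = x ∨ c = -x
    · obtain ⟨F, hF, h⟩ := H2 c a b (hx c a hc (hsg.symm hac)) (hx c b hc (hsg.symm hbc))
      exact ⟨F, hF, by tauto⟩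
    push Not at ha hb hc
    rcases unstack2 (by omega) hS hY e with h | h | ⟨Y2, hY2, e2, c1, -⟩
    · have : gr Y ≤ kq (insert x Q) := fun a b ⟨F, hF, h'⟩ => kq_mono (h F hF) a b h'
      exact H2 a b c (this _ _ (e ▸ hab)) (this _ _ (e ▸ hac))
    · have : gr Y ≤ kq (insert x Q) := fun a b ⟨F, hF, h'⟩ => by
        rw [← AddS.kq_neg_insert]; exact kq_mono (h F hF) a b h'
      exact H2 a b c (this _ _ (e ▸ hab)) (this _ _ (e ▸ hac))
    obtain ⟨F, hF, h⟩ := ih Y2 hY2 e2 a b c (hS.old hab ha.1 ha.2 hb.1 hb.2)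
      (hS.old hac ha.1 ha.2 hc.1 hc.2) (hS.old hbc hb.1 hb.2 hc.1 hc.2)
    rcases c1 F hF with h' | rfl | rfl
    · exact ⟨F, h', h⟩
    · rcases h with h | h
      · exact H a (mem_insert_of_mem h.1) b (mem_insert_of_mem h.2.1) c (mem_insert_of_mem h.2.2)
      · exact H' a b c (mem_insert_of_mem h.1) (mem_insert_of_mem h.2.1) (mem_insert_of_mem h.2.2)
    · simp only [Finset.mem_neg', neg_neg] at h
      rcases h with h | h
      · exact H' a b c (mem_insert_of_mem h.1) (mem_insert_of_mem h.2.1) (mem_insert_of_mem h.2.2)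
      · exact H a (mem_insert_of_mem h.1) b (mem_insert_of_mem h.2.1) c (mem_insert_of_mem h.2.2)

open Classical in
/-- facets of the cross polytope on the classes of `Q` -/
noncomputable def crossF (d : ℕ) (Q : Finset V) : Finset (Finset V) :=
  univ.filter (fun F => F.card = d ∧ AF F ∧ ∀ x ∈ F, x ∈ Q ∨ -x ∈ Q)

def stackF (T : Finset (Finset V)) (Q : Finset V) (x : V) : Finset (Finset V) :=
  ((T.erase Q).erase (-Q) ∪ Q.image (fun q => (insert x Q).erase q)) ∪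
    (-Q).image (fun q => (insert (-x) (-Q)).erase q)

inductive SS (d : ℕ) : Finset (Finset V) → Prop
  | base (Q : Finset V) : AF Q → Q.card = d → SS d (crossF d Q)
  | step (T : Finset (Finset V)) (Q : Finset V) (x : V) : SS d T → Q ∈ T →
      (∀ F ∈ T, x ∉ F ∧ -x ∉ F) → SS d (stackF T Q x)

theorem Built.ss (hd : 2 ≤ d) {f : Bool} {G : V → V → Prop} (hb : Built d f G) :
    ∀ T, Circ d T → (∀ F ∈ T, -F ∈ T) → gr T = G → SS d T := by
  induction hb with
  | baseA Q hQ hc =>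
    intro Y hY _ e
    exact (not_gr_eq_kq hd hY hQ hc e).elim
  | baseB Q hQ hc =>
    intro Y hY _ e
    have h1 := face_pm_of_oct hd hY.toGood e.le
    have : Y = crossF d Q := by
      ext F
      simp only [crossF, mem_filter, mem_univ, true_and]
      refine ⟨fun hF => ⟨hY.card F hF, hY.af F hF, h1 F hF⟩, fun h => ?_⟩
      obtain ⟨F', hF', hs⟩ := cross_sub hY hc h1 F h.2.1 h.2.2
      rwa [eq_of_subset_of_card_le hs (by rw [hY.card F' hF', h.1])]
    rw [this]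
    exact SS.base Q hQ hc
  | add f G Q x _ hS ih =>
    intro Y hY hsym e
    have f1 := hS.face_sub e
    have f2 := hS.neg.face_sub (e.trans (by rw [AddS.kq_neg_insert]))
    have hσ : (insert x Q).card = d + 1 := by rw [card_insert_of_notMem hS.notin, hS.card]
    have hσ' : (insert (-x) (-Q)).card = d + 1 := by
      rw [card_insert_of_notMem hS.neg.notin, hS.neg.card]
    have hns : ∀ σ : Finset V, AF σ → ¬ ∀ F ∈ Y, F ⊆ σ := by
      intro σ hσ h
      obtain ⟨F, hF⟩ := hY.nonempty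
      obtain ⟨y, hy⟩ : F.Nonempty := card_pos.1 (by rw [hY.card F hF]; omega)
      exact hσ y (h F hF hy) (h _ (hsym F hF) (by simpa [Finset.mem_neg'] using hy))
    rcases unstack2 (by omega) hS hY e with h | h | ⟨Y2, hY2, e2, c1, c2, c3, c4, c5⟩
    · exact absurd h (hns _ hS.af)
    · exact absurd h (hns _ hS.neg.af)
    obtain ⟨q0, hq0⟩ : Q.Nonempty := card_pos.1 (by rw [hS.card]; omega)
    have hex : ∃ F ∈ Y, x ∈ F := by
      obtain ⟨F, hF, -, h | h⟩ := (e ▸ hS.nbr.2 hq0 : gr Y x q0)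
      · exact ⟨F, hF, h.1⟩
      · exact ⟨-F, hsym F hF, Finset.mem_neg'.2 h.1⟩
    have hex' : ∃ F ∈ Y, -x ∈ F := by
      obtain ⟨F, hF, h⟩ := hex
      exact ⟨-F, hsym F hF, by simpa [Finset.mem_neg'] using h⟩
    have s1 := star_faces hY.toGood hY.cyc hσ f1 hex
    have s2 := star_faces hY.toGood hY.cyc hσ' f2 hex'
    have hsym2 : ∀ F ∈ Y2, -F ∈ Y2 := by
      intro F hF
      rcases c1 F hF with h | rfl | rfl
      · exact c3 _ (hsym F h) (by simpa [Finset.mem_neg'] using (c2 F hF).2)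
          (by simpa [Finset.mem_neg'] using (c2 F hF).1)
      · exact (c5 hex').1
      · rw [negneg_finset]; exact (c4 hex).1
    have : Y = stackF Y2 Q x := by
      ext F
      simp only [stackF, mem_union, mem_erase, mem_image]
      constructor
      · intro hF
        by_cases h1 : x ∈ F
        · obtain ⟨r, hr, rfl⟩ := eq_erase_of_subset (f1 F hF h1) (by rw [hY.card F hF, hσ])
          exact Or.inl (Or.inr ⟨r, (mem_insert.1 hr).resolve_left (ne_of_mem_erase h1).symm, rfl⟩)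
        by_cases h2 : -x ∈ F
        · obtain ⟨r, hr, rfl⟩ := eq_erase_of_subset (f2 F hF h2) (by rw [hY.card F hF, hσ'])
          exact Or.inr ⟨r, (mem_insert.1 hr).resolve_left (ne_of_mem_erase h2).symm, rfl⟩
        exact Or.inl (Or.inl ⟨fun h => (c5 hex').2 (h ▸ hF), fun h => (c4 hex).2 (h ▸ hF),
          c3 F hF h1 h2⟩)
      · rintro ((⟨h1, h2, h3⟩ | ⟨r, hr, rfl⟩) | ⟨r, hr, rfl⟩)
        · rcases c1 F h3 with h | h | h
          · exact h
          · exact absurd h h2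
          · exact absurd h h1
        · exact s1 r (mem_insert_of_mem hr) (fun e => hS.notin (e ▸ hr))
        · exact s2 r (mem_insert_of_mem hr) (fun e => hS.neg.notin (e ▸ hr))
    rw [this]
    exact SS.step Y2 Q x (ih Y2 hY2 hsym2 e2) (c4 hex).1 c2

end Pool.Agent.MP_d539bc_co
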